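import Pool.Agent.Helper59.GT.Phase
import Pool.Agent.Helper59.GT.Periodize

/-!
# Project GM (MP_af5028_an): C^1-generic transitivity of geodesic flows on every closed manifold of dimension at least three. Definitions

`M` is a compact connected submanifold of dimension `n` of `ℝ ^ N = E N`, contained in the ball of radius `1 / 2`, and `r` is a smooth map `ℝ ^ N → ℝ ^ N` which maps a neighbourhood of `M` to `M` and is
the identity on `M`. `P x = fderiv ℝ r x`; for `x ∈ M` it is a projection onto the tangent space `T_x M`. All metrics are `ℤ ^ N`-periodic metrics `g` on the ambient space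
`ℝ ^ N` (so the whole project GT can be used for them) of a special form near `M` (`Hat`): `M` is totally geodesic for them, and the geodesics contained in `M` are the geodesics of the
induced metric of `M`.

* `Sub n M U r χ`: the data. `U` is an open neighbourhood of `M`, `χ` a cutoff function: `χ = 1` on `U`, and `r x ∈ M`, `‖x‖ < 1 / 2` where `χ x ≠ 0`.
* `Tan r x v`: `v` is a tangent vector of `M` at `x`.
* `Hat m U r g`: `g` is a periodic metric of class `C ^ m` on `ℝ ^ N` and on `U`: `g x (u, w) = g (r x) (P x u, P x w) + a x ⟪u - P x u, w - P x w⟫`.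
* `MGeo M g c`: `c` is a unit speed geodesic of `g`, contained in `M`.
* `EpsM M r g c ε S`: the tangent vectors of `c` at the times in `S` are `ε`-dense in the unit tangent bundle of `M`.
* `ext r χ f`: the periodic function on `ℝ ^ N` with `ext r χ f = f ∘ r` on `U`.
* `adj T p`: the adjoint of `T` applied to `p`; `TT M r`: the set of the `(x, p)` in phase space with `x ∈ M`, `adj (P x) p = p` (the cotangent bundle of `M`).
* `Chart M J ψ O V`: `ψ` is a parametrisation of `M ∩ V` by `O ⊆ ℝ ^ n` whose inverse is the linear map `J`.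
* `iota r J ψ : ℝ ^ n × ℝ ^ n → ℝ ^ N × ℝ ^ N` and `kappa J ψ` in the other direction: the corresponding parametrisation of the cotangent bundle and its inverse.
* `om`: the symplectic form.
-/

set_option autoImplicit false
set_option maxSynthPendingDepth 3

open scoped ContDiff InnerProductSpace
open Pool.Agent.Helper59.GT

namespace Pool.Agent.Helper59.GM

/-- The data: a compact connected submanifold with a retraction and a cutoff function. -/
structure Sub {N : ℕ} (n : ℕ) (M U : Set (E N)) (r : E N → E N) (χ : E N → ℝ) : Prop where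
  compact : IsCompact M
  conn : IsPreconnected M
  ne : M.Nonempty
  isOpen : IsOpen U
  sub : M ⊆ U
  smooth : ContDiff ℝ ∞ r
  fixed : ∀ x ∈ M, r x = x
  rank : ∀ x ∈ M, Module.finrank ℝ (LinearMap.range (fderiv ℝ r x : E N →ₗ[ℝ] E N)) = n
  chi_smooth : ContDiff ℝ ∞ χ
  chi_supp : HasCompactSupport χ
  chi_one : ∀ x ∈ U, χ x = 1
  chi_mem : ∀ x, χ x ≠ 0 → r x ∈ M ∧ ‖x‖ < 1 / 2
  chi_nonneg : ∀ x, 0 ≤ χ x ∧ χ x ≤ 1

/-- `v` is tangent to `M` at `x`. -/
def Tan {N : ℕ} (r : E N → E N) (x v : E N) : Prop := fderiv ℝ r x v = v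

/-- Periodic metrics for which `M` is totally geodesic. -/
structure Hat {N : ℕ} (m : WithTop ℕ∞) (U : Set (E N)) (r : E N → E N) (g : E N → Bil N) : Prop where
  metric : IsMetric m g
  eq : ∃ a : E N → ℝ, Differentiable ℝ a ∧ ∀ x ∈ U, ∀ u w, g x u w =
    g (r x) (fderiv ℝ r x u) (fderiv ℝ r x w) + a x * ⟪u - fderiv ℝ r x u, w - fderiv ℝ r x w⟫_ℝ

/-- Unit speed geodesics contained in `M`. -/
structure MGeo {N : ℕ} (M : Set (E N)) (g : E N → Bil N) (c : ℝ → E N) : Prop where
  geo : IsGeodesic g c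
  unit : UnitSpeed g c
  mem : ∀ t, c t ∈ M

/-- The tangent vectors of `c` at the times in `S` are `ε`-dense in the unit tangent bundle of `M`. -/
def EpsM {N : ℕ} (M : Set (E N)) (r : E N → E N) (g : E N → Bil N) (c : ℝ → E N) (ε : ℝ) (S : Set ℝ) : Prop :=
  ∀ x ∈ M, ∀ v, Tan r x v → g x v v = 1 → ∃ t ∈ S, ‖c t - x‖ < ε ∧ ‖deriv c t - v‖ < ε

/-- Some geodesic in `M` has dense tangent vectors. -/
def TransM {N : ℕ} (M : Set (E N)) (r : E N → E N) (g : E N → Bil N) : Prop :=
  ∃ c, MGeo M g c ∧ ∀ ε, 0 < ε → EpsM M r g c ε Set.univ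

/-- Every unit vector tangent to `M` is the initial vector of exactly one unit speed geodesic in `M`. -/
def UniqueM {N : ℕ} (M : Set (E N)) (r : E N → E N) (g : E N → Bil N) : Prop :=
  ∀ x ∈ M, ∀ v, Tan r x v → g x v v = 1 → ∃! c, MGeo M g c ∧ c 0 = x ∧ deriv c 0 = v

/-- The periodic function which is `f ∘ r` near `M`. -/
noncomputable def ext {N : ℕ} (r : E N → E N) (χ : E N → ℝ) (f : E N → ℝ) : E N → ℝ := pz (fun x => χ x * f (r x))

/-- The adjoint of `T` applied to `p`. -/
noncomputable def adj {m n : ℕ} (T : E m →L[ℝ] E n) (p : E n) : E m :=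
  WithLp.toLp 2 (fun i => ⟪p, T (EuclideanSpace.single i (1 : ℝ))⟫_ℝ)

theorem inner_adj {m n : ℕ} (T : E m →L[ℝ] E n) (p : E n) (w : E m) : ⟪adj T p, w⟫_ℝ = ⟪p, T w⟫_ℝ := by
  have h1 : w = ∑ i, w i • (EuclideanSpace.single i (1 : ℝ) : E m) := by
    ext j
    simp [Pi.single_apply]
  have h2 : T w = ∑ i, w i • T (EuclideanSpace.single i (1 : ℝ) : E m) := by
    conv_lhs => rw [h1]
    simp [map_sum]
  rw [h2, inner_sum]
  rw [PiLp.inner_apply]
  apply Finset.sum_congr rfl
  intro i _
  rw [inner_smul_right]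
  simp [adj]

/-- The cotangent bundle of `M` in phase space. -/
def TT {N : ℕ} (M : Set (E N)) (r : E N → E N) : Set (Ph N) := {z | z.1 ∈ M ∧ adj (fderiv ℝ r z.1) z.2 = z.2}

/-- A parametrisation of `M ∩ V` whose inverse is linear. -/
structure Chart {N n : ℕ} (M : Set (E N)) (J : E N →L[ℝ] E n) (ψ : E n → E N) (O : Set (E n)) (V : Set (E N)) : Prop where
  openO : IsOpen O
  openV : IsOpen V
  smooth : ContDiff ℝ ∞ ψ
  mem : ∀ a ∈ O, ψ a ∈ M ∧ ψ a ∈ V ∧ J (ψ a) = a
  inv : ∀ x ∈ M, x ∈ V → J x ∈ O ∧ ψ (J x) = x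

/-- The parametrisation of the cotangent bundle. -/
noncomputable def iota {N n : ℕ} (r : E N → E N) (J : E N →L[ℝ] E n) (ψ : E n → E N) (ζ : Ph n) : Ph N :=
  (ψ ζ.1, adj (J.comp (fderiv ℝ r (ψ ζ.1))) ζ.2)

/-- The chart of the cotangent bundle. -/
noncomputable def kappa {N n : ℕ} (J : E N →L[ℝ] E n) (ψ : E n → E N) (z : Ph N) : Ph n :=
  (J z.1, adj (fderiv ℝ ψ (J z.1)) z.2)

/-- The symplectic form. -/
noncomputable def om {n : ℕ} (ξ η : Ph n) : ℝ := ⟪ξ.1, η.2⟫_ℝ - ⟪ξ.2, η.1⟫_ℝ

theorem adj_ext {m n : ℕ} {T : E m →L[ℝ] E n} {p : E n} {y : E m} (h : ∀ w, ⟪y, w⟫_ℝ = ⟪p, T w⟫_ℝ) : adj T p = y := by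
  apply ext_inner_right ℝ
  intro w
  rw [inner_adj, h]

theorem adj_add {m n : ℕ} (T : E m →L[ℝ] E n) (p q : E n) : adj T (p + q) = adj T p + adj T q :=
  adj_ext fun w => by rw [inner_add_left, inner_adj, inner_adj, inner_add_left]

theorem adj_smul {m n : ℕ} (T : E m →L[ℝ] E n) (a : ℝ) (p : E n) : adj T (a • p) = a • adj T p :=
  adj_ext fun w => by rw [inner_smul_left, inner_adj, inner_smul_left]

theorem adj_add' {m n : ℕ} (T T' : E m →L[ℝ] E n) (p : E n) : adj (T + T') p = adj T p + adj T' p :=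
  adj_ext fun w => by rw [inner_add_left, inner_adj, inner_adj, add_apply, inner_add_right]

theorem adj_comp {l m n : ℕ} (T : E m →L[ℝ] E n) (T' : E l →L[ℝ] E m) (p : E n) : adj (T.comp T') p = adj T' (adj T p) :=
  adj_ext fun w => by rw [inner_adj, inner_adj]; rfl

theorem adj_id {n : ℕ} (p : E n) : adj (ContinuousLinearMap.id ℝ (E n)) p = p :=
  adj_ext fun w => by simp

theorem contDiff_adj {m n : ℕ} {F : Type} [NormedAddCommGroup F] [NormedSpace ℝ F] {k : WithTop ℕ∞} {T : F → E m →L[ℝ] E n}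
    {p : F → E n} (hT : ContDiff ℝ k T) (hp : ContDiff ℝ k p) : ContDiff ℝ k (fun z => adj (T z) (p z)) := by
  rw [contDiff_euclidean]
  intro i
  exact hp.inner ℝ (hT.clm_apply contDiff_const)

/-- The derivative of a function `H` is the symplectic form with its Hamiltonian field. -/
theorem fderiv_eq_om {n : ℕ} (H : Ph n → ℝ) (z η : Ph n) : fderiv ℝ H z η = om (XH H z) η := by
  have h1 : η = (η.1, (0 : E n)) + ((0 : E n), η.2) := by simp
  conv_lhs => rw [h1, map_add, ← inner_gradx, ← inner_gradp]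
  simp only [om, XH, inner_neg_left]
  ring

theorem XH_unique {n : ℕ} (H : Ph n → ℝ) (z ξ : Ph n) (h : ∀ η, fderiv ℝ H z η = om ξ η) : ξ = XH H z := by
  have h1 : ∀ η, om ξ η = om (XH H z) η := fun η => by rw [← h, fderiv_eq_om]
  apply Prod.ext
  · apply ext_inner_right ℝ
    intro w
    have h2 := h1 (0, w)
    simpa [om] using h2
  · apply ext_inner_right ℝ
    intro w
    have h2 := h1 (w, 0)
    simpa [om] using h2

end Pool.Agent.Helper59.GM
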