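import Pool.Agent.Helper59.GT.GeoHam
import Pool.Agent.Helper59.GT.ELUnif
import Pool.Agent.Helper59.GT.SmoothSol
import Pool.Agent.Helper59.GT.Cometric
import Pool.Agent.Helper59.GT.HamTrace
import Pool.Agent.Helper59.GM.Defs

/-!
# GM-04 Acc: the acceleration of geodesics as a smooth function

Proof. `EL g x v a = g x a + EL g x v 0` (`EL_apply`), and `⟪opA g x a, w⟫ = g x a w` (`inner_opA`), `⟪riesz f, w⟫ = f w` (`inner_riesz`). So `EL g x v a = 0` iff `opA g x a = - riesz (EL g x v 0)` iff `a = - cog g x (riesz (EL g x v 0))` (`cog_left`, `cog_right`).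
`contDiff_acc`: `cog g` is smooth (`contDiff_cog`), and `(x, v) ↦ EL g x v 0` is smooth (`fderiv ℝ g` is smooth; `EL` is built from it by `clm_apply`, `flip`; `ContinuousLinearMap.flip` is a continuous linear map: use `(ContinuousLinearMap.flipₗᵢ ..)`, or prove smoothness of `(x, v) ↦ riesz (EL g x v 0)`
coordinatewise with `contDiff_euclidean` and `EL_apply`).
`contDiff_Hk`: from `contDiff_cog`, inner products. `geodesic_smooth`: `Z t = (c t, opA g (c t) (c' t))` solves `Z' = XH (Hk g) Z` (`ham_of_geod`) and `XH (Hk g)` is smooth (`contDiff_XH`, `contDiff_Hk`), so `Z`, hence `c`, is smooth (`contDiff_of_solution`). `geodesic_acc`: then `EL_of_geodesic` and `acc_unique`.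
-/

set_option autoImplicit false
set_option maxSynthPendingDepth 3

open scoped ContDiff InnerProductSpace
open Pool.Agent.Helper59.GT

namespace Pool.Agent.Helper59.GM

variable {N : ℕ} {g : E N → Bil N}

/-- The acceleration of the geodesic with position `x` and velocity `v`. -/
noncomputable def acc (g : E N → Bil N) (x v : E N) : E N := -(cog g x (riesz (EL g x v 0)))

private theorem acc_EL_split (g : E N → Bil N) (x v a : E N) : EL g x v a = g x a + EL g x v 0 := by
  ext w
  simp only [EL_apply, _root_.add_apply, map_zero, _root_.zero_apply]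
  ring

theorem EL_acc (hg : IsMetric ∞ g) (x v : E N) : EL g x v (acc g x v) = 0 := by
  rw [acc_EL_split]
  ext w
  rw [_root_.add_apply, ← inner_opA, acc, map_neg, cog_right hg, inner_neg_left, inner_riesz,
    _root_.zero_apply, neg_add_cancel]

theorem acc_unique (hg : IsMetric ∞ g) {x v a : E N} (h : EL g x v a = 0) : a = acc g x v := by
  have h1 : opA g x a = -riesz (EL g x v 0) := by
    refine ext_inner_right ℝ fun w => ?_
    have h2 := congrArg (fun L : E N →L[ℝ] ℝ => L w) h
    simp only [acc_EL_split g x v a, _root_.add_apply, _root_.zero_apply] at h2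
    rw [inner_opA, inner_neg_left, inner_riesz]
    linarith
  rw [acc, ← map_neg, ← h1, cog_left hg]

theorem contDiff_acc (hg : IsMetric ∞ g) : ContDiff ℝ ∞ (fun z : E N × E N => acc g z.1 z.2) := by
  have h2 : ContDiff ℝ ∞ (fderiv ℝ g) := hg.smooth.fderiv_right (by simp)
  have g2 : ContDiff ℝ ∞ fun p : E N × E N => fderiv ℝ g p.1 := h2.comp contDiff_fst
  have v1 : ContDiff ℝ ∞ fun p : E N × E N => p.2 := contDiff_snd
  have f1 : ContDiff ℝ ∞ fun p : E N × E N => (fderiv ℝ g p.1).flip :=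
    (ContinuousLinearMap.flipₗᵢ ℝ (E N) (E N) (E N →L[ℝ] ℝ)).contDiff.comp g2
  have f2 : ContDiff ℝ ∞ fun p : E N × E N => (fderiv ℝ g p.1).flip p.2 := f1.clm_apply v1
  have f3 : ContDiff ℝ ∞ fun p : E N × E N => ((fderiv ℝ g p.1).flip p.2).flip :=
    (ContinuousLinearMap.flipₗᵢ ℝ (E N) (E N) ℝ).contDiff.comp f2
  have f4 : ContDiff ℝ ∞ fun p : E N × E N => ((fderiv ℝ g p.1).flip p.2).flip p.2 :=
    f3.clm_apply v1
  have f5 : ContDiff ℝ ∞ fun p : E N × E N =>
      (1 / 2 : ℝ) • ((fderiv ℝ g p.1).flip p.2).flip p.2 := f4.const_smul (1 / 2 : ℝ)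
  have f6 : ContDiff ℝ ∞ fun p : E N × E N => EL g p.1 p.2 0 := by
    have h3 : (fun p : E N × E N => EL g p.1 p.2 0) = fun p : E N × E N =>
        fderiv ℝ g p.1 p.2 p.2 - (1 / 2 : ℝ) • ((fderiv ℝ g p.1).flip p.2).flip p.2 := by
      funext p
      rw [EL, map_zero, zero_add]
    rw [h3]
    exact ((g2.clm_apply v1).clm_apply v1).sub f5
  have f7 : ContDiff ℝ ∞ fun p : E N × E N => riesz (EL g p.1 p.2 0) := (riesz (n := N)).contDiff.comp f6
  have f8 : ContDiff ℝ ∞ fun p : E N × E N => cog g p.1 := (contDiff_cog hg).comp contDiff_fst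
  exact (f8.clm_apply f7).neg

theorem contDiff_Hk (hg : IsMetric ∞ g) : ContDiff ℝ ∞ (Hk g) := by
  have f8 : ContDiff ℝ ∞ fun p : Ph N => cog g p.1 := (contDiff_cog hg).comp contDiff_fst
  have v1 : ContDiff ℝ ∞ fun p : Ph N => p.2 := contDiff_snd
  exact contDiff_const.mul ((f8.clm_apply v1).inner ℝ v1)

theorem geodesic_smooth (hg : IsMetric ∞ g) {c : ℝ → E N} (hc : IsGeodesic g c) : ContDiff ℝ ∞ c := by
  have h1 := contDiff_of_solution (contDiff_XH (contDiff_Hk hg))
    (Z := fun s => ((c s, opA g (c s) (deriv c s)) : Ph N)) (fun t => ham_of_geod hg hc t)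
  exact contDiff_fst.comp h1

theorem geodesic_acc (hg : IsMetric ∞ g) {c : ℝ → E N} (hc : IsGeodesic g c) (t : ℝ) :
    deriv (deriv c) t = acc g (c t) (deriv c t) :=
  acc_unique hg (EL_of_geodesic hg (geodesic_smooth hg hc) hc t)

end Pool.Agent.Helper59.GM
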