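import Pool.Agent.Helper59.GM.ChartEx

/-!
# GM-31 ArcChart: short arcs of a closed curve in `M` lie in charts, with a margin

Proof. Every `x ∈ M` has a chart with `x ∈ V` (`exists_chart`), `V` open. Lebesgue number (`lebesgue_number_lemma_of_metric` for the compact `M` and the cover by the sets `V` of all charts): there is `lam > 0` such that for every `x ∈ M` there is a chart with `ball x lam ⊆ V`. `c` is uniformly continuous (continuous and periodic): `ρ > 0` with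
`‖c t - c t₀‖ < lam / 2` for `|t - t₀| ≤ ρ`. `μ = lam / 4`: use the chart for `x = c t₀`: `‖y - c t₀‖ ≤ μ + lam / 2 < lam`.
-/

set_option autoImplicit false
set_option maxSynthPendingDepth 3

open scoped ContDiff InnerProductSpace
open Pool.Agent.Helper59.GT

namespace Pool.Agent.Helper59.GM

variable {n N : ℕ} {M U : Set (E N)} {r : E N → E N} {χ : E N → ℝ} {g : E N → Bil N}

private theorem arcChart_unif {c : ℝ → E N} {P : ℝ} (hP : 0 < P) (hc : Continuous c)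
    (hper : ∀ t, c (t + P) = c t) {ε : ℝ} (hε : 0 < ε) :
    ∃ ρ : ℝ, 0 < ρ ∧ ∀ t₀ t, |t - t₀| ≤ ρ → dist (c t) (c t₀) < ε := by
  have h1 : UniformContinuousOn c (Set.Icc (-1) (P + 1)) :=
    isCompact_Icc.uniformContinuousOn_of_continuous hc.continuousOn
  obtain ⟨δ, hδ, hδ'⟩ := Metric.uniformContinuousOn_iff.1 h1 ε hε
  refine ⟨min (δ / 2) 1, lt_min (half_pos hδ) one_pos, fun t₀ t ht => ?_⟩
  have hper' : Function.Periodic c P := hper
  obtain ⟨k, hk, -⟩ := existsUnique_sub_zsmul_mem_Ico hP t₀ 0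
  have h2 : c (t₀ - k • P) = c t₀ := hper'.sub_zsmul_eq k
  have h3 : c (t - k • P) = c t := hper'.sub_zsmul_eq k
  rw [← h2, ← h3]
  have h4 : |t - t₀| ≤ 1 := ht.trans (min_le_right _ _)
  have h5 : |t - t₀| ≤ δ / 2 := ht.trans (min_le_left _ _)
  have h6 := abs_le.1 h4
  have h7 := hk.1
  have h8 := hk.2
  refine hδ' _ ⟨?_, ?_⟩ _ ⟨?_, ?_⟩ ?_
  · linarith
  · linarith
  · linarith
  · linarith
  · rw [Real.dist_eq]
    have h9 : t - k • P - (t₀ - k • P) = t - t₀ := by ring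
    rw [h9]
    linarith

theorem arc_charts (h : Sub n M U r χ) {c : ℝ → E N} {P : ℝ} (hP : 0 < P) (hc : Continuous c)
    (hper : ∀ t, c (t + P) = c t) (hM : ∀ t, c t ∈ M) :
    ∃ ρ μ : ℝ, 0 < ρ ∧ 0 < μ ∧ ∀ t₀, ∃ (J : E N →L[ℝ] E n) (ψ : E n → E N) (O : Set (E n)) (V : Set (E N)),
      Chart M J ψ O V ∧ ∀ t, |t - t₀| ≤ ρ → ∀ y ∈ M, ‖y - c t‖ ≤ μ → y ∈ V := by
  obtain ⟨lam, hlam, hleb⟩ := lebesgue_number_lemma_of_metric (s := M)
    (c := fun W : {V : Set (E N) // ∃ (J : E N →L[ℝ] E n) (ψ : E n → E N) (O : Set (E n)),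
      Chart M J ψ O V} => (W : Set (E N))) h.compact
    (fun W => by
      obtain ⟨J, ψ, O, hW⟩ := W.2
      exact hW.openV)
    (fun x hx => by
      obtain ⟨J, ψ, O, V, hV, hxV⟩ := exists_chart h hx
      exact Set.mem_iUnion.2 ⟨⟨V, J, ψ, O, hV⟩, hxV⟩)
  obtain ⟨ρ, hρ, hρ'⟩ := arcChart_unif hP hc hper (half_pos hlam)
  refine ⟨ρ, lam / 4, hρ, by positivity, fun t₀ => ?_⟩
  obtain ⟨⟨V, J, ψ, O, hV⟩, hball⟩ := hleb (c t₀) (hM t₀)
  refine ⟨J, ψ, O, V, hV, fun t ht y _ hy => hball ?_⟩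
  rw [Metric.mem_ball]
  have h1 := hρ' t₀ t ht
  rw [← dist_eq_norm] at hy
  calc dist y (c t₀) ≤ dist y (c t) + dist (c t) (c t₀) := dist_triangle _ _ _
    _ < lam / 4 + lam / 2 := add_lt_add_of_le_of_lt hy h1
    _ < lam := by linarith

end Pool.Agent.Helper59.GM
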