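import Pool.Agent.Helper59.GM.Defs

/-!
# GM-21 ChainAbsM: chain transitivity of a measure preserving map of a connected set of finite measure

Proof. (As GT-08 `ChainAbs`, without translations.) Fix `a ∈ K`, `R = {b | TransGen (step) a b}` with `step a b := b ∈ K ∧ dist (φ a) b < δ`.
1. `R ⊆ K`; `φ a ∈ R`. 2. `R = K ∩ G` with `G` open: `G = ⋃ ball (φ a') δ` over the `a'` with `a' = a` or `a' ∈ R`. So `R` is measurable. 3. If `b ∈ R`, `y ∈ K`, `dist (φ b) y < δ` then `y ∈ R`; in particular `φ b ∈ R`.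
4. `φ '' R ⊆ R`, `μ R ≤ μ (φ '' R) ≤ μ R < ∞`, so `μ (R \ φ '' R) = 0`. The set `R \ closure (φ '' R) = (G \ closure (φ '' R)) ∩ K` is null, so empty by `hpos`: `R ⊆ closure (φ '' R)`.
5. `R` is closed in `K`: if `b ∈ K ∩ closure R ⊆ closure (φ '' R)` then some `b' ∈ R` has `dist (φ b') b < δ`, so `b ∈ R` by 3. 6. `K` is preconnected and `R ⊆ K` is nonempty, relatively open and relatively closed: `R = K` (`IsPreconnected.subset_of_closure_inter_subset`: `K ⊆ G`, with `closure G`.. or the definition of preconnectedness with the open sets `G` and `(closure R)ᶜ`).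
-/

set_option autoImplicit false
set_option maxSynthPendingDepth 3

open scoped ContDiff InnerProductSpace
open Pool.Agent.Helper59.GT MeasureTheory

namespace Pool.Agent.Helper59.GM

theorem chain_measure {X : Type} [MetricSpace X] [MeasurableSpace X] [BorelSpace X] (μ : Measure X) (K : Set X) (φ : X → X)
    (hK : MeasurableSet K) (hKc : IsPreconnected K) (hφ : ∀ z ∈ K, φ z ∈ K)
    (hfin : μ K ≠ ⊤) (hpos : ∀ W, IsOpen W → (W ∩ K).Nonempty → 0 < μ (W ∩ K))
    (hv : ∀ A, A ⊆ K → MeasurableSet A → MeasurableSet (φ '' A) ∧ μ A ≤ μ (φ '' A)) (δ : ℝ) (hδ : 0 < δ) (a : X)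
    (ha : a ∈ K) (b : X) (hb : b ∈ K) : Relation.TransGen (fun x y => y ∈ K ∧ dist (φ x) y < δ) a b := by
  obtain ⟨R, hRdef⟩ : ∃ R : Set X, R = {b | Relation.TransGen
      (fun x y => y ∈ K ∧ dist (φ x) y < δ) a b} := ⟨_, rfl⟩
  have hmem : ∀ y, y ∈ R ↔ Relation.TransGen (fun x y => y ∈ K ∧ dist (φ x) y < δ) a y :=
    fun y => by
      rw [hRdef]
      exact Iff.rfl
  have hR : ∀ y, y ∈ R ↔ (y ∈ K ∧ dist (φ a) y < δ) ∨
      ∃ c, c ∈ R ∧ (y ∈ K ∧ dist (φ c) y < δ) := by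
    intro y
    rw [hmem, Relation.transGen_iff]
    simp only [hmem]
  obtain ⟨G, hG⟩ : ∃ G : Set X, G = Metric.ball (φ a) δ ∪ ⋃ c ∈ R, Metric.ball (φ c) δ :=
    ⟨_, rfl⟩
  have hGo : IsOpen G := by
    rw [hG]
    exact Metric.isOpen_ball.union (isOpen_iUnion fun c => isOpen_iUnion fun _ => Metric.isOpen_ball)
  have hRG : R = K ∩ G := by
    ext y
    rw [hR y, hG]
    simp only [Set.mem_inter_iff, Set.mem_union, Set.mem_iUnion, exists_prop, Metric.mem_ball]
    constructor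
    · rintro (⟨h1, h2⟩ | ⟨c, h0, h1, h2⟩)
      · exact ⟨h1, Or.inl (by rwa [dist_comm])⟩
      · exact ⟨h1, Or.inr ⟨c, h0, by rwa [dist_comm]⟩⟩
    · rintro ⟨h1, (h2 | ⟨c, h0, h2⟩)⟩
      · exact Or.inl ⟨h1, by rwa [dist_comm]⟩
      · exact Or.inr ⟨c, h0, h1, by rwa [dist_comm]⟩
  have hRK : R ⊆ K := by
    rw [hRG]
    exact Set.inter_subset_left
  have hne : φ a ∈ R := (hR _).2 (Or.inl ⟨hφ a ha, by rw [dist_self]; exact hδ⟩)
  have hφR : φ '' R ⊆ R := by
    rintro _ ⟨z, hz, rfl⟩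
    exact (hR _).2 (Or.inr ⟨z, hz, hφ z (hRK hz), by rw [dist_self]; exact hδ⟩)
  have hnear : ∀ z ∈ R, ∀ y ∈ K, dist (φ z) y < δ → y ∈ R := by
    intro z hz y hy hd
    exact (hR _).2 (Or.inr ⟨z, hz, hy, hd⟩)
  have hRm : MeasurableSet R := by
    rw [hRG]
    exact hK.inter hGo.measurableSet
  obtain ⟨hφm, hle⟩ := hv R hRK hRm
  have hfinR : μ R ≠ ⊤ := ne_top_of_le_ne_top hfin (measure_mono hRK)
  have hfinφ : μ (φ '' R) ≠ ⊤ := ne_top_of_le_ne_top hfinR (measure_mono hφR)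
  have hzero : μ (R \ φ '' R) = 0 := by
    rw [measure_sdiff hφR hφm.nullMeasurableSet hfinφ]
    exact tsub_eq_zero_of_le hle
  have hcl : R ⊆ closure (φ '' R) := by
    by_contra hcon
    obtain ⟨z, hz, hz2⟩ := Set.not_subset.1 hcon
    have hpos' := hpos (G \ closure (φ '' R)) (hGo.sdiff isClosed_closure)
      ⟨z, ⟨by
        rw [hRG] at hz
        exact hz.2, hz2⟩, hRK hz⟩
    have h0 : μ ((G \ closure (φ '' R)) ∩ K) = 0 := by
      refine measure_mono_null ?_ hzero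
      rintro y ⟨⟨hy1, hy2⟩, hy3⟩
      refine ⟨?_, fun h => hy2 (subset_closure h)⟩
      rw [hRG]
      exact ⟨hy3, hy1⟩
    rw [h0] at hpos'
    exact lt_irrefl _ hpos'
  have hclosed : ∀ y ∈ K, y ∈ closure R → y ∈ R := by
    intro y hy2 hy1
    have h1 : y ∈ closure (φ '' R) := by
      have := closure_mono hcl hy1
      rwa [closure_closure] at this
    obtain ⟨w, ⟨z, hz, rfl⟩, hd⟩ := Metric.mem_closure_iff.1 h1 δ hδ
    rw [dist_comm] at hd
    exact hnear z hz y hy2 hd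
  rw [← hmem]
  by_contra hbR
  obtain ⟨y, hyK, hyG, hyc⟩ := hKc G (closure R)ᶜ hGo isClosed_closure.isOpen_compl
    (by
      intro y hy
      by_cases hyc : y ∈ closure R
      · left
        have := hclosed y hy hyc
        rw [hRG] at this
        exact this.2
      · exact Or.inr hyc)
    ⟨φ a, hRK hne, by
      rw [hRG] at hne
      exact hne.2⟩
    ⟨b, hb, fun hbc => hbR (hclosed b hb hbc)⟩
  apply hyc
  apply subset_closure
  rw [hRG]
  exact ⟨hyK, hyG⟩

end Pool.Agent.Helper59.GM
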