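import Pool.Agent.Helper59.GM.ChartLin

/-!
# GM-08 ChartEx: existence of charts of `M` with linear inverse (inverse function theorem)

Proof. `J, B` from `exists_split` at `x₀`, `a₀ = J x₀`. `f a = r (x₀ + B (a - a₀))` is smooth, `f a₀ = x₀`, and `J ∘ f` has at `a₀` the derivative `J P B = J (B (J B)) = id` (`P = B J`). By the inverse function theorem (`ContDiffAt.toOpenPartialHomeomorph`, `ContDiffAt.localInverse`, `ContDiffAt.to_localInverse`) there is `φ`, smooth near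
`a₀`, `φ a₀ = a₀`, `J (f (φ a)) = a` for `a` near `a₀`. The map `G x = x - r x + B (J (r x))` has at `x₀` the derivative `1 - P + B J P = 1 - P + P P = 1`, so it is injective on an open set `W ∋ x₀` (inverse function theorem again).
`ψ₀ = f ∘ φ`, `ψ₀ a₀ = x₀`. Let `ρ > 0` be so small that on `ball a₀ (2 ρ)`: `φ` is smooth, `J (ψ₀ a) = a`, `x₀ + B (φ a - a₀) ∈ U` (so `ψ₀ a ∈ M` by `maps`), `ψ₀ a ∈ W`. Let `θ` be a smooth bump function at `a₀`, `θ = 1` on `ball a₀ ρ`, with support in `ball a₀ (2 ρ)` (`ContDiffBump`), and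
`ψ a = x₀ + θ a • (ψ₀ a - x₀)`: smooth everywhere (where `φ` is not smooth, `θ = 0` near the point), `ψ = ψ₀` on `O = ball a₀ ρ`. `V = W ∩ J⁻¹ (O)`, open, contains `x₀`. For `a ∈ O`: `ψ a ∈ M`, `J (ψ a) = a`, `ψ a ∈ V`. For `x ∈ M ∩ V`, `y = ψ (J x) ∈ M ∩ V`: for points of `M`
`G x = B (J x)` (`r x = x`), `J y = J x`, so `G y = G x`, `y = x`.
-/

set_option autoImplicit false
set_option maxSynthPendingDepth 3

open scoped ContDiff InnerProductSpace Topology
open Pool.Agent.Helper59.GT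

namespace Pool.Agent.Helper59.GM

variable {n N : ℕ} {M U : Set (E N)} {r : E N → E N} {χ : E N → ℝ} {g : E N → Bil N}

private theorem chartEx_ne : (∞ : WithTop ℕ∞) ≠ 0 := by simp

/-- smooth local inverse on a neighbourhood -/
private theorem chartEx_inv {F : E n → E n} (hF : ContDiff ℝ ∞ F) {a₀ : E n}
    (hd : HasFDerivAt F (ContinuousLinearMap.id ℝ (E n)) a₀) (h0 : F a₀ = a₀) :
    ∃ φ : E n → E n, φ a₀ = a₀ ∧ ∀ᶠ a in 𝓝 a₀, F (φ a) = a ∧ ContDiffAt ℝ ∞ φ a := by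
  have hd' : HasFDerivAt F ((ContinuousLinearEquiv.refl ℝ (E n) : E n ≃L[ℝ] E n) : E n →L[ℝ] E n) a₀ := hd
  have hFa : ContDiffAt ℝ ∞ F a₀ := hF.contDiffAt
  have hsrc : a₀ ∈ (hFa.toOpenPartialHomeomorph F hd' chartEx_ne).source :=
    hFa.mem_toOpenPartialHomeomorph_source hd' chartEx_ne
  obtain ⟨Φ, hΦ⟩ : ∃ Φ, Φ = hFa.toOpenPartialHomeomorph F hd' chartEx_ne := ⟨_, rfl⟩
  have hcoe : (Φ : E n → E n) = F := by rw [hΦ]; rfl
  rw [← hΦ] at hsrc
  have htgt : a₀ ∈ Φ.target := by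
    have h1 := Φ.map_source hsrc
    rw [hcoe, h0] at h1
    exact h1
  have hφ0 : Φ.symm a₀ = a₀ := by
    have h1 := Φ.left_inv hsrc
    rw [hcoe, h0] at h1
    exact h1
  refine ⟨Φ.symm, hφ0, ?_⟩
  have hcont : ContinuousAt Φ.symm a₀ := Φ.continuousAt_symm htgt
  have h2 : ContinuousAt (fun a => fderiv ℝ F (Φ.symm a)) a₀ := by
    have h3 : Continuous (fderiv ℝ F) := hF.continuous_fderiv chartEx_ne
    exact h3.continuousAt.comp hcont
  have h3 : ∀ᶠ a in 𝓝 a₀, fderiv ℝ F (Φ.symm a) ∈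
      Set.range ((↑) : (E n ≃L[ℝ] E n) → E n →L[ℝ] E n) := by
    apply h2.eventually_mem
    beta_reduce
    rw [hφ0, hd.fderiv]
    exact ContinuousLinearEquiv.nhds (ContinuousLinearEquiv.refl ℝ (E n))
  filter_upwards [h3, Φ.open_target.mem_nhds htgt] with a ha hat
  refine ⟨?_, ?_⟩
  · have h4 := Φ.right_inv hat
    rwa [hcoe] at h4
  · obtain ⟨L, hL⟩ := ha
    refine Φ.contDiffAt_symm (f₀' := L) hat ?_ ?_
    · rw [hcoe, hL]
      exact (hF.differentiable chartEx_ne _).hasFDerivAt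
    · rw [hcoe]
      exact hF.contDiffAt

/-- injectivity on a neighbourhood -/
private theorem chartEx_inj {G : E N → E N} (hG : ContDiff ℝ ∞ G) {x₀ : E N}
    (hd : HasFDerivAt G (ContinuousLinearMap.id ℝ (E N)) x₀) :
    ∃ W : Set (E N), IsOpen W ∧ x₀ ∈ W ∧ Set.InjOn G W := by
  have hd' : HasFDerivAt G ((ContinuousLinearEquiv.refl ℝ (E N) : E N ≃L[ℝ] E N) : E N →L[ℝ] E N) x₀ := hd
  have hGa : ContDiffAt ℝ ∞ G x₀ := hG.contDiffAt
  exact ⟨(hGa.toOpenPartialHomeomorph G hd' chartEx_ne).source,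
    (hGa.toOpenPartialHomeomorph G hd' chartEx_ne).open_source,
    hGa.mem_toOpenPartialHomeomorph_source hd' chartEx_ne,
    (hGa.toOpenPartialHomeomorph G hd' chartEx_ne).injOn⟩

theorem exists_chart (h : Sub n M U r χ) {x₀ : E N} (hx : x₀ ∈ M) :
    ∃ (J : E N →L[ℝ] E n) (ψ : E n → E N) (O : Set (E n)) (V : Set (E N)), Chart M J ψ O V ∧ x₀ ∈ V := by
  obtain ⟨J, B, hJB, hBJ⟩ := exists_split h hx
  have hrs := h.smooth
  have hrd : HasFDerivAt r (fderiv ℝ r x₀) x₀ := (hrs.differentiable chartEx_ne x₀).hasFDerivAt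
  have hrx : r x₀ = x₀ := h.fixed x₀ hx
  obtain ⟨a₀, ha₀⟩ : ∃ a₀, a₀ = J x₀ := ⟨_, rfl⟩
  -- the map f
  obtain ⟨f, hf⟩ : ∃ f : E n → E N, f = fun a => r (x₀ + B (a - a₀)) := ⟨_, rfl⟩
  have hfs : ContDiff ℝ ∞ f := by
    rw [hf]
    exact hrs.comp (contDiff_const.add (B.contDiff.comp (contDiff_id.sub contDiff_const)))
  have hf0 : f a₀ = x₀ := by
    rw [hf]
    beta_reduce
    rw [sub_self, map_zero, add_zero, hrx]
  have hfd : HasFDerivAt f ((fderiv ℝ r x₀).comp B) a₀ := by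
    have h1 : HasFDerivAt (fun a : E n => x₀ + B (a - a₀)) B a₀ := by
      have h2 : HasFDerivAt (fun a : E n => a - a₀) (ContinuousLinearMap.id ℝ (E n)) a₀ :=
        (hasFDerivAt_id a₀).sub_const a₀
      have h3 : HasFDerivAt (fun a : E n => B (a - a₀)) (B.comp (ContinuousLinearMap.id ℝ (E n))) a₀ :=
        B.hasFDerivAt.comp a₀ h2
      rw [ContinuousLinearMap.comp_id] at h3
      exact h3.const_add x₀
    have h4 : HasFDerivAt r (fderiv ℝ r x₀) ((fun a : E n => x₀ + B (a - a₀)) a₀) := by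
      beta_reduce
      rw [sub_self, map_zero, add_zero]
      exact hrd
    rw [hf]
    exact h4.comp a₀ h1
  have hJfs : ContDiff ℝ ∞ (fun a => J (f a)) := J.contDiff.comp hfs
  have hJfd : HasFDerivAt (fun a => J (f a)) (ContinuousLinearMap.id ℝ (E n)) a₀ := by
    have h1 : HasFDerivAt (fun a => J (f a)) (J.comp ((fderiv ℝ r x₀).comp B)) a₀ :=
      J.hasFDerivAt.comp a₀ hfd
    have h2 : J.comp ((fderiv ℝ r x₀).comp B) = ContinuousLinearMap.id ℝ (E n) := by
      ext1 a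
      change J (fderiv ℝ r x₀ (B a)) = a
      rw [← hBJ, hJB, hJB]
    rw [h2] at h1
    exact h1
  obtain ⟨φ, hφ0, hφ⟩ := chartEx_inv hJfs hJfd (by rw [hf0, ha₀])
  -- the map G
  obtain ⟨W, hWo, hWx, hWinj⟩ := chartEx_inj (G := fun x => x - r x + B (J (r x)))
    ((contDiff_id.sub hrs).add (B.contDiff.comp (J.contDiff.comp hrs))) (x₀ := x₀) (by
      have h1 : HasFDerivAt (fun x => x - r x + B (J (r x)))
          (ContinuousLinearMap.id ℝ (E N) - fderiv ℝ r x₀ + B.comp (J.comp (fderiv ℝ r x₀))) x₀ :=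
        ((hasFDerivAt_id x₀).sub hrd).add (B.hasFDerivAt.comp x₀ (J.hasFDerivAt.comp x₀ hrd))
      have h2 : ContinuousLinearMap.id ℝ (E N) - fderiv ℝ r x₀ + B.comp (J.comp (fderiv ℝ r x₀)) =
          ContinuousLinearMap.id ℝ (E N) := by
        ext1 w
        change w - fderiv ℝ r x₀ w + B (J (fderiv ℝ r x₀ w)) = w
        have h3 : fderiv ℝ r x₀ (fderiv ℝ r x₀ w) = fderiv ℝ r x₀ w := h.tan_of_range hx w
        rw [hBJ, h3, sub_add_cancel]
      rw [h2] at h1
      exact h1)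
  -- a small ball
  have hφc : ContinuousAt φ a₀ := hφ.self_of_nhds.2.continuousAt
  have hev1 : ∀ᶠ a in 𝓝 a₀, x₀ + B (φ a - a₀) ∈ U := by
    have h1 : ContinuousAt (fun a => x₀ + B (φ a - a₀)) a₀ := by
      have h2 : ContinuousAt (fun a => φ a - a₀) a₀ := hφc.sub continuousAt_const
      exact continuousAt_const.add (B.continuous.continuousAt.comp h2)
    apply h1.eventually_mem
    beta_reduce
    rw [hφ0, sub_self, map_zero, add_zero]
    exact h.isOpen.mem_nhds (h.sub hx)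
  have hev2 : ∀ᶠ a in 𝓝 a₀, f (φ a) ∈ W := by
    have h1 : ContinuousAt (fun a => f (φ a)) a₀ := hfs.continuous.continuousAt.comp hφc
    apply h1.eventually_mem
    beta_reduce
    rw [hφ0, hf0]
    exact hWo.mem_nhds hWx
  obtain ⟨R, hR, hball⟩ := Metric.eventually_nhds_iff_ball.1 (hφ.and (hev1.and hev2))
  let θ : ContDiffBump a₀ := ⟨R / 3, R / 2, by positivity, by linarith⟩
  obtain ⟨ψ, hψ⟩ : ∃ ψ : E n → E N, ψ = fun a => x₀ + θ a • (f (φ a) - x₀) := ⟨_, rfl⟩
  have hψO : ∀ a ∈ Metric.ball a₀ (R / 3), ψ a = f (φ a) := by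
    intro a ha
    have h1 : θ a = 1 := θ.one_of_mem_closedBall (Metric.ball_subset_closedBall ha)
    rw [hψ]
    beta_reduce
    rw [h1, one_smul, add_sub_cancel]
  have hOR : ∀ a ∈ Metric.ball a₀ (R / 3), a ∈ Metric.ball a₀ R := fun a ha =>
    Metric.ball_subset_ball (by linarith) ha
  refine ⟨J, ψ, Metric.ball a₀ (R / 3), W ∩ J ⁻¹' Metric.ball a₀ (R / 3), ⟨Metric.isOpen_ball,
    hWo.inter (Metric.isOpen_ball.preimage J.continuous), ?_, ?_, ?_⟩, hWx, ?_⟩
  · rw [contDiff_iff_contDiffAt]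
    intro a
    by_cases ha : a ∈ Metric.ball a₀ R
    · have h1 : ContDiffAt ℝ ∞ (fun a => f (φ a)) a :=
        hfs.contDiffAt.comp a (hball a ha).1.2
      have h2 : ContDiffAt ℝ ∞ θ a := θ.contDiff.contDiffAt
      rw [hψ]
      exact contDiffAt_const.add (h2.smul (h1.sub contDiffAt_const))
    · have h1 : ∀ᶠ b in 𝓝 a, ψ b = x₀ := by
        have h2 : (Metric.closedBall a₀ (R / 2))ᶜ ∈ 𝓝 a := by
          apply Metric.isClosed_closedBall.isOpen_compl.mem_nhds
          intro h3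
          apply ha
          rw [Metric.mem_ball]
          rw [Metric.mem_closedBall] at h3
          linarith
        filter_upwards [h2] with b hb
        have h3 : θ b = 0 := by
          apply θ.zero_of_le_dist
          have h4 : ¬ dist b a₀ ≤ R / 2 := hb
          change R / 2 ≤ dist b a₀
          linarith
        rw [hψ]
        beta_reduce
        rw [h3, zero_smul, add_zero]
      have h4 : ContDiffAt ℝ ∞ (fun _ : E n => x₀) a := contDiffAt_const
      exact h4.congr_of_eventuallyEq h1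
  · intro a ha
    obtain ⟨⟨h1, -⟩, h2, h3⟩ := hball a (hOR a ha)
    rw [hψO a ha]
    refine ⟨?_, ⟨h3, ?_⟩, h1⟩
    · rw [hf]
      exact h.maps h2
    · change J (f (φ a)) ∈ Metric.ball a₀ (R / 3)
      rw [h1]
      exact ha
  · intro x hxM hxV
    have hJx : J x ∈ Metric.ball a₀ (R / 3) := hxV.2
    refine ⟨hJx, ?_⟩
    obtain ⟨⟨h1, -⟩, h2, h3⟩ := hball (J x) (hOR _ hJx)
    rw [hψO _ hJx]
    have hyM : f (φ (J x)) ∈ M := by
      rw [hf]
      exact h.maps h2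
    apply hWinj h3 hxV.1
    beta_reduce
    rw [h.fixed _ hyM, h.fixed _ hxM, h1, sub_self, sub_self]
  · change J x₀ ∈ Metric.ball a₀ (R / 3)
    rw [← ha₀]
    exact Metric.mem_ball_self (by positivity)

end Pool.Agent.Helper59.GM
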