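import Pool.Agent.Helper59.GM.IotaSymp

/-!
# GM-11 ChartHam: Hamiltonian solutions in the cotangent bundle of `M`, read in a chart

Proof. `ζ s = kappa J ψ (Z s)` has at `t` a derivative `ξ` (`contDiff_kappa`, chain rule). `Z s = iota r J ψ (ζ s)` for `s` near `t` (`iota_kappa`), so `XH H (Z t) = Dι (ζ t) ξ` (uniqueness of the derivative). For every `η`: the derivative of `H ∘ iota` at `ζ t` in the direction `η` is
`DH (Z t) (Dι η) = om (XH H (Z t)) (Dι η)` (`fderiv_eq_om`) `= om (Dι ξ) (Dι η) = om ξ η` (`iota_symp`, `(ζ t).1 ∈ O`). So `ξ = XH (H ∘ iota) (ζ t)` (`XH_unique`).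
-/

set_option autoImplicit false
set_option maxSynthPendingDepth 3

open scoped ContDiff InnerProductSpace Topology
open Pool.Agent.Helper59.GT Filter

namespace Pool.Agent.Helper59.GM

variable {n N : ℕ} {M U : Set (E N)} {r : E N → E N} {χ : E N → ℝ} {g : E N → Bil N}

theorem chart_ham (h : Sub n M U r χ) {J : E N →L[ℝ] E n} {ψ : E n → E N} {O : Set (E n)} {V : Set (E N)}
    (hc : Chart M J ψ O V) {H : Ph N → ℝ} (hH : ContDiff ℝ ∞ H) {Z : ℝ → Ph N} {t : ℝ} (hZ : HasDerivAt Z (XH H (Z t)) t)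
    (hT : ∀ᶠ s in 𝓝 t, Z s ∈ TT M r ∧ (Z s).1 ∈ V) :
    HasDerivAt (fun s => kappa J ψ (Z s)) (XH (fun ζ => H (iota r J ψ ζ)) (kappa J ψ (Z t))) t := by
  have hk : ContDiff ℝ ∞ (kappa (N := N) J ψ) := contDiff_kappa hc.smooth
  have hi : ContDiff ℝ ∞ (iota r J ψ) := contDiff_iota h hc.smooth
  obtain ⟨hTt, hVt⟩ := hT.self_of_nhds
  obtain ⟨hO, hik⟩ := iota_kappa h hc hTt hVt
  obtain ⟨ξ, hξ⟩ : ∃ ξ, ξ = fderiv ℝ (kappa J ψ) (Z t) (XH H (Z t)) := ⟨_, rfl⟩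
  have h1 : HasDerivAt (fun s => kappa J ψ (Z s)) ξ t := by
    rw [hξ]
    exact ((hk.differentiable (by simp)) (Z t)).hasFDerivAt.comp_hasDerivAt t hZ
  have h2 : HasDerivAt (fun s => iota r J ψ (kappa J ψ (Z s)))
      (fderiv ℝ (iota r J ψ) (kappa J ψ (Z t)) ξ) t := by
    have hi' : HasFDerivAt (iota r J ψ) (fderiv ℝ (iota r J ψ) (kappa J ψ (Z t)))
        ((fun s => kappa J ψ (Z s)) t) :=
      ((hi.differentiable (by simp)) (kappa J ψ (Z t))).hasFDerivAt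
    exact hi'.comp_hasDerivAt t h1
  have h3 : (fun s => iota r J ψ (kappa J ψ (Z s))) =ᶠ[𝓝 t] Z :=
    hT.mono fun s hs => (iota_kappa h hc hs.1 hs.2).2
  have h4 : fderiv ℝ (iota r J ψ) (kappa J ψ (Z t)) ξ = XH H (Z t) :=
    (h2.congr_of_eventuallyEq h3.symm).unique hZ
  have h5 : ξ = XH (fun ζ => H (iota r J ψ ζ)) (kappa J ψ (Z t)) := by
    apply XH_unique
    intro η
    have h6 : fderiv ℝ (fun ζ => H (iota r J ψ ζ)) (kappa J ψ (Z t)) η =
        fderiv ℝ H (iota r J ψ (kappa J ψ (Z t)))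
          (fderiv ℝ (iota r J ψ) (kappa J ψ (Z t)) η) := by
      rw [fderiv_fun_comp (kappa J ψ (Z t)) (hH.differentiable (by simp) _)
        (hi.differentiable (by simp) _)]
      rfl
    rw [h6, hik, fderiv_eq_om, ← h4, iota_symp h hc hO]
  rw [← h5]
  exact h1

end Pool.Agent.Helper59.GM
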