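import Pool.Agent.Helper59.GM.SubLem

/-!
# GM-07 ChartLin: splitting off the tangent space

Proof. `T` = the range of `P = fderiv ℝ r x`, of dimension `n` (`Sub.rank`), is linearly isomorphic to `E n` (`finrank = n`; `LinearEquiv.ofFinrankEq`), `L : T ≃ E n`. `B = (inclusion of T) ∘ L⁻¹`, `J = L ∘ P` (`P` with values in `T`), as continuous linear maps (`LinearMap.toContinuousLinearMap`).
`J (B a) = L (P (L⁻¹ a)) = a`, since `P` is the identity on its range (`tan_of_range`). `B (J w) = P w`.
-/

set_option autoImplicit false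
set_option maxSynthPendingDepth 3

open scoped ContDiff InnerProductSpace
open Pool.Agent.Helper59.GT

namespace Pool.Agent.Helper59.GM

variable {n N : ℕ} {M U : Set (E N)} {r : E N → E N} {χ : E N → ℝ} {g : E N → Bil N}

theorem exists_split (h : Sub n M U r χ) {x : E N} (hx : x ∈ M) :
    ∃ (J : E N →L[ℝ] E n) (B : E n →L[ℝ] E N), (∀ a, J (B a) = a) ∧ ∀ w, B (J w) = fderiv ℝ r x w := by
  classical
  have hrank := h.rank x hx
  set P : E N →ₗ[ℝ] E N := (fderiv ℝ r x : E N →ₗ[ℝ] E N) with hP
  have hfr : Module.finrank ℝ (LinearMap.range P) = Module.finrank ℝ (E n) := by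
    rw [hrank]
    simp [E]
  let L : LinearMap.range P ≃ₗ[ℝ] E n := LinearEquiv.ofFinrankEq _ _ hfr
  let Jl : E N →ₗ[ℝ] E n := L.toLinearMap.comp P.rangeRestrict
  let Bl : E n →ₗ[ℝ] E N := (LinearMap.range P).subtype.comp L.symm.toLinearMap
  refine ⟨LinearMap.toContinuousLinearMap Jl, LinearMap.toContinuousLinearMap Bl, ?_, ?_⟩
  · intro a
    show L (P.rangeRestrict ((L.symm a : LinearMap.range P) : E N)) = a
    have h1 : P.rangeRestrict ((L.symm a : LinearMap.range P) : E N) = L.symm a := by
      apply Subtype.ext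
      obtain ⟨y, hy⟩ := (L.symm a : LinearMap.range P).2
      show P ((L.symm a : LinearMap.range P) : E N) = _
      rw [← hy]
      exact Sub.tan_of_range h hx y
    rw [h1, LinearEquiv.apply_symm_apply]
  · intro w
    show ((L.symm (L (P.rangeRestrict w)) : LinearMap.range P) : E N) = fderiv ℝ r x w
    rw [LinearEquiv.symm_apply_apply]
    rfl

end Pool.Agent.Helper59.GM
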