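import Pool.Agent.Helper59.GT.HamTrace
import Pool.Agent.Helper59.GM.Defs

/-!
# GM-17 CutField: cutting off a Hamiltonian field outside a compact set

Proof. Let `θ` be smooth with compact support and `θ = 1` on an open set `W ⊇ C` (`exists_contDiff_tsupport_subset`-type lemmas, or `exists_smooth_one_nhds_of_subset_interior`; or a bump function `ContDiffBump` at `0` with large radii: `C` is bounded, so this is the simplest choice: `C ⊆ ball 0 R`, `θ = 1` on `ball 0 R`, `θ = 0` outside `ball 0 (2 R)`).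
`X = XH (θ H)`: smooth (`contDiff_XH`), divergence free (`trace_XH`), and zero outside the compact support, so `X` and `D X` are bounded (continuous with compact support): Lipschitz (`lipschitzWith_of_nnnorm_fderiv_le`). On `W = ball 0 R`, `θ H = H` near the point, so `XH (θ H) = XH H` (`Filter.EventuallyEq.fderiv_eq`).
-/

set_option autoImplicit false
set_option maxSynthPendingDepth 3

open scoped ContDiff InnerProductSpace NNReal Topology
open Pool.Agent.Helper59.GT

namespace Pool.Agent.Helper59.GM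

theorem exists_cutfield {n : ℕ} {H : Ph n → ℝ} (hH : ContDiff ℝ ∞ H) (C : Set (Ph n)) (hC : IsCompact C) :
    ∃ (X : Ph n → Ph n) (K : ℝ≥0) (B : ℝ) (W : Set (Ph n)), LipschitzWith K X ∧ (∀ z, ‖X z‖ ≤ B) ∧ Differentiable ℝ X ∧
      (∀ z, LinearMap.trace ℝ (Ph n) (fderiv ℝ X z : Ph n →ₗ[ℝ] Ph n) = 0) ∧ IsOpen W ∧ C ⊆ W ∧ ∀ z ∈ W, X z = XH H z := by
  obtain ⟨R, hR, hCR⟩ := hC.isBounded.subset_ball_lt 0 (0 : Ph n)
  let θ : ContDiffBump (0 : Ph n) := ⟨R, 2 * R, hR, by linarith⟩
  have hθ : ContDiff ℝ ∞ (fun z => θ z) := θ.contDiff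
  have hG : ContDiff ℝ ∞ (fun z => θ z * H z) := hθ.mul hH
  have hGs : HasCompactSupport (fun z => θ z * H z) := θ.hasCompactSupport.mul_right
  have hX : ContDiff ℝ ∞ (XH (fun z => θ z * H z)) := contDiff_XH hG
  have hXs : HasCompactSupport (XH (fun z => θ z * H z)) := by
    refine (hGs.fderiv ℝ).mono fun z hz => ?_
    intro h0
    apply hz
    simp only [XH, gradp, gradx, h0, ContinuousLinearMap.zero_comp, map_zero, neg_zero]
    rfl
  obtain ⟨K, hK⟩ := hX.lipschitzWith_of_hasCompactSupport hXs (by simp)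
  obtain ⟨B, hB⟩ := hXs.exists_bound_of_continuous hX.continuous
  refine ⟨XH (fun z => θ z * H z), K, B, Metric.ball 0 R, hK, hB, hX.differentiable (by simp),
    fun z => trace_XH hG z, Metric.isOpen_ball, hCR, fun z hz => ?_⟩
  have he : (fun z => θ z * H z) =ᶠ[𝓝 z] H := by
    filter_upwards [Metric.isOpen_ball.mem_nhds hz] with y hy
    rw [θ.one_of_mem_closedBall (Metric.ball_subset_closedBall hy), one_mul]
  simp only [XH, gradp, gradx, he.fderiv_eq]

end Pool.Agent.Helper59.GM
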