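import Pool.Agent.Helper59.GT.Liouville
import Pool.Agent.Helper59.GM.Defs

/-!
# GM-16 LiouTime: Liouville for all times `t ≥ 0`

Proof. Apply `liouville` to the field `t • X` (Lipschitz with constant `|t| K`, bounded by `|t| C`, differentiable with derivative `t • D X`, trace `0`) and its flow `Φ' s z = Φ (t s) z` (`IsFlow`: chain rule), at time `1`.
-/

set_option autoImplicit false
set_option maxSynthPendingDepth 3

open scoped ContDiff InnerProductSpace NNReal
open Pool.Agent.Helper59.GT MeasureTheory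

namespace Pool.Agent.Helper59.GM

theorem liouville_time {F : Type} [NormedAddCommGroup F] [NormedSpace ℝ F] [FiniteDimensional ℝ F] [MeasurableSpace F]
    [BorelSpace F] (μ : Measure F) [μ.IsAddHaarMeasure]
    {X : F → F} {Φ : ℝ → F → F} (h : IsFlow X Φ) {K : ℝ≥0} (hK : LipschitzWith K X) {C : ℝ} (hC : ∀ z, ‖X z‖ ≤ C)
    (hd : Differentiable ℝ X) (ht : ∀ z, LinearMap.trace ℝ F (fderiv ℝ X z : F →ₗ[ℝ] F) = 0) (t : ℝ)
    (A : Set F) (hA : MeasurableSet A) : μ A ≤ μ (Φ t '' A) := by
  have hflow : IsFlow (fun z => t • X z) (fun s z => Φ (t * s) z) := by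
    constructor
    · intro z
      rw [mul_zero]
      exact h.zero z
    · intro s z
      have h1 : HasDerivAt (fun s : ℝ => t * s) t s := by
        have := (hasDerivAt_id s).const_mul t
        rwa [mul_one] at this
      exact (h.deriv (t * s) z).scomp s h1
  have hLip : LipschitzWith (‖t‖₊ * K) (fun z => t • X z) := by
    apply LipschitzWith.of_dist_le_mul
    intro z w
    rw [dist_smul₀, NNReal.coe_mul, coe_nnnorm, mul_assoc]
    exact mul_le_mul_of_nonneg_left (hK.dist_le_mul z w) (norm_nonneg t)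
  have hbd : ∀ z, ‖t • X z‖ ≤ ‖t‖ * C := by
    intro z
    rw [norm_smul]
    exact mul_le_mul_of_nonneg_left (hC z) (norm_nonneg t)
  have htr : ∀ z, LinearMap.trace ℝ F (fderiv ℝ (fun z => t • X z) z : F →ₗ[ℝ] F) = 0 := by
    intro z
    have h1 : fderiv ℝ (fun z => t • X z) z = t • fderiv ℝ X z :=
      fderiv_fun_const_smul (hd z) t
    rw [h1, ContinuousLinearMap.toLinearMap_smul, map_smul, ht z, smul_zero]
  have h2 := liouville μ hflow hLip hbd (hd.const_smul t) htr A hA
  rwa [mul_one] at h2

end Pool.Agent.Helper59.GM
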