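import Pool.Agent.Helper59.GM.Invar
import Pool.Agent.Helper59.GT.GeoFlow
import Pool.Agent.Helper59.GT.GeoHam

/-!
# GM-06 PhTan: tangent vectors and the cotangent bundle; the geodesic flow preserves the cotangent bundle of `M`

Proof. `tan_iff`: `adj (P x) p = p` means `⟪p, P x w⟫ = ⟪p, w⟫` for all `w` (`inner_adj`), and `p = opA g x v` with `⟪p, w⟫ = g x v w` (`inner_opA`). If `v` is tangent this is `hat_apply`. Conversely put `w = v - P v =: z`: `P z = 0`, so `g x v z = 0`; by `Hat.eq` at `x` (`r x = x`) `g x v z = g x (P v) (P z) + a ⟪v - P v, z⟫ = a ‖z‖ ^ 2 = g x z z`,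
so `z = 0` (`pos`). `tan_cog`: with `v = cog g x p`, `opA g x v = p` (`cog_right`).
`flow_inv`: `Z t = Φ t z` solves `Z' = XH (Hk g) Z` (`ham`), so `c t = (Z t).1` is a geodesic with `c' t = cog g (Z t).1 (Z t).2` (`geod_of_ham`), `c 0 = z.1 ∈ M`, `c' 0 = cog g z.1 z.2` tangent (`tan_cog`). So `c t ∈ M` for all `t` (`invar`), so `c' t` is tangent (`tan_curve`), and `Φ t z ∈ TT` by `tan_cog`.
-/

set_option autoImplicit false
set_option maxSynthPendingDepth 3

open scoped ContDiff InnerProductSpace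
open Pool.Agent.Helper59.GT

namespace Pool.Agent.Helper59.GM

variable {n N : ℕ} {M U : Set (E N)} {r : E N → E N} {χ : E N → ℝ} {g : E N → Bil N}

theorem tan_iff (h : Sub n M U r χ) {m : WithTop ℕ∞} (hg : Hat m U r g) {x : E N} (hx : x ∈ M) (v : E N) :
    ((x, opA g x v) : Ph N) ∈ TT M r ↔ Tan r x v := by
  constructor
  · intro hz
    have h1 : adj (fderiv ℝ r x) (opA g x v) = opA g x v := hz.2
    have h2 : ∀ w, g x v w = g x v (fderiv ℝ r x w) := by
      intro w
      rw [← inner_opA g x v w, ← inner_opA g x v (fderiv ℝ r x w), ← inner_adj, h1]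
    obtain ⟨a, -, ha⟩ := hg.eq
    have hr : r x = x := h.fixed x hx
    have hPP : fderiv ℝ r x (fderiv ℝ r x v) = fderiv ℝ r x v := h.tan_of_range hx v
    have h3 : fderiv ℝ r x (v - fderiv ℝ r x v) = 0 := by
      rw [map_sub, hPP, sub_self]
    have h4 : g x v (v - fderiv ℝ r x v) = 0 := by
      rw [h2, h3, map_zero]
    have h5 := ha x (h.sub hx) v (v - fderiv ℝ r x v)
    rw [hr, h3, map_zero, h4, zero_add, sub_zero] at h5
    have h6 := ha x (h.sub hx) (v - fderiv ℝ r x v) (v - fderiv ℝ r x v)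
    rw [hr, h3, map_zero, zero_add, sub_zero, ← h5] at h6
    by_contra hne
    have hne' : v - fderiv ℝ r x v ≠ 0 := by
      intro h0
      exact hne (sub_eq_zero.1 h0).symm
    have h7 := hg.metric.pos x _ hne'
    rw [h6] at h7
    exact lt_irrefl _ h7
  · intro hv
    refine ⟨hx, ?_⟩
    refine adj_ext fun w => ?_
    rw [inner_opA, inner_opA]
    exact hat_apply h hg hx hv w

theorem tan_cog (h : Sub n M U r χ) {m : WithTop ℕ∞} (hg : Hat m U r g) (z : Ph N) :
    z ∈ TT M r ↔ z.1 ∈ M ∧ Tan r z.1 (cog g z.1 z.2) := by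
  have h1 : z = (z.1, opA g z.1 (cog g z.1 z.2)) := by
    rw [cog_right hg.metric]
  constructor
  · intro hz
    have hm : z.1 ∈ M := hz.1
    refine ⟨hm, ?_⟩
    rw [h1] at hz
    exact (tan_iff h hg hm _).1 hz
  · rintro ⟨hm, ht⟩
    rw [h1]
    exact (tan_iff h hg hm _).2 ht

theorem flow_inv (h : Sub n M U r χ) (hg : Hat ∞ U r g) {Φ : ℝ → Ph N → Ph N} {K : ℝ} (hΦ : GeoFlow g Φ K) {z : Ph N}
    (hz : z ∈ TT M r) (h4 : Hk g z < 4) (t : ℝ) : Φ t z ∈ TT M r := by
  obtain ⟨hgeo, hd, -⟩ := geod_of_ham hg.metric (Z := fun s => Φ s z) (hΦ.ham z h4)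
  have h0 : Φ 0 z = z := hΦ.zero z
  obtain ⟨hm, ht⟩ := (tan_cog h hg z).1 hz
  have hin : ∀ s, (Φ s z).1 ∈ M := by
    intro s
    refine invar h hg hgeo ?_ ?_ s
    · show (Φ 0 z).1 ∈ M
      rw [h0]
      exact hm
    · have h2 := hd 0
      simp only [h0] at h2
      show Tan r (Φ 0 z).1 (deriv (fun t => (Φ t z).1) 0)
      rw [h2, h0]
      exact ht
  have htan := h.tan_curve (c := fun s => (Φ s z).1) hin (t := t) (hgeo.1 t)
  rw [hd t] at htan
  exact (tan_cog h hg _).2 ⟨hin t, htan⟩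

theorem isClosed_TT (h : Sub n M U r χ) : IsClosed (TT M r) := by
  have h1 : IsClosed {z : Ph N | z.1 ∈ M} := h.compact.isClosed.preimage continuous_fst
  have h2 : ContDiff ℝ ∞ (fderiv ℝ r) := h.smooth.fderiv_right (by simp)
  have h3 : Continuous (fun z : Ph N => adj (fderiv ℝ r z.1) z.2) :=
    (contDiff_adj (h2.comp contDiff_fst) contDiff_snd).continuous
  exact h1.inter (isClosed_eq h3 continuous_snd)

end Pool.Agent.Helper59.GM
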