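import Pool.Agent.Helper59.GM.ChartHam
import Pool.Agent.Helper59.GM.PhTan
import Pool.Agent.Helper59.GM.LiouTime
import Pool.Agent.Helper59.GM.CutField
import Pool.Agent.Helper59.GM.Acc

/-!
# GM-18 ChartLiou: the geodesic flow preserves the chart volume as long as the orbits stay in the chart

Proof. `H' ζ = Hk g (iota r J ψ ζ)` is smooth (`contDiff_Hk`, `contDiff_iota`). `X, K', B, W` from `exists_cutfield` for `H'` and the compact set `kappa J ψ '' C`; `Ψ` the flow of `X` (`exists_flow`). Let `z ∈ A`, `ζ t = kappa J ψ (Φ t z)`. For `t ∈ (0, τ)` (and near `0`, `τ` if convenient: `V` is open, so `(Φ s z).1 ∈ V` for `s` near each `t ∈ [0, τ]`;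
`Φ s z ∈ TT` for all `s` by `flow_inv`, `Hk g z < 4`: `z = Φ 0 z ∈ C`): `ζ' t = XH H' (ζ t)` (`chart_ham` with `H = Hk g`, `GeoFlow.ham`), and `ζ t ∈ kappa '' C ⊆ W`, so `ζ' t = X (ζ t)`. By uniqueness on `[0, τ]` (`ODE_solution_unique_of_mem_Icc_right` or `ODE_solution_unique_of_mem_Icc`, `X` is Lipschitz) `ζ t = Ψ t (ζ 0)` for `t ∈ [0, τ]`.
So `kappa '' (Φ τ '' A) = Ψ τ '' (kappa '' A)`. `kappa '' A` is measurable (`A ⊆ C ⊆ TT`, injective and continuous on `A`): `liouville_time` for `volume`.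
-/

set_option autoImplicit false
set_option maxSynthPendingDepth 3

open scoped ContDiff InnerProductSpace Topology NNReal
open Pool.Agent.Helper59.GT MeasureTheory

namespace Pool.Agent.Helper59.GM

variable {n N : ℕ} {M U : Set (E N)} {r : E N → E N} {χ : E N → ℝ} {g : E N → Bil N}

theorem chart_liou (h : Sub n M U r χ) (hg : Hat ∞ U r g) {Φ : ℝ → Ph N → Ph N} {K : ℝ} (hΦ : GeoFlow g Φ K)
    {J : E N →L[ℝ] E n} {ψ : E n → E N} {O : Set (E n)} {V : Set (E N)} (hc : Chart M J ψ O V)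
    (C : Set (Ph N)) (hC : IsCompact C) (hCT : C ⊆ TT M r) (hCV : ∀ z ∈ C, z.1 ∈ V) (hC4 : ∀ z ∈ C, Hk g z < 4)
    (τ : ℝ) (hτ : 0 ≤ τ) (A : Set (Ph N)) (hA : MeasurableSet A) (hAC : ∀ z ∈ A, ∀ t ∈ Set.Icc 0 τ, Φ t z ∈ C) :
    volume (kappa J ψ '' A) ≤ volume (kappa J ψ '' (Φ τ '' A)) := by
  have hHk : ContDiff ℝ ∞ (Hk g) := contDiff_Hk hg.metric
  have hk : Continuous (kappa J ψ : Ph N → Ph n) := (contDiff_kappa hc.smooth).continuous
  have hH' : ContDiff ℝ ∞ (fun ζ : Ph n => Hk g (iota r J ψ ζ)) :=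
    hHk.comp (contDiff_iota h hc.smooth)
  obtain ⟨X, K', B, W, hX, hXB, hXd, hXt, -, hCW, hXW⟩ := exists_cutfield hH' (kappa J ψ '' C)
    (hC.image hk)
  obtain ⟨Ψ, hΨ⟩ := exists_flow X K' hX B hXB
  have h0 : (0 : ℝ) ∈ Set.Icc 0 τ := ⟨le_rfl, hτ⟩
  have hAC0 : ∀ z ∈ A, z ∈ C := fun z hz => by
    have h1 := hAC z hz 0 h0
    rwa [hΦ.zero] at h1
  have hkey : ∀ z ∈ A, kappa J ψ (Φ τ z) = Ψ τ (kappa J ψ z) := by
    intro z hz
    have hzT : z ∈ TT M r := hCT (hAC0 z hz)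
    have hz4 : Hk g z < 4 := hC4 z (hAC0 z hz)
    have hcont : Continuous (fun s => Φ s z) := (hΦ.smooth z).continuous
    have hder : ∀ t ∈ Set.Icc 0 τ, HasDerivAt (fun s => kappa J ψ (Φ s z))
        (X (kappa J ψ (Φ t z))) t := by
      intro t ht
      have hmem := hAC z hz t ht
      have hT : ∀ᶠ s in 𝓝 t, Φ s z ∈ TT M r ∧ (Φ s z).1 ∈ V := by
        have hV : ∀ᶠ s in 𝓝 t, (Φ s z).1 ∈ V :=
          (continuous_fst.comp hcont).continuousAt.eventually_mem
            (hc.openV.mem_nhds (hCV _ hmem))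
        filter_upwards [hV] with s hs
        exact ⟨flow_inv h hg hΦ hzT hz4 s, hs⟩
      have h1 := chart_ham h hc hHk (Z := fun s => Φ s z) (hΦ.ham z hz4 t) hT
      rw [hXW _ (hCW ⟨_, hmem, rfl⟩)]
      exact h1
    have huniq := ODE_solution_unique_of_mem_Icc_right (v := fun _ => X)
      (s := fun _ => Set.univ) (K := K') (f := fun s => kappa J ψ (Φ s z))
      (g := fun s => Ψ s (kappa J ψ z)) (a := 0) (b := τ)
      (fun t _ => hX.lipschitzOnWith)
      (fun t ht => (hder t ht).continuousAt.continuousWithinAt)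
      (fun t ht => (hder t ⟨ht.1, ht.2.le⟩).hasDerivWithinAt)
      (fun t _ => Set.mem_univ _)
      (fun t _ => (hΨ.deriv t _).continuousAt.continuousWithinAt)
      (fun t _ => (hΨ.deriv t _).hasDerivWithinAt)
      (fun t _ => Set.mem_univ _)
      (by simp only [hΦ.zero, hΨ.zero])
    exact huniq ⟨hτ, le_rfl⟩
  have himg : kappa J ψ '' (Φ τ '' A) = Ψ τ '' (kappa J ψ '' A) := by
    rw [Set.image_image, Set.image_image]
    exact Set.image_congr hkey
  have hinj : Set.InjOn (kappa J ψ : Ph N → Ph n) A := by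
    intro z hz w hw hzw
    have h1 := (iota_kappa h hc (hCT (hAC0 z hz)) (hCV z (hAC0 z hz))).2
    have h2 := (iota_kappa h hc (hCT (hAC0 w hw)) (hCV w (hAC0 w hw))).2
    rw [← h1, ← h2, hzw]
  have hmeas : MeasurableSet (kappa J ψ '' A : Set (Ph n)) :=
    hA.image_of_continuousOn_injOn hk.continuousOn hinj
  have hHaar : (volume : Measure (Ph n)).IsAddHaarMeasure := by
    rw [Measure.volume_eq_prod]
    infer_instance
  rw [himg]
  exact liouville_time volume hΨ hX hXB hXd hXt τ _ hmeas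

end Pool.Agent.Helper59.GM
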