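import Pool.Agent.Helper59.GM.SubLem

/-!
# GM-35 ExtLem: the extension operator `ext`

`ext r χ f = pz (x ↦ χ x * f (r x))`, `pz u x = ∑ᶠ k, u (x + latt k)`.

Proof. `u = (x ↦ χ x * f (r x))` has compact support (`chi_supp`). `ext_smooth`: near a point `pz u` is a fixed finite sum of translates of `u` (`pz_support`, as in `contDiff_pz`), and `u` is `C ^ m` (`r`, `χ` are `C ^ ∞`, `m ≤ ∞`). `ext_per`: `pz_per`.
`ext_eq`: let `x ∈ U`; for `k ≠ 0`, `‖x + latt k‖ ≥ ‖latt k‖ - ‖x‖ > 1 - 1/2` so `χ (x + latt k) = 0` (`chi_mem`, `norm_lt`); the finsum has the single term `k = 0`: `χ x * f (r x) = f (r x)` (`finsum_eq_single`). `ext_mem`: `r x = x`. `ext_congr`: `χ x ≠ 0` implies `r x ∈ M`. `ext_ext`: `ext_congr` and `ext_mem`.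
`fderiv_ext`: near `x ∈ M ⊆ U` (open) `ext r χ f = f ∘ r` (`ext_eq`): chain rule, `r x = x`.
-/

set_option autoImplicit false
set_option maxSynthPendingDepth 3

open scoped ContDiff InnerProductSpace Topology
open Pool.Agent.Helper59.GT

namespace Pool.Agent.Helper59.GM

variable {n N : ℕ} {M U : Set (E N)} {r : E N → E N} {χ : E N → ℝ} {g : E N → Bil N}

private theorem extLem_supp (h : Sub n M U r χ) (f : E N → ℝ) : HasCompactSupport (fun x => χ x * f (r x)) :=
  h.chi_supp.mul_right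

private theorem extLem_latt {k : Fin N → ℤ} (hk : ‖(latt k : E N)‖ < 1) : k = 0 := by
  funext i
  have h2 : ‖(latt k : E N) i‖ ≤ ‖(latt k : E N)‖ := PiLp.norm_apply_le _ i
  have h3 : (latt k : E N) i = (k i : ℝ) := rfl
  rw [h3, Real.norm_eq_abs] at h2
  have h4 : |(k i : ℝ)| < 1 := lt_of_le_of_lt h2 hk
  have h5 : |k i| < 1 := by exact_mod_cast h4
  simpa using Int.abs_lt_one_iff.1 h5

theorem ext_smooth (h : Sub n M U r χ) {m : WithTop ℕ∞} (hm : m ≤ ∞) {f : E N → ℝ} (hf : ContDiff ℝ m f) :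
    ContDiff ℝ m (ext r χ f) := by
  have hu : ContDiff ℝ m (fun x => χ x * f (r x)) :=
    (h.chi_smooth.of_le hm).mul (hf.comp (h.smooth.of_le hm))
  rw [contDiff_iff_contDiffAt]
  intro x
  obtain ⟨S, hS⟩ := pz_support (fun x => χ x * f (r x)) (extLem_supp h f) x
  have h1 : ext r χ f =ᶠ[𝓝 x] fun y => ∑ k ∈ S, (fun x => χ x * f (r x)) (y + latt k) := by
    filter_upwards [Metric.ball_mem_nhds x one_pos] with y hy
    unfold ext pz
    apply finsum_eq_sum_of_support_subset
    intro k hk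
    by_contra hkT
    exact hk (hS y hy k fun h => hkT h)
  refine ContDiffAt.congr_of_eventuallyEq ?_ h1
  refine ContDiff.contDiffAt ?_
  exact ContDiff.sum fun k _ => hu.comp (contDiff_id.add contDiff_const)

theorem ext_per (f : E N → ℝ) (k : Fin N → ℤ) (x : E N) : ext r χ f (x + latt k) = ext r χ f x := by
  exact pz_per _ k x

theorem ext_eq (h : Sub n M U r χ) (f : E N → ℝ) {x : E N} (hx : x ∈ U) : ext r χ f x = f (r x) := by
  unfold ext pz
  rw [finsum_eq_single _ 0]
  · have h1 : (latt (0 : Fin N → ℤ) : E N) = 0 := by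
      ext i
      simp [latt]
    rw [h1, add_zero]
    show χ x * f (r x) = f (r x)
    rw [h.chi_one x hx, one_mul]
  · intro k hk
    by_cases h1 : χ (x + latt k) = 0
    · simp [h1]
    · exfalso
      have h2 := (h.chi_mem _ h1).2
      have h3 := h.norm_lt hx
      apply hk
      apply extLem_latt
      have h4 : (latt k : E N) = (x + latt k) - x := by rw [add_sub_cancel_left]
      rw [h4]
      have h5 := norm_sub_le (x + latt k) x
      linarith

theorem ext_mem (h : Sub n M U r χ) (f : E N → ℝ) {x : E N} (hx : x ∈ M) : ext r χ f x = f x := by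
  rw [ext_eq h f (h.sub hx), h.fixed x hx]

theorem ext_congr (h : Sub n M U r χ) {f f' : E N → ℝ} (hf : ∀ x ∈ M, f x = f' x) : ext r χ f = ext r χ f' := by
  have h1 : (fun x => χ x * f (r x)) = fun x => χ x * f' (r x) := by
    funext x
    by_cases h2 : χ x = 0
    · simp [h2]
    · rw [hf _ (h.chi_mem x h2).1]
  unfold ext
  rw [h1]

theorem ext_ext (h : Sub n M U r χ) (f : E N → ℝ) : ext r χ (ext r χ f) = ext r χ f := by
  exact ext_congr h fun _ hx => ext_mem h f hx

theorem fderiv_ext (h : Sub n M U r χ) {f : E N → ℝ} {x : E N} (hx : x ∈ M) (hf : DifferentiableAt ℝ f x) (w : E N) :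
    fderiv ℝ (ext r χ f) x w = fderiv ℝ f x (fderiv ℝ r x w) := by
  have h1 : ext r χ f =ᶠ[𝓝 x] fun y => f (r y) := by
    filter_upwards [h.isOpen.mem_nhds (h.sub hx)] with y hy
    exact ext_eq h f hy
  rw [h1.fderiv_eq]
  have hr : HasFDerivAt r (fderiv ℝ r x) x := (h.smooth.differentiable (by simp) x).hasFDerivAt
  have hf' : HasFDerivAt f (fderiv ℝ f x) (r x) := by
    rw [h.fixed x hx]
    exact hf.hasFDerivAt
  have h2 : HasFDerivAt (fun y => f (r y)) ((fderiv ℝ f x).comp (fderiv ℝ r x)) x := hf'.comp x hr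
  rw [h2.fderiv]
  rfl

end Pool.Agent.Helper59.GM
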