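import Pool.Agent.Helper59.GM.HatEx
import Pool.Agent.Helper59.GM.ExtLem

/-!
# GM-50 CloseMet: small conformal changes are small changes of the metric of `M`

Proof. `pull r (conf u g) x v w = exp (2 u (r x)) * pull r g x v w`, and `u (r x) = u x` for `x ∈ U` (`ext_eq`, `ext r χ u = u`). Let `F x = pull r g x v w`, `‖v‖, ‖w‖ ≤ 1`. On `U`: `F x = G x v w - ⟪v - P_x v, w - P_x w⟫` with `G` from `exists_hat`, so `|F x|` and `|fderiv ℝ F x z|` (`‖z‖ ≤ 1`) are bounded for `x ∈ M` by a constant `C` independent of `v, w, z`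
(`G`, `fderiv ℝ G`, `fderiv ℝ r`, `fderiv ℝ (fderiv ℝ r)` are continuous, so bounded on the compact `M`). The difference of the two functions is `(exp (2 u) - 1) F` near `x ∈ M`: value `≤ |exp (2 u x) - 1| C`, derivative `≤ |exp (2 u x) - 1| C + 2 exp (2 u x) ‖D u x‖ C`. Choose `δ ≤ 1` small: `|exp (2 s) - 1| ≤ 2 exp 2 |s|`-type bounds.
-/

set_option autoImplicit false
set_option maxSynthPendingDepth 3

open scoped ContDiff InnerProductSpace Topology
open Pool.Agent.Helper59.GT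

namespace Pool.Agent.Helper59.GM

variable {n N : ℕ} {M U W : Set (E N)} {r : E N → E N} {χ : E N → ℝ}

theorem close_metric (h : Sub n M U r χ) (hW : IsOpen W) (hχ : tsupport χ ⊆ W) (g : E N → E N → E N → ℝ)
    (hg : GMS.IsMetric ∞ M W r g) (ε : ℝ) (hε : 0 < ε) :
    ∃ δ > 0, ∀ u : E N → ℝ, ContDiff ℝ 1 u → ext r χ u = u → (∀ x, |u x| < δ ∧ ‖fderiv ℝ u x‖ < δ) →
      GMS.CloseMetric M r g (GMS.conf u g) ε := by
  obtain ⟨G, hG, hGU⟩ := exists_hat h hW hχ g hg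
  have hP : ContDiff ℝ ∞ (fderiv ℝ r) := h.smooth.fderiv_right (m := ∞) (by simp)
  obtain ⟨F, hF⟩ : ∃ F : E N × E N × E N → ℝ, F = fun p => G p.1 p.2.1 p.2.2 -
      ⟪p.2.1 - fderiv ℝ r p.1 p.2.1, p.2.2 - fderiv ℝ r p.1 p.2.2⟫_ℝ := ⟨_, rfl⟩
  have hFs : ContDiff ℝ ∞ F := by
    rw [hF]
    have e1 : ContDiff ℝ ∞ (fun p : E N × E N × E N => p.2.1) := contDiff_fst.comp contDiff_snd
    have e2 : ContDiff ℝ ∞ (fun p : E N × E N × E N => p.2.2) := contDiff_snd.comp contDiff_snd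
    have e3 : ContDiff ℝ ∞ (fun p : E N × E N × E N => fderiv ℝ r p.1) := hP.comp contDiff_fst
    have e4 : ContDiff ℝ ∞ (fun p : E N × E N × E N => G p.1) := hG.metric.smooth.comp contDiff_fst
    exact ((e4.clm_apply e1).clm_apply e2).sub
      ((e1.sub (e3.clm_apply e1)).inner ℝ (e2.sub (e3.clm_apply e2)))
  have hFU : ∀ x ∈ U, ∀ a b, GMS.pull r g x a b = F (x, a, b) := by
    intro x hx a b
    rw [hF]
    show _ = G x a b - ⟪a - fderiv ℝ r x a, b - fderiv ℝ r x b⟫_ℝ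
    rw [hGU x hx, add_sub_cancel_right]
  have hFd : Differentiable ℝ F := hFs.differentiable (by simp)
  have hK : IsCompact (M ×ˢ (Metric.closedBall (0 : E N) 1 ×ˢ Metric.closedBall (0 : E N) 1)) :=
    h.compact.prod ((isCompact_closedBall _ _).prod (isCompact_closedBall _ _))
  obtain ⟨C1, hC1⟩ := hK.exists_bound_of_continuousOn hFs.continuous.continuousOn
  have hFc : Continuous (fderiv ℝ F) := hFs.continuous_fderiv (by simp)
  obtain ⟨C2, hC2⟩ := hK.exists_bound_of_continuousOn hFc.continuousOn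
  obtain ⟨C, hC0, hCC1, hCC2⟩ : ∃ C : ℝ, 0 ≤ C ∧ C1 ≤ C ∧ C2 ≤ C :=
    ⟨max 0 (max C1 C2), le_max_left _ _, (le_max_left _ _).trans (le_max_right _ _),
      (le_max_right _ _).trans (le_max_right _ _)⟩
  have hpos : (0 : ℝ) < 10 * C + 10 := by linarith
  refine ⟨min (1 / 2) (ε / (10 * C + 10)), lt_min (by norm_num) (div_pos hε hpos), ?_⟩
  intro u hu hext hub a b ha hb x hx w hw
  obtain ⟨hu1, hu2⟩ := hub x
  have hxU := h.sub hx
  have hmem : ((x, a, b) : E N × E N × E N) ∈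
      M ×ˢ (Metric.closedBall (0 : E N) 1 ×ˢ Metric.closedBall (0 : E N) 1) := by
    refine ⟨hx, ?_, ?_⟩
    · simpa using ha
    · simpa using hb
  have hf1 : |F (x, a, b)| ≤ C := (hC1 _ hmem).trans hCC1
  have hf2 : ‖fderiv ℝ F (x, a, b)‖ ≤ C := (hC2 _ hmem).trans hCC2
  have hf3 : |fderiv ℝ F (x, a, b) (w, 0, 0)| ≤ C := by
    have e1 := (fderiv ℝ F (x, a, b)).le_opNorm (w, 0, 0)
    have e2 : ‖((w, 0, 0) : E N × E N × E N)‖ ≤ 1 := by
      simpa [Prod.norm_def] using hw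
    rw [Real.norm_eq_abs] at e1
    have e3 : ‖fderiv ℝ F (x, a, b)‖ * ‖((w, 0, 0) : E N × E N × E N)‖ ≤ C * 1 :=
      mul_le_mul hf2 e2 (norm_nonneg _) hC0
    linarith
  have hu3 : |fderiv ℝ u x w| ≤ min (1 / 2) (ε / (10 * C + 10)) := by
    have e1 := (fderiv ℝ u x).le_opNorm w
    rw [Real.norm_eq_abs] at e1
    have e3 : ‖fderiv ℝ u x‖ * ‖w‖ ≤ min (1 / 2) (ε / (10 * C + 10)) * 1 :=
      mul_le_mul hu2.le hw (norm_nonneg _) (lt_min (by norm_num) (div_pos hε hpos)).le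
    linarith
  have hder : HasFDerivAt (fun y : E N => F (y, a, b))
      ((fderiv ℝ F (x, a, b)).comp ((ContinuousLinearMap.id ℝ (E N)).prod 0)) x := by
    have e1 : HasFDerivAt (fun y : E N => ((y, a, b) : E N × E N × E N))
        ((ContinuousLinearMap.id ℝ (E N)).prod 0) x :=
      (hasFDerivAt_id x).prodMk (hasFDerivAt_const (a, b) x)
    exact HasFDerivAt.comp (f := fun y : E N => ((y, a, b) : E N × E N × E N)) x
      (hFd (x, a, b)).hasFDerivAt e1
  have hfx : (fun y => GMS.pull r g y a b) =ᶠ[𝓝 x] fun y => F (y, a, b) := by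
    filter_upwards [h.isOpen.mem_nhds hxU] with y hy
    exact hFU y hy a b
  have hud : HasFDerivAt u (fderiv ℝ u x) x := (hu.differentiable (by simp) x).hasFDerivAt
  have hed : HasFDerivAt (fun y => Real.exp (2 * u y)) (Real.exp (2 * u x) • ((2 : ℝ) • fderiv ℝ u x)) x :=
    (hud.const_mul 2).exp
  have hfx' : (fun y => GMS.pull r (GMS.conf u g) y a b) =ᶠ[𝓝 x]
      fun y => Real.exp (2 * u y) * F (y, a, b) := by
    filter_upwards [h.isOpen.mem_nhds hxU] with y hy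
    have e1 : u (r y) = u y := by
      have e2 := ext_eq h u hy
      rw [hext] at e2
      exact e2.symm
    show Real.exp (2 * u (r y)) * GMS.pull r g y a b = _
    rw [e1, hFU y hy a b]
  have hd1 : fderiv ℝ (fun y => GMS.pull r g y a b) x w = fderiv ℝ F (x, a, b) (w, 0, 0) := by
    rw [hfx.fderiv_eq, hder.fderiv]
    rfl
  have hd2 : fderiv ℝ (fun y => GMS.pull r (GMS.conf u g) y a b) x w =
      Real.exp (2 * u x) * fderiv ℝ F (x, a, b) (w, 0, 0) +
        F (x, a, b) * (Real.exp (2 * u x) * (2 * fderiv ℝ u x w)) := by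
    have e1 : HasFDerivAt (fun y => Real.exp (2 * u y) * F (y, a, b)) _ x := hed.mul hder
    rw [hfx'.fderiv_eq, e1.fderiv]
    simp
    rfl
  have hv1 := hfx.eq_of_nhds
  have hv2 := hfx'.eq_of_nhds
  rw [hd1, hd2]
  show |GMS.pull r (GMS.conf u g) x a b - GMS.pull r g x a b| < ε ∧ _
  have hv1' : GMS.pull r g x a b = F (x, a, b) := hv1
  have hv2' : GMS.pull r (GMS.conf u g) x a b = Real.exp (2 * u x) * F (x, a, b) := hv2
  rw [hv1', hv2']
  obtain ⟨δ, hδ⟩ : ∃ δ : ℝ, δ = min (1 / 2) (ε / (10 * C + 10)) := ⟨_, rfl⟩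
  rw [← hδ] at hu1 hu3
  have hδ1 : δ ≤ 1 / 2 := by
    rw [hδ]
    exact min_le_left _ _
  have hδ2 : δ * (10 * C + 10) ≤ ε := by
    rw [← le_div_iff₀ hpos, hδ]
    exact min_le_right _ _
  have hδ0 : 0 < δ := by
    rw [hδ]
    exact lt_min (by norm_num) (div_pos hε hpos)
  have hexp : |Real.exp (2 * u x) - 1| ≤ 4 * δ := by
    have e1 : |2 * u x| ≤ 1 := by
      rw [abs_mul, abs_of_pos (by norm_num : (0 : ℝ) < 2)]
      linarith
    have e2 := Real.abs_exp_sub_one_le e1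
    rw [abs_mul, abs_of_pos (by norm_num : (0 : ℝ) < 2)] at e2
    linarith
  have hexp3 : |Real.exp (2 * u x)| ≤ 3 := by
    rw [abs_of_pos (Real.exp_pos _)]
    have e1 := (abs_le.1 hexp).2
    linarith
  have hCδ : 0 ≤ C * δ := mul_nonneg hC0 hδ0.le
  constructor
  · have e1 : Real.exp (2 * u x) * F (x, a, b) - F (x, a, b) =
        (Real.exp (2 * u x) - 1) * F (x, a, b) := by ring
    rw [e1, abs_mul]
    have e2 : |Real.exp (2 * u x) - 1| * |F (x, a, b)| ≤ 4 * δ * C :=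
      mul_le_mul hexp hf1 (abs_nonneg _) (by linarith)
    nlinarith
  · have e1 : Real.exp (2 * u x) * fderiv ℝ F (x, a, b) (w, 0, 0) +
        F (x, a, b) * (Real.exp (2 * u x) * (2 * fderiv ℝ u x w)) - fderiv ℝ F (x, a, b) (w, 0, 0) =
        (Real.exp (2 * u x) - 1) * fderiv ℝ F (x, a, b) (w, 0, 0) +
        F (x, a, b) * (Real.exp (2 * u x) * (2 * fderiv ℝ u x w)) := by ring
    rw [e1]
    have e2 : |(Real.exp (2 * u x) - 1) * fderiv ℝ F (x, a, b) (w, 0, 0)| ≤ 4 * δ * C := by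
      rw [abs_mul]
      exact mul_le_mul hexp hf3 (abs_nonneg _) (by linarith)
    have e3 : |F (x, a, b) * (Real.exp (2 * u x) * (2 * fderiv ℝ u x w))| ≤ C * (3 * (2 * δ)) := by
      rw [abs_mul, abs_mul, abs_mul, abs_of_pos (by norm_num : (0 : ℝ) < 2)]
      refine mul_le_mul hf1 ?_ (by positivity) hC0
      exact mul_le_mul hexp3 (by linarith) (by positivity) (by norm_num)
    have e4 := abs_add_le ((Real.exp (2 * u x) - 1) * fderiv ℝ F (x, a, b) (w, 0, 0))
      (F (x, a, b) * (Real.exp (2 * u x) * (2 * fderiv ℝ u x w)))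
    nlinarith

end Pool.Agent.Helper59.GM
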