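import Pool.Agent.Helper59.GM.ExtLem

/-!
# GM-36 ExtBound: the extension operator is bounded in the `C ^ 1` norm

Proof. Let `φ = f - f'`, `u y = χ y * φ (r y)`. `ext r χ f - ext r χ f' = ext r χ φ = pz u` (finsums of functions with finite support, `pz_support`). The sets `{y | χ (y + latt k) ≠ 0}` are pairwise disjoint: `‖y + latt k‖ < 1/2` there (`chi_mem`), and `‖latt k‖ ≥ 1` for `k ≠ 0`. Let `G` be their union, an open set.
For `x ∈ G`, `χ (x + latt k) ≠ 0`: near `x`, `ext r χ φ y = u (y + latt k)`. So with `y = x + latt k`: `|ext φ x| ≤ |φ (r y)| ≤ δ` (`r y ∈ M`, `0 ≤ χ ≤ 1`), and `fderiv (ext φ) x w = (Dχ y w) φ (r y) + χ y (Dφ (r y) (P_y w))`; `P_y w` is tangent at `r y` (`PP`), so `|fderiv (ext φ) x w| ≤ (‖Dχ y‖ + ‖P_y‖) δ ‖w‖`, and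
`‖Dχ‖`, `‖P_y‖` are bounded on the compact support of `χ`. `fderiv (ext φ)` is continuous (`ext_smooth`, `C ^ 1`), so the bound holds on the closure of `G`; outside of the closure `ext φ = 0` near the point, so the derivative is `0`. (For `x ∉ G`, `ext φ x = 0`.)
-/

set_option autoImplicit false
set_option maxSynthPendingDepth 3

open scoped ContDiff InnerProductSpace Topology
open Pool.Agent.Helper59.GT

namespace Pool.Agent.Helper59.GM

variable {n N : ℕ} {M U : Set (E N)} {r : E N → E N} {χ : E N → ℝ} {g : E N → Bil N}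

private theorem extBound_small {k : Fin N → ℤ} (hk : ‖(latt k : E N)‖ < 1) : k = 0 := by
  funext i
  have h2 : ‖(latt k : E N) i‖ ≤ ‖(latt k : E N)‖ := PiLp.norm_apply_le _ i
  have h3 : (latt k : E N) i = (k i : ℝ) := rfl
  rw [h3, Real.norm_eq_abs] at h2
  have h4 : |(k i : ℝ)| < 1 := lt_of_le_of_lt h2 hk
  have h5 : |k i| < 1 := by exact_mod_cast h4
  simpa using Int.abs_lt_one_iff.1 h5

private theorem extBound_single (h : Sub n M U r χ) (f : E N → ℝ) {y : E N} {k : Fin N → ℤ}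
    (hk : χ (y + latt k) ≠ 0) : ext r χ f y = χ (y + latt k) * f (r (y + latt k)) := by
  unfold ext pz
  refine finsum_eq_single (fun j : Fin N → ℤ => χ (y + latt j) * f (r (y + latt j))) k ?_
  intro j hj
  by_contra hne
  have hχj : χ (y + latt j) ≠ 0 := left_ne_zero_of_mul hne
  apply hj
  have h1 := (h.chi_mem _ hχj).2
  have h2 := (h.chi_mem _ hk).2
  have h3 : (latt (j - k) : E N) = (y + latt j) - (y + latt k) := by
    ext i
    simp [latt]
  have h4 : ‖(latt (j - k) : E N)‖ < 1 := by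
    rw [h3]
    have := norm_sub_le (y + latt j) (y + latt k)
    linarith
  exact sub_eq_zero.mp (extBound_small h4)

private theorem extBound_zero (f : E N → ℝ) {y : E N} (hk : ∀ k, χ (y + latt k) = 0) :
    ext r χ f y = 0 := by
  unfold ext pz
  apply finsum_eq_zero_of_forall_eq_zero
  intro k
  simp [hk k]

theorem ext_bound (h : Sub n M U r χ) :
    ∃ C : ℝ, 0 < C ∧ ∀ f f' : E N → ℝ, ContDiff ℝ 1 f → ContDiff ℝ 1 f' → ∀ δ : ℝ, 0 ≤ δ →
      (∀ x ∈ M, |f x - f' x| ≤ δ ∧ ∀ w, Tan r x w → |fderiv ℝ f x w - fderiv ℝ f' x w| ≤ δ * ‖w‖) →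
      ∀ x, |ext r χ f x - ext r χ f' x| ≤ C * δ ∧ ‖fderiv ℝ (ext r χ f) x - fderiv ℝ (ext r χ f') x‖ ≤ C * δ := by
  have hrc : Continuous (fderiv ℝ r) := h.smooth.continuous_fderiv (by simp)
  have hχc : Continuous (fderiv ℝ χ) := h.chi_smooth.continuous_fderiv (by simp)
  have hχ0 : Continuous χ := h.chi_smooth.continuous
  have hrd : Differentiable ℝ r := h.smooth.differentiable (by simp)
  have hχd : Differentiable ℝ χ := h.chi_smooth.differentiable (by simp)
  obtain ⟨C1, hC1⟩ := h.chi_supp.isCompact.exists_bound_of_continuousOn hrc.continuousOn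
  obtain ⟨C2, hC2⟩ := h.chi_supp.isCompact.exists_bound_of_continuousOn hχc.continuousOn
  refine ⟨|C1| + |C2| + 1, by positivity, ?_⟩
  intro f f' hf hf' δ hδ hb
  have hCδ : 0 ≤ (|C1| + |C2| + 1) * δ := by positivity
  -- the difference
  obtain ⟨F, hF⟩ : ∃ F : E N → ℝ, F = fun x => ext r χ f x - ext r χ f' x := ⟨_, rfl⟩
  have hsf : ContDiff ℝ 1 (ext r χ f) := ext_smooth h (by simp) hf
  have hsf' : ContDiff ℝ 1 (ext r χ f') := ext_smooth h (by simp) hf'
  have hsF : ContDiff ℝ 1 F := by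
    rw [hF]
    exact hsf.sub hsf'
  have hFd : ∀ x, fderiv ℝ F x = fderiv ℝ (ext r χ f) x - fderiv ℝ (ext r χ f') x := by
    intro x
    rw [hF]
    exact fderiv_fun_sub (hsf.differentiable (by simp) x) (hsf'.differentiable (by simp) x)
  obtain ⟨G, hG⟩ : ∃ G : Set (E N), G = ⋃ k : Fin N → ℤ, {x | χ (x + latt k) ≠ 0} := ⟨_, rfl⟩
  have hmemG : ∀ x, x ∈ G ↔ ∃ k : Fin N → ℤ, χ (x + latt k) ≠ 0 := by
    intro x
    rw [hG]
    simp
  have hnotG : ∀ x, x ∉ G → F x = 0 := by
    intro x hx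
    have h1 : ∀ k : Fin N → ℤ, χ (x + latt k) = 0 := by
      intro k
      by_contra hne
      exact hx ((hmemG x).mpr ⟨k, hne⟩)
    rw [hF]
    simp only
    rw [extBound_zero f h1, extBound_zero f' h1, sub_zero]
  have hval : ∀ x, |F x| ≤ (|C1| + |C2| + 1) * δ := by
    intro x
    by_cases hx : x ∈ G
    · obtain ⟨k, hk⟩ := (hmemG x).mp hx
      have h1 : F x = χ (x + latt k) * (f (r (x + latt k)) - f' (r (x + latt k))) := by
        rw [hF]
        simp only
        rw [extBound_single h f hk, extBound_single h f' hk]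
        ring
      have h2 := (hb _ (h.chi_mem _ hk).1).1
      have h3 := h.chi_nonneg (x + latt k)
      rw [h1, abs_mul, abs_of_nonneg h3.1]
      calc χ (x + latt k) * |f (r (x + latt k)) - f' (r (x + latt k))| ≤ 1 * δ :=
            mul_le_mul h3.2 h2 (abs_nonneg _) zero_le_one
        _ ≤ (|C1| + |C2| + 1) * δ := by
            apply mul_le_mul_of_nonneg_right _ hδ
            have := abs_nonneg C1
            have := abs_nonneg C2
            linarith
    · rw [hnotG x hx, abs_zero]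
      exact hCδ
  have hder : ∀ x ∈ G, ‖fderiv ℝ F x‖ ≤ (|C1| + |C2| + 1) * δ := by
    intro x hx
    obtain ⟨k, hk⟩ := (hmemG x).mp hx
    obtain ⟨u, hu⟩ : ∃ u : E N → ℝ, u = fun y => χ y * (f (r y) - f' (r y)) := ⟨_, rfl⟩
    have h1 : F =ᶠ[nhds x] fun y => u (y + latt k) := by
      have h2 : ∀ᶠ y in nhds x, χ (y + latt k) ≠ 0 := by
        have h3 : ContinuousAt (fun y => χ (y + latt k)) x :=
          (hχ0.comp (continuous_id.add continuous_const)).continuousAt
        exact h3.eventually_ne hk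
      filter_upwards [h2] with y hy
      rw [hF, hu]
      simp only
      rw [extBound_single h f hy, extBound_single h f' hy]
      ring
    rw [h1.fderiv_eq, fderiv_comp_add_right]
    obtain ⟨z, hz⟩ : ∃ z, z = x + latt k := ⟨_, rfl⟩
    rw [← hz] at hk ⊢
    have hzK : z ∈ tsupport χ := subset_tsupport χ hk
    have hfd : Differentiable ℝ f := hf.differentiable (by simp)
    have hfd' : Differentiable ℝ f' := hf'.differentiable (by simp)
    have h4 : HasFDerivAt u (χ z • ((fderiv ℝ f (r z)).comp (fderiv ℝ r z) -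
        (fderiv ℝ f' (r z)).comp (fderiv ℝ r z)) + (f (r z) - f' (r z)) • fderiv ℝ χ z) z := by
      rw [hu]
      have e1 : HasFDerivAt (fun y => f (r y)) ((fderiv ℝ f (r z)).comp (fderiv ℝ r z)) z :=
        (hfd (r z)).hasFDerivAt.comp z (hrd z).hasFDerivAt
      have e2 : HasFDerivAt (fun y => f' (r y)) ((fderiv ℝ f' (r z)).comp (fderiv ℝ r z)) z :=
        (hfd' (r z)).hasFDerivAt.comp z (hrd z).hasFDerivAt
      exact (hχd z).hasFDerivAt.fun_mul (e1.fun_sub e2)
    rw [h4.fderiv]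
    apply ContinuousLinearMap.opNorm_le_bound _ hCδ
    intro w
    have hmem := (h.chi_mem z hk).1
    have hb1 := (hb _ hmem).1
    have hb2 := (hb _ hmem).2 (fderiv ℝ r z w) (h.PP hk w)
    have hχz := h.chi_nonneg z
    have n1 : ‖fderiv ℝ r z w‖ ≤ |C1| * ‖w‖ :=
      ((fderiv ℝ r z).le_opNorm w).trans
        (mul_le_mul_of_nonneg_right ((hC1 z hzK).trans (le_abs_self _)) (norm_nonneg _))
    have n2 : ‖fderiv ℝ χ z w‖ ≤ |C2| * ‖w‖ :=
      ((fderiv ℝ χ z).le_opNorm w).trans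
        (mul_le_mul_of_nonneg_right ((hC2 z hzK).trans (le_abs_self _)) (norm_nonneg _))
    have h5 : (χ z • ((fderiv ℝ f (r z)).comp (fderiv ℝ r z) -
        (fderiv ℝ f' (r z)).comp (fderiv ℝ r z)) + (f (r z) - f' (r z)) • fderiv ℝ χ z) w =
        χ z * (fderiv ℝ f (r z) (fderiv ℝ r z w) - fderiv ℝ f' (r z) (fderiv ℝ r z w)) +
          (f (r z) - f' (r z)) * fderiv ℝ χ z w := rfl
    rw [h5, Real.norm_eq_abs]
    rw [Real.norm_eq_abs] at n2
    have m1 : |χ z * (fderiv ℝ f (r z) (fderiv ℝ r z w) - fderiv ℝ f' (r z) (fderiv ℝ r z w))| ≤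
        1 * (δ * (|C1| * ‖w‖)) := by
      rw [abs_mul, abs_of_nonneg hχz.1]
      exact mul_le_mul hχz.2 (hb2.trans (mul_le_mul_of_nonneg_left n1 hδ)) (abs_nonneg _)
        zero_le_one
    have m2 : |(f (r z) - f' (r z)) * fderiv ℝ χ z w| ≤ δ * (|C2| * ‖w‖) := by
      rw [abs_mul]
      exact mul_le_mul hb1 n2 (abs_nonneg _) hδ
    have m3 : 0 ≤ δ * ‖w‖ := mul_nonneg hδ (norm_nonneg _)
    calc |χ z * (fderiv ℝ f (r z) (fderiv ℝ r z w) - fderiv ℝ f' (r z) (fderiv ℝ r z w)) +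
          (f (r z) - f' (r z)) * fderiv ℝ χ z w|
        ≤ 1 * (δ * (|C1| * ‖w‖)) + δ * (|C2| * ‖w‖) := (abs_add_le _ _).trans (add_le_add m1 m2)
      _ ≤ (|C1| + |C2| + 1) * δ * ‖w‖ := by nlinarith [m3]
  have hclosed : ∀ x ∈ closure G, ‖fderiv ℝ F x‖ ≤ (|C1| + |C2| + 1) * δ := by
    have hc : IsClosed {x | ‖fderiv ℝ F x‖ ≤ (|C1| + |C2| + 1) * δ} :=
      isClosed_le (hsF.continuous_fderiv (by simp)).norm continuous_const
    exact fun x hx => closure_minimal (fun y hy => hder y hy) hc hx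
  intro x
  refine ⟨?_, ?_⟩
  · have h1 := hval x
    rw [hF] at h1
    exact h1
  · rw [← hFd x]
    by_cases hx : x ∈ closure G
    · exact hclosed x hx
    · have h1 : F =ᶠ[nhds x] fun _ => (0 : ℝ) := by
        filter_upwards [isClosed_closure.isOpen_compl.mem_nhds hx] with y hy
        exact hnotG y (fun h' => hy (subset_closure h'))
      rw [h1.fderiv_eq, fderiv_fun_const]
      simpa using hCδ

end Pool.Agent.Helper59.GM
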