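import Pool.Agent.Helper59.GM.SubLem
import Pool.Agent.Helper59.GT.ELUnif

/-!
# GM-03 HatEL: the Euler-Lagrange covector of a hat metric in normal directions

Proof. `hat_EL`. Let `a₀` be the function `a` of `Hat.eq`, `P = fderiv ℝ r x`, `Q = fderiv ℝ (fderiv ℝ r) x`, `w₂ = w - P w`, so `P w₂ = 0` (`tan_of_range`). Near `x` (in the open set `U`) `g y u w = g (r y) (P_y u) (P_y w) + a₀ y ⟪u - P_y u, w - P_y w⟫`; differentiate this formula at `y = x` (product and chain rules;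
`r x = x`, and `fderiv ℝ g`, `fderiv ℝ a₀`, `Q` appear). By `EL_apply`, `EL g x v a w₂ = g x a w₂ + fderiv ℝ g x v v w₂ - (1 / 2) fderiv ℝ g x w₂ v v` with `P v = v`:
* `g x a w₂ = g x (P a) 0 + a₀ ⟪a - P a, w₂⟫`;
* `fderiv ℝ g x v v w₂`: the terms with `fderiv ℝ g x (P v) (P v) (P w₂)`, `g x (Q v v) (P w₂)`, `(D a₀ v) ⟪v - P v, _⟫`, `a₀ ⟪v - P v, _⟫` vanish; there remain `g x v (Q v w₂)` and `- a₀ ⟪Q v v, w₂⟫`;
* `fderiv ℝ g x w₂ v v`: `fderiv ℝ g x (P w₂) v v = 0`, the normal terms vanish because `v - P v = 0`; there remains `2 g x (Q w₂ v) v` (symmetry of `g x`).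
`Q v w₂ = Q w₂ v` (`D2_symm`) and the symmetry of `g x` give `EL g x v a w₂ = a₀ x ⟪a - P a - Q v v, w₂⟫`.
If `w - P w = 0` for all `w`, take `α = 1` (both sides are `0`). Otherwise `z = w - P w ≠ 0` for some `w`, `P z = 0`, `0 < g x z z = a₀ x ‖z‖ ^ 2` (`Hat.eq`, `g x (P z) (P z) = 0`), so `α = a₀ x > 0`.
`hat_EL_curve`: for a smooth curve `c` in `M`, `c'' - P c'' - Q c' c' = 0` (`acc_curve`, `tan_curve`), so `EL (c, c', c'') (w - P w) = 0`.
`hat_apply`: for `x ∈ M` and a tangent vector `v`: `g x v w = g x v (P x w)` (`Hat.eq`, `v - P v = 0`, `r x = x`; `P v = v`).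
-/

set_option autoImplicit false
set_option maxSynthPendingDepth 3

open scoped ContDiff InnerProductSpace
open Pool.Agent.Helper59.GT

namespace Pool.Agent.Helper59.GM

variable {n N : ℕ} {M U : Set (E N)} {r : E N → E N} {χ : E N → ℝ} {g : E N → Bil N}

theorem hat_apply (h : Sub n M U r χ) {m : WithTop ℕ∞} (hg : Hat m U r g) {x : E N} (hx : x ∈ M) {v : E N} (hv : Tan r x v) (w : E N) :
    g x v w = g x v (fderiv ℝ r x w) := by
  obtain ⟨a, -, ha⟩ := hg.eq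
  have h1 := ha x (h.sub hx) v w
  have hv' : fderiv ℝ r x v = v := hv
  rw [h.fixed x hx, hv', sub_self, inner_zero_left, mul_zero, add_zero] at h1
  exact h1

private theorem HatEL_deriv (h : Sub n M U r χ) {x : E N} (hx : x ∈ M) (hgs : ContDiff ℝ ∞ g) {a₀ : E N → ℝ}
    (ha₀ : Differentiable ℝ a₀) (ha : ∀ x ∈ U, ∀ u w, g x u w =
      g (r x) (fderiv ℝ r x u) (fderiv ℝ r x w) + a₀ x * ⟪u - fderiv ℝ r x u, w - fderiv ℝ r x w⟫_ℝ) (v u w : E N) :
    fderiv ℝ g x v u w = fderiv ℝ g x (fderiv ℝ r x v) (fderiv ℝ r x u) (fderiv ℝ r x w)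
      + g x (fderiv ℝ (fderiv ℝ r) x v u) (fderiv ℝ r x w) + g x (fderiv ℝ r x u) (fderiv ℝ (fderiv ℝ r) x v w)
      + (fderiv ℝ a₀ x v * ⟪u - fderiv ℝ r x u, w - fderiv ℝ r x w⟫_ℝ
      + a₀ x * (⟪u - fderiv ℝ r x u, -fderiv ℝ (fderiv ℝ r) x v w⟫_ℝ
        + ⟪-fderiv ℝ (fderiv ℝ r) x v u, w - fderiv ℝ r x w⟫_ℝ)) := by
  have hrx : r x = x := h.fixed x hx
  have hγ : HasDerivAt (fun s : ℝ => x + s • v) v 0 := by
    have h1 := ((hasDerivAt_id (0 : ℝ)).smul_const v).const_add x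
    rwa [one_smul] at h1
  have hγ0 : x + (0 : ℝ) • v = x := by rw [zero_smul, add_zero]
  have hgd : DifferentiableAt ℝ g (x + (0 : ℝ) • v) := hgs.differentiable (by simp) _
  have hrd : DifferentiableAt ℝ r (x + (0 : ℝ) • v) := h.smooth.differentiable (by simp) _
  have hr2 : ContDiff ℝ 1 (fderiv ℝ r) := h.smooth.fderiv_right (m := 1) (by norm_cast)
  have hrd2 : DifferentiableAt ℝ (fderiv ℝ r) (x + (0 : ℝ) • v) := hr2.differentiable (by norm_num) _
  have hgd' : DifferentiableAt ℝ g (r (x + (0 : ℝ) • v)) := hgs.differentiable (by simp) _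
  have dg : HasDerivAt (fun s : ℝ => g (x + s • v)) (fderiv ℝ g (x + (0 : ℝ) • v) v) 0 :=
    hgd.hasFDerivAt.comp_hasDerivAt 0 hγ
  have dr : HasDerivAt (fun s : ℝ => r (x + s • v)) (fderiv ℝ r (x + (0 : ℝ) • v) v) 0 :=
    hrd.hasFDerivAt.comp_hasDerivAt 0 hγ
  have dP : HasDerivAt (fun s : ℝ => fderiv ℝ r (x + s • v)) (fderiv ℝ (fderiv ℝ r) (x + (0 : ℝ) • v) v) 0 :=
    hrd2.hasFDerivAt.comp_hasDerivAt 0 hγ
  have dgr : HasDerivAt (fun s : ℝ => g (r (x + s • v)))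
      (fderiv ℝ g (r (x + (0 : ℝ) • v)) (fderiv ℝ r (x + (0 : ℝ) • v) v)) 0 :=
    hgd'.hasFDerivAt.comp_hasDerivAt 0 dr
  have da : HasDerivAt (fun s : ℝ => a₀ (x + s • v)) (fderiv ℝ a₀ (x + (0 : ℝ) • v) v) 0 :=
    (ha₀ _).hasFDerivAt.comp_hasDerivAt 0 hγ
  have dPu : HasDerivAt (fun s : ℝ => fderiv ℝ r (x + s • v) u)
      (fderiv ℝ (fderiv ℝ r) (x + (0 : ℝ) • v) v u) 0 := by
    have h1 := dP.clm_apply (hasDerivAt_const (0 : ℝ) u)
    simpa using h1
  have dPw : HasDerivAt (fun s : ℝ => fderiv ℝ r (x + s • v) w)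
      (fderiv ℝ (fderiv ℝ r) (x + (0 : ℝ) • v) v w) 0 := by
    have h1 := dP.clm_apply (hasDerivAt_const (0 : ℝ) w)
    simpa using h1
  have d1 := (dgr.clm_apply dPu).clm_apply dPw
  have d2 := da.mul ((dPu.const_sub u).inner ℝ (dPw.const_sub w))
  have d3 := d1.add d2
  have d4 : HasDerivAt (fun s : ℝ => g (x + s • v) u w) (fderiv ℝ g (x + (0 : ℝ) • v) v u w) 0 := by
    have h1 := (dg.clm_apply (hasDerivAt_const (0 : ℝ) u)).clm_apply (hasDerivAt_const (0 : ℝ) w)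
    simpa using h1
  have hU : ∀ᶠ s : ℝ in nhds 0, x + s • v ∈ U := by
    have h1 : Filter.Tendsto (fun s : ℝ => x + s • v) (nhds 0) (nhds (x + (0 : ℝ) • v)) := hγ.continuousAt.tendsto
    rw [hγ0] at h1
    exact h1.eventually (h.isOpen.mem_nhds (h.sub hx))
  have d5 := d3.congr_of_eventuallyEq (f₁ := fun s : ℝ => g (x + s • v) u w) (by
    filter_upwards [hU] with s hs
    exact ha _ hs u w)
  have d6 := d4.unique d5
  rw [hγ0, hrx] at d6
  rw [d6]
  rfl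

theorem hat_EL (h : Sub n M U r χ) (hg : Hat ∞ U r g) {x : E N} (hx : x ∈ M) :
    ∃ α : ℝ, 0 < α ∧ ∀ v a w : E N, Tan r x v →
      EL g x v a (w - fderiv ℝ r x w) = α * ⟪a - fderiv ℝ r x a - fderiv ℝ (fderiv ℝ r) x v v, w - fderiv ℝ r x w⟫_ℝ := by
  obtain ⟨a₀, ha₀, ha⟩ := hg.eq
  have hrx : r x = x := h.fixed x hx
  have hPw : ∀ w, fderiv ℝ r x (w - fderiv ℝ r x w) = 0 := by
    intro w
    have h1 : fderiv ℝ r x (fderiv ℝ r x w) = fderiv ℝ r x w := h.tan_of_range hx w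
    rw [map_sub, h1, sub_self]
  have key : ∀ v a w : E N, Tan r x v → EL g x v a (w - fderiv ℝ r x w) =
      a₀ x * ⟪a - fderiv ℝ r x a - fderiv ℝ (fderiv ℝ r) x v v, w - fderiv ℝ r x w⟫_ℝ := by
    intro v a w hv
    have hv' : fderiv ℝ r x v = v := hv
    obtain ⟨z, hz⟩ : ∃ z, z = w - fderiv ℝ r x w := ⟨_, rfl⟩
    have hPz : fderiv ℝ r x z = 0 := by rw [hz]; exact hPw w
    rw [← hz, EL_apply]
    have e1 := ha x (h.sub hx) a z
    have e2 := HatEL_deriv h hx hg.metric.smooth ha₀ ha v v z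
    have e3 := HatEL_deriv h hx hg.metric.smooth ha₀ ha z v v
    have e4 := h.D2_symm x v z
    have e5 := hg.metric.symm x v (fderiv ℝ (fderiv ℝ r) x z v)
    rw [hrx, hPz, sub_zero, map_zero, zero_add] at e1
    rw [hv', hPz, sub_self, sub_zero, map_zero, map_zero, inner_zero_left, inner_zero_left, e4] at e2
    rw [hv', hPz, sub_self, map_zero, inner_zero_left, inner_zero_left, inner_zero_right] at e3
    simp only [ContinuousLinearMap.zero_apply] at e3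
    rw [e1, e2, e3, ← e5]
    simp only [inner_sub_left, inner_neg_left]
    ring
  by_cases hz : ∀ w, w - fderiv ℝ r x w = 0
  · refine ⟨1, one_pos, fun v a w _ => ?_⟩
    rw [hz w, map_zero, inner_zero_right, mul_zero]
  · push Not at hz
    obtain ⟨w, hw⟩ := hz
    refine ⟨a₀ x, ?_, key⟩
    have e1 := ha x (h.sub hx) (w - fderiv ℝ r x w) (w - fderiv ℝ r x w)
    have e2 := hg.metric.pos x _ hw
    rw [hrx, hPw, sub_zero, map_zero, zero_add, real_inner_self_eq_norm_sq] at e1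
    rw [e1] at e2
    exact pos_of_mul_pos_left e2 (by positivity)

theorem hat_EL_curve (h : Sub n M U r χ) (hg : Hat ∞ U r g) {c : ℝ → E N} (hs : ContDiff ℝ ∞ c) (hc : ∀ t, c t ∈ M)
    (t : ℝ) (w : E N) :
    EL g (c t) (deriv c t) (deriv (deriv c) t) (fderiv ℝ r (c t) w) = EL g (c t) (deriv c t) (deriv (deriv c) t) w := by
  obtain ⟨α, -, hα⟩ := hat_EL h hg (hc t)
  have h1 := hα (deriv c t) (deriv (deriv c) t) w (h.tan_curve hc (hs.differentiable (by simp) t))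
  have h2 : deriv (deriv c) t - fderiv ℝ r (c t) (deriv (deriv c) t)
      - fderiv ℝ (fderiv ℝ r) (c t) (deriv c t) (deriv c t) = 0 := by
    have h3 := h.acc_curve hs hc t
    rw [sub_sub, sub_eq_zero, add_comm]
    exact h3
  rw [h2, inner_zero_left, mul_zero, map_sub] at h1
  exact (sub_eq_zero.1 h1).symm

end Pool.Agent.Helper59.GM
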