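import Pool.Agent.Helper59.GM.UnitLoopM
import Pool.Agent.Helper59.GM.ExtBound
import Pool.Agent.Helper59.GM.HatEL
import Pool.Agent.Helper59.GT.Closing

/-!
# GM-37 ClosingM: part (a) on `M`: `C ^ 1`-small conformal perturbations with an `ε`-dense closed geodesic

Proof. As GT-39 `Closing`. `C` from `exists_small_jet`, `C'` from `ext_bound`; `ε₁, η` small: `C' (C (ε₁ + η) + η) < ε`, `ε₁ ≤ ε / 2`, and such that unit vectors of `conf u g` are close to unit vectors of `g`. `c, P` from `exists_unit_loopM` for `ε₁`; `α t = EL g (c t) (c' t) (c'' t)`: smooth in `t`, `P`-periodic, `‖α‖ ≤ ε₁`, `α t (c' t) = 0`, `c' ≠ 0`.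
The hypotheses of `exists_small_jet` (with lattice translations): `c (t + P) = c t + latt 0`; if `c s = c t + latt k` then `k = 0` (`Sub.latt_eq`, `M ⊆ U`) and the embeddedness applies. It gives `f` periodic with `f (c t) = 0`, `fderiv f (c t) = α t`, `|f| ≤ η`, `‖D f‖ ≤ C (ε₁ + η)`. `u = ext r χ f`: smooth, `ext r χ u = u` (`ext_ext`), periodic (`ext_per`),
small by `ext_bound` with `f' = 0` (`δ = C (ε₁ + η) + η`; `ext r χ 0 = 0`). `u (c t) = f (c t) = 0` (`ext_mem`), `fderiv u (c t) w = α t (P w) = α t w` (`fderiv_ext`, `hat_EL_curve`). So `geodesic_conf` applies: `c` is a unit speed geodesic of `conf u g`, contained in `M`. `EpsM` for `conf u g`: if `v` is tangent with `conf u g x v v = 1` then `exp (u x) v` is tangent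
and of unit length for `g`; continue as in `Closing`.
-/

set_option autoImplicit false
set_option maxSynthPendingDepth 3

open scoped ContDiff InnerProductSpace
open Pool.Agent.Helper59.GT

namespace Pool.Agent.Helper59.GM

variable {n N : ℕ} {M U : Set (E N)} {r : E N → E N} {χ : E N → ℝ} {g : E N → Bil N}

private theorem closingM_fderiv_per {n : ℕ} {g : E n → Bil n} (hper : ∀ k x, g (x + latt k) = g x)
    (k : Fin n → ℤ) (x : E n) : fderiv ℝ g (x + latt k) = fderiv ℝ g x := by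
  rw [← fderiv_comp_add_right]
  congr 1
  funext y
  exact hper k y

private theorem closingM_deriv_per {n : ℕ} {c : ℝ → E n} {P : ℝ} (h : ∀ t, c (t + P) = c t)
    (t : ℝ) : deriv c (t + P) = deriv c t := by
  rw [← deriv_comp_add_const]
  have h1 : (fun x => c (x + P)) = c := funext h
  rw [h1]

private theorem closingM_ext_zero (x : E N) : ext r χ (fun _ => (0 : ℝ)) x = 0 := by
  simp [ext, pz]

theorem closingM (hn : 3 ≤ n) (h : Sub n M U r χ) (hg : Hat ∞ U r g) (ε : ℝ) (hε : 0 < ε) :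
    ∃ u : E N → ℝ, ContDiff ℝ ∞ u ∧ ext r χ u = u ∧ (∀ x, |u x| < ε ∧ ‖fderiv ℝ u x‖ < ε) ∧
      ∃ (c : ℝ → E N) (P : ℝ), 0 < P ∧ (∀ t, c (t + P) = c t) ∧ MGeo M (conf u g) c ∧
        EpsM M r (conf u g) c ε Set.univ := by
  obtain ⟨C, hC, hjet⟩ := exists_small_jet (n := N)
  obtain ⟨C', hC', hbd⟩ := ext_bound h
  obtain ⟨a, b, ha, hb, hab⟩ := metric_bounds hg.metric
  have hsa : 0 < Real.sqrt a := Real.sqrt_pos.2 ha
  obtain ⟨K, hK⟩ : ∃ K : ℝ, K = C' * (2 * C + 1) := ⟨_, rfl⟩
  have hKpos : 0 < K := by rw [hK]; positivity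
  obtain ⟨η, hη, hη1, hηε, hηC, hηa⟩ : ∃ η : ℝ, 0 < η ∧ K * η ≤ 1 ∧ η ≤ ε / 2 ∧ K * η ≤ ε / 2 ∧
      8 * (K * η) ≤ ε * Real.sqrt a := by
    refine ⟨min (min (1 / K) (ε / 2)) (min (ε / (2 * K)) (ε * Real.sqrt a / (8 * K))), ?_, ?_, ?_, ?_, ?_⟩
    · refine lt_min (lt_min (by positivity) (by positivity)) (lt_min (by positivity) (by positivity))
    · have h1 : min (min (1 / K) (ε / 2)) (min (ε / (2 * K)) (ε * Real.sqrt a / (8 * K))) ≤ 1 / K :=
        (min_le_left _ _).trans (min_le_left _ _)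
      calc K * _ ≤ K * (1 / K) := mul_le_mul_of_nonneg_left h1 hKpos.le
        _ = 1 := by field_simp
    · exact (min_le_left _ _).trans (min_le_right _ _)
    · have h1 : min (min (1 / K) (ε / 2)) (min (ε / (2 * K)) (ε * Real.sqrt a / (8 * K))) ≤
          ε / (2 * K) := (min_le_right _ _).trans (min_le_left _ _)
      calc K * _ ≤ K * (ε / (2 * K)) := mul_le_mul_of_nonneg_left h1 hKpos.le
        _ = ε / 2 := by field_simp
    · have h1 : min (min (1 / K) (ε / 2)) (min (ε / (2 * K)) (ε * Real.sqrt a / (8 * K))) ≤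
          ε * Real.sqrt a / (8 * K) := (min_le_right _ _).trans (min_le_right _ _)
      calc 8 * (K * _) ≤ 8 * (K * (ε * Real.sqrt a / (8 * K))) :=
            mul_le_mul_of_nonneg_left (mul_le_mul_of_nonneg_left h1 hKpos.le) (by norm_num)
        _ = ε * Real.sqrt a := by field_simp
  obtain ⟨c, P, hP, hcs, hper, hcM, hemb, hus, hEL, hdense⟩ := exists_unit_loopM hn h hg η hη
  have hd1 : ContDiff ℝ ∞ (deriv c) := ((contDiff_infty_iff_deriv).1 hcs).2
  have hd2 : ContDiff ℝ ∞ (deriv (deriv c)) := ((contDiff_infty_iff_deriv).1 hd1).2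
  have hgc : ContDiff ℝ ∞ (fun t => g (c t)) := hg.metric.smooth.comp hcs
  have hdg : ContDiff ℝ ∞ (fderiv ℝ g) := hg.metric.smooth.fderiv_right (by simp)
  have hdgc : ContDiff ℝ ∞ (fun t => fderiv ℝ g (c t)) := hdg.comp hcs
  obtain ⟨α, hα⟩ : ∃ α : ℝ → E N →L[ℝ] ℝ,
      α = fun t => EL g (c t) (deriv c t) (deriv (deriv c) t) := ⟨_, rfl⟩
  have hαs : ContDiff ℝ ∞ α := by
    rw [contDiff_clm_apply_iff]
    intro w
    have e : (fun t => α t w) = fun t => g (c t) (deriv (deriv c) t) w +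
        fderiv ℝ g (c t) (deriv c t) (deriv c t) w -
        (1 / 2) * fderiv ℝ g (c t) w (deriv c t) (deriv c t) := by
      funext t
      rw [hα, EL_apply]
    rw [e]
    refine ContDiff.sub (ContDiff.add ?_ ?_) (contDiff_const.mul ?_)
    · exact (hgc.clm_apply hd2).clm_apply contDiff_const
    · exact ((hdgc.clm_apply hd1).clm_apply hd1).clm_apply contDiff_const
    · exact ((hdgc.clm_apply contDiff_const).clm_apply hd1).clm_apply hd1
  have hp1 : ∀ t, deriv c (t + P) = deriv c t := closingM_deriv_per hper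
  have hp2 : ∀ t, deriv (deriv c) (t + P) = deriv (deriv c) t := closingM_deriv_per hp1
  have hαP : ∀ t, α (t + P) = α t := by
    intro t
    ext w
    rw [hα, EL_apply, EL_apply, hp1, hp2, hper]
  have hα0 : ∀ t, α t (deriv c t) = 0 := by
    intro t
    have h1 := EL_energy hg.metric hcs t
    have h2 : (fun s => g (c s) (deriv c s) (deriv c s)) = fun _ => (1 : ℝ) := funext hus
    rw [h2] at h1
    have h3 := h1.unique (hasDerivAt_const t (1 : ℝ))
    have h4 : α t (deriv c t) = EL g (c t) (deriv c t) (deriv (deriv c) t) (deriv c t) := by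
      rw [hα]
    rw [h4]
    linarith
  have hreg : ∀ t, deriv c t ≠ 0 := by
    intro t h0
    have h1 := hus t
    rw [h0, map_zero] at h1
    exact zero_ne_one h1
  have hper0 : ∃ k : Fin N → ℤ, ∀ t, c (t + P) = c t + latt k := by
    refine ⟨0, fun t => ?_⟩
    rw [latt_zero, add_zero]
    exact hper t
  have hemb' : ∀ s t, (∃ k : Fin N → ℤ, c s = c t + latt k) → ∃ m : ℤ, s - t = m * P := by
    rintro s t ⟨k, hk⟩
    have hk0 : k = 0 := h.latt_eq (h.sub (hcM s)) (h.sub (hcM t)) k hk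
    rw [hk0, latt_zero, add_zero] at hk
    exact hemb s t hk
  have hαb : ∀ t, ‖α t‖ ≤ η := by
    intro t
    rw [hα]
    exact hEL t
  obtain ⟨f, hfs, hfp, hfj, hfb⟩ := hjet c P hP hcs hper0 hemb' hreg α hαs hαP hα0 η η hη.le hη hαb
  have hfd : Differentiable ℝ f := hfs.differentiable (by simp)
  have husm : ContDiff ℝ ∞ (ext r χ f) := ext_smooth h le_rfl hfs
  have hup : ∀ k x, ext r χ f (x + latt k) = ext r χ f x := fun k x => ext_per f k x
  have hu0 : ∀ t, ext r χ f (c t) = 0 := by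
    intro t
    rw [ext_mem h f (hcM t)]
    exact (hfj t).1
  have hu1 : ∀ t, fderiv ℝ (ext r χ f) (c t) = EL g (c t) (deriv c t) (deriv (deriv c) t) := by
    intro t
    ext w
    rw [fderiv_ext h (hcM t) (hfd (c t)) w, (hfj t).2, hα]
    exact hat_EL_curve h hg hcs hcM t w
  have hub : ∀ x, |ext r χ f x| ≤ K * η ∧ ‖fderiv ℝ (ext r χ f) x‖ ≤ K * η := by
    have hδ : 0 ≤ (2 * C + 1) * η := by positivity
    have h1 := hbd f (fun _ => 0) (hfs.of_le (by exact_mod_cast le_top)) contDiff_const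
      ((2 * C + 1) * η) hδ (by
        intro x _
        constructor
        · rw [sub_zero]
          have h2 := (hfb x).1
          nlinarith [mul_pos hC hη]
        · intro w _
          rw [fderiv_fun_const]
          have h2 := (hfb x).2
          have h3 := (fderiv ℝ f x).le_opNorm w
          rw [Real.norm_eq_abs] at h3
          have h4 : C * (η + η) ≤ (2 * C + 1) * η := by nlinarith
          simp only [Pi.zero_apply, ContinuousLinearMap.zero_apply, sub_zero]
          exact h3.trans (mul_le_mul_of_nonneg_right (h2.trans h4) (norm_nonneg w)))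
    intro x
    have h2 := h1 x
    have hz : ext r χ (fun _ => (0 : ℝ)) = fun _ => (0 : ℝ) := funext closingM_ext_zero
    rw [hz] at h2
    rw [fderiv_fun_const] at h2
    simp only [Pi.zero_apply, sub_zero] at h2
    rw [hK]
    constructor
    · calc |ext r χ f x| ≤ C' * ((2 * C + 1) * η) := h2.1
        _ = C' * (2 * C + 1) * η := by ring
    · calc ‖fderiv ℝ (ext r χ f) x‖ ≤ C' * ((2 * C + 1) * η) := h2.2
        _ = C' * (2 * C + 1) * η := by ring
  obtain ⟨hgeo, hunit⟩ := geodesic_conf hg.metric husm hup hcs hus hu0 hu1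
  refine ⟨ext r χ f, husm, ext_ext h f, fun x => ⟨?_, ?_⟩, c, P, hP, hper, ⟨hgeo, hunit, hcM⟩, ?_⟩
  · have := (hub x).1
    linarith
  · have := (hub x).2
    linarith
  intro x hx v hvt hv
  obtain ⟨u, hu⟩ : ∃ u : ℝ, u = ext r χ f x := ⟨_, rfl⟩
  have hub1 : |u| ≤ K * η := by rw [hu]; exact (hub x).1
  have hv1 : Real.exp (2 * u) * g x v v = 1 := by
    have h1 : conf (ext r χ f) g x v v = Real.exp (2 * u) * g x v v := by
      simp [conf, hu]
    rw [← h1]; exact hv
  obtain ⟨v', hv'⟩ : ∃ v' : E N, v' = Real.exp u • v := ⟨_, rfl⟩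
  have hv2 : g x v' v' = 1 := by
    have e1 : (g x) (Real.exp u • v) = Real.exp u • (g x) v := map_smul (g x) _ _
    rw [hv', e1, ContinuousLinearMap.smul_apply, map_smul, smul_eq_mul, smul_eq_mul, ← mul_assoc,
      ← Real.exp_add, ← two_mul]
    exact hv1
  have hvt' : Tan r x v' := by
    have h1 : fderiv ℝ r x v = v := hvt
    show fderiv ℝ r x v' = v'
    rw [hv', map_smul, h1]
  obtain ⟨t, -, h1, h2⟩ := hdense x hx v' hvt' hv2
  refine ⟨t, Set.mem_univ _, by linarith, ?_⟩
  have hvv : v' - v = (1 - Real.exp (-u)) • v' := by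
    rw [sub_smul, one_smul, hv', smul_smul, ← Real.exp_add, neg_add_cancel, Real.exp_zero, one_smul]
  have hu2 : |(-u)| ≤ K * η := by rw [abs_neg]; exact hub1
  have he : |1 - Real.exp (-u)| ≤ 2 * (K * η) := by
    rw [abs_sub_comm]
    have h3 := Real.abs_exp_sub_one_le (hu2.trans hη1)
    linarith
  have hn' : Real.sqrt a * ‖v'‖ ≤ 1 := by
    have h3 := (hab x v').1
    rw [hv2] at h3
    have h4 : (Real.sqrt a * ‖v'‖) ^ 2 ≤ 1 ^ 2 := by
      rw [mul_pow, Real.sq_sqrt ha.le, one_pow]; exact h3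
    exact (pow_le_pow_iff_left₀ (by positivity) zero_le_one two_ne_zero).1 h4
  have hdiff : ‖v' - v‖ ≤ ε / 4 := by
    rw [hvv, norm_smul, Real.norm_eq_abs]
    calc |1 - Real.exp (-u)| * ‖v'‖ ≤ (2 * (K * η)) * ‖v'‖ :=
          mul_le_mul_of_nonneg_right he (norm_nonneg _)
      _ ≤ (ε * Real.sqrt a / 4) * ‖v'‖ :=
          mul_le_mul_of_nonneg_right (by linarith) (norm_nonneg _)
      _ = (ε / 4) * (Real.sqrt a * ‖v'‖) := by ring
      _ ≤ (ε / 4) * 1 := mul_le_mul_of_nonneg_left hn' (by positivity)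
      _ = ε / 4 := mul_one _
  calc ‖deriv c t - v‖ = ‖(deriv c t - v') + (v' - v)‖ := by congr 1; abel
    _ ≤ ‖deriv c t - v'‖ + ‖v' - v‖ := norm_add_le _ _
    _ < ε := by linarith

end Pool.Agent.Helper59.GM
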