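import Pool.Agent.Helper59.GM.SmoothM
import Pool.Agent.Helper59.GM.ExtBound
import Pool.Agent.Helper59.GT.Limit
import Pool.Agent.Helper59.GT.ConfConv
import Pool.Agent.Helper59.GT.Mollify

/-!
# GM-40 ExistC1M: existence of geodesics in `M` for the metrics `conf u g`, `u` of class `C ^ 1`

Proof. As GT-45 `ExistC1`. For `j : ℕ` take smooth periodic `v_j` with `|v_j - u|, ‖D v_j - D u‖ < 1 / (j + 1)` (`exists_smooth_near`; `u = ext r χ u` is periodic) and `u_j = ext r χ v_j`: smooth, `ext r χ u_j = u_j` (`ext_ext`), and `|u_j - u|, ‖D u_j - D u‖ ≤ C / (j + 1)` (`ext_bound` and `u = ext r χ u`). `ConvMet (conf u_j g) (conf u g)` by `conf_conv`.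
`w_j = (√(conf u_j g x v v))⁻¹ • v → v`, tangent and unit for `conf u_j g`; `c_j` from `exists_geoM` (`hat_conf`) with `c_j 0 = x`, `c_j' 0 = w_j`. `limit_geodesic` with `U = Filter.hyperfilter ℕ` gives `c`, a limit of `c_j` pointwise, so `c t ∈ M` (closed); `c 0 = x`, `c' 0 = lim w_j = v`.
`limitM`: the general form of `limit_geodesic` for geodesics in `M` (the limit is in `M` because `M` is closed; `‖c_j 0‖ < 1/2` since `M ⊆ U`).
-/

set_option autoImplicit false
set_option maxSynthPendingDepth 3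

open scoped ContDiff InnerProductSpace Topology
open Pool.Agent.Helper59.GT Filter

namespace Pool.Agent.Helper59.GM

variable {n N : ℕ} {M U : Set (E N)} {r : E N → E N} {χ : E N → ℝ} {g : E N → Bil N}

theorem limitM (h : Sub n M U r χ) (W : Ultrafilter ℕ) (hW : (W : Filter ℕ) ≤ atTop) (hg : IsMetric 1 g)
    (gs : ℕ → E N → Bil N) (hgs : ∀ j, IsMetric 1 (gs j)) (hconv : ConvMet gs g) (cs : ℕ → ℝ → E N)
    (hcs : ∀ j, MGeo M (gs j) (cs j)) :
    ∃ c : ℝ → E N, MGeo M g c ∧ (∀ t, Tendsto (fun j => cs j t) W (𝓝 (c t))) ∧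
      (∀ t, Tendsto (fun j => deriv (cs j) t) W (𝓝 (deriv c t))) ∧
      ∀ (t : ℕ → ℝ) (t0 : ℝ), Tendsto t W (𝓝 t0) → Tendsto (fun j => cs j (t j)) W (𝓝 (c t0)) := by
  obtain ⟨c, g1, g2, g3, g4, g5⟩ := limit_geodesic W hW g hg gs hgs hconv cs (fun j => (hcs j).geo)
    (fun j => (hcs j).unit) (1 / 2) (fun j => (h.norm_lt (h.sub ((hcs j).mem 0))).le)
  exact ⟨c, ⟨g1, g2, fun t => h.compact.isClosed.mem_of_tendsto (g3 t)
    (Eventually.of_forall fun j => (hcs j).mem t)⟩, g3, g4, g5⟩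

private theorem existC1M_unit (B : Bil N) (v : E N) (hq : 0 < B v v) :
    B ((Real.sqrt (B v v))⁻¹ • v) ((Real.sqrt (B v v))⁻¹ • v) = 1 := by
  have h1 : Real.sqrt (B v v) * Real.sqrt (B v v) = B v v := Real.mul_self_sqrt hq.le
  have h2 : Real.sqrt (B v v) ≠ 0 := (Real.sqrt_pos.2 hq).ne'
  have h3 : B ((Real.sqrt (B v v))⁻¹ • v) ((Real.sqrt (B v v))⁻¹ • v) =
      (Real.sqrt (B v v))⁻¹ * ((Real.sqrt (B v v))⁻¹ * B v v) := by
    rw [map_smul, map_smul, smul_apply, smul_eq_mul, smul_eq_mul]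
  rw [h3]
  have h4 : (Real.sqrt (B v v))⁻¹ * ((Real.sqrt (B v v))⁻¹ *
      (Real.sqrt (B v v) * Real.sqrt (B v v))) = 1 := by
    field_simp
  rwa [h1] at h4

theorem exists_geoM_C1 (h : Sub n M U r χ) (hg : Hat ∞ U r g) (u : E N → ℝ) (hu : ContDiff ℝ 1 u) (hext : ext r χ u = u)
    (x : E N) (hx : x ∈ M) (v : E N) (hv : Tan r x v) (h1 : conf u g x v v = 1) :
    ∃ c, MGeo M (conf u g) c ∧ c 0 = x ∧ deriv c 0 = v := by
  have hper : ∀ k x, u (x + latt k) = u x := by
    intro k x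
    have h2 := ext_per (r := r) (χ := χ) u k x
    rwa [hext] at h2
  have hpos : ∀ j : ℕ, (0 : ℝ) < 1 / ((j : ℝ) + 1) := fun j => by positivity
  choose vs hs hp hn using fun j : ℕ => exists_smooth_near u hu hper (1 / ((j : ℝ) + 1)) (hpos j)
  obtain ⟨C, hC, hbd⟩ := ext_bound h
  obtain ⟨us, hus⟩ : ∃ us : ℕ → E N → ℝ, us = fun j => ext r χ (vs j) := ⟨_, rfl⟩
  have hus' : ∀ j, us j = ext r χ (vs j) := fun j => by rw [hus]
  have hsm : ∀ j, ContDiff ℝ ∞ (us j) := fun j => by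
    rw [hus' j]
    exact ext_smooth h le_rfl (hs j)
  have hee : ∀ j, ext r χ (us j) = us j := fun j => by
    rw [hus' j]
    exact ext_ext h (vs j)
  have hnear : ∀ j, ∀ y, |us j y - u y| ≤ C * (1 / ((j : ℝ) + 1)) ∧
      ‖fderiv ℝ (us j) y - fderiv ℝ u y‖ ≤ C * (1 / ((j : ℝ) + 1)) := by
    intro j y
    have h2 := hbd (vs j) u ((hs j).of_le (by exact_mod_cast le_top)) hu (1 / ((j : ℝ) + 1))
      (hpos j).le (fun y _ => ⟨(hn j y).1.le, fun w _ => ?_⟩) y
    · rw [hext, ← hus' j] at h2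
      exact h2
    · have h3 : fderiv ℝ (vs j) y w - fderiv ℝ u y w = (fderiv ℝ (vs j) y - fderiv ℝ u y) w := rfl
      rw [h3, ← Real.norm_eq_abs]
      exact ((fderiv ℝ (vs j) y - fderiv ℝ u y).le_opNorm w).trans
        (mul_le_mul_of_nonneg_right (hn j y).2.le (norm_nonneg w))
  have hconv : ConvMet (fun j => conf (us j) g) (conf u g) := by
    intro ε hε
    obtain ⟨δ, hδ, h2⟩ := conf_conv hg.metric u hu hper ε hε
    have h3 : Tendsto (fun j : ℕ => C * (1 / ((j : ℝ) + 1))) atTop (𝓝 (C * 0)) :=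
      (tendsto_one_div_add_atTop_nhds_zero_nat (𝕜 := ℝ)).const_mul C
    rw [mul_zero] at h3
    filter_upwards [h3.eventually_lt_const hδ] with j hj
    refine h2 (us j) ((hsm j).differentiable (by simp)) fun y => ?_
    exact ⟨(hnear j y).1.trans_lt hj, (hnear j y).2.trans_lt hj⟩
  have hv0 : v ≠ 0 := by
    rintro rfl
    simp at h1
  have hh : ∀ j, Hat ∞ U r (conf (us j) g) := fun j =>
    hat_conf h (by exact_mod_cast le_top) le_rfl hg (hsm j) (hee j)
  have hm1 : ∀ j, IsMetric 1 (conf (us j) g) := fun j =>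
    ⟨(hh j).metric.smooth.of_le (by exact_mod_cast le_top), (hh j).metric.symm,
      (hh j).metric.pos, (hh j).metric.per⟩
  have hmu : IsMetric 1 (conf u g) :=
    (hat_conf h le_rfl (by exact_mod_cast le_top) hg hu hext).metric
  have hq : ∀ j, 0 < conf (us j) g x v v := fun j => (hm1 j).pos x v hv0
  have htan : ∀ a : ℝ, Tan r x (a • v) := by
    intro a
    unfold Tan
    rw [map_smul]
    congr 1
  choose cs hc1 hc3 hc4 using fun j => exists_geoM h (hh j) x hx _
    (htan ((Real.sqrt (conf (us j) g x v v))⁻¹)) (existC1M_unit (conf (us j) g x) v (hq j))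
  have hU : ((Filter.hyperfilter ℕ : Ultrafilter ℕ) : Filter ℕ) ≤ Filter.atTop :=
    Nat.hyperfilter_le_atTop
  obtain ⟨c, g1, g3, g4, -⟩ := limitM h (Filter.hyperfilter ℕ) hU hmu
    (fun j => conf (us j) g) hm1 hconv cs hc1
  refine ⟨c, g1, ?_, ?_⟩
  · have h2 := g3 0
    simp only [hc3] at h2
    exact tendsto_nhds_unique h2 tendsto_const_nhds
  · have h2 := g4 0
    simp only [hc4] at h2
    have h3 : Filter.Tendsto (fun j => conf (us j) g x) Filter.atTop (nhds (conf u g x)) := by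
      rw [Metric.tendsto_atTop']
      intro ε hε
      obtain ⟨K, hK⟩ := Filter.eventually_atTop.1 (hconv ε hε)
      refine ⟨K, fun j hj => ?_⟩
      rw [dist_eq_norm]
      exact (hK j hj.le x).1
    have h4 : Filter.Tendsto (fun j => conf (us j) g x v v) Filter.atTop (nhds 1) := by
      have hc : Continuous (fun B : Bil N => B v v) := by fun_prop
      have h5 := (hc.tendsto (conf u g x)).comp h3
      rw [h1] at h5
      exact h5
    have h5 : Filter.Tendsto (fun j => (Real.sqrt (conf (us j) g x v v))⁻¹ • v) Filter.atTop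
        (nhds v) := by
      have h6 := ((Real.continuous_sqrt.tendsto 1).comp h4).inv₀ (by simp)
      have h7 := h6.smul (tendsto_const_nhds (x := v))
      simpa using h7
    exact tendsto_nhds_unique h2 (h5.mono_left hU)

end Pool.Agent.Helper59.GM
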