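import Pool.Agent.Helper59.GM.GenDefsM
import Pool.Agent.Helper59.GM.ExistC1M
import Pool.Agent.Helper59.GM.ClosingM

/-!
# GM-43 DenseUOM: `UUM ∩ OOM` is dense

Proof. As GT-48 `DenseUO`. Let `p : C1M r χ`, `ε > 0`. `v₀` smooth periodic, `C ^ 1`-close to `p.fn` (`exists_smooth_near`), `u₀ = ext r χ v₀`: smooth, `ext r χ u₀ = u₀` (`ext_ext`), `ε / 4`-close to `ext r χ p.fn = p.fn` (`ext_bound`, if `v₀` is close enough). `g₀ = conf u₀ g` is a smooth hat metric (`hat_conf`). `closingM` for `g₀` and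
`min (ε / 4) (1 / (m + 1))`: `u` smooth, `ext r χ u = u`, small, `conf u g₀ = conf (u₀ + u) g` (`conf_conf`), with the closed geodesic `c` in `M`. `ext r χ (u₀ + u) = u₀ + u` (additivity of `ext`: `ext_congr`-style, or `pz` of a sum via `pz_support`). `q` = the element of `C1M` of `u₀ + u` (`existsM_of`), `dist p q ≤ ε / 2 < ε` (`C1Fun.dist_le_of`; the distance of the subtype is that of
`C1Fun`). `conf q.fn g` is smooth, so its geodesics are unique (`unique_geoM`): `q ∈ UUM`. `q ∈ OOM` with `x = c 0`, `v = c' 0` (tangent: `tan_curve`), `T = P`: a geodesic with this initial vector is `c`, and `EpsM ... univ` implies `EpsM ... (Icc 0 P)` because `c` is `P`-periodic.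
-/

set_option autoImplicit false
set_option maxSynthPendingDepth 3

open scoped ContDiff InnerProductSpace Topology
open Pool.Agent.Helper59.GT Filter

namespace Pool.Agent.Helper59.GM

variable {n N : ℕ} {M U : Set (E N)} {r : E N → E N} {χ : E N → ℝ} {g : E N → Bil N}

private theorem denseUOM_ext_add (h : Sub n M U r χ) (f f' : E N → ℝ) :
    ext r χ (fun x => f x + f' x) = fun x => ext r χ f x + ext r χ f' x := by
  funext x
  have hfin : ∀ f : E N → ℝ,
      (Function.support fun k : Fin N → ℤ => χ (x + latt k) * f (r (x + latt k))).Finite := by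
    intro f
    have hcs : HasCompactSupport (fun x => χ x * f (r x)) := h.chi_supp.mul_right
    obtain ⟨S, hS⟩ := pz_support (fun x => χ x * f (r x)) hcs x
    refine S.finite_toSet.subset fun k hk => ?_
    by_contra hkS
    exact hk (hS x (by simp) k hkS)
  have h1 := finsum_add_distrib (hfin f) (hfin f')
  have h2 : ext r χ (fun x => f x + f' x) x = ∑ᶠ k : Fin N → ℤ,
      (χ (x + latt k) * f (r (x + latt k)) + χ (x + latt k) * f' (r (x + latt k))) := by
    unfold ext pz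
    congr 1
    funext k
    ring
  rw [h2, h1]
  rfl

private theorem denseUOM_icc {c : ℝ → E N} {P : ℝ} (hP : 0 < P) (hc : ∀ t, c (t + P) = c t) {ε : ℝ}
    (h : EpsM M r g c ε Set.univ) : EpsM M r g c ε (Set.Icc 0 P) := by
  intro x hx v hv h1
  obtain ⟨t, -, h2, h3⟩ := h x hx v hv h1
  have hper : Function.Periodic c P := hc
  have hdper : Function.Periodic (deriv c) P := by
    intro s
    have h4 : (fun s => c (s + P)) = c := funext hc
    have h5 := deriv_comp_add_const c P s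
    rw [h4] at h5
    exact h5.symm
  have hfl := Int.floor_le (t / P)
  have hlt := Int.lt_floor_add_one (t / P)
  rw [le_div_iff₀ hP] at hfl
  rw [div_lt_iff₀ hP] at hlt
  refine ⟨t - ⌊t / P⌋ * P, ⟨by linarith, by linarith⟩, ?_, ?_⟩
  · rw [hper.sub_int_mul_eq]
    exact h2
  · rw [hdper.sub_int_mul_eq]
    exact h3

theorem dense_UOM (h : Sub n M U r χ) (hn : 3 ≤ n) (hg : Hat ∞ U r g) (m : ℕ) :
    Dense (UUM M r χ g m ∩ OOM M r χ g m) := by
  rw [Metric.dense_iff]
  intro p ε hε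
  obtain ⟨C, hC, hb⟩ := ext_bound h
  have hle1 : (1 : WithTop ℕ∞) ≤ ∞ := by exact_mod_cast le_top
  obtain ⟨v₀, hv₀, hv₀p, hv₀n⟩ :=
    exists_smooth_near p.1.fn p.1.contDiff p.1.per (ε / (4 * C)) (by positivity)
  obtain ⟨u₀, hu₀d⟩ : ∃ u₀, u₀ = ext r χ v₀ := ⟨_, rfl⟩
  have hu₀ : ContDiff ℝ ∞ u₀ := by
    rw [hu₀d]
    exact ext_smooth h le_rfl hv₀
  have hu₀e : ext r χ u₀ = u₀ := by
    rw [hu₀d]
    exact ext_ext h v₀
  have hu₀n : ∀ x, |u₀ x - p.1.fn x| ≤ ε / 4 ∧ ‖fderiv ℝ u₀ x - fderiv ℝ p.1.fn x‖ ≤ ε / 4 := by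
    intro x
    have h1 := hb v₀ p.1.fn (hv₀.of_le hle1) p.1.contDiff (ε / (4 * C)) (by positivity)
      (fun y _ => ⟨(hv₀n y).1.le, fun w _ => by
        have h2 : fderiv ℝ v₀ y w - fderiv ℝ p.1.fn y w = (fderiv ℝ v₀ y - fderiv ℝ p.1.fn y) w := rfl
        rw [h2, ← Real.norm_eq_abs]
        refine (ContinuousLinearMap.le_opNorm _ _).trans ?_
        exact mul_le_mul_of_nonneg_right (hv₀n y).2.le (norm_nonneg _)⟩) x
    have h3 : C * (ε / (4 * C)) = ε / 4 := by field_simp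
    rw [p.2, h3, ← hu₀d] at h1
    exact h1
  have hm : (0 : ℝ) < 1 / ((m : ℝ) + 1) := by positivity
  have hg₀ : Hat ∞ U r (conf u₀ g) := hat_conf h hle1 le_rfl hg hu₀ hu₀e
  obtain ⟨u, hu, hue, hun, c, P, hP, hcP, hcM, hcd⟩ :=
    closingM hn h hg₀ (min (ε / 4) (1 / ((m : ℝ) + 1))) (lt_min (by positivity) hm)
  rw [conf_conf] at hcM hcd
  have hsum : ContDiff ℝ ∞ (fun x => u₀ x + u x) := hu₀.add hu
  have hsume : ext r χ (fun x => u₀ x + u x) = fun x => u₀ x + u x := by
    rw [denseUOM_ext_add h, hu₀e, hue]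
  obtain ⟨q, hq⟩ := existsM_of (r := r) (χ := χ) (fun x => u₀ x + u x) (hsum.of_le hle1) hsume
  have hgq : IsMetric ∞ (conf q.1.fn g) := by
    rw [hq]
    exact (hat_conf h hle1 le_rfl hg hsum hsume).metric
  rw [← hq] at hcM hcd
  refine ⟨q, ?_, ?_, ?_⟩
  · rw [Metric.mem_ball, dist_comm]
    have hdd : dist p q = dist p.1 q.1 := rfl
    rw [hdd]
    refine lt_of_le_of_lt (C1Fun.dist_le_of p.1 q.1 (ε / 2) (by positivity) fun x => ?_) (by linarith)
    have h1 := hu₀n x
    have h2 := hun x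
    have h3 : min (ε / 4) (1 / ((m : ℝ) + 1)) ≤ ε / 4 := min_le_left _ _
    rw [hq]
    constructor
    · have h4 : p.1.fn x - (u₀ x + u x) = -(u₀ x - p.1.fn x) - u x := by ring
      change |p.1.fn x - (u₀ x + u x)| ≤ ε / 2
      rw [h4]
      refine (abs_sub _ _).trans ?_
      rw [abs_neg]
      linarith [h1.1, h2.1]
    · have h5 : fderiv ℝ (fun x => u₀ x + u x) x = fderiv ℝ u₀ x + fderiv ℝ u x :=
        fderiv_fun_add (hu₀.differentiable (by simp) x) (hu.differentiable (by simp) x)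
      rw [h5]
      have h4 : fderiv ℝ p.1.fn x - (fderiv ℝ u₀ x + fderiv ℝ u x) =
          -(fderiv ℝ u₀ x - fderiv ℝ p.1.fn x) - fderiv ℝ u x := by abel
      rw [h4]
      refine (norm_sub_le _ _).trans ?_
      rw [norm_neg]
      linarith [h1.2, h2.2]
  · intro a b ha hb h0 h1 t _
    rw [unique_geoM hgq a b ha hb h0 h1, sub_self, norm_zero]
    exact hm
  · refine ⟨c 0, hcM.mem 0, deriv c 0, h.tan_curve hcM.mem (hcM.geo.1 0), hcM.unit 0, P, hP, ?_⟩
    intro a ha h0 h1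
    rw [unique_geoM hgq a c ha hcM h0 h1]
    have h2 := denseUOM_icc hP hcP hcd
    intro x hx v hv h3
    obtain ⟨t, ht, h4, h5⟩ := h2 x hx v hv h3
    exact ⟨t, ht, h4.trans_le (min_le_right _ _), h5.trans_le (min_le_right _ _)⟩

end Pool.Agent.Helper59.GM
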