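import Pool.Agent.Helper59.GM.Defs

/-!
# GM-12 DetBlock: determinants of block triangular maps and of adjoints

Proof. `det_block`: the map is `(u, v) ↦ (A u, B u + L v)`. E.g. use the basis of `E n × E n` made of the standard bases (`Module.Basis.prod`), the matrix is `Matrix.fromBlocks A 0 B L`, and `Matrix.det_fromBlocks_zero₁₂`. Or factor it as the product of `(u, v) ↦ (u, B u + v)`-type and diagonal maps.
`det_adj`: the matrix of `adj S` in the standard basis is the transpose of that of `S` (`inner_adj`), `Matrix.det_transpose`; `ContinuousLinearMap.det` is `LinearMap.det`, `LinearMap.det_toLin'`/`LinearMap.det_toMatrix`.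
-/

set_option autoImplicit false
set_option maxSynthPendingDepth 3

open scoped ContDiff InnerProductSpace
open Pool.Agent.Helper59.GT

namespace Pool.Agent.Helper59.GM

private noncomputable def detBlock_b (n : ℕ) : Module.Basis (Fin n) ℝ (E n) :=
  (EuclideanSpace.basisFun (Fin n) ℝ).toBasis

private noncomputable def detBlock_bas (n : ℕ) : Module.Basis (Fin n ⊕ Fin n) ℝ (Ph n) :=
  (detBlock_b n).prod (detBlock_b n)

theorem det_block {n : ℕ} (A L B : E n →L[ℝ] E n) :
    ContinuousLinearMap.det ((A.comp (ContinuousLinearMap.fst ℝ (E n) (E n))).prod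
      (B.comp (ContinuousLinearMap.fst ℝ (E n) (E n)) + L.comp (ContinuousLinearMap.snd ℝ (E n) (E n))) : Ph n →L[ℝ] Ph n) =
      A.det * L.det := by
  have hM : LinearMap.toMatrix (detBlock_bas n) (detBlock_bas n)
      (((A.comp (ContinuousLinearMap.fst ℝ (E n) (E n))).prod
        (B.comp (ContinuousLinearMap.fst ℝ (E n) (E n)) +
          L.comp (ContinuousLinearMap.snd ℝ (E n) (E n))) : Ph n →L[ℝ] Ph n) : Ph n →ₗ[ℝ] Ph n) =
      Matrix.fromBlocks
        (LinearMap.toMatrix (detBlock_b n) (detBlock_b n) (A : E n →ₗ[ℝ] E n)) 0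
        (LinearMap.toMatrix (detBlock_b n) (detBlock_b n) (B : E n →ₗ[ℝ] E n))
        (LinearMap.toMatrix (detBlock_b n) (detBlock_b n) (L : E n →ₗ[ℝ] E n)) := by
    ext i j
    rw [LinearMap.toMatrix_apply]
    rcases i with i | i <;> rcases j with j | j <;>
      simp [detBlock_bas, LinearMap.toMatrix_apply, Matrix.fromBlocks]
  show LinearMap.det _ = LinearMap.det _ * LinearMap.det _
  rw [← LinearMap.det_toMatrix (detBlock_bas n), hM, Matrix.det_fromBlocks_zero₁₂,
    LinearMap.det_toMatrix, LinearMap.det_toMatrix]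

theorem det_adj {n : ℕ} (S L : E n →L[ℝ] E n) (hL : ∀ q, L q = adj S q) : L.det = S.det := by
  have hM : LinearMap.toMatrix (detBlock_b n) (detBlock_b n) (L : E n →ₗ[ℝ] E n) =
      (LinearMap.toMatrix (detBlock_b n) (detBlock_b n) (S : E n →ₗ[ℝ] E n)).transpose := by
    ext i j
    rw [Matrix.transpose_apply, LinearMap.toMatrix_apply, LinearMap.toMatrix_apply]
    have h1 : ∀ (i : Fin n) (v : E n), (detBlock_b n).repr v i = ⟪v, detBlock_b n i⟫_ℝ := by
      intro i v
      simp [detBlock_b, EuclideanSpace.inner_single_right]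
    rw [h1, h1]
    show ⟪L (detBlock_b n j), detBlock_b n i⟫_ℝ = ⟪S (detBlock_b n i), detBlock_b n j⟫_ℝ
    rw [hL, inner_adj, real_inner_comm]
  show LinearMap.det _ = LinearMap.det _
  rw [← LinearMap.det_toMatrix (detBlock_b n) (L : E n →ₗ[ℝ] E n), hM, Matrix.det_transpose,
    LinearMap.det_toMatrix]

end Pool.Agent.Helper59.GM
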