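import Pool.Agent.Helper59.GM.SepM
import Pool.Agent.Helper59.GM.ArcChart
import Pool.Agent.Helper59.GT.Embed

/-!
# GM-33 EmbedM: a regular closed curve in `M`, `n ≥ 3`, becomes embedded after a small perturbation inside `M`

Proof. As GT-28 `Embed`. `ρ₁, η₀` from `local_inj` for `c` (`hper` with the lattice vector `latt 0 = 0`), `ρ, μ` from `arc_charts`, `q ≥ 4` with `2 P / q ≤ ρ₁`, `3 P / (2 q) ≤ ρ`, `S` = all far pairs of `range q ×ˢ range q`, `d` from `exists_sepM` for `min η η₀`. Let `d s = d t`. Shift `s` and `t` by multiples of `P` into `[0, P)` (`d` is `P`-periodic).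
Let `s` lie in arc `a`, `t` in arc `b`. If `(a, b)` is far this contradicts the separation. Otherwise `a, b` are equal or adjacent cyclically, so for some `j ∈ {-1, 0, 1}`, `|s - (t + j P)| ≤ 2 P / q ≤ ρ₁`, `d (t + j P) = d t`, and `local_inj` with `e = d - c` (`k = 0`) gives `s = t + j P`.
-/

set_option autoImplicit false
set_option maxSynthPendingDepth 3

open scoped ContDiff InnerProductSpace
open Pool.Agent.Helper59.GT

namespace Pool.Agent.Helper59.GM

variable {n N : ℕ} {M U : Set (E N)} {r : E N → E N} {χ : E N → ℝ} {g : E N → Bil N}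

theorem exists_embeddedM (h : Sub n M U r χ) (hn : 3 ≤ n) (c : ℝ → E N) (P : ℝ) (hP : 0 < P) (hs : ContDiff ℝ ∞ c)
    (hper : ∀ t, c (t + P) = c t) (hM : ∀ t, c t ∈ M) (hreg : ∀ t, deriv c t ≠ 0) (η : ℝ) (hη : 0 < η) :
    ∃ d : ℝ → E N, ContDiff ℝ ∞ d ∧ (∀ t, d (t + P) = d t) ∧ (∀ t, d t ∈ M) ∧
      (∀ t, ‖d t - c t‖ ≤ η ∧ ‖deriv d t - deriv c t‖ ≤ η ∧ ‖deriv (deriv d) t - deriv (deriv c) t‖ ≤ η) ∧
      ∀ s t, d s = d t → ∃ m : ℤ, s - t = m * P := by
  classical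
  have hl0 : (latt 0 : E N) = 0 := by
    ext i
    simp [latt]
  obtain ⟨ρ₁, η₀, hρ₁, hη₀, hloc⟩ := local_inj c P hP hs
    ⟨0, fun t => by rw [hper, hl0, add_zero]⟩ hreg
  obtain ⟨ρ, μ, hρ, hμ, hch⟩ := arc_charts h hP hs.continuous hper hM
  obtain ⟨q0, hq0⟩ := exists_nat_gt (2 * P / ρ₁ + 3 * P / (2 * ρ))
  set q : ℕ := max 4 q0 with hq
  have hq4 : 4 ≤ q := le_max_left _ _
  have hqR : (0 : ℝ) < q := by
    have : (4 : ℝ) ≤ q := by exact_mod_cast hq4
    linarith
  have hq1 : (q0 : ℝ) ≤ q := by exact_mod_cast le_max_right _ _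
  have hp1 : 0 < 2 * P / ρ₁ := by positivity
  have hp2 : 0 < 3 * P / (2 * ρ) := by positivity
  have hqρ : 2 * P / q ≤ ρ₁ := by
    have h1 : 2 * P / ρ₁ < q := by linarith
    rw [div_lt_iff₀ hρ₁] at h1
    rw [div_le_iff₀ hqR]
    linarith
  have hqρ' : 3 * P / (2 * q) ≤ ρ := by
    have h1 : 3 * P / (2 * ρ) < q := by linarith
    rw [div_lt_iff₀ (by positivity)] at h1
    rw [div_le_iff₀ (by positivity)]
    linarith
  let S : Finset (ℕ × ℕ) := (Finset.range q ×ˢ Finset.range q).filter (fun x => Far q x.1 x.2)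
  have hS : ∀ x ∈ S, Far q x.1 x.2 := fun x hx => (Finset.mem_filter.1 hx).2
  obtain ⟨d, hd, hdP, hdM, hdsm, hdsep⟩ := exists_sepM h hn c P hP hs hper hM q hq4 ρ μ hqρ' hμ hch S hS
    (min η η₀) (lt_min hη hη₀)
  refine ⟨d, hd, hdP, hdM, fun t => ⟨(hdsm t).1.trans (min_le_left _ _),
    (hdsm t).2.1.trans (min_le_left _ _), (hdsm t).2.2.trans (min_le_left _ _)⟩, ?_⟩
  have hdper : Function.Periodic d P := hdP
  have hshift : ∀ (m : ℤ) t, d (t + m * P) = d t := fun m t => hdper.int_mul m t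
  -- the local statement
  have hclose : ∀ s t, d s = d t → |s - t| ≤ ρ₁ → s = t := by
    intro s t hst hle
    by_contra hne
    have htop : (∞ : WithTop ℕ∞) ≠ 0 := by simp
    refine hloc (fun t => d t - c t) (hd.sub hs) (fun t => ?_) s t hne hle 0 ?_
    · have e1 : deriv (fun t => d t - c t) t = deriv d t - deriv c t :=
        deriv_fun_sub (hd.differentiable htop t) (hs.differentiable htop t)
      rw [e1]
      exact (hdsm t).2.1.trans (min_le_right _ _)
    · rw [hl0, add_zero, add_sub_cancel, add_sub_cancel]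
      exact hst
  -- points of a period
  have hred : ∀ s : ℝ, ∃ (m : ℤ) (s' : ℝ) (a : ℕ), s = s' + m * P ∧ a < q ∧ a * P / q ≤ s' ∧
      s' ≤ (a + 1) * P / q := by
    intro s
    refine ⟨⌊s / P⌋, s - ⌊s / P⌋ * P, ⌊(s - ⌊s / P⌋ * P) * q / P⌋₊, by ring, ?_, ?_, ?_⟩
    all_goals
      have h1 : 0 ≤ s - ⌊s / P⌋ * P := by
        have := Int.floor_le (s / P)
        rw [le_div_iff₀ hP] at this
        linarith
      have h2 : s - ⌊s / P⌋ * P < P := by
        have := Int.lt_floor_add_one (s / P)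
        rw [div_lt_iff₀ hP] at this
        linarith
      have h3 : 0 ≤ (s - ⌊s / P⌋ * P) * q / P := by positivity
    · rw [Nat.floor_lt h3, div_lt_iff₀ hP]
      nlinarith
    · have := Nat.floor_le h3
      rw [le_div_iff₀ hP] at this
      rw [div_le_iff₀ hqR]
      exact this
    · have := (Nat.lt_floor_add_one ((s - ⌊s / P⌋ * P) * q / P)).le
      rw [div_le_iff₀ hP] at this
      rw [le_div_iff₀ hqR]
      exact this
  intro s t hst
  obtain ⟨m, s', a, hs', haq, ha1, ha2⟩ := hred s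
  obtain ⟨m', t', b, ht', hbq, hb1, hb2⟩ := hred t
  have hst' : d s' = d t' := by
    rw [hs', ht', hshift, hshift] at hst
    exact hst
  have hnf : ¬ Far q a b := by
    intro hfar
    have h1 : (a, b) ∈ S := by
      refine Finset.mem_filter.2 ⟨?_, hfar⟩
      rw [Finset.mem_product]
      exact ⟨Finset.mem_range.2 haq, Finset.mem_range.2 hbq⟩
    exact hdsep (a, b) h1 s' ⟨ha1, ha2⟩ t' ⟨hb1, hb2⟩ hst'
  -- adjacent arcs
  obtain ⟨j, hj⟩ : ∃ j : ℤ, |s' - (t' + j * P)| ≤ 2 * P / q := by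
    have hcases : (a ≤ b + 1 ∧ b ≤ a + 1) ∨ (a = 0 ∧ b + 1 = q) ∨ (b = 0 ∧ a + 1 = q) := by
      by_contra hcon
      apply hnf
      unfold Far
      omega
    rw [div_le_iff₀ hqR] at ha1 hb1
    rw [le_div_iff₀ hqR] at ha2 hb2
    rcases hcases with ⟨h1, h2⟩ | ⟨h1, h2⟩ | ⟨h1, h2⟩
    · refine ⟨0, ?_⟩
      have h1' : (a : ℝ) ≤ b + 1 := by exact_mod_cast h1
      have h2' : (b : ℝ) ≤ a + 1 := by exact_mod_cast h2
      rw [le_div_iff₀ hqR, Int.cast_zero, zero_mul, add_zero]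
      rcases abs_cases (s' - t') with ⟨h, _⟩ | ⟨h, _⟩
      · rw [h]; nlinarith
      · rw [h]; nlinarith
    · refine ⟨-1, ?_⟩
      have h2' : (b : ℝ) + 1 = q := by exact_mod_cast h2
      rw [le_div_iff₀ hqR]
      subst h1
      push_cast at ha1 ha2 ⊢
      rcases abs_cases (s' - (t' + (-1) * P)) with ⟨h, _⟩ | ⟨h, _⟩
      · rw [h]; nlinarith
      · rw [h]; nlinarith
    · refine ⟨1, ?_⟩
      have h2' : (a : ℝ) + 1 = q := by exact_mod_cast h2
      rw [le_div_iff₀ hqR]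
      subst h1
      push_cast at hb1 hb2 ⊢
      rcases abs_cases (s' - (t' + 1 * P)) with ⟨h, _⟩ | ⟨h, _⟩
      · rw [h]; nlinarith
      · rw [h]; nlinarith
  have heq : s' = t' + j * P :=
    hclose _ _ (hst'.trans (hshift j t').symm) (hj.trans hqρ)
  refine ⟨m + j - m', ?_⟩
  rw [hs', ht', heq]
  push_cast
  ring

end Pool.Agent.Helper59.GM
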