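import Pool.Agent.Helper59.GM.ExtLem

/-!
# GM-47 ExtSmooth: the extension of a `C ^ m` function on `M` is of class `C ^ m`

Proof. `u x = χ x * f (r x)` has compact support (`chi_supp`) and is `C ^ m`: on the open set `W` it is a product, and outside of `tsupport χ` it vanishes near the point (`contDiff_iff_contDiffAt`). So its periodic sum is `C ^ m` (`pz_support`: locally a fixed finite sum of translates; as `ext_smooth`).
-/

set_option autoImplicit false
set_option maxSynthPendingDepth 3

open scoped ContDiff InnerProductSpace Topology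
open Pool.Agent.Helper59.GT

namespace Pool.Agent.Helper59.GM

variable {n N : ℕ} {M U W : Set (E N)} {r : E N → E N} {χ : E N → ℝ}

theorem ext_smooth_on (h : Sub n M U r χ) {m : WithTop ℕ∞} (hm : m ≤ ∞) (hW : IsOpen W) (hχ : tsupport χ ⊆ W) {f : E N → ℝ}
    (hf : ContDiffOn ℝ m (fun x => f (r x)) W) : ContDiff ℝ m (ext r χ f) := by
  have hu : ContDiff ℝ m (fun x => χ x * f (r x)) := by
    rw [contDiff_iff_contDiffAt]
    intro x
    by_cases hx : x ∈ W
    · exact (h.chi_smooth.of_le hm).contDiffAt.mul (hf.contDiffAt (hW.mem_nhds hx))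
    · have hx2 : x ∉ tsupport χ := fun h2 => hx (hχ h2)
      have h1 : (fun x => χ x * f (r x)) =ᶠ[𝓝 x] fun _ => (0 : ℝ) := by
        have h3 : χ =ᶠ[𝓝 x] 0 := notMem_tsupport_iff_eventuallyEq.1 hx2
        filter_upwards [h3] with y hy
        rw [hy]
        simp
      exact contDiffAt_const.congr_of_eventuallyEq h1
  have hsupp : HasCompactSupport (fun x => χ x * f (r x)) := h.chi_supp.mul_right
  rw [contDiff_iff_contDiffAt]
  intro x
  obtain ⟨S, hS⟩ := pz_support (fun x => χ x * f (r x)) hsupp x
  have h1 : ext r χ f =ᶠ[𝓝 x] fun y => ∑ k ∈ S, (fun x => χ x * f (r x)) (y + latt k) := by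
    filter_upwards [Metric.ball_mem_nhds x one_pos] with y hy
    unfold ext pz
    apply finsum_eq_sum_of_support_subset
    intro k hk
    by_contra hkT
    exact hk (hS y hy k fun h => hkT h)
  refine ContDiffAt.congr_of_eventuallyEq ?_ h1
  refine ContDiff.contDiffAt ?_
  exact ContDiff.sum fun k _ => hu.comp (contDiff_id.add contDiff_const)

end Pool.Agent.Helper59.GM
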