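import Pool.Agent.Helper59.GM.Defs

/-!
# GM-22 FiberConn: total spaces with connected fibres over a connected base are connected

Proof. Use `isPreconnected_iff_subset_of_disjoint` or the definition: let `G₁, G₂` be open, `K ⊆ G₁ ∪ G₂`, `K ∩ (G₁ ∩ G₂) = ∅`, `K ∩ G₁` and `K ∩ G₂` nonempty (to derive a contradiction). Every fibre `K ∩ π ⁻¹' {y}` is preconnected, so it is contained in `G₁` or in `G₂`. `M_i` = the set of the `y ∈ M` with nonempty fibre (all fibres over `M` are nonempty by `hne`) contained in `G_i`.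
Let `N_i` be the set of the `y` such that some `z ∈ K ∩ G_i` has `π z = y`; for `z ∈ K ∩ G_i`, `hloc` gives an open set `V_z ∋ π z` such that every `y ∈ M ∩ V_z` has a point of `K ∩ G_i` in its fibre. `H_i = ⋃_(z ∈ K ∩ G_i) V_z` is open. `M ⊆ H₁ ∪ H₂`: `y ∈ M` has a point `z ∈ K` over it (`hne`), `z ∈ G₁` or `G₂`. `M ∩ H_i` is nonempty. So (`M` preconnected) there is
`y ∈ M ∩ H₁ ∩ H₂`: the fibre over `y` meets both `G₁` and `G₂`, which contradicts its preconnectedness (a point of `K ∩ G₁ ∩ G₂` in the fibre).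
-/

set_option autoImplicit false
set_option maxSynthPendingDepth 3

open scoped ContDiff InnerProductSpace Topology
open Pool.Agent.Helper59.GT

namespace Pool.Agent.Helper59.GM

theorem fiber_conn {X Y : Type} [TopologicalSpace X] [TopologicalSpace Y] (K : Set X) (M : Set Y) (π : X → Y)
    (hπ : ∀ z ∈ K, π z ∈ M) (hM : IsPreconnected M) (hne : ∀ y ∈ M, ∃ z ∈ K, π z = y)
    (hfib : ∀ y ∈ M, IsPreconnected (K ∩ π ⁻¹' {y}))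
    (hloc : ∀ z ∈ K, ∀ G, IsOpen G → z ∈ G → ∃ V, IsOpen V ∧ π z ∈ V ∧ ∀ y ∈ M ∩ V, ∃ z' ∈ K ∩ G, π z' = y) :
    IsPreconnected K := by
  intro G1 G2 hG1 hG2 hcov hne1 hne2
  have hopen : ∀ G : Set X, IsOpen {y | ∃ V, IsOpen V ∧ y ∈ V ∧ ∀ y' ∈ M ∩ V, ∃ z' ∈ K ∩ G, π z' = y'} := by
    intro G
    rw [isOpen_iff_forall_mem_open]
    rintro y ⟨V, hV, hyV, hy⟩
    exact ⟨V, fun y' hy' => ⟨V, hV, hy', hy⟩, hV, hyV⟩
  have hmem : ∀ G : Set X, IsOpen G → ∀ z ∈ K ∩ G,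
      π z ∈ {y | ∃ V, IsOpen V ∧ y ∈ V ∧ ∀ y' ∈ M ∩ V, ∃ z' ∈ K ∩ G, π z' = y'} := by
    rintro G hG z ⟨hzK, hzG⟩
    obtain ⟨V, hV, hz, h⟩ := hloc z hzK G hG hzG
    exact ⟨V, hV, hz, h⟩
  obtain ⟨z1, hz1⟩ := hne1
  obtain ⟨z2, hz2⟩ := hne2
  obtain ⟨y, hyM, hy1, hy2⟩ := hM _ _ (hopen G1) (hopen G2) (by
      intro y hy
      obtain ⟨z, hzK, rfl⟩ := hne y hy
      rcases hcov hzK with h | h
      · exact Or.inl (hmem G1 hG1 z ⟨hzK, h⟩)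
      · exact Or.inr (hmem G2 hG2 z ⟨hzK, h⟩))
    ⟨π z1, hπ z1 hz1.1, hmem G1 hG1 z1 hz1⟩ ⟨π z2, hπ z2 hz2.1, hmem G2 hG2 z2 hz2⟩
  obtain ⟨V1, _, hyV1, h1⟩ := hy1
  obtain ⟨V2, _, hyV2, h2⟩ := hy2
  obtain ⟨w1, hw1, e1⟩ := h1 y ⟨hyM, hyV1⟩
  obtain ⟨w2, hw2, e2⟩ := h2 y ⟨hyM, hyV2⟩
  obtain ⟨w, hw, hw'⟩ := hfib y hyM G1 G2 hG1 hG2 (fun z hz => hcov hz.1)
    ⟨w1, ⟨hw1.1, e1⟩, hw1.2⟩ ⟨w2, ⟨hw2.1, e2⟩, hw2.2⟩
  exact ⟨w, hw.1, hw'⟩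

end Pool.Agent.Helper59.GM
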