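import Pool.Agent.Helper59.GM.GenDefsM
import Pool.Agent.Helper59.GM.ExistC1M

/-!
# GM-42 OpenOM: `OOM` is open

Proof. As GT-47 `OpenO`. Let `p ∈ OOM` with `x, v, T`, and suppose `p_j → p`, `p_j ∉ OOM`. Put `g_j = conf p_j.fn g`, `v_j = (√(g_j x v v))⁻¹ • v → v`, a tangent unit vector of `g_j`. For `(x, v_j, T)` the condition fails: there are a unit speed `g_j`-geodesic `c_j` in `M` with `c_j 0 = x`, `c_j' 0 = v_j`, a point `y_j ∈ M` and a tangent unit vector `w_j` of `g_j` at `y_j` such that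
for all `t ∈ [0, T]`: `‖c_j t - y_j‖ ≥ 1 / (m + 1)` or `‖c_j' t - w_j‖ ≥ 1 / (m + 1)`. `limitM` along `W = hyperfilter ℕ` gives `c`: `c 0 = x`, `c' 0 = v`. `w_j` is bounded (`metric_bounds` for the limit metric), so `(y_j, w_j)` has a limit `(y, w)` along `W` (`M` is compact), `y ∈ M`, `w` is tangent at `y` (`fderiv ℝ r` is continuous) and a unit vector of
`conf p.fn g`. By hypothesis there is `t ∈ [0, T]` with `‖c t - y‖ < 1 / (m + 1)`, `‖c' t - w‖ < 1 / (m + 1)`; both inequalities hold for `W`-almost all `j` with index `j`, a contradiction.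
-/

set_option autoImplicit false
set_option maxSynthPendingDepth 3

open scoped ContDiff InnerProductSpace Topology
open Pool.Agent.Helper59.GT Filter

namespace Pool.Agent.Helper59.GM

variable {n N : ℕ} {M U : Set (E N)} {r : E N → E N} {χ : E N → ℝ} {g : E N → Bil N}

private theorem openOM_clm {ι : Type} {l : Filter ι} {V W : Type} [NormedAddCommGroup V]
    [NormedSpace ℝ V] [NormedAddCommGroup W] [NormedSpace ℝ W] {f : ι → V →L[ℝ] W} {u : ι → V}
    {f0 : V →L[ℝ] W} {u0 : V} (hf : Tendsto f l (𝓝 f0)) (hu : Tendsto u l (𝓝 u0)) :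
    Tendsto (fun i => f i (u i)) l (𝓝 (f0 u0)) := by
  have h1 : Continuous (fun p : (V →L[ℝ] W) × V => p.1 p.2) :=
    isBoundedBilinearMap_apply.continuous
  exact (h1.tendsto (f0, u0)).comp (hf.prodMk_nhds hu)

private theorem openOM_conv_at {n : ℕ} {W : Filter ℕ} (hW : W ≤ atTop) {gs : ℕ → E n → Bil n}
    {g : E n → Bil n} (hconv : ConvMet gs g) (hg : Continuous g) {y : ℕ → E n} {y0 : E n}
    (hy : Tendsto y W (𝓝 y0)) : Tendsto (fun j => gs j (y j)) W (𝓝 (g y0)) := by
  have h1 : Tendsto (fun j => gs j (y j) - g (y j)) W (𝓝 0) := by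
    rw [tendsto_zero_iff_norm_tendsto_zero, Metric.tendsto_nhds]
    intro ε hε
    filter_upwards [hW (hconv ε hε)] with j hj
    rw [dist_zero_right, norm_norm]
    exact (hj (y j)).1
  have h2 : Tendsto (fun j => g (y j)) W (𝓝 (g y0)) := (hg.tendsto y0).comp hy
  have h3 := h1.add h2
  simpa using h3

theorem isOpen_OOM (h : Sub n M U r χ) (hg : Hat ∞ U r g) (m : ℕ) : IsOpen (OOM M r χ g m) := by
  rw [← isClosed_compl_iff]
  apply IsSeqClosed.isClosed
  intro ps p hps hlim hp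
  obtain ⟨x, hxM, v, hTv, hv, T, hT, hall⟩ := hp
  have hgm : IsMetric ∞ g := hg.metric
  have hinf : IsMetric 1 (conf p.1.fn g) := isMetric_confM hgm p
  have hgs : ∀ j, IsMetric 1 (conf (ps j).1.fn g) := fun j => isMetric_confM hgm (ps j)
  have hconv : ConvMet (fun j => conf (ps j).1.fn g) (conf p.1.fn g) := confM_conv hgm ps p hlim
  -- the initial vectors
  have hvne : v ≠ 0 := by
    rintro rfl
    rw [map_zero] at hv
    exact zero_ne_one hv
  have hpos : ∀ j, 0 < conf (ps j).1.fn g x v v := fun j => (hgs j).pos x v hvne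
  set sc : ℕ → ℝ := fun j => (Real.sqrt (conf (ps j).1.fn g x v v))⁻¹ with hsc
  have hunit : ∀ j, conf (ps j).1.fn g x (sc j • v) (sc j • v) = 1 := by
    intro j
    have h1 := Real.sq_sqrt (hpos j).le
    have h2 : Real.sqrt (conf (ps j).1.fn g x v v) ≠ 0 := (Real.sqrt_pos.2 (hpos j)).ne'
    rw [map_smul, map_smul, smul_apply, smul_eq_mul, smul_eq_mul]
    simp only [hsc]
    calc (Real.sqrt (conf (ps j).1.fn g x v v))⁻¹ * ((Real.sqrt (conf (ps j).1.fn g x v v))⁻¹ *
          conf (ps j).1.fn g x v v)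
        = (Real.sqrt (conf (ps j).1.fn g x v v))⁻¹ * ((Real.sqrt (conf (ps j).1.fn g x v v))⁻¹ *
          Real.sqrt (conf (ps j).1.fn g x v v) ^ 2) := by rw [h1]
      _ = 1 := by field_simp
  have htan : ∀ j, Tan r x (sc j • v) := by
    intro j
    unfold Tan at hTv ⊢
    rw [map_smul, hTv]
  -- violating geodesics
  have hviol : ∀ j, ∃ c : ℝ → E N, MGeo M (conf (ps j).1.fn g) c ∧
      c 0 = x ∧ deriv c 0 = sc j • v ∧
      ¬ EpsM M r (conf (ps j).1.fn g) c (1 / ((m : ℝ) + 1)) (Set.Icc 0 T) := by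
    intro j
    by_contra hcon
    push Not at hcon
    apply hps j
    exact ⟨x, hxM, sc j • v, htan j, hunit j, T, hT, fun c h1 h3 h4 => hcon c h1 h3 h4⟩
  choose cs hcs hc0 hd0 hnd using hviol
  have hyw : ∀ j, ∃ y ∈ M, ∃ w, Tan r y w ∧ conf (ps j).1.fn g y w w = 1 ∧
      ∀ t ∈ Set.Icc 0 T, ¬ (‖cs j t - y‖ < 1 / ((m : ℝ) + 1) ∧
        ‖deriv (cs j) t - w‖ < 1 / ((m : ℝ) + 1)) := by
    intro j
    have h1 := hnd j
    unfold EpsM at h1
    push Not at h1
    obtain ⟨y, hy, w, h2, h3, h4⟩ := h1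
    refine ⟨y, hy, w, h2, h3, ?_⟩
    rintro t ht ⟨h5, h6⟩
    exact absurd h6 (not_lt.2 (h4 t ht h5))
  choose ys hysM ws htw hws hfar using hyw
  -- the ultrafilter
  set W : Ultrafilter ℕ := hyperfilter ℕ with hWdef
  have hW : (W : Filter ℕ) ≤ atTop := Nat.hyperfilter_le_atTop
  obtain ⟨c, hc1, hc3, hc4, -⟩ := limitM h W hW hinf
    (fun j => conf (ps j).1.fn g) hgs hconv cs hcs
  have hgc : Continuous (conf p.1.fn g) := hinf.smooth.continuous
  have hsc1 : Tendsto sc W (𝓝 1) := by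
    have h1 : Tendsto (fun j => conf (ps j).1.fn g x) W (𝓝 (conf p.1.fn g x)) :=
      openOM_conv_at hW hconv hgc tendsto_const_nhds
    have h2 : Tendsto (fun j => conf (ps j).1.fn g x v v) W (𝓝 (conf p.1.fn g x v v)) :=
      openOM_clm (openOM_clm h1 tendsto_const_nhds) tendsto_const_nhds
    rw [hv] at h2
    have h3 := (Real.continuous_sqrt.tendsto 1).comp h2
    rw [Real.sqrt_one] at h3
    have h4 := h3.inv₀ one_ne_zero
    rw [inv_one] at h4
    exact h4
  have hcx : c 0 = x := by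
    have h1 := hc3 0
    simp only [hc0] at h1
    exact tendsto_nhds_unique h1 tendsto_const_nhds
  have hcv : deriv c 0 = v := by
    have h1 := hc4 0
    simp only [hd0] at h1
    have h2 : Tendsto (fun j => sc j • v) W (𝓝 ((1 : ℝ) • v)) := hsc1.smul_const v
    rw [one_smul] at h2
    exact tendsto_nhds_unique h1 h2
  have hdense := hall c hc1 hcx hcv
  -- the limit of the unit vectors
  obtain ⟨a, b, ha, hb, hab⟩ := metric_bounds hinf
  have hwb : ∀ᶠ j in (W : Filter ℕ), ‖ws j‖ ≤ Real.sqrt (2 / a) := by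
    filter_upwards [hW (hconv (a / 2) (by positivity))] with j hj
    have h1 := (hj (ys j)).1
    have h2 := (hab (ys j) (ws j)).1
    have h3 : |(conf (ps j).1.fn g (ys j) - conf p.1.fn g (ys j)) (ws j) (ws j)| ≤
        a / 2 * ‖ws j‖ ^ 2 := by
      have h4 := ContinuousLinearMap.le_opNorm₂
        (conf (ps j).1.fn g (ys j) - conf p.1.fn g (ys j)) (ws j) (ws j)
      rw [Real.norm_eq_abs] at h4
      refine h4.trans ?_
      have h5 : ‖conf (ps j).1.fn g (ys j) - conf p.1.fn g (ys j)‖ * ‖ws j‖ * ‖ws j‖ =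
        ‖conf (ps j).1.fn g (ys j) - conf p.1.fn g (ys j)‖ * ‖ws j‖ ^ 2 := by ring
      rw [h5]
      exact mul_le_mul_of_nonneg_right h1.le (by positivity)
    have h6 : (conf (ps j).1.fn g (ys j) - conf p.1.fn g (ys j)) (ws j) (ws j) =
        1 - conf p.1.fn g (ys j) (ws j) (ws j) := by
      rw [sub_apply, sub_apply, hws j]
    rw [h6] at h3
    apply Real.le_sqrt_of_sq_le
    rw [le_div_iff₀ ha]
    have h7 := neg_abs_le (1 - conf p.1.fn g (ys j) (ws j) (ws j))
    nlinarith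
  obtain ⟨y, hyM, hy⟩ := h.compact.ultrafilter_le_nhds
    (W.map ys) (by
      rw [le_principal_iff]
      exact Filter.Eventually.of_forall (f := (W : Filter ℕ)) (p := fun j => ys j ∈ M) hysM)
  obtain ⟨w, -, hw⟩ := (isCompact_closedBall (0 : E N) (Real.sqrt (2 / a))).ultrafilter_le_nhds
    (W.map ws) (by
      rw [le_principal_iff]
      have h8 : ∀ᶠ j in (W : Filter ℕ), ws j ∈ Metric.closedBall (0 : E N) (Real.sqrt (2 / a)) := by
        filter_upwards [hwb] with j hj
        rw [mem_closedBall_zero_iff]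
        exact hj
      exact h8)
  have hyT : Tendsto ys W (𝓝 y) := hy
  have hwT : Tendsto ws W (𝓝 w) := hw
  have hunitw : conf p.1.fn g y w w = 1 := by
    have h1 : Tendsto (fun j => conf (ps j).1.fn g (ys j)) W (𝓝 (conf p.1.fn g y)) :=
      openOM_conv_at hW hconv hgc hyT
    have h2 : Tendsto (fun j => conf (ps j).1.fn g (ys j) (ws j) (ws j)) W
        (𝓝 (conf p.1.fn g y w w)) := openOM_clm (openOM_clm h1 hwT) hwT
    simp only [hws] at h2
    exact tendsto_nhds_unique h2 tendsto_const_nhds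
  have htanw : Tan r y w := by
    have h1 : Continuous (fderiv ℝ r) := h.smooth.continuous_fderiv (by simp)
    have h2 : Tendsto (fun j => fderiv ℝ r (ys j)) W (𝓝 (fderiv ℝ r y)) :=
      (h1.tendsto y).comp hyT
    have h3 : Tendsto (fun j => fderiv ℝ r (ys j) (ws j)) W (𝓝 (fderiv ℝ r y w)) :=
      openOM_clm h2 hwT
    have h4 : (fun j => fderiv ℝ r (ys j) (ws j)) = ws := funext fun j => htw j
    rw [h4] at h3
    exact tendsto_nhds_unique h3 hwT
  obtain ⟨t, ht, hk1, hk2⟩ := hdense y hyM w htanw hunitw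
  have e1 : ∀ᶠ j in (W : Filter ℕ), ‖cs j t - ys j‖ < 1 / ((m : ℝ) + 1) := by
    have h1 : Tendsto (fun j => ‖cs j t - ys j‖) W (𝓝 ‖c t - y‖) :=
      ((hc3 t).sub hyT).norm
    exact h1.eventually_lt_const hk1
  have e2 : ∀ᶠ j in (W : Filter ℕ), ‖deriv (cs j) t - ws j‖ < 1 / ((m : ℝ) + 1) := by
    have h1 : Tendsto (fun j => ‖deriv (cs j) t - ws j‖) W (𝓝 ‖deriv c t - w‖) :=
      ((hc4 t).sub hwT).norm
    exact h1.eventually_lt_const hk2
  obtain ⟨j, hj1, hj2⟩ := (e1.and e2).exists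
  exact hfar j t ht ⟨hj1, hj2⟩

end Pool.Agent.Helper59.GM
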