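import Pool.Agent.Helper59.GM.ExistC1M

/-!
# GM-44 TransAbsM: `ε`-dense geodesics in `M` for all `ε`, with unique geodesics, imply transitivity (Baire)

Proof. As GT-49 `TransAbs`. `S = {(x, v) | x ∈ M, Tan r x v, g x v v = 1} ⊆ E N × E N` is closed, so a complete metric space (Baire), nonempty (`n ≥ 1`: the range of `fderiv ℝ r x` is not `0`). For `z ∈ S` let `c_z` be the unique geodesic in `M`. For an open set `V ⊆ E N × E N` let `W_V = {z ∈ S | ∃ t, (c_z t, c_z' t) ∈ V}`.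
* `W_V` is open in `S`: if `z_j → z` in `S` and `z ∈ W_V` with `t`: along every ultrafilter `W ≤ atTop` on `ℕ`, `limitM` (constant sequence of metrics) and uniqueness give `(c_(z_j) t, c_(z_j)' t) → (c_z t, c_z' t) ∈ V`. If infinitely many `z_j ∉ W_V` pass to this subsequence and get a contradiction.
* `W_V` is dense in `S` if `V ∩ S ≠ ∅`: let `z₀ ∈ S`, `η > 0`, `z₁ ∈ V ∩ S` with `ball z₁ η' ⊆ V`. Take an `ε`-dense geodesic `c` in `M`, `ε = min η η'`: `t₁` with `(c t₁, c' t₁)` within `ε` of `z₀` and `t₂` with `(c t₂, c' t₂)` within `ε` of `z₁`. `z = (c t₁, c' t₁) ∈ S` (`tan_curve`, unit speed) has `c_z t = c (t + t₁)` (`shift_geoM`, uniqueness), so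
`(c_z (t₂ - t₁), c_z' (t₂ - t₁)) ∈ V`.
* Baire: there is `z ∈ S` in all `W_(V_i)` with `V_i ∩ S ≠ ∅`, `V_i` a countable basis of `E N × E N`. `c_z` is dense.
-/

set_option autoImplicit false
set_option maxSynthPendingDepth 3

open scoped ContDiff InnerProductSpace Topology
open Pool.Agent.Helper59.GT Filter

namespace Pool.Agent.Helper59.GM

variable {n N : ℕ} {M U : Set (E N)} {r : E N → E N} {χ : E N → ℝ} {g : E N → Bil N}

private theorem transAbsM_unit (h : Sub n M U r χ) (hn : 1 ≤ n) (hg : IsMetric 1 g) :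
    ∃ z : E N × E N, z.1 ∈ M ∧ Tan r z.1 z.2 ∧ g z.1 z.2 z.2 = 1 := by
  obtain ⟨x, hx⟩ := h.ne
  have h1 := h.rank x hx
  have h2 : ∃ u, fderiv ℝ r x u ≠ 0 := by
    by_contra hcon
    push Not at hcon
    have h3 : LinearMap.range (fderiv ℝ r x : E N →ₗ[ℝ] E N) = ⊥ := by
      rw [LinearMap.range_eq_bot]
      ext u : 1
      exact hcon u
    rw [h3, finrank_bot] at h1
    omega
  obtain ⟨u, hu⟩ := h2
  have hpos := hg.pos x _ hu
  refine ⟨(x, (Real.sqrt (g x (fderiv ℝ r x u) (fderiv ℝ r x u)))⁻¹ • fderiv ℝ r x u), hx, ?_, ?_⟩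
  · show fderiv ℝ r x ((Real.sqrt (g x (fderiv ℝ r x u) (fderiv ℝ r x u)))⁻¹ • fderiv ℝ r x u) = _
    rw [map_smul, h.tan_of_range hx u]
  · simp only [map_smul, ContinuousLinearMap.smul_apply, smul_eq_mul]
    rw [← mul_assoc, ← mul_inv, Real.mul_self_sqrt hpos.le, inv_mul_cancel₀ hpos.ne']

private theorem transAbsM_conv (g : E N → Bil N) : ConvMet (fun _ => g) g := by
  intro ε hε
  refine Filter.Eventually.of_forall fun j x => ?_
  simp only [sub_self, norm_zero]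
  exact ⟨hε, hε⟩

private theorem transAbsM_cont (h : Sub n M U r χ) (hg : IsMetric 1 g) (hu : UniqueM M r g)
    (C : {z : E N × E N | z.1 ∈ M ∧ Tan r z.1 z.2 ∧ g z.1 z.2 z.2 = 1} → ℝ → E N)
    (hC1 : ∀ z, MGeo M g (C z)) (hC3 : ∀ z, C z 0 = z.1.1) (hC4 : ∀ z, deriv (C z) 0 = z.1.2) (t : ℝ) :
    Continuous (fun z : {z : E N × E N | z.1 ∈ M ∧ Tan r z.1 z.2 ∧ g z.1 z.2 z.2 = 1} =>
      (C z t, deriv (C z) t)) := by
  refine SeqContinuous.continuous ?_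
  intro zs z hz
  have hz1 : Tendsto (fun j => (zs j).1.1) atTop (𝓝 z.1.1) :=
    ((continuous_fst.comp continuous_subtype_val).tendsto z).comp hz
  have hz2 : Tendsto (fun j => (zs j).1.2) atTop (𝓝 z.1.2) :=
    ((continuous_snd.comp continuous_subtype_val).tendsto z).comp hz
  rw [tendsto_iff_ultrafilter]
  intro W hW
  obtain ⟨c, h1, h3, h4, -⟩ := limitM h W hW hg (fun _ => g) (fun _ => hg)
    (transAbsM_conv g) (fun j => C (zs j)) (fun j => hC1 _)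
  have h5 : c 0 = z.1.1 := by
    refine tendsto_nhds_unique (h3 0) ?_
    simp only [hC3]
    exact hz1.mono_left hW
  have h6 : deriv c 0 = z.1.2 := by
    refine tendsto_nhds_unique (h4 0) ?_
    simp only [hC4]
    exact hz2.mono_left hW
  have h7 : c = C z := (hu z.1.1 z.2.1 z.1.2 z.2.2.1 z.2.2.2).unique ⟨h1, h5, h6⟩
    ⟨hC1 z, hC3 z, hC4 z⟩
  subst h7
  exact (h3 t).prodMk_nhds (h4 t)

theorem transM_of_dense (h : Sub n M U r χ) (hn : 1 ≤ n) (hg : IsMetric 1 g) (hu : UniqueM M r g)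
    (hd : ∀ ε > 0, ∃ c, MGeo M g c ∧ EpsM M r g c ε Set.univ) : TransM M r g := by
  have hgc : Continuous g := hg.smooth.continuous
  have hrc : Continuous (fderiv ℝ r) := (h.smooth.continuous_fderiv (by simp))
  have hclosed : IsClosed {z : E N × E N | z.1 ∈ M ∧ Tan r z.1 z.2 ∧ g z.1 z.2 z.2 = 1} := by
    refine (h.compact.isClosed.preimage continuous_fst).inter (IsClosed.inter ?_ ?_)
    · exact isClosed_eq ((hrc.comp continuous_fst).clm_apply continuous_snd) continuous_snd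
    · exact isClosed_eq (((hgc.comp continuous_fst).clm_apply continuous_snd).clm_apply continuous_snd)
        continuous_const
  haveI : CompleteSpace {z : E N × E N | z.1 ∈ M ∧ Tan r z.1 z.2 ∧ g z.1 z.2 z.2 = 1} :=
    hclosed.completeSpace_coe
  obtain ⟨z₀, hz₀⟩ := transAbsM_unit h hn hg
  haveI : Nonempty {z : E N × E N | z.1 ∈ M ∧ Tan r z.1 z.2 ∧ g z.1 z.2 z.2 = 1} := ⟨⟨z₀, hz₀⟩⟩
  have hex : ∀ z : {z : E N × E N | z.1 ∈ M ∧ Tan r z.1 z.2 ∧ g z.1 z.2 z.2 = 1}, ∃ c, MGeo M g c ∧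
      c 0 = z.1.1 ∧ deriv c 0 = z.1.2 := fun z => (hu z.1.1 z.2.1 z.1.2 z.2.2.1 z.2.2.2).exists
  choose C hC1 hC3 hC4 using hex
  have hcont := transAbsM_cont h hg hu C hC1 hC3 hC4
  let W : Set (E N × E N) → Set {z : E N × E N | z.1 ∈ M ∧ Tan r z.1 z.2 ∧ g z.1 z.2 z.2 = 1} := fun V =>
    {z | ∃ t : ℝ, (C z t, deriv (C z) t) ∈ V}
  have hWopen : ∀ V : Set (E N × E N), IsOpen V → IsOpen (W V) := by
    intro V hV
    have h1 : W V = ⋃ t : ℝ, {z | (C z t, deriv (C z) t) ∈ V} := by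
      ext z
      simp only [W, Set.mem_setOf_eq, Set.mem_iUnion]
    rw [h1]
    exact isOpen_iUnion fun t => hV.preimage (hcont t)
  have hWdense : ∀ V : Set (E N × E N), IsOpen V →
      (∃ z₁ ∈ V, z₁.1 ∈ M ∧ Tan r z₁.1 z₁.2 ∧ g z₁.1 z₁.2 z₁.2 = 1) → Dense (W V) := by
    rintro V hV ⟨z₁, hz₁V, hz₁M, hz₁T, hz₁⟩
    rw [Metric.dense_iff]
    intro z₀ η hη
    obtain ⟨η', hη', hball⟩ := Metric.isOpen_iff.1 hV z₁ hz₁V
    obtain ⟨c, hc1, hc3⟩ := hd (min η η') (lt_min hη hη')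
    obtain ⟨t₁, -, ha, hb⟩ := hc3 z₀.1.1 z₀.2.1 z₀.1.2 z₀.2.2.1 z₀.2.2.2
    obtain ⟨t₂, -, ha', hb'⟩ := hc3 z₁.1 hz₁M z₁.2 hz₁T hz₁
    have hzT : Tan r (c t₁) (deriv c t₁) := h.tan_curve hc1.mem (hc1.geo.1 t₁)
    have hz : g (c t₁) (deriv c t₁) (deriv c t₁) = 1 := hc1.unit t₁
    obtain ⟨s1, s3⟩ := shift_geoM hc1 t₁
    have hCz : (fun t => c (t + t₁)) = C ⟨(c t₁, deriv c t₁), hc1.mem t₁, hzT, hz⟩ := by
      refine (hu (c t₁) (hc1.mem t₁) (deriv c t₁) hzT hz).unique ⟨s1, ?_, ?_⟩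
        ⟨hC1 _, hC3 _, hC4 _⟩
      · simp only [zero_add]
      · rw [s3 0, zero_add]
    refine ⟨⟨(c t₁, deriv c t₁), hc1.mem t₁, hzT, hz⟩, ?_, t₂ - t₁, ?_⟩
    · rw [Metric.mem_ball, Subtype.dist_eq, Prod.dist_eq, dist_eq_norm, dist_eq_norm]
      exact max_lt (lt_of_lt_of_le ha (min_le_left _ _)) (lt_of_lt_of_le hb (min_le_left _ _))
    · rw [← hCz]
      refine hball ?_
      rw [Metric.mem_ball, Prod.dist_eq, dist_eq_norm, dist_eq_norm]
      refine max_lt ?_ ?_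
      · show ‖c (t₂ - t₁ + t₁) - z₁.1‖ < η'
        rw [sub_add_cancel]
        exact lt_of_lt_of_le ha' (min_le_right _ _)
      · show ‖deriv (fun t => c (t + t₁)) (t₂ - t₁) - z₁.2‖ < η'
        rw [s3, sub_add_cancel]
        exact lt_of_lt_of_le hb' (min_le_right _ _)
  obtain ⟨b, hbc, -, hb⟩ := TopologicalSpace.exists_countable_basis (E N × E N)
  have hdense : Dense (⋂ V ∈ {V | V ∈ b ∧ ∃ z₁ ∈ V, z₁.1 ∈ M ∧ Tan r z₁.1 z₁.2 ∧ g z₁.1 z₁.2 z₁.2 = 1}, W V) := by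
    refine dense_biInter_of_isOpen ?_ (hbc.mono fun V hV => hV.1) ?_
    · intro V hV
      exact hWopen V (hb.isOpen hV.1)
    · intro V hV
      exact hWdense V (hb.isOpen hV.1) hV.2
  obtain ⟨z, hz⟩ := hdense.nonempty
  refine ⟨C z, hC1 z, ?_⟩
  intro ε hε x hxM v hvT hxv
  obtain ⟨V, hVb, hxV, hVball⟩ := hb.exists_subset_of_mem_open
    (Metric.mem_ball_self hε : ((x, v) : E N × E N) ∈ Metric.ball (x, v) ε) Metric.isOpen_ball
  have hzV : z ∈ W V := Set.mem_iInter₂.1 hz V ⟨hVb, (x, v), hxV, hxM, hvT, hxv⟩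
  obtain ⟨t, ht⟩ := hzV
  have h1 := hVball ht
  rw [Metric.mem_ball, Prod.dist_eq, dist_eq_norm, dist_eq_norm] at h1
  exact ⟨t, Set.mem_univ _, lt_of_le_of_lt (le_max_left _ _) h1,
    lt_of_le_of_lt (le_max_right _ _) h1⟩

end Pool.Agent.Helper59.GM
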