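import Pool.Agent.Helper59.GM.OpenUM
import Pool.Agent.Helper59.GM.OpenOM
import Pool.Agent.Helper59.GM.DenseUOM
import Pool.Agent.Helper59.GM.TransAbsM

/-!
# GM-45 FinalM: genericity on `M`: assembly

Proof. As GT `Final` (`unique_of_UU`, `generic`): `R = ⋂ m, (UUM m ∩ OOM m)`; `completeM` for Baire (`dense_iInter_of_isOpen`); uniqueness from `exists_geoM_C1` and `UUM`; transitivity from `transM_of_dense` and `OOM`.
-/

set_option autoImplicit false
set_option maxSynthPendingDepth 3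

open scoped ContDiff InnerProductSpace Topology
open Pool.Agent.Helper59.GT Filter

namespace Pool.Agent.Helper59.GM

variable {n N : ℕ} {M U : Set (E N)} {r : E N → E N} {χ : E N → ℝ} {g : E N → Bil N}

theorem unique_of_UUM (h : Sub n M U r χ) (hg : Hat ∞ U r g) (p : C1M r χ) (hp : ∀ m, p ∈ UUM M r χ g m) :
    UniqueM M r (conf p.1.fn g) := by
  intro x hx v hv h1
  obtain ⟨c, hc, h0, h2⟩ := exists_geoM_C1 h hg p.1.fn (C1Fun.contDiff p.1) p.2 x hx v hv h1
  refine ⟨c, ⟨hc, h0, h2⟩, ?_⟩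
  rintro d ⟨hd, hd0, hd1⟩
  funext t
  rw [← sub_eq_zero, ← norm_eq_zero]
  apply le_antisymm _ (norm_nonneg _)
  apply le_of_forall_pos_le_add
  intro ε hε
  obtain ⟨m, hm⟩ := exists_nat_gt (max |t| (1 / ε))
  have hm1 : |t| ≤ m := (le_max_left _ _).trans hm.le
  have hm2 : 1 / ε < m := (le_max_right _ _).trans_lt hm
  have h3 := hp m d c hd hc (hd0.trans h0.symm) (hd1.trans h2.symm) t hm1
  have h4 : 1 / ((m : ℝ) + 1) ≤ ε := by
    rw [div_le_iff₀ (by positivity)]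
    rw [div_lt_iff₀ hε] at hm2
    nlinarith
  linarith

theorem genericM (h : Sub n M U r χ) (hn : 3 ≤ n) (hg : Hat ∞ U r g) :
    ∃ R : Set (C1M r χ), IsGδ R ∧ Dense R ∧ ∀ p ∈ R, UniqueM M r (conf p.1.fn g) ∧ TransM M r (conf p.1.fn g) := by
  haveI := completeM h
  refine ⟨⋂ m, (UUM M r χ g m ∩ OOM M r χ g m), ?_, ?_, ?_⟩
  · exact IsGδ.iInter_of_isOpen fun m => (isOpen_UUM h hg m).inter (isOpen_OOM h hg m)
  · exact dense_iInter_of_isOpen (fun m => (isOpen_UUM h hg m).inter (isOpen_OOM h hg m)) (fun m => dense_UOM h hn hg m)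
  · intro p hp
    rw [Set.mem_iInter] at hp
    have hu := unique_of_UUM h hg p (fun m => (hp m).1)
    refine ⟨hu, ?_⟩
    apply transM_of_dense h (by omega) (isMetric_confM hg.metric p) hu
    intro ε hε
    obtain ⟨m, hm⟩ := exists_nat_gt (1 / ε)
    obtain ⟨x, hx, v, hv, h1, T, hT, h2⟩ := (hp m).2
    obtain ⟨c, ⟨hc, h0, h3⟩, -⟩ := hu x hx v hv h1
    refine ⟨c, hc, fun y hy w hw hw1 => ?_⟩
    obtain ⟨t, -, h4, h5⟩ := h2 c hc h0 h3 y hy w hw hw1
    have h6 : 1 / ((m : ℝ) + 1) ≤ ε := by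
      rw [div_le_iff₀ (by positivity)]
      rw [div_lt_iff₀ hε] at hm
      nlinarith
    exact ⟨t, Set.mem_univ _, h4.trans_le h6, h5.trans_le h6⟩

end Pool.Agent.Helper59.GM
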