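import Pool.Agent.Helper59.GM.StmtM
import Pool.Agent.Helper59.GM.Defs

/-!
# GM-51 Local: the notions of the statement depend only on the retraction near `M`

Proof. For `x ∈ W` (open) `r = r₀` near `x`, so `fderiv ℝ r x = fderiv ℝ r₀ x` (`Filter.EventuallyEq.fderiv_eq`), `pull r g x = pull r₀ g x`. In `IsGeodesic` the points `c t` are in `M ⊆ W`, and `x ↦ pull r g x v v` and `x ↦ pull r₀ g x v v` agree near `c t`, so they have the same derivative. Everything else is immediate from the definitions.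
-/

set_option autoImplicit false
set_option maxSynthPendingDepth 3

open scoped ContDiff InnerProductSpace Topology
open Pool.Agent.Helper59.GT

namespace Pool.Agent.Helper59.GM

variable {N : ℕ} {M W U₀ : Set (E N)} {r r₀ : E N → E N}

private theorem gm51Local_ev (hW : IsOpen W) (hr : ∀ x ∈ W, r x = r₀ x) {x : E N} (hx : x ∈ W) :
    ∀ᶠ y in 𝓝 x, y ∈ W ∧ r y = r₀ y := by
  filter_upwards [hW.mem_nhds hx] with y hy
  exact ⟨hy, hr y hy⟩

private theorem gm51Local_fderiv (hW : IsOpen W) (hr : ∀ x ∈ W, r x = r₀ x) {x : E N} (hx : x ∈ W) :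
    fderiv ℝ r x = fderiv ℝ r₀ x := by
  have h1 : r =ᶠ[𝓝 x] r₀ := (gm51Local_ev hW hr hx).mono fun y hy => hy.2
  exact h1.fderiv_eq

theorem local_pull (hW : IsOpen W) (hr : ∀ x ∈ W, r x = r₀ x) (g : E N → E N → E N → ℝ) {x : E N} (hx : x ∈ W) :
    GMS.pull r g x = GMS.pull r₀ g x := by
  funext u w
  simp only [GMS.pull]
  rw [hr x hx, gm51Local_fderiv hW hr hx]

theorem local_tangent (hW : IsOpen W) (hr : ∀ x ∈ W, r x = r₀ x) {x : E N} (hx : x ∈ W) (v : E N) :
    GMS.Tangent r x v ↔ GMS.Tangent r₀ x v := by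
  simp only [GMS.Tangent]
  rw [gm51Local_fderiv hW hr hx]

private theorem gm51Local_fderiv_pull (hW : IsOpen W) (hr : ∀ x ∈ W, r x = r₀ x) (g : E N → E N → E N → ℝ) {x : E N}
    (hx : x ∈ W) (u v : E N) :
    fderiv ℝ (fun x => GMS.pull r g x u v) x = fderiv ℝ (fun x => GMS.pull r₀ g x u v) x := by
  have h1 : (fun x => GMS.pull r g x u v) =ᶠ[𝓝 x] (fun x => GMS.pull r₀ g x u v) := by
    filter_upwards [hW.mem_nhds hx] with y hy
    rw [local_pull hW hr g hy]
  exact h1.fderiv_eq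

private theorem gm51Local_fderiv_comp (hW : IsOpen W) (hr : ∀ x ∈ W, r x = r₀ x) (f : E N → ℝ) {x : E N}
    (hx : x ∈ W) :
    fderiv ℝ (fun x => f (r x)) x = fderiv ℝ (fun x => f (r₀ x)) x := by
  have h1 : (fun x => f (r x)) =ᶠ[𝓝 x] (fun x => f (r₀ x)) := by
    filter_upwards [hW.mem_nhds hx] with y hy
    rw [hr y hy]
  exact h1.fderiv_eq

theorem local_geodesic (hW : IsOpen W) (hMW : M ⊆ W) (hr : ∀ x ∈ W, r x = r₀ x) (g : E N → E N → E N → ℝ) (c : ℝ → E N) :
    GMS.IsGeodesic M r g c ↔ GMS.IsGeodesic M r₀ g c := by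
  unfold GMS.IsGeodesic
  refine and_congr_right fun hc => and_congr_right fun _ => ?_
  refine forall_congr' fun t => forall_congr' fun w => ?_
  have h1 : (fun s => GMS.pull r g (c s) (deriv c s) w) = (fun s => GMS.pull r₀ g (c s) (deriv c s) w) := by
    funext s
    rw [local_pull hW hr g (hMW (hc s))]
  rw [h1, gm51Local_fderiv_pull hW hr g (hMW (hc t))]

theorem local_eps (hW : IsOpen W) (hMW : M ⊆ W) (hr : ∀ x ∈ W, r x = r₀ x) (g : E N → E N → E N → ℝ) (c : ℝ → E N)
    (ε : ℝ) : GMS.EpsDense M r g c ε ↔ GMS.EpsDense M r₀ g c ε := by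
  unfold GMS.EpsDense
  refine forall_congr' fun x => forall_congr' fun hx => forall_congr' fun v => ?_
  rw [local_tangent hW hr (hMW hx)]

theorem local_trans (hW : IsOpen W) (hMW : M ⊆ W) (hr : ∀ x ∈ W, r x = r₀ x) (g : E N → E N → E N → ℝ) :
    GMS.Transitive M r g ↔ GMS.Transitive M r₀ g := by
  unfold GMS.Transitive
  refine exists_congr fun c => ?_
  refine and_congr (local_geodesic hW hMW hr g c) (and_congr_right fun _ => ?_)
  exact forall_congr' fun ε => forall_congr' fun _ => local_eps hW hMW hr g c ε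

theorem local_unique (hW : IsOpen W) (hMW : M ⊆ W) (hr : ∀ x ∈ W, r x = r₀ x) (g : E N → E N → E N → ℝ) :
    GMS.UniqueGeodesics M r g ↔ GMS.UniqueGeodesics M r₀ g := by
  unfold GMS.UniqueGeodesics
  refine forall_congr' fun x => forall_congr' fun hx => forall_congr' fun v => ?_
  rw [local_tangent hW hr (hMW hx)]
  refine forall_congr' fun _ => forall_congr' fun _ => ?_
  refine existsUnique_congr fun c => ?_
  rw [local_geodesic hW hMW hr g c]

theorem local_isMetric (hW : IsOpen W) (hMW : M ⊆ W) (hWU : W ⊆ U₀) (hr : ∀ x ∈ W, r x = r₀ x) {m : WithTop ℕ∞}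
    {g : E N → E N → E N → ℝ} (hg : GMS.IsMetric m M U₀ r₀ g) : GMS.IsMetric m M W r g := by
  refine ⟨?_, ?_, ?_, ?_, ?_⟩
  · intro x hx u v w hu hv hw
    rw [local_tangent hW hr (hMW hx)] at hu hv hw
    exact hg.add x hx u v w hu hv hw
  · intro x hx a u w hu hw
    rw [local_tangent hW hr (hMW hx)] at hu hw
    exact hg.smul x hx a u w hu hw
  · intro x hx u w hu hw
    rw [local_tangent hW hr (hMW hx)] at hu hw
    exact hg.symm x hx u w hu hw
  · intro x hx u hu hne
    rw [local_tangent hW hr (hMW hx)] at hu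
    exact hg.pos x hx u hu hne
  · intro u w
    refine ((hg.smooth u w).mono hWU).congr fun x hx => ?_
    rw [local_pull hW hr g hx]

theorem local_isFun (hWU : W ⊆ U₀) (hr : ∀ x ∈ W, r x = r₀ x) {m : WithTop ℕ∞} {u : E N → ℝ}
    (hu : GMS.IsFun m U₀ r₀ u) : GMS.IsFun m W r u := by
  refine ContDiffOn.congr (ContDiffOn.mono hu hWU) fun x hx => ?_
  rw [hr x hx]

theorem local_closeFun (hW : IsOpen W) (hMW : M ⊆ W) (hr : ∀ x ∈ W, r x = r₀ x) (u u' : E N → ℝ) (ε : ℝ) :
    GMS.CloseFun M r u u' ε ↔ GMS.CloseFun M r₀ u u' ε := by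
  unfold GMS.CloseFun GMS.Close
  refine forall_congr' fun x => forall_congr' fun hx => forall_congr' fun w => forall_congr' fun _ => ?_
  rw [gm51Local_fderiv_comp hW hr u (hMW hx), gm51Local_fderiv_comp hW hr u' (hMW hx)]
  beta_reduce
  rw [hr x (hMW hx)]

theorem local_closeMetric (hW : IsOpen W) (hMW : M ⊆ W) (hr : ∀ x ∈ W, r x = r₀ x) (g g' : E N → E N → E N → ℝ) (ε : ℝ) :
    GMS.CloseMetric M r g g' ε ↔ GMS.CloseMetric M r₀ g g' ε := by
  unfold GMS.CloseMetric GMS.Close
  refine forall_congr' fun u => forall_congr' fun v => forall_congr' fun _ => forall_congr' fun _ => ?_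
  refine forall_congr' fun x => forall_congr' fun hx => forall_congr' fun w => forall_congr' fun _ => ?_
  rw [gm51Local_fderiv_pull hW hr g (hMW hx), gm51Local_fderiv_pull hW hr g' (hMW hx)]
  beta_reduce
  rw [local_pull hW hr g (hMW hx), local_pull hW hr g' (hMW hx)]

end Pool.Agent.Helper59.GM
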