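import Pool.Agent.Helper59.GM.SpaceM
import Pool.Agent.Helper59.GM.ExtSmooth
import Pool.Agent.Helper59.GM.Local

/-!
# GM-53 GdeltaM: dense `G_δ` sets of `C1M` and of the statement

Proof. Write `û = ext r χ u`. If `IsFun 1 U₀ r₀ u` then `û` is `C ^ 1` (`local_isFun`, `ext_smooth_on`), `ext r χ û = û`, and near `x ∈ M` (on the open set `U ∩ W`) `û = u ∘ r = u ∘ r₀`, so for `x ∈ M`: `û x = u (r₀ x)` and `fderiv ℝ û x = fderiv ℝ (fun x => u (r₀ x)) x`. Conversely if `v` is `C ^ 1` then `IsFun 1 U₀ r₀ v` (composition with the smooth `r₀`: `hsm`).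
(A) `CloseFun M r₀ u u' δ` implies `dist p p' ≤ C δ` for the elements `p, p'` of `C1M` with `p.fn = û`, `p'.fn = û'`: `ext_bound` for `f = û'`, `f' = û` (`|fderiv .. w| ≤ δ ‖w‖` from the unit vectors by homogeneity), `ext r χ û = û`, `C1Fun.dist_le_of`. (B) `dist p p' < ε` implies `CloseFun M r₀ u u' ε` (`C1Fun.dist_fn`, `‖w‖ ≤ 1`).
Let `R = ⋂ j, f j` with `f j` open (`isGδ_iff_eq_iInter_nat`), `V j = {u | ∃ p ∈ f j, p.1.fn = ext r χ u}`. Open: `u ∈ V j` with `p`, `ball p ε ⊆ f j`, `δ = ε / (2 C)`: (A). The set is `{u | IsFun ∧ ∀ j, u ∈ V j}`: an element of `C1M` is determined by its function (`C1Fun.dist_le_of` with `0`, as in `GT.Bridge`), so the `p` for different `j` are the same, and it lies in `R`.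
Dense: `u`, `ε`; `p` with `p.fn = û` (`existsM_of`), `q ∈ R` with `dist p q < ε`, `u' = q.1.fn`: `ext r χ u' = u'` (`q.2`), (B).
-/

set_option autoImplicit false
set_option maxSynthPendingDepth 3

open scoped ContDiff InnerProductSpace Topology
open Pool.Agent.Helper59.GT

namespace Pool.Agent.Helper59.GM

variable {n N : ℕ} {M U W U₀ : Set (E N)} {r r₀ : E N → E N} {χ : E N → ℝ}

private theorem gdeltaM_sub (h : Sub n M U r χ) (hχ : tsupport χ ⊆ W) : M ⊆ W := by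
  intro x hx
  apply hχ
  apply subset_tsupport
  rw [Function.mem_support, h.chi_one x (h.sub hx)]
  exact one_ne_zero

private theorem gdeltaM_val (h : Sub n M U r χ) (hMW : M ⊆ W) (hr : ∀ x ∈ W, r x = r₀ x) (u : E N → ℝ) {x : E N}
    (hx : x ∈ M) : ext r χ u x = u (r₀ x) := by
  rw [ext_mem h u hx, ← hr x (hMW hx), h.fixed x hx]

private theorem gdeltaM_fderiv (h : Sub n M U r χ) (hW : IsOpen W) (hMW : M ⊆ W) (hr : ∀ x ∈ W, r x = r₀ x)
    (u : E N → ℝ) {x : E N} (hx : x ∈ M) : fderiv ℝ (ext r χ u) x = fderiv ℝ (fun y => u (r₀ y)) x := by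
  apply Filter.EventuallyEq.fderiv_eq
  filter_upwards [h.isOpen.mem_nhds (h.sub hx), hW.mem_nhds (hMW hx)] with y hy hy2
  rw [ext_eq h u hy, hr y hy2]

private theorem gdeltaM_close (h : Sub n M U r χ) (hW : IsOpen W) (hMW : M ⊆ W) (hr : ∀ x ∈ W, r x = r₀ x)
    (u u' : E N → ℝ) (ε : ℝ) : GMS.CloseFun M r₀ u u' ε ↔ GMS.Close M (ext r χ u) (ext r χ u') ε := by
  constructor
  · intro hc x hx w hw
    rw [gdeltaM_val h hMW hr u hx, gdeltaM_val h hMW hr u' hx, gdeltaM_fderiv h hW hMW hr u hx,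
      gdeltaM_fderiv h hW hMW hr u' hx]
    exact hc x hx w hw
  · intro hc x hx w hw
    have h1 := hc x hx w hw
    rw [gdeltaM_val h hMW hr u hx, gdeltaM_val h hMW hr u' hx, gdeltaM_fderiv h hW hMW hr u hx,
      gdeltaM_fderiv h hW hMW hr u' hx] at h1
    exact h1

private theorem gdeltaM_hom (A : E N →L[ℝ] ℝ) {δ : ℝ} (hA : ∀ w, ‖w‖ ≤ 1 → |A w| < δ) (w : E N) : |A w| ≤ δ * ‖w‖ := by
  by_cases hw : w = 0
  · simp [hw]
  · have hw0 : 0 < ‖w‖ := norm_pos_iff.2 hw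
    have h1 := hA (‖w‖⁻¹ • w) (by
      rw [norm_smul, norm_inv, norm_norm, inv_mul_cancel₀ hw0.ne'])
    rw [map_smul, smul_eq_mul, abs_mul, abs_of_pos (inv_pos.2 hw0)] at h1
    have h2 : ‖w‖⁻¹ * |A w| * ‖w‖ < δ * ‖w‖ := mul_lt_mul_of_pos_right h1 hw0
    have h3 : ‖w‖⁻¹ * |A w| * ‖w‖ = |A w| := by
      field_simp
    rw [h3] at h2
    exact h2.le

private theorem gdeltaM_uniq {p q : C1M r χ} (hpq : p.1.fn = q.1.fn) : p = q := by
  have h1 : dist p.1 q.1 ≤ 0 := C1Fun.dist_le_of p.1 q.1 0 le_rfl fun x => by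
    rw [hpq]
    simp
  exact Subtype.ext (dist_le_zero.1 h1)

theorem denseGdelta_of (h : Sub n M U r χ) (hW : IsOpen W) (hχ : tsupport χ ⊆ W) (hWU : W ⊆ U₀) (hr : ∀ x ∈ W, r x = r₀ x)
    (hsm : ContDiffOn ℝ ∞ r₀ U₀) (R : Set (C1M r χ)) (h1 : IsGδ R) (h2 : Dense R) :
    GMS.DenseGdelta M U₀ r₀ {u | GMS.IsFun 1 U₀ r₀ u ∧ ∃ p ∈ R, p.1.fn = ext r χ u} := by
  have hMW : M ⊆ W := gdeltaM_sub h hχ
  have hsmooth : ∀ u, GMS.IsFun 1 U₀ r₀ u → ContDiff ℝ 1 (ext r χ u) := fun u hu =>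
    ext_smooth_on h (by simp) hW hχ (local_isFun hWU hr hu)
  have hfun : ∀ v : E N → ℝ, ContDiff ℝ 1 v → GMS.IsFun 1 U₀ r₀ v := fun v hv =>
    hv.comp_contDiffOn (hsm.of_le (by simp))
  obtain ⟨C, hC, hb⟩ := ext_bound h
  -- (A)
  have hA : ∀ (u u' : E N → ℝ) (p p' : C1M r χ) (δ : ℝ), GMS.IsFun 1 U₀ r₀ u → GMS.IsFun 1 U₀ r₀ u' → 0 < δ →
      p.1.fn = ext r χ u → p'.1.fn = ext r χ u' → GMS.CloseFun M r₀ u u' δ → dist p' p ≤ C * δ := by
    intro u u' p p' δ hu hu' hδ hp hp' hc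
    rw [gdeltaM_close h hW hMW hr] at hc
    have h3 := hb (ext r χ u') (ext r χ u) (hsmooth u' hu') (hsmooth u hu) δ hδ.le (by
      intro x hx
      refine ⟨(hc x hx 0 (by simp)).1.le, fun w _ => ?_⟩
      have h4 := gdeltaM_hom (fderiv ℝ (ext r χ u') x - fderiv ℝ (ext r χ u) x) (δ := δ)
        (fun w hw => (hc x hx w hw).2) w
      exact h4)
    rw [ext_ext h, ext_ext h] at h3
    refine C1Fun.dist_le_of p'.1 p.1 (C * δ) (by positivity) fun x => ?_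
    rw [hp, hp']
    exact h3 x
  obtain ⟨f, hf, hR⟩ := isGδ_iff_eq_iInter_nat.1 h1
  refine ⟨⟨fun j => {u | ∃ p ∈ f j, p.1.fn = ext r χ u}, ?_, ?_⟩, ?_⟩
  · intro j u hu hfu
    obtain ⟨p, hp, hpu⟩ := hu
    obtain ⟨ε, hε, hball⟩ := Metric.isOpen_iff.1 (hf j) p hp
    refine ⟨ε / (2 * C), by positivity, fun u' hfu' hc => ?_⟩
    obtain ⟨p', hp'⟩ := existsM_of (ext r χ u') (hsmooth u' hfu') (ext_ext h u')
    refine ⟨p', hball ?_, hp'⟩
    rw [Metric.mem_ball]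
    have h3 := hA u u' p p' (ε / (2 * C)) hfu hfu' (by positivity) hpu hp' hc
    have h4 : C * (ε / (2 * C)) = ε / 2 := by
      field_simp
    rw [h4] at h3
    linarith
  · ext u
    constructor
    · rintro ⟨hfu, p, hp, hpu⟩
      refine ⟨hfu, fun j => ⟨p, ?_, hpu⟩⟩
      rw [hR] at hp
      exact Set.mem_iInter.1 hp j
    · rintro ⟨hfu, hj⟩
      refine ⟨hfu, ?_⟩
      obtain ⟨p, hp, hpu⟩ := hj 0
      refine ⟨p, ?_, hpu⟩
      rw [hR]
      apply Set.mem_iInter.2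
      intro j
      obtain ⟨q, hq, hqu⟩ := hj j
      have h3 : q = p := gdeltaM_uniq (hqu.trans hpu.symm)
      rwa [← h3]
  · intro u hfu ε hε
    obtain ⟨p, hp⟩ := existsM_of (ext r χ u) (hsmooth u hfu) (ext_ext h u)
    obtain ⟨q, hq, hd⟩ := h2.exists_dist_lt p hε
    have hq2 : ext r χ q.1.fn = q.1.fn := q.2
    refine ⟨q.1.fn, ⟨hfun _ q.1.contDiff, q, hq, hq2.symm⟩, ?_⟩
    rw [gdeltaM_close h hW hMW hr, hq2, ← hp]
    intro x hx w hw
    have h3 := C1Fun.dist_fn p.1 q.1 x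
    have h4 : dist p.1 q.1 < ε := hd
    refine ⟨?_, ?_⟩
    · rw [abs_sub_comm]
      exact lt_of_le_of_lt h3.1 h4
    · rw [abs_sub_comm]
      have h5 : |(fderiv ℝ p.1.fn x - fderiv ℝ q.1.fn x) w| ≤ ‖fderiv ℝ p.1.fn x - fderiv ℝ q.1.fn x‖ * ‖w‖ :=
        (Real.norm_eq_abs _).symm.trans_le (ContinuousLinearMap.le_opNorm (fderiv ℝ p.1.fn x - fderiv ℝ q.1.fn x) w)
      have h6 : ‖fderiv ℝ p.1.fn x - fderiv ℝ q.1.fn x‖ * ‖w‖ ≤ ‖fderiv ℝ p.1.fn x - fderiv ℝ q.1.fn x‖ := by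
        nlinarith [norm_nonneg (fderiv ℝ p.1.fn x - fderiv ℝ q.1.fn x), norm_nonneg w]
      exact lt_of_le_of_lt (h5.trans (h6.trans h3.2)) h4

end Pool.Agent.Helper59.GM
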