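import Pool.Agent.Helper59.GM.SpaceM

/-!
# Project GM: the open dense sets (definitions)

* `UUM M r χ g m`: any two unit speed geodesics in `M` of `conf p.fn g` with the same initial vector are `1 / (m + 1)`-close on `[-m, m]`.
* `OOM M r χ g m`: for some unit vector tangent to `M` and some `T`, all unit speed geodesics in `M` with this initial vector have `1 / (m + 1)`-dense tangent vectors on `[0, T]`.
-/

set_option autoImplicit false
set_option maxSynthPendingDepth 3

open scoped ContDiff InnerProductSpace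
open Pool.Agent.Helper59.GT

namespace Pool.Agent.Helper59.GM

def UUM {N : ℕ} (M : Set (E N)) (r : E N → E N) (χ : E N → ℝ) (g : E N → Bil N) (m : ℕ) : Set (C1M r χ) :=
  {p | ∀ c d : ℝ → E N, MGeo M (conf p.1.fn g) c → MGeo M (conf p.1.fn g) d → c 0 = d 0 → deriv c 0 = deriv d 0 →
    ∀ t : ℝ, |t| ≤ m → ‖c t - d t‖ < 1 / ((m : ℝ) + 1)}

def OOM {N : ℕ} (M : Set (E N)) (r : E N → E N) (χ : E N → ℝ) (g : E N → Bil N) (m : ℕ) : Set (C1M r χ) :=
  {p | ∃ x ∈ M, ∃ v, Tan r x v ∧ conf p.1.fn g x v v = 1 ∧ ∃ T : ℝ, 0 < T ∧ ∀ c : ℝ → E N, MGeo M (conf p.1.fn g) c →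
    c 0 = x → deriv c 0 = v → EpsM M r (conf p.1.fn g) c (1 / ((m : ℝ) + 1)) (Set.Icc 0 T)}

end Pool.Agent.Helper59.GM
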