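import Pool.Agent.Helper59.GM.SubLem

/-!
# GM-49 GeoBridge: geodesics of the ambient metric in `M` and geodesics of `M`

Proof. Let `c` be differentiable, `v = c' t`. `v` is tangent (`tan_curve`): `v - P v = 0` at every time, so `G (c s) (c' s) w = B (c s) (c' s) w` for all `s` (`hB`; `c s ∈ M ⊆ U`): the two functions of `s` are equal. The forces: fix `t`, `v = c' t`, `x₀ = c t ∈ U`. Near `x₀` (open set `U`) `B x v v = G x v v - a x ⟪v - P_x v, v - P_x v⟫`, and the last function has derivative `0` at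
`x₀`: it is the product of `a` and the square of the norm of the `C ^ 1` function `x ↦ v - P_x v` (`fderiv ℝ r` is `C ^ 1`), which vanishes at `x₀`. So `x ↦ B x v v` is differentiable at `x₀` and `fderiv ℝ (fun x => B x v v) x₀ w = fderiv ℝ (fun x => G x v v) x₀ w = fderiv ℝ G x₀ w v v`. So both conditions say the same.
-/

set_option autoImplicit false
set_option maxSynthPendingDepth 3

open scoped ContDiff InnerProductSpace Topology
open Pool.Agent.Helper59.GT

namespace Pool.Agent.Helper59.GM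

variable {n N : ℕ} {M U W : Set (E N)} {r : E N → E N} {χ : E N → ℝ}

private theorem geoBridge_smooth' (h : Sub n M U r χ) : Differentiable ℝ (fderiv ℝ r) :=
  (h.smooth.fderiv_right (m := ∞) (by simp)).differentiable (by simp)

private theorem geoBridge_eq (h : Sub n M U r χ) {G : E N → Bil N} (B : E N → E N → E N → ℝ) (a : E N → ℝ)
    (hB : ∀ x ∈ U, ∀ u w, G x u w = B x u w + a x * ⟪u - fderiv ℝ r x u, w - fderiv ℝ r x w⟫_ℝ)
    (c : ℝ → E N) (hc : ∀ t, c t ∈ M) (hd : Differentiable ℝ c) (w : E N) :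
    (fun s => G (c s) (deriv c s) w) = fun s => B (c s) (deriv c s) w := by
  funext s
  have h1 : fderiv ℝ r (c s) (deriv c s) = deriv c s := h.tan_curve hc (hd s)
  rw [hB (c s) (h.sub (hc s)), h1, sub_self, inner_zero_left, mul_zero, add_zero]

private theorem geoBridge_force (h : Sub n M U r χ) {G : E N → Bil N} (hG : Differentiable ℝ G) (B : E N → E N → E N → ℝ)
    (a : E N → ℝ) (ha : Differentiable ℝ a)
    (hB : ∀ x ∈ U, ∀ u w, G x u w = B x u w + a x * ⟪u - fderiv ℝ r x u, w - fderiv ℝ r x w⟫_ℝ)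
    {x₀ : E N} (hx : x₀ ∈ U) {v : E N} (hv : fderiv ℝ r x₀ v = v) (w : E N) :
    fderiv ℝ (fun x => B x v v) x₀ w = fderiv ℝ G x₀ w v v := by
  have hf : HasFDerivAt (fun x => v - fderiv ℝ r x v)
      (0 - ((fderiv ℝ (fderiv ℝ r) x₀).flip v)) x₀ := by
    have h1 : HasFDerivAt (fun x => fderiv ℝ r x v) ((fderiv ℝ (fderiv ℝ r) x₀).flip v) x₀ := by
      have h2 := ((geoBridge_smooth' h) x₀).hasFDerivAt.clm_apply (hasFDerivAt_const v x₀)
      refine h2.congr_fderiv ?_
      ext1 y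
      simp
    exact (hasFDerivAt_const v x₀).sub h1
  have h0 : v - fderiv ℝ r x₀ v = 0 := by rw [hv, sub_self]
  have hi : HasFDerivAt (fun x => ⟪v - fderiv ℝ r x v, v - fderiv ℝ r x v⟫_ℝ) (0 : E N →L[ℝ] ℝ) x₀ := by
    have h1 := hf.inner ℝ hf
    refine h1.congr_fderiv ?_
    ext1 y
    simp [h0]
  have hai : HasFDerivAt (fun x => a x * ⟪v - fderiv ℝ r x v, v - fderiv ℝ r x v⟫_ℝ) (0 : E N →L[ℝ] ℝ) x₀ := by
    have h1 := (ha x₀).hasFDerivAt.mul hi
    refine h1.congr_fderiv ?_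
    ext1 y
    simp [h0]
  have hg : HasFDerivAt (fun x => G x v v) (((fderiv ℝ G x₀).flip v).flip v) x₀ := by
    have h2 := (((hG x₀).hasFDerivAt.clm_apply (hasFDerivAt_const v x₀))).clm_apply (hasFDerivAt_const v x₀)
    refine h2.congr_fderiv ?_
    ext1 y
    simp
  have hs := hg.sub hai
  have he : (fun x => B x v v) =ᶠ[𝓝 x₀] fun x => G x v v - a x * ⟪v - fderiv ℝ r x v, v - fderiv ℝ r x v⟫_ℝ := by
    filter_upwards [h.isOpen.mem_nhds hx] with x hxU
    rw [hB x hxU]
    ring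
  have hb := hs.congr_of_eventuallyEq he
  rw [hb.fderiv]
  simp

theorem geo_bridge (h : Sub n M U r χ) {G : E N → Bil N} (hG : Differentiable ℝ G) (B : E N → E N → E N → ℝ) (a : E N → ℝ)
    (ha : Differentiable ℝ a) (hB : ∀ x ∈ U, ∀ u w, G x u w = B x u w + a x * ⟪u - fderiv ℝ r x u, w - fderiv ℝ r x w⟫_ℝ)
    (c : ℝ → E N) (hc : ∀ t, c t ∈ M) :
    IsGeodesic G c ↔ Differentiable ℝ c ∧ ∀ t w, HasDerivAt (fun s => B (c s) (deriv c s) w)
      ((1 / 2) * fderiv ℝ (fun x => B x (deriv c t) (deriv c t)) (c t) w) t := by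
  constructor
  · rintro ⟨hd, h2⟩
    refine ⟨hd, fun t w => ?_⟩
    have h3 := h2 t w
    rw [geoBridge_eq h B a hB c hc hd w] at h3
    rw [geoBridge_force h hG B a ha hB (h.sub (hc t)) (h.tan_curve hc (hd t)) w]
    exact h3
  · rintro ⟨hd, h2⟩
    refine ⟨hd, fun t w => ?_⟩
    have h3 := h2 t w
    rw [geoBridge_force h hG B a ha hB (h.sub (hc t)) (h.tan_curve hc (hd t)) w] at h3
    rw [geoBridge_eq h B a hB c hc hd w]
    exact h3

end Pool.Agent.Helper59.GM
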