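import Pool.Agent.Helper59.GM.FiberConn
import Pool.Agent.Helper59.GM.PhTan
import Pool.Agent.Helper59.GM.Acc
import Pool.Agent.Helper59.GT.ShellLem

/-!
# GM-23 ShellM: the shell in the cotangent bundle of `M` is connected, its closure compact

Proof. `compactM`: `TT M r` is closed (`isClosed_TT`), `Hk g` is continuous, `M` is compact and the momenta are bounded (`Hk_bounds`): closed and bounded.
`shellM_preconnected`: `fiber_conn` with `K = TT M r ∩ Shell g`, `π z = z.1`. Let `x ∈ M`, `P = fderiv ℝ r x`, `T` = range of `P` (a submodule of dimension `n ≥ 2`, `Sub.rank`; its elements are exactly the tangent vectors). The fibre over `x` is the image of `(T \ {0}) × Ioo (1/2) 2` under `(v, ρ) ↦ (x, √(2 ρ / g x v v) • opA g x v)`: by `tan_iff` the image is in `TT`, its energy is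
`(2 ρ / g x v v) (1 / 2) g x v v = ρ` (`Hk_eq` and linearity of `opA`; `g x v v > 0`), and a point `(x, p)` of the fibre is the image of `(cog g x p, Hk g (x, p))` (`tan_cog`, `cog_right`, `Hk_eq`). `T \ {0}` is connected (`isPreconnected_compl_singleton_of_one_lt_rank` in the type `T`), so is the product; the map is continuous.
Nonempty fibres: `T \ {0}` is nonempty. `hloc`: for `z = (x₀, p₀)`, `v₀ = cog g x₀ p₀` (tangent), the map `y ↦ (y, opA g y (fderiv ℝ r y v₀))` is continuous, takes the value `z` at `x₀`, and values in `TT` for `y ∈ M` (`tan_of_range`, `tan_iff`); the shell is open.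
-/

set_option autoImplicit false
set_option maxSynthPendingDepth 3

open scoped ContDiff InnerProductSpace Topology
open Pool.Agent.Helper59.GT

namespace Pool.Agent.Helper59.GM

variable {n N : ℕ} {M U : Set (E N)} {r : E N → E N} {χ : E N → ℝ} {g : E N → Bil N}

theorem compactM (h : Sub n M U r χ) (hg : Hat ∞ U r g) :
    IsCompact {z | z ∈ TT M r ∧ 1 / 2 ≤ Hk g z ∧ Hk g z ≤ 2} := by
  obtain ⟨c, d, hc, -, hb⟩ := Hk_bounds hg.metric
  have hHc := continuous_Hk hg.metric
  have hcl : IsClosed {z | z ∈ TT M r ∧ 1 / 2 ≤ Hk g z ∧ Hk g z ≤ 2} :=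
    (isClosed_TT h).inter ((isClosed_le continuous_const hHc).inter (isClosed_le hHc continuous_const))
  refine IsCompact.of_isClosed_subset
    (h.compact.prod (isCompact_closedBall (0 : E N) (Real.sqrt (2 / c)))) hcl ?_
  rintro z ⟨hz1, -, hz3⟩
  refine ⟨hz1.1, ?_⟩
  rw [mem_closedBall_zero_iff]
  apply Real.le_sqrt_of_sq_le
  rw [le_div_iff₀ hc]
  have h1 := (hb z).1
  linarith [mul_comm c (‖z.2‖ ^ 2)]

/-- the point of the fibre over `x` with the direction `v` and the energy `ρ` -/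
private theorem shm_mem (h : Sub n M U r χ) (hg : Hat ∞ U r g) {x : E N} (hx : x ∈ M) {v : E N} (hv : Tan r x v)
    (hv0 : v ≠ 0) {ρ : ℝ} (hρ : 1 / 2 < ρ ∧ ρ < 2) :
    ((x, opA g x (Real.sqrt (2 * ρ / g x v v) • v)) : Ph N) ∈ TT M r ∩ Shell g := by
  have hpos := hg.metric.pos x v hv0
  constructor
  · refine (tan_iff h hg hx _).2 ?_
    show fderiv ℝ r x (Real.sqrt (2 * ρ / g x v v) • v) = Real.sqrt (2 * ρ / g x v v) • v
    rw [map_smul, hv]
  · show 1 / 2 < Hk g _ ∧ Hk g _ < 2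
    have h1 : Hk g ((x, opA g x (Real.sqrt (2 * ρ / g x v v) • v)) : Ph N) = ρ := by
      have hnn : 0 ≤ 2 * ρ / g x v v := div_nonneg (by linarith) hpos.le
      have hs := Real.mul_self_sqrt hnn
      have h2 : ∀ a : ℝ, g x (a • v) (a • v) = a * a * g x v v := by
        intro a
        simp only [map_smul, _root_.smul_apply, smul_eq_mul]
        ring
      rw [Hk_eq hg.metric, h2, hs]
      field_simp
    rw [h1]
    exact hρ

private theorem shm_fib (h : Sub n M U r χ) (hg : Hat ∞ U r g) (hn : 2 ≤ n) {x : E N} (hx : x ∈ M) :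
    IsPreconnected ((TT M r ∩ Shell g) ∩ Prod.fst ⁻¹' {x}) := by
  obtain ⟨T, hT⟩ : ∃ T : Submodule ℝ (E N), T = LinearMap.range (fderiv ℝ r x : E N →ₗ[ℝ] E N) := ⟨_, rfl⟩
  have hfr : Module.finrank ℝ T = n := by
    rw [hT]
    exact h.rank x hx
  have hTan : ∀ v : E N, v ∈ T ↔ Tan r x v := by
    intro v
    rw [hT]
    constructor
    · rintro ⟨w, hw⟩
      rw [← hw]
      exact h.tan_of_range hx w
    · intro hv
      exact ⟨v, hv⟩
  have hrank : 1 < Module.rank ℝ T := by
    rw [← Module.finrank_eq_rank, hfr]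
    exact_mod_cast hn
  have hQ : IsPreconnected (({0}ᶜ : Set T) ×ˢ Set.Ioo (1 / 2 : ℝ) 2) :=
    (isConnected_compl_singleton_of_one_lt_rank hrank 0).isPreconnected.prod isPreconnected_Ioo
  have himg : (fun w : T × ℝ => ((x, opA g x (Real.sqrt (2 * w.2 / g x (w.1 : E N) (w.1 : E N)) • (w.1 : E N))) : Ph N)) ''
      (({0}ᶜ : Set T) ×ˢ Set.Ioo (1 / 2 : ℝ) 2) = (TT M r ∩ Shell g) ∩ Prod.fst ⁻¹' {x} := by
    ext z
    constructor
    · rintro ⟨⟨v, ρ⟩, ⟨hv, hρ⟩, rfl⟩
      have hv0 : (v : E N) ≠ 0 := by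
        intro h0
        exact hv (Subtype.ext h0)
      exact ⟨shm_mem h hg hx ((hTan _).1 v.2) hv0 hρ, rfl⟩
    · rintro ⟨⟨hz1, hz2⟩, hz3⟩
      obtain ⟨y, p⟩ := z
      have hy : y = x := hz3
      subst hy
      have hz2' : 1 / 2 < Hk g ((y, p) : Ph N) ∧ Hk g ((y, p) : Ph N) < 2 := hz2
      have hvt := ((tan_cog h hg _).1 hz1).2
      obtain ⟨v, hv⟩ : ∃ v, v = cog g y p := ⟨_, rfl⟩
      have hp : opA g y v = p := by
        rw [hv]
        exact cog_right hg.metric y p
      have hH : Hk g ((y, p) : Ph N) = (1 / 2) * g y v v := by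
        rw [← hp]
        exact Hk_eq hg.metric y v
      have hv0 : v ≠ 0 := by
        rintro h0
        rw [hH, h0] at hz2'
        simp only [map_zero, mul_zero] at hz2'
        linarith [hz2'.1]
      have hvT : v ∈ T := by
        rw [hTan, hv]
        exact hvt
      have hpos := hg.metric.pos y v hv0
      refine ⟨(⟨v, hvT⟩, Hk g ((y, p) : Ph N)), ⟨?_, hz2'⟩, ?_⟩
      · intro h0
        exact hv0 (congrArg Subtype.val h0)
      · show ((y, opA g y (Real.sqrt (2 * Hk g ((y, p) : Ph N) / g y v v) • v)) : Ph N) = (y, p)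
        have h1 : 2 * Hk g ((y, p) : Ph N) / g y v v = 1 := by
          rw [hH]
          field_simp
        rw [h1, Real.sqrt_one, one_smul, hp]
  rw [← himg]
  refine hQ.image _ ?_
  have hc1 : Continuous fun w : T × ℝ => g x (w.1 : E N) (w.1 : E N) := by fun_prop
  have hc2 : ContinuousOn (fun w : T × ℝ => 2 * w.2 / g x (w.1 : E N) (w.1 : E N))
      (({0}ᶜ : Set T) ×ˢ Set.Ioo (1 / 2 : ℝ) 2) := by
    refine ContinuousOn.div (by fun_prop) hc1.continuousOn ?_
    rintro ⟨v, ρ⟩ ⟨hv, -⟩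
    have hv0 : (v : E N) ≠ 0 := by
      intro h0
      exact hv (Subtype.ext h0)
    exact (hg.metric.pos x _ hv0).ne'
  have hc3 : ContinuousOn (fun w : T × ℝ => Real.sqrt (2 * w.2 / g x (w.1 : E N) (w.1 : E N)) • (w.1 : E N))
      (({0}ᶜ : Set T) ×ˢ Set.Ioo (1 / 2 : ℝ) 2) :=
    (Real.continuous_sqrt.comp_continuousOn hc2).smul (by fun_prop)
  exact ContinuousOn.prodMk continuousOn_const ((opA g x).continuous.comp_continuousOn hc3)

theorem shellM_preconnected (h : Sub n M U r χ) (hg : Hat ∞ U r g) (hn : 2 ≤ n) : IsPreconnected (TT M r ∩ Shell g) := by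
  refine fiber_conn (TT M r ∩ Shell g) M Prod.fst (fun z hz => hz.1.1) h.conn ?_ (fun y hy => shm_fib h hg hn hy) ?_
  · intro y hy
    have h1 : LinearMap.range (fderiv ℝ r y : E N →ₗ[ℝ] E N) ≠ ⊥ := by
      intro h0
      have h2 := h.rank y hy
      rw [h0, finrank_bot] at h2
      omega
    obtain ⟨v, hv, hv0⟩ := Submodule.exists_mem_ne_zero_of_ne_bot h1
    obtain ⟨w, hw⟩ := hv
    have hvt : Tan r y v := by
      rw [← hw]
      exact h.tan_of_range hy w
    exact ⟨_, shm_mem h hg hy hvt hv0 (ρ := 1) ⟨by norm_num, by norm_num⟩, rfl⟩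
  · intro z hz G hG hzG
    obtain ⟨hz1, hz2⟩ := hz
    obtain ⟨hm, ht⟩ := (tan_cog h hg z).1 hz1
    obtain ⟨v, hv⟩ : ∃ v, v = cog g z.1 z.2 := ⟨_, rfl⟩
    rw [← hv] at ht
    have hfc : Continuous (fderiv ℝ r) := (h.smooth.fderiv_right (m := ∞) (by simp)).continuous
    have hoc : Continuous (opA g) := by
      unfold opA
      exact (contDiff_const.clm_comp hg.metric.smooth).continuous
    have hψ : Continuous fun y : E N => ((y, opA g y (fderiv ℝ r y v)) : Ph N) :=
      continuous_id.prodMk (hoc.clm_apply (hfc.clm_apply continuous_const))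
    refine ⟨(fun y : E N => ((y, opA g y (fderiv ℝ r y v)) : Ph N)) ⁻¹' (G ∩ Shell g),
      (hG.inter (shell_open hg.metric)).preimage hψ, ?_, ?_⟩
    · show ((z.1, opA g z.1 (fderiv ℝ r z.1 v)) : Ph N) ∈ G ∩ Shell g
      have h1 : fderiv ℝ r z.1 v = v := ht
      rw [h1, hv, cog_right hg.metric]
      exact ⟨hzG, hz2⟩
    · rintro y ⟨hyM, hyG, hyS⟩
      exact ⟨_, ⟨⟨(tan_iff h hg hyM _).2 (h.tan_of_range hyM v), hyS⟩, hyG⟩, rfl⟩

end Pool.Agent.Helper59.GM
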