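import Pool.Agent.Helper59.GM.MuFlow
import Pool.Agent.Helper59.GM.ChainAbsM
import Pool.Agent.Helper59.GM.ShellM

/-!
# GM-24 GeoChainM: chain transitivity of the geodesic flow of `M`

Proof. Take an atlas (`exists_atlas`), `μ = mu ...`, `K = TT M r ∩ Shell g`, `φ = Φ 1`, `C₀ = {z ∈ TT | 1/2 ≤ Hk g z ≤ 2}` (`compactM`), invariant under all `Φ t` (`flow_inv`, `energy`, `Hk g z ≤ 2 < 4`). `K` is measurable (closed ∩ open), preconnected (`shellM_preconnected`), `φ` maps `K` to `K` (`flow_inv`, `energy`). Finite: `mu K ≤ mu C₀ < ⊤` (`mu_fin`). Positive: `W ∩ K = (W ∩ Shell g) ∩ TT` (`mu_pos`).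
`hv`: `mu_flow`. `chain_measure`.
-/

set_option autoImplicit false
set_option maxSynthPendingDepth 3

open scoped ContDiff InnerProductSpace
open Pool.Agent.Helper59.GT

namespace Pool.Agent.Helper59.GM

variable {n N : ℕ} {M U : Set (E N)} {r : E N → E N} {χ : E N → ℝ} {g : E N → Bil N}

theorem geo_chainM (hn : 2 ≤ n) (h : Sub n M U r χ) (hg : Hat ∞ U r g) {Φ : ℝ → Ph N → Ph N} {K : ℝ} (hΦ : GeoFlow g Φ K)
    (δ : ℝ) (hδ : 0 < δ) (a : Ph N) (ha : a ∈ TT M r ∩ Shell g) (b : Ph N) (hb : b ∈ TT M r ∩ Shell g) :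
    Relation.TransGen (fun x y => y ∈ TT M r ∩ Shell g ∧ dist (Φ 1 x) y < δ) a b := by
  obtain ⟨m, J, ψ, O, V, hat⟩ := exists_atlas h
  have hTTc : IsClosed (TT M r) := isClosed_TT h
  have hSo : IsOpen (Shell g) := shell_open hg.metric
  have hKm : MeasurableSet (TT M r ∩ Shell g) := hTTc.measurableSet.inter hSo.measurableSet
  have hCc := compactM h hg
  obtain ⟨C₀, hC₀⟩ : ∃ C₀ : Set (Ph N), C₀ = {z | z ∈ TT M r ∧ 1 / 2 ≤ Hk g z ∧ Hk g z ≤ 2} :=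
    ⟨_, rfl⟩
  rw [← hC₀] at hCc
  have hmem : ∀ z, z ∈ C₀ ↔ (z ∈ TT M r ∧ 1 / 2 ≤ Hk g z ∧ Hk g z ≤ 2) := fun z => by
    rw [hC₀]
    exact Iff.rfl
  have hC4 : ∀ z ∈ C₀, Hk g z < 4 := fun z hz => by
    have := ((hmem z).1 hz).2.2
    linarith
  have hCinv : ∀ z ∈ C₀, ∀ t, Φ t z ∈ C₀ := fun z hz t => by
    have h1 := hΦ.energy z (hC4 z hz) t
    have h2 := (hmem z).1 hz
    rw [hmem, h1]
    exact ⟨flow_inv h hg hΦ h2.1 (hC4 z hz) t, h2.2.1, h2.2.2⟩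
  have hKC : TT M r ∩ Shell g ⊆ C₀ := fun z hz => (hmem z).2 ⟨hz.1, hz.2.1.le, hz.2.2.le⟩
  refine chain_measure (mu r m J ψ O V) (TT M r ∩ Shell g) (Φ 1) hKm
    (shellM_preconnected h hg hn) ?_ ?_ ?_ ?_ δ hδ a ha b hb
  · intro z hz
    have h1 := hΦ.energy z (hC4 z (hKC hz)) 1
    refine ⟨flow_inv h hg hΦ hz.1 (hC4 z (hKC hz)) 1, ?_⟩
    change 1 / 2 < Hk g (Φ 1 z) ∧ Hk g (Φ 1 z) < 2
    rw [h1]
    exact hz.2
  · exact ne_of_lt (lt_of_le_of_lt (MeasureTheory.measure_mono hKC) (mu_fin h hat C₀ hCc))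
  · intro W hW hne
    have he : W ∩ (TT M r ∩ Shell g) = (W ∩ Shell g) ∩ TT M r := by
      rw [Set.inter_assoc, Set.inter_comm (TT M r)]
    rw [he] at hne ⊢
    exact mu_pos h hat _ (hW.inter hSo) hne
  · intro A hA hAm
    exact mu_flow h hg hat hΦ C₀ hCc (fun z hz => ((hmem z).1 hz).1) hC4 hCinv A hAm
      (hA.trans hKC)

end Pool.Agent.Helper59.GM
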