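import Pool.Agent.Helper59.GM.RetrDeriv

/-!
# GM-02 SubLem: first properties of the retraction

Proof. `maps`, `norm_lt`: `χ = 1 ≠ 0` on `U` (`chi_one`, `chi_mem`). `latt_eq`: two points of norm `< 1 / 2` differ by less than `1`, and a nonzero lattice vector has norm `≥ 1` (a coordinate is a nonzero integer).
`PP`: the set `{y | χ y ≠ 0}` is open and `r (r y) = r y` on it (`chi_mem`, `fixed`), so the derivatives of `r ∘ r` and `r` at `x` agree: `P (r x) (P x w) = P x w`. `PP'`: for `x ∈ M` (`r x = x`, `χ x = 1`).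
`tan_curve`: `r (c s) = c s` for all `s`: derivative (`deriv_retr`). `acc_curve`: `deriv2_retr` for `b = c`.
`D2_symm`: symmetry of the second derivative (`ContDiffAt.isSymmSndFDerivAt` or `second_derivative_symmetric`).
`PD2`: near `x` (where `χ ≠ 0`) `P (r y) (P y v) = P y v` by `PP`. Differentiate at `y = x ∈ M` in the direction `v` (`v` tangent, so `P x v = v`, `r x = x`): `D² r x (P x v) (P x v) + P x (D² r x v v) = D² r x v v`, that is
`D² r x v v + P x (D² r x v v) = D² r x v v`.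
`tan_of_range`: for `x ∈ M`, `P x w` is tangent (`PP'`).
-/

set_option autoImplicit false
set_option maxSynthPendingDepth 3

open scoped ContDiff InnerProductSpace
open Pool.Agent.Helper59.GT

namespace Pool.Agent.Helper59.GM

variable {n N : ℕ} {M U : Set (E N)} {r : E N → E N} {χ : E N → ℝ}

private theorem subLem_chi_ne (h : Sub n M U r χ) {x : E N} (hx : x ∈ U) : χ x ≠ 0 := by
  rw [h.chi_one x hx]
  exact one_ne_zero

private theorem subLem_diff (h : Sub n M U r χ) : Differentiable ℝ r :=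
  h.smooth.differentiable (by simp)

private theorem subLem_smooth' (h : Sub n M U r χ) : ContDiff ℝ ∞ (fderiv ℝ r) :=
  h.smooth.fderiv_right (m := ∞) (by simp)

private theorem subLem_diff' (h : Sub n M U r χ) : Differentiable ℝ (fderiv ℝ r) :=
  (subLem_smooth' h).differentiable (by simp)

theorem Sub.maps (h : Sub n M U r χ) {x : E N} (hx : x ∈ U) : r x ∈ M :=
  (h.chi_mem x (subLem_chi_ne h hx)).1

theorem Sub.norm_lt (h : Sub n M U r χ) {x : E N} (hx : x ∈ U) : ‖x‖ < 1 / 2 :=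
  (h.chi_mem x (subLem_chi_ne h hx)).2

theorem Sub.latt_eq (h : Sub n M U r χ) {x y : E N} (hx : x ∈ U) (hy : y ∈ U) (k : Fin N → ℤ) (hk : x = y + latt k) :
    k = 0 := by
  have h1 : ‖(latt k : E N)‖ < 1 := by
    have h2 : (latt k : E N) = x - y := by rw [hk, add_sub_cancel_left]
    rw [h2]
    have h3 := norm_sub_le x y
    have h4 := h.norm_lt hx
    have h5 := h.norm_lt hy
    linarith
  funext i
  have h2 : ‖(latt k : E N) i‖ ≤ ‖(latt k : E N)‖ := PiLp.norm_apply_le _ i
  have h3 : (latt k : E N) i = (k i : ℝ) := rfl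
  rw [h3, Real.norm_eq_abs] at h2
  have h4 : |(k i : ℝ)| < 1 := lt_of_le_of_lt h2 h1
  have h5 : |k i| < 1 := by exact_mod_cast h4
  simpa using Int.abs_lt_one_iff.1 h5

private theorem subLem_eventually (h : Sub n M U r χ) {x : E N} (hx : χ x ≠ 0) :
    ∀ᶠ y in nhds x, χ y ≠ 0 :=
  h.chi_smooth.continuous.continuousAt.eventually_ne hx

theorem Sub.PP (h : Sub n M U r χ) {x : E N} (hx : χ x ≠ 0) (w : E N) :
    fderiv ℝ r (r x) (fderiv ℝ r x w) = fderiv ℝ r x w := by
  have h1 : (fun y => r (r y)) =ᶠ[nhds x] r := by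
    filter_upwards [subLem_eventually h hx] with y hy
    exact h.fixed _ (h.chi_mem y hy).1
  have h2 : fderiv ℝ (fun y => r (r y)) x = fderiv ℝ r x := h1.fderiv_eq
  have h3 : HasFDerivAt (fun y => r (r y)) ((fderiv ℝ r (r x)).comp (fderiv ℝ r x)) x :=
    ((subLem_diff h) (r x)).hasFDerivAt.comp x ((subLem_diff h) x).hasFDerivAt
  rw [h3.fderiv] at h2
  have h4 := congrArg (fun T : E N →L[ℝ] E N => T w) h2
  exact h4

theorem Sub.tan_of_range (h : Sub n M U r χ) {x : E N} (hx : x ∈ M) (w : E N) : Tan r x (fderiv ℝ r x w) := by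
  have h1 := h.PP (subLem_chi_ne h (h.sub hx)) w
  rw [h.fixed x hx] at h1
  exact h1

theorem Sub.tan_curve (h : Sub n M U r χ) {c : ℝ → E N} (hc : ∀ t, c t ∈ M) {t : ℝ} (hd : DifferentiableAt ℝ c t) :
    Tan r (c t) (deriv c t) := by
  have h1 := deriv_retr h.smooth hd
  have h2 : (fun s => r (c s)) = c := funext fun s => h.fixed _ (hc s)
  rw [h2] at h1
  exact h1.symm

theorem Sub.acc_curve (h : Sub n M U r χ) {c : ℝ → E N} (hs : ContDiff ℝ ∞ c) (hc : ∀ t, c t ∈ M) (t : ℝ) :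
    deriv (deriv c) t =
      fderiv ℝ (fderiv ℝ r) (c t) (deriv c t) (deriv c t) + fderiv ℝ r (c t) (deriv (deriv c) t) := by
  have h1 := deriv2_retr h.smooth hs t
  have h2 : (fun s => r (c s)) = c := funext fun s => h.fixed _ (hc s)
  rw [h2] at h1
  exact h1

theorem Sub.D2_symm (h : Sub n M U r χ) (x v w : E N) :
    fderiv ℝ (fderiv ℝ r) x v w = fderiv ℝ (fderiv ℝ r) x w v := by
  have h1 : IsSymmSndFDerivAt ℝ r x := (h.smooth.contDiffAt (x := x)).isSymmSndFDerivAt
      (by rw [minSmoothness_of_isRCLikeNormedField]; exact WithTop.coe_le_coe.2 (OrderTop.le_top (2 : ℕ∞)))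
  exact h1.eq v w

theorem Sub.PD2 (h : Sub n M U r χ) {x : E N} (hx : x ∈ M) {v : E N} (hv : Tan r x v) :
    fderiv ℝ r x (fderiv ℝ (fderiv ℝ r) x v v) = 0 := by
  have hb : HasDerivAt (fun t : ℝ => x + t • v) v 0 := by
    have h1 := ((hasDerivAt_id (0 : ℝ)).smul_const v).const_add x
    simpa using h1
  have hb0 : (fun t : ℝ => x + t • v) 0 = x := by simp
  have hP : HasFDerivAt (fderiv ℝ r) (fderiv ℝ (fderiv ℝ r) x) x := ((subLem_diff' h) x).hasFDerivAt
  have hr : HasFDerivAt r (fderiv ℝ r x) x := ((subLem_diff h) x).hasFDerivAt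
  have h1 : HasDerivAt (fun t : ℝ => fderiv ℝ r (x + t • v)) (fderiv ℝ (fderiv ℝ r) x v) 0 := by
    have h2 : HasFDerivAt (fderiv ℝ r) (fderiv ℝ (fderiv ℝ r) x) ((fun t : ℝ => x + t • v) 0) := by
      rw [hb0]; exact hP
    exact h2.comp_hasDerivAt 0 hb
  have h2 : HasDerivAt (fun t : ℝ => r (x + t • v)) (fderiv ℝ r x v) 0 := by
    have h3 : HasFDerivAt r (fderiv ℝ r x) ((fun t : ℝ => x + t • v) 0) := by
      rw [hb0]; exact hr
    exact h3.comp_hasDerivAt 0 hb
  have h3 : HasDerivAt (fun t : ℝ => fderiv ℝ r (r (x + t • v)))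
      (fderiv ℝ (fderiv ℝ r) x (fderiv ℝ r x v)) 0 := by
    have h4 : HasFDerivAt (fderiv ℝ r) (fderiv ℝ (fderiv ℝ r) x) ((fun t : ℝ => r (x + t • v)) 0) := by
      simp only [zero_smul, add_zero]
      rw [h.fixed x hx]; exact hP
    exact h4.comp_hasDerivAt 0 h2
  have h4 : HasDerivAt (fun t : ℝ => fderiv ℝ r (x + t • v) v) (fderiv ℝ (fderiv ℝ r) x v v) 0 := by
    have h5 := h1.clm_apply (hasDerivAt_const (0 : ℝ) v)
    simpa using h5
  have h5 := h3.clm_apply h4
  have h6 : (fun t : ℝ => fderiv ℝ r (r (x + t • v)) (fderiv ℝ r (x + t • v) v)) =ᶠ[nhds 0]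
      fun t : ℝ => fderiv ℝ r (x + t • v) v := by
    have h7 : ∀ᶠ t : ℝ in nhds 0, χ (x + t • v) ≠ 0 := by
      have h8 : ContinuousAt (fun t : ℝ => χ (x + t • v)) 0 := by
        have h9 : Continuous χ := h.chi_smooth.continuous
        fun_prop
      refine h8.eventually_ne ?_
      simpa using subLem_chi_ne h (h.sub hx)
    filter_upwards [h7] with t ht
    exact h.PP ht v
  have h7 := (h5.congr_of_eventuallyEq h6.symm).unique h4
  simp only [zero_smul, add_zero] at h7
  rw [h.fixed x hx, hv] at h7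
  simpa using h7

end Pool.Agent.Helper59.GM
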