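import Pool.Agent.Helper59.GM.StmtM
import Pool.Agent.Helper59.GM.SubLem
import Pool.Agent.Helper59.GT.Cometric

/-!
# GM-48 HatEx: existence of the ambient hat metric

Proof. For `u, w : E N` let `φ_(u,w) x = χ x * (pull r g x u w + ⟪u - P_x u, w - P_x w⟫ - ⟪u, w⟫)` (`P_x = fderiv ℝ r x`), smooth with compact support (`hg.smooth` on the open set `W ⊇ tsupport χ`; outside of `tsupport χ` it is `0`). Define `ĝ x u w = ⟪u, w⟫ + pz φ_(u,w) x`. At a point `x` at most one `k` has `χ (x + latt k) ≠ 0` (`chi_mem`: both norms `< 1/2`,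
`‖latt k‖ ≥ 1` for `k ≠ 0`). If there is none, `ĝ x u w = ⟪u, w⟫`; if `y = x + latt k` has `χ y ≠ 0`: `ĝ x u w = (1 - χ y) ⟪u, w⟫ + χ y (g (r y) (P_y u) (P_y w) + ⟪u - P_y u, w - P_y w⟫)`, where `r y ∈ M` (`chi_mem`) and `P_y u`, `P_y w` are tangent at `r y` (`PP`). So `ĝ x` is bilinear and symmetric (`hg.add`, `hg.smul`, `hg.symm`),
and positive definite: for `u ≠ 0` both summands are `≥ 0`, and if `χ y = 1`, either `P_y u ≠ 0` (then `hg.pos`) or `u - P_y u = u ≠ 0`. As in `GT.Bridge` (`exists_ofBil`, `LinearMap.mk₂`, `LinearMap.toContinuousBilinearMap`) it defines a map into `Bil N`, smooth by `contDiff_clm_apply_iff` (twice) and `contDiff_pz`; periodic by `pz_per`.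
For `x ∈ U`: `χ x = 1` and only `k = 0` contributes: `ĝ x u w = pull r g x u w + ⟪u - P_x u, w - P_x w⟫`. `Hat.eq` with `a = 1`: `ĝ (r x) (P_x u) (P_x w) = pull r g (r x) (P_x u) (P_x w) + 0` (`r x ∈ M ⊆ U`; `P_x u - P_(r x) P_x u = 0` by `PP`) `= g (r x) (P_x u) (P_x w) = pull r g x u w` (`r (r x) = r x`, `PP`).
-/

set_option autoImplicit false
set_option maxSynthPendingDepth 3

open scoped ContDiff InnerProductSpace Topology
open Pool.Agent.Helper59.GT

namespace Pool.Agent.Helper59.GM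

variable {n N : ℕ} {M U W : Set (E N)} {r : E N → E N} {χ : E N → ℝ}

/-- The metric `pull r g` completed by the Euclidean metric on the kernel of `fderiv ℝ r x`. -/
private noncomputable def hatEx_f (r : E N → E N) (g : E N → E N → E N → ℝ) (x u w : E N) : ℝ :=
  GMS.pull r g x u w + ⟪u - fderiv ℝ r x u, w - fderiv ℝ r x w⟫_ℝ

private noncomputable def hatEx_phi (r : E N → E N) (χ : E N → ℝ) (g : E N → E N → E N → ℝ) (u w x : E N) : ℝ :=
  χ x * (hatEx_f r g x u w - ⟪u, w⟫_ℝ)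

private noncomputable def hatEx_B (r : E N → E N) (χ : E N → ℝ) (g : E N → E N → E N → ℝ) (x u w : E N) : ℝ :=
  ⟪u, w⟫_ℝ + pz (hatEx_phi r χ g u w) x

private theorem hatEx_phi_supp (h : Sub n M U r χ) (g : E N → E N → E N → ℝ) (u w : E N) :
    HasCompactSupport (hatEx_phi r χ g u w) := by
  have h1 := h.chi_supp
  exact HasCompactSupport.mul_right h1

private theorem hatEx_phi_smooth (h : Sub n M U r χ) (hW : IsOpen W) (hχ : tsupport χ ⊆ W)
    (g : E N → E N → E N → ℝ) (hg : GMS.IsMetric ∞ M W r g) (u w : E N) :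
    ContDiff ℝ ∞ (hatEx_phi r χ g u w) := by
  rw [contDiff_iff_contDiffAt]
  intro x
  by_cases hx : x ∈ W
  · have h1 : ContDiffAt ℝ ∞ (fun x => GMS.pull r g x u w) x := (hg.smooth u w).contDiffAt (hW.mem_nhds hx)
    have h2 : ContDiff ℝ ∞ (fderiv ℝ r) := h.smooth.fderiv_right (m := ∞) (by simp)
    have h3 : ContDiff ℝ ∞ (fun x => u - fderiv ℝ r x u) := contDiff_const.sub (h2.clm_apply contDiff_const)
    have h4 : ContDiff ℝ ∞ (fun x => w - fderiv ℝ r x w) := contDiff_const.sub (h2.clm_apply contDiff_const)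
    have h5 : ContDiff ℝ ∞ (fun x => ⟪u - fderiv ℝ r x u, w - fderiv ℝ r x w⟫_ℝ) := h3.inner ℝ h4
    exact h.chi_smooth.contDiffAt.mul ((h1.add h5.contDiffAt).sub contDiffAt_const)
  · have hx' : x ∉ tsupport χ := fun h1 => hx (hχ h1)
    have h1 : χ =ᶠ[𝓝 x] 0 := notMem_tsupport_iff_eventuallyEq.1 hx'
    have h2 : hatEx_phi r χ g u w =ᶠ[𝓝 x] fun _ => (0 : ℝ) := by
      filter_upwards [h1] with y hy
      unfold hatEx_phi
      rw [hy]
      simp
    exact contDiffAt_const.congr_of_eventuallyEq h2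

private theorem hatEx_uniq (h : Sub n M U r χ) {x : E N} {k l : Fin N → ℤ} (hk : χ (x + latt k) ≠ 0)
    (hl : χ (x + latt l) ≠ 0) : k = l := by
  have h1 : ‖(latt (k - l) : E N)‖ < 1 := by
    have h2 : (latt (k - l) : E N) = (x + latt k) - (x + latt l) := by
      rw [sub_eq_add_neg, latt_add, latt_neg]
      abel
    rw [h2]
    have h3 := norm_sub_le (x + latt k) (x + latt l)
    have h4 := (h.chi_mem _ hk).2
    have h5 := (h.chi_mem _ hl).2
    linarith
  have h6 : k - l = 0 := by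
    funext i
    have h2 : ‖(latt (k - l) : E N) i‖ ≤ ‖(latt (k - l) : E N)‖ := PiLp.norm_apply_le _ i
    have h3 : (latt (k - l) : E N) i = (((k - l) i : ℤ) : ℝ) := rfl
    rw [h3, Real.norm_eq_abs] at h2
    have h4 : |(((k - l) i : ℤ) : ℝ)| < 1 := lt_of_le_of_lt h2 h1
    have h5 : |(k - l) i| < 1 := by exact_mod_cast h4
    simpa using Int.abs_lt_one_iff.1 h5
  exact sub_eq_zero.1 h6

private theorem hatEx_pz (h : Sub n M U r χ) (g : E N → E N → E N → ℝ) {x : E N} {k : Fin N → ℤ}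
    (hk : χ (x + latt k) ≠ 0) (u w : E N) :
    pz (hatEx_phi r χ g u w) x = hatEx_phi r χ g u w (x + latt k) := by
  unfold pz
  refine finsum_eq_single _ k ?_
  intro l hl
  have h1 : χ (x + latt l) = 0 := by
    by_contra h2
    exact hl (hatEx_uniq h h2 hk)
  unfold hatEx_phi
  rw [h1, zero_mul]

private theorem hatEx_pz0 (g : E N → E N → E N → ℝ) {x : E N}
    (hk : ∀ k : Fin N → ℤ, χ (x + latt k) = 0) (u w : E N) :
    pz (hatEx_phi r χ g u w) x = 0 := by
  unfold pz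
  have h1 : (fun k : Fin N → ℤ => hatEx_phi r χ g u w (x + latt k)) = fun _ => 0 := by
    funext k
    unfold hatEx_phi
    rw [hk k, zero_mul]
  rw [h1, finsum_zero]

private theorem hatEx_cases (h : Sub n M U r χ) (g : E N → E N → E N → ℝ) (x : E N) :
    (∀ u w, hatEx_B r χ g x u w = ⟪u, w⟫_ℝ) ∨
      ∃ y, χ y ≠ 0 ∧ ∀ u w, hatEx_B r χ g x u w = (1 - χ y) * ⟪u, w⟫_ℝ + χ y * hatEx_f r g y u w := by
  by_cases hk : ∀ k : Fin N → ℤ, χ (x + latt k) = 0
  · left
    intro u w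
    unfold hatEx_B
    rw [hatEx_pz0 g hk, add_zero]
  · right
    push Not at hk
    obtain ⟨k, hk⟩ := hk
    refine ⟨x + latt k, hk, fun u w => ?_⟩
    unfold hatEx_B
    rw [hatEx_pz h g hk]
    unfold hatEx_phi
    ring

private theorem hatEx_tan (h : Sub n M U r χ) {y : E N} (hy : χ y ≠ 0) (u : E N) :
    GMS.Tangent r (r y) (fderiv ℝ r y u) := h.PP hy u

private theorem hatEx_f_add (h : Sub n M U r χ) {g : E N → E N → E N → ℝ} (hg : GMS.IsMetric ∞ M W r g)
    {y : E N} (hy : χ y ≠ 0) (u v w : E N) : hatEx_f r g y (u + v) w = hatEx_f r g y u w + hatEx_f r g y v w := by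
  unfold hatEx_f GMS.pull
  rw [map_add, hg.add _ (h.chi_mem y hy).1 _ _ _ (hatEx_tan h hy u) (hatEx_tan h hy v) (hatEx_tan h hy w)]
  have h1 : u + v - (fderiv ℝ r y u + fderiv ℝ r y v) = (u - fderiv ℝ r y u) + (v - fderiv ℝ r y v) := by abel
  rw [h1, inner_add_left]
  ring

private theorem hatEx_f_smul (h : Sub n M U r χ) {g : E N → E N → E N → ℝ} (hg : GMS.IsMetric ∞ M W r g)
    {y : E N} (hy : χ y ≠ 0) (a : ℝ) (u w : E N) : hatEx_f r g y (a • u) w = a * hatEx_f r g y u w := by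
  unfold hatEx_f GMS.pull
  rw [map_smul, hg.smul _ (h.chi_mem y hy).1 _ _ _ (hatEx_tan h hy u) (hatEx_tan h hy w)]
  rw [← smul_sub, real_inner_smul_left]
  ring

private theorem hatEx_f_symm (h : Sub n M U r χ) {g : E N → E N → E N → ℝ} (hg : GMS.IsMetric ∞ M W r g)
    {y : E N} (hy : χ y ≠ 0) (u w : E N) : hatEx_f r g y u w = hatEx_f r g y w u := by
  unfold hatEx_f GMS.pull
  rw [hg.symm _ (h.chi_mem y hy).1 _ _ (hatEx_tan h hy u) (hatEx_tan h hy w), real_inner_comm]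

private theorem hatEx_f_pos (h : Sub n M U r χ) {g : E N → E N → E N → ℝ} (hg : GMS.IsMetric ∞ M W r g)
    {y : E N} (hy : χ y ≠ 0) (u : E N) (hu : u ≠ 0) : 0 < hatEx_f r g y u u := by
  unfold hatEx_f GMS.pull
  by_cases h0 : fderiv ℝ r y u = 0
  · have h1 : g (r y) (fderiv ℝ r y u) (fderiv ℝ r y u) = 0 := by
      have h2 := hg.smul _ (h.chi_mem y hy).1 0 _ _ (hatEx_tan h hy u) (hatEx_tan h hy u)
      rw [zero_smul, zero_mul] at h2
      rw [h0] at h2 ⊢
      exact h2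
    rw [h1, zero_add, h0, sub_zero]
    exact real_inner_self_pos.2 hu
  · have h1 := hg.pos _ (h.chi_mem y hy).1 _ (hatEx_tan h hy u) h0
    have h2 : 0 ≤ ⟪u - fderiv ℝ r y u, u - fderiv ℝ r y u⟫_ℝ := real_inner_self_nonneg
    linarith

private theorem hatEx_B_add (h : Sub n M U r χ) {g : E N → E N → E N → ℝ} (hg : GMS.IsMetric ∞ M W r g)
    (x u v w : E N) : hatEx_B r χ g x (u + v) w = hatEx_B r χ g x u w + hatEx_B r χ g x v w := by
  rcases hatEx_cases h g x with h1 | ⟨y, hy, h1⟩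
  · rw [h1, h1, h1, inner_add_left]
  · rw [h1, h1, h1, inner_add_left, hatEx_f_add h hg hy]
    ring

private theorem hatEx_B_smul (h : Sub n M U r χ) {g : E N → E N → E N → ℝ} (hg : GMS.IsMetric ∞ M W r g)
    (x : E N) (a : ℝ) (u w : E N) : hatEx_B r χ g x (a • u) w = a * hatEx_B r χ g x u w := by
  rcases hatEx_cases h g x with h1 | ⟨y, hy, h1⟩
  · rw [h1, h1, real_inner_smul_left]
  · rw [h1, h1, real_inner_smul_left, hatEx_f_smul h hg hy]
    ring

private theorem hatEx_B_symm (h : Sub n M U r χ) {g : E N → E N → E N → ℝ} (hg : GMS.IsMetric ∞ M W r g)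
    (x u w : E N) : hatEx_B r χ g x u w = hatEx_B r χ g x w u := by
  rcases hatEx_cases h g x with h1 | ⟨y, hy, h1⟩
  · rw [h1, h1, real_inner_comm]
  · rw [h1, h1, real_inner_comm, hatEx_f_symm h hg hy]

private theorem hatEx_B_pos (h : Sub n M U r χ) {g : E N → E N → E N → ℝ} (hg : GMS.IsMetric ∞ M W r g)
    (x u : E N) (hu : u ≠ 0) : 0 < hatEx_B r χ g x u u := by
  have h0 : 0 < ⟪u, u⟫_ℝ := real_inner_self_pos.2 hu
  rcases hatEx_cases h g x with h1 | ⟨y, hy, h1⟩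
  · rw [h1]
    exact h0
  · rw [h1]
    have h2 := h.chi_nonneg y
    have h3 : 0 < χ y := lt_of_le_of_ne h2.1 (Ne.symm hy)
    have h4 := mul_pos h3 (hatEx_f_pos h hg hy u hu)
    have h5 : 0 ≤ (1 - χ y) * ⟪u, u⟫_ℝ := mul_nonneg (by linarith) h0.le
    linarith

private theorem hatEx_B_U (h : Sub n M U r χ) (g : E N → E N → E N → ℝ) {x : E N} (hx : x ∈ U) (u w : E N) :
    hatEx_B r χ g x u w = hatEx_f r g x u w := by
  have h1 : χ x = 1 := h.chi_one x hx
  have h2 : χ (x + latt 0) ≠ 0 := by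
    rw [latt_zero, add_zero, h1]
    exact one_ne_zero
  unfold hatEx_B
  rw [hatEx_pz h g h2]
  unfold hatEx_phi
  rw [latt_zero, add_zero, h1]
  ring

theorem exists_hat (h : Sub n M U r χ) (hW : IsOpen W) (hχ : tsupport χ ⊆ W) (g : E N → E N → E N → ℝ)
    (hg : GMS.IsMetric ∞ M W r g) :
    ∃ G : E N → Bil N, Hat ∞ U r G ∧ ∀ x ∈ U, ∀ u w, G x u w =
      GMS.pull r g x u w + ⟪u - fderiv ℝ r x u, w - fderiv ℝ r x w⟫_ℝ := by
  have hb : ∀ x, ∃ G : Bil N, ∀ u w, G u w = hatEx_B r χ g x u w := by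
    intro x
    refine ⟨(LinearMap.mk₂ ℝ (hatEx_B r χ g x) (hatEx_B_add h hg x) (fun a u w => ?_) (fun u v w => ?_)
      (fun a u w => ?_)).toContinuousBilinearMap, fun u w => rfl⟩
    · rw [hatEx_B_smul h hg, smul_eq_mul]
    · rw [hatEx_B_symm h hg x u (v + w), hatEx_B_add h hg, hatEx_B_symm h hg x v u, hatEx_B_symm h hg x w u]
    · rw [hatEx_B_symm h hg x u (a • w), hatEx_B_smul h hg, hatEx_B_symm h hg x w u, smul_eq_mul]
  choose G hG using hb
  have hGU : ∀ x ∈ U, ∀ u w, G x u w =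
      GMS.pull r g x u w + ⟪u - fderiv ℝ r x u, w - fderiv ℝ r x w⟫_ℝ := by
    intro x hx u w
    rw [hG, hatEx_B_U h g hx]
    rfl
  refine ⟨G, ⟨⟨?_, ?_, ?_, ?_⟩, ?_⟩, hGU⟩
  · rw [contDiff_clm_apply_iff]
    intro u
    rw [contDiff_clm_apply_iff]
    intro w
    simp only [hG]
    exact contDiff_const.add (contDiff_pz _ (hatEx_phi_smooth h hW hχ g hg u w) (hatEx_phi_supp h g u w))
  · intro x u w
    rw [hG, hG]
    exact hatEx_B_symm h hg x u w
  · intro x u hu
    rw [hG]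
    exact hatEx_B_pos h hg x u hu
  · intro k x
    ext u w
    rw [hG, hG]
    unfold hatEx_B
    rw [pz_per]
  · refine ⟨fun _ => 1, differentiable_const _, fun x hx u w => ?_⟩
    have h1 : r x ∈ M := h.maps hx
    have h2 : χ x ≠ 0 := by
      rw [h.chi_one x hx]
      exact one_ne_zero
    rw [hGU x hx, hGU (r x) (h.sub h1), one_mul]
    rw [h.PP h2 u, sub_self, inner_zero_left, add_zero]
    congr 1
    unfold GMS.pull
    rw [h.PP h2 u, h.PP h2 w, h.fixed _ h1]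

end Pool.Agent.Helper59.GM
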