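import Pool.Agent.Helper59.GM.HatEL
import Pool.Agent.Helper59.GM.Acc

/-!
# GM-05 Invar: geodesics tangent to `M` at one time stay in `M`

Proof. `acc_tan`: let `a = acc g x v`, `z = a - P a - Q v v` (`P = fderiv ℝ r x`, `Q = fderiv ℝ (fderiv ℝ r) x`). `P z = 0` (`tan_of_range`: `P (P a) = P a`; `PD2`), so `z - P z = z`, and `hat_EL` with `w = z` and `EL_acc` give `0 = α ‖z‖ ^ 2`, `z = 0`.
`invar`. `c` is smooth (`geodesic_smooth`), `c'' = A (c, c')`, `A (x, v) = acc g x v` (`geodesic_acc`), smooth. Put `z t = c t - r (c t)`, so `z' = c' - P (c) c'`, `z'' = F (c, c')` with `F (x, v) = A (x, v) - P x (A (x, v)) - Q x v v` (`deriv2_retr`), a smooth function `E N × E N → E N`, which vanishes for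
`x ∈ M`, `v` tangent (`acc_tan`). Let `S` be the set of the `t` with `c t ∈ M` and `c' t` tangent, i.e. `c t ∈ M` and `P (c t) (c' t) = c' t`: closed (`M` is closed), contains `0`. `S` is open: let `t₀ ∈ S`. `F` is Lipschitz with a constant `L` on a neighbourhood `W` of `(c t₀, c' t₀)` (`ContDiffAt.exists_lipschitzOnWith`).
For `t` near `t₀` (an interval `I` around `t₀`): `c t ∈ U`, and `(c t, c' t) ∈ W`, `(r (c t), P (c t) (c' t)) ∈ W` by continuity (at `t₀` the second point equals the first). The point `(r (c t), P (c t) (c' t))` has `r (c t) ∈ M`, and the vector is tangent there (`PP`), so `F` vanishes at it: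
`‖z''‖ = ‖F (c, c') - F (r c, P c')‖ ≤ L (‖z‖ + ‖z'‖)` on `I`. So `Y = (z, z')` satisfies `‖Y'‖ ≤ (L + 1) (‖z‖ + ‖z'‖) ≤ 2 (L + 1) ‖Y‖` (max norm), `Y (t₀) = 0`: `Y = 0` on `I` by Gronwall (`norm_le_gronwallBound_of_norm_deriv_right_le`, also for the reversed time; or `eq_zero_of_abs_deriv_le_mul_abs_self_of_eq_zero_left` style lemmas).
So `c t = r (c t) ∈ M` (`maps`) and `c' t = P (c t) (c' t)`: `t ∈ S`. `ℝ` is connected: `S = univ` (`IsClopen.eq_univ`).
-/

set_option autoImplicit false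
set_option maxSynthPendingDepth 3

open scoped ContDiff InnerProductSpace Topology
open Pool.Agent.Helper59.GT Set

namespace Pool.Agent.Helper59.GM

variable {n N : ℕ} {M U : Set (E N)} {r : E N → E N} {χ : E N → ℝ} {g : E N → Bil N}

theorem acc_tan (h : Sub n M U r χ) (hg : Hat ∞ U r g) {x : E N} (hx : x ∈ M) {v : E N} (hv : Tan r x v) :
    acc g x v - fderiv ℝ r x (acc g x v) - fderiv ℝ (fderiv ℝ r) x v v = 0 := by
  obtain ⟨a, ha⟩ : ∃ a, a = acc g x v := ⟨_, rfl⟩
  obtain ⟨z, hz⟩ : ∃ z, z = a - fderiv ℝ r x a - fderiv ℝ (fderiv ℝ r) x v v := ⟨_, rfl⟩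
  rw [← ha, ← hz]
  have h1 : fderiv ℝ r x (fderiv ℝ r x a) = fderiv ℝ r x a := h.tan_of_range hx a
  have h2 := h.PD2 hx hv
  have h3 : fderiv ℝ r x z = 0 := by
    rw [hz, map_sub, map_sub, h1, h2, sub_self, sub_zero]
  obtain ⟨α, hα, hEL⟩ := hat_EL h hg hx
  have h4 := hEL v a z hv
  rw [h3, sub_zero, ← hz, ha, EL_acc hg.metric, _root_.zero_apply, real_inner_self_eq_norm_sq] at h4
  have h5 : ‖z‖ ^ 2 = 0 := by
    rcases mul_eq_zero.1 h4.symm with h6 | h6
    · exact absurd h6 hα.ne'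
    · exact h6
  exact norm_eq_zero.1 (pow_eq_zero_iff two_ne_zero |>.1 h5)

private noncomputable def InvarF (r : E N → E N) (g : E N → Bil N) (z : E N × E N) : E N :=
  acc g z.1 z.2 - fderiv ℝ r z.1 (acc g z.1 z.2) - fderiv ℝ (fderiv ℝ r) z.1 z.2 z.2

private theorem Invar_smooth (h : Sub n M U r χ) (hg : Hat ∞ U r g) : ContDiff ℝ ∞ (InvarF r g) := by
  have h1 := contDiff_acc hg.metric
  have h2 : ContDiff ℝ ∞ (fderiv ℝ r) := h.smooth.fderiv_right (m := ∞) (by simp)
  have h3 : ContDiff ℝ ∞ (fderiv ℝ (fderiv ℝ r)) := h2.fderiv_right (m := ∞) (by simp)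
  have p2 : ContDiff ℝ ∞ (fun z : E N × E N => fderiv ℝ r z.1) := h2.comp contDiff_fst
  have p3 : ContDiff ℝ ∞ (fun z : E N × E N => fderiv ℝ (fderiv ℝ r) z.1) := h3.comp contDiff_fst
  have v1 : ContDiff ℝ ∞ (fun z : E N × E N => z.2) := contDiff_snd
  exact (h1.sub (p2.clm_apply h1)).sub ((p3.clm_apply v1).clm_apply v1)

private theorem Invar_gron {F : Type} [NormedAddCommGroup F] [NormedSpace ℝ F] {Y Y' : ℝ → F} {K t₀ δ : ℝ}
    (hY : ∀ t, HasDerivAt Y (Y' t) t) (h0 : Y t₀ = 0) (hb : ∀ t, |t - t₀| < δ → ‖Y' t‖ ≤ K * ‖Y t‖) (t : ℝ)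
    (ht : |t - t₀| < δ) : Y t = 0 := by
  have hc : Continuous Y := continuous_iff_continuousAt.2 fun s => (hY s).continuousAt
  rw [abs_lt] at ht
  rcases le_total t₀ t with h1 | h1
  · refine eq_zero_of_abs_deriv_le_mul_abs_self_of_eq_zero_right (f := Y) (f' := Y') (K := K) (a := t₀) (b := t)
      hc.continuousOn (fun s _ => (hY s).hasDerivWithinAt) h0 (fun s hs => hb s ?_) t ⟨h1, le_refl t⟩
    rw [abs_lt]
    exact ⟨by linarith [hs.1], by linarith [hs.2]⟩
  · have hY2 : ∀ s, HasDerivAt (fun s => Y (-s)) (-Y' (-s)) s := by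
      intro s
      have h2 := (hY (-s)).scomp s (hasDerivAt_neg s)
      rw [neg_smul, one_smul] at h2
      exact h2
    have hc2 : Continuous fun s => Y (-s) := hc.comp continuous_neg
    have h3 := eq_zero_of_abs_deriv_le_mul_abs_self_of_eq_zero_right (f := fun s => Y (-s)) (f' := fun s => -Y' (-s))
      (K := K) (a := -t₀) (b := -t) hc2.continuousOn (fun s _ => (hY2 s).hasDerivWithinAt)
      (by simpa using h0) (fun s hs => by
        rw [norm_neg]
        refine hb (-s) ?_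
        rw [abs_lt]
        exact ⟨by linarith [hs.2], by linarith [hs.1]⟩) (-t) ⟨by linarith, le_refl _⟩
    simpa using h3

private theorem Invar_local (h : Sub n M U r χ) (hg : Hat ∞ U r g) {c : ℝ → E N} (hc : IsGeodesic g c) {t₀ : ℝ}
    (h0 : c t₀ ∈ M) (h1 : Tan r (c t₀) (deriv c t₀)) :
    ∀ᶠ t in 𝓝 t₀, c t ∈ M ∧ Tan r (c t) (deriv c t) := by
  have hcs := geodesic_smooth hg.metric hc
  have hcd : Differentiable ℝ c := hcs.differentiable (by simp)
  have hcs' : ContDiff ℝ ∞ (deriv c) := by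
    have := hcs.iterate_deriv 1
    simpa using this
  have hcd' : Differentiable ℝ (deriv c) := hcs'.differentiable (by simp)
  have hrs' : ContDiff ℝ ∞ (fderiv ℝ r) := h.smooth.fderiv_right (m := ∞) (by simp)
  obtain ⟨L, W, hW, hL⟩ := ((Invar_smooth h hg).contDiffAt (x := (c t₀, deriv c t₀))).of_le
    (m := 1) (by simp) |>.exists_lipschitzOnWith
  -- continuity facts
  have hcont1 : Continuous fun t => ((c t, deriv c t) : E N × E N) :=
    hcd.continuous.prodMk hcd'.continuous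
  have hcont2 : Continuous fun t => ((r (c t), fderiv ℝ r (c t) (deriv c t)) : E N × E N) :=
    (h.smooth.continuous.comp hcd.continuous).prodMk
      ((hrs'.continuous.comp hcd.continuous).clm_apply hcd'.continuous)
  have hpt : ((r (c t₀), fderiv ℝ r (c t₀) (deriv c t₀)) : E N × E N) = (c t₀, deriv c t₀) := by
    rw [h.fixed _ h0]
    exact congrArg _ h1
  have e1 : ∀ᶠ t in 𝓝 t₀, ((c t, deriv c t) : E N × E N) ∈ W := hcont1.continuousAt.eventually hW
  have e2 : ∀ᶠ t in 𝓝 t₀, ((r (c t), fderiv ℝ r (c t) (deriv c t)) : E N × E N) ∈ W := by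
    have hW' : W ∈ 𝓝 ((fun t => ((r (c t), fderiv ℝ r (c t) (deriv c t)) : E N × E N)) t₀) := by
      simp only
      rw [hpt]
      exact hW
    exact hcont2.continuousAt.eventually hW'
  have e3 : ∀ᶠ t in 𝓝 t₀, c t ∈ U := hcd.continuous.continuousAt.eventually (h.isOpen.mem_nhds (h.sub h0))
  obtain ⟨δ, hδ, hall⟩ := Metric.eventually_nhds_iff.1 (e1.and (e2.and e3))
  have hF0 : ∀ t, c t ∈ U → InvarF r g (r (c t), fderiv ℝ r (c t) (deriv c t)) = 0 := by
    intro t ht
    have hχ : χ (c t) ≠ 0 := by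
      rw [h.chi_one _ ht]
      exact one_ne_zero
    exact acc_tan h hg (h.maps ht) (h.PP hχ (deriv c t))
  -- the function `z`
  obtain ⟨z, hz⟩ : ∃ z : ℝ → E N, z = fun t => c t - r (c t) := ⟨_, rfl⟩
  obtain ⟨z1, hz1⟩ : ∃ z1 : ℝ → E N, z1 = fun t => deriv c t - fderiv ℝ r (c t) (deriv c t) := ⟨_, rfl⟩
  have dz : ∀ t, HasDerivAt z (z1 t) t := by
    intro t
    have hr1 : HasFDerivAt r (fderiv ℝ r (c t)) (c t) :=
      (h.smooth.differentiable (by simp) (c t)).hasFDerivAt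
    rw [hz, hz1]
    exact (hcd t).hasDerivAt.sub (hr1.comp_hasDerivAt t (hcd t).hasDerivAt)
  have dz1 : ∀ t, HasDerivAt z1 (InvarF r g (c t, deriv c t)) t := by
    intro t
    have hr2 : HasFDerivAt (fderiv ℝ r) (fderiv ℝ (fderiv ℝ r) (c t)) (c t) :=
      (hrs'.differentiable (by simp) (c t)).hasFDerivAt
    have h2 : HasDerivAt (fun s => fderiv ℝ r (c s)) (fderiv ℝ (fderiv ℝ r) (c t) (deriv c t)) t :=
      hr2.comp_hasDerivAt t (hcd t).hasDerivAt
    have h3 := (hcd' t).hasDerivAt.sub (h2.clm_apply (hcd' t).hasDerivAt)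
    rw [hz1]
    refine h3.congr_deriv ?_
    unfold InvarF
    rw [geodesic_acc hg.metric hc t]
    abel
  have dY : ∀ t, HasDerivAt (fun s => ((z s, z1 s) : E N × E N)) (z1 t, InvarF r g (c t, deriv c t)) t :=
    fun t => (dz t).prodMk (dz1 t)
  have hY0 : ((z t₀, z1 t₀) : E N × E N) = 0 := by
    rw [hz, hz1]
    simp only
    have h2 : fderiv ℝ r (c t₀) (deriv c t₀) = deriv c t₀ := h1
    rw [h.fixed _ h0, h2, sub_self, sub_self]
    rfl
  have hb : ∀ t, |t - t₀| < δ → ‖((z1 t, InvarF r g (c t, deriv c t)) : E N × E N)‖ ≤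
      (L + 1) * ‖((z t, z1 t) : E N × E N)‖ := by
    intro t ht
    obtain ⟨w1, w2, w3⟩ := hall (y := t) (by rwa [Real.dist_eq])
    have h2 : ‖InvarF r g (c t, deriv c t)‖ ≤ L * ‖((z t, z1 t) : E N × E N)‖ := by
      have h3 := hL.dist_le_mul _ w1 _ w2
      rw [hF0 t w3, dist_zero_right, dist_eq_norm, Prod.mk_sub_mk] at h3
      rw [hz, hz1]
      exact h3
    have h4 : ‖z1 t‖ ≤ ‖((z t, z1 t) : E N × E N)‖ := norm_snd_le (z t, z1 t)
    have h5 : (0 : ℝ) ≤ ‖((z t, z1 t) : E N × E N)‖ := norm_nonneg _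
    have h6 : (0 : ℝ) ≤ L := L.2
    rw [Prod.norm_mk, max_le_iff]
    constructor
    · nlinarith [mul_nonneg h6 h5]
    · linarith
  have hfin := fun t ht => Invar_gron (Y := fun s => ((z s, z1 s) : E N × E N)) (K := L + 1) dY hY0 hb t ht
  refine Metric.eventually_nhds_iff.2 ⟨δ, hδ, fun t ht => ?_⟩
  obtain ⟨-, -, w3⟩ := hall ht
  rw [Real.dist_eq] at ht
  have h2 := hfin t ht
  simp only [Prod.mk_eq_zero] at h2
  rw [hz, hz1] at h2
  simp only at h2
  constructor
  · rw [sub_eq_zero.1 h2.1]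
    exact h.maps w3
  · exact (sub_eq_zero.1 h2.2).symm

theorem invar (h : Sub n M U r χ) (hg : Hat ∞ U r g) {c : ℝ → E N} (hc : IsGeodesic g c) (h0 : c 0 ∈ M)
    (h1 : Tan r (c 0) (deriv c 0)) (t : ℝ) : c t ∈ M := by
  have hcs := geodesic_smooth hg.metric hc
  have hcd : Differentiable ℝ c := hcs.differentiable (by simp)
  have hcs' : ContDiff ℝ ∞ (deriv c) := by
    have := hcs.iterate_deriv 1
    simpa using this
  have hcd' : Differentiable ℝ (deriv c) := hcs'.differentiable (by simp)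
  have hrs' : ContDiff ℝ ∞ (fderiv ℝ r) := h.smooth.fderiv_right (m := ∞) (by simp)
  obtain ⟨S, hS⟩ : ∃ S : Set ℝ, S = {t | c t ∈ M ∧ Tan r (c t) (deriv c t)} := ⟨_, rfl⟩
  have hopen : IsOpen S := by
    rw [isOpen_iff_mem_nhds]
    intro s hs
    rw [hS] at hs ⊢
    exact Invar_local h hg hc hs.1 hs.2
  have hclosed : IsClosed S := by
    have c1 : IsClosed {t | c t ∈ M} := h.compact.isClosed.preimage hcd.continuous
    have c2 : IsClosed {t | Tan r (c t) (deriv c t)} := by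
      refine isClosed_eq ?_ hcd'.continuous
      exact (hrs'.continuous.comp hcd.continuous).clm_apply hcd'.continuous
    rw [hS]
    exact c1.inter c2
  have huniv : S = univ := IsClopen.eq_univ ⟨hclosed, hopen⟩ ⟨0, by
    rw [hS]
    exact ⟨h0, h1⟩⟩
  have ht : t ∈ S := by
    rw [huniv]
    exact mem_univ t
  rw [hS] at ht
  exact ht.1

end Pool.Agent.Helper59.GM
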