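import Pool.Agent.Helper59.GM.PhChart

/-!
# GM-10 IotaSymp: the parametrisation of the cotangent bundle is symplectic

Proof. Let `S a = J.comp (fderiv ℝ r (ψ a))` (smooth in `a`), `ζ = (a, q)`. The derivative of `iota` at `ζ` in the direction `ξ = (ξ₁, ξ₂)` is `(dψ ξ₁, adj (S' ξ₁) q + adj S ξ₂)`, `S' ξ₁ = fderiv ℝ S a ξ₁` (`adj` is bilinear: `adj_add`, `adj_smul`, `adj_add'`; the derivative of `b ↦ ⟪q, S b w⟫` is clear: compute the inner product of the second component with a fixed vector, or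
differentiate coordinatewise with `hasFDerivAt_euclidean`-type lemmas). So by `inner_adj`
`om (Dι ξ) (Dι η) = ⟪q, S' η₁ (dψ ξ₁)⟫ + ⟪η₂, S (dψ ξ₁)⟫ - ⟪q, S' ξ₁ (dψ η₁)⟫ - ⟪ξ₂, S (dψ η₁)⟫`. For `b ∈ O` (open) `S b (dψ_b w) = w` (`P_dpsi`, `J_dpsi`). So the second and fourth term give `om ξ η`. Differentiating `S b (fderiv ℝ ψ b ξ₁) = ξ₁` at `b = a` in the direction `η₁`: `S' η₁ (dψ ξ₁) + S (D²ψ η₁ ξ₁) = 0`, and the same with `ξ₁, η₁` exchanged;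
`D²ψ` is symmetric, so `S' η₁ (dψ ξ₁) = S' ξ₁ (dψ η₁)`.
-/

set_option autoImplicit false
set_option maxSynthPendingDepth 3

open scoped ContDiff InnerProductSpace Topology
open Pool.Agent.Helper59.GT

namespace Pool.Agent.Helper59.GM

variable {n N : ℕ} {M U : Set (E N)} {r : E N → E N} {χ : E N → ℝ} {g : E N → Bil N}

theorem iota_symp (h : Sub n M U r χ) {J : E N →L[ℝ] E n} {ψ : E n → E N} {O : Set (E n)} {V : Set (E N)}
    (hc : Chart M J ψ O V) {ζ : Ph n} (hζ : ζ.1 ∈ O) (ξ η : Ph n) :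
    om (fderiv ℝ (iota r J ψ) ζ ξ) (fderiv ℝ (iota r J ψ) ζ η) = om ξ η := by
  have hψ := hc.smooth
  have hrs : ContDiff ℝ ∞ (fun a : E n => fderiv ℝ r (ψ a)) :=
    (h.smooth.fderiv_right (m := ∞) (by simp)).comp hψ
  obtain ⟨S, hS⟩ : ∃ S : E n → (E N →L[ℝ] E n), S = fun a => J.comp (fderiv ℝ r (ψ a)) := ⟨_, rfl⟩
  have hSs : ContDiff ℝ ∞ S := by
    rw [hS]
    exact contDiff_const.clm_comp hrs
  have hSd : HasFDerivAt S (fderiv ℝ S ζ.1) ζ.1 := (hSs.differentiable (by simp) _).hasFDerivAt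
  have hψd : HasFDerivAt ψ (fderiv ℝ ψ ζ.1) ζ.1 := (hψ.differentiable (by simp) _).hasFDerivAt
  have hψ2 : ContDiff ℝ ∞ (fderiv ℝ ψ) := hψ.fderiv_right (m := ∞) (by simp)
  have hψ2d : HasFDerivAt (fderiv ℝ ψ) (fderiv ℝ (fderiv ℝ ψ) ζ.1) ζ.1 :=
    (hψ2.differentiable (by simp) _).hasFDerivAt
  have hι : HasFDerivAt (iota r J ψ) (fderiv ℝ (iota r J ψ) ζ) ζ :=
    ((contDiff_iota h hψ).differentiable (by simp) _).hasFDerivAt
  have hSψ : ∀ b ∈ O, ∀ w, S b (fderiv ℝ ψ b w) = w := by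
    intro b hb w
    rw [hS]
    show J (fderiv ℝ r (ψ b) (fderiv ℝ ψ b w)) = w
    rw [P_dpsi h hc hb, J_dpsi hc hb]
  have h1 : ∀ v : Ph n, (fderiv ℝ (iota r J ψ) ζ v).1 = fderiv ℝ ψ ζ.1 v.1 := by
    intro v
    have e1 : HasFDerivAt (fun z => (iota r J ψ z).1)
        ((ContinuousLinearMap.fst ℝ (E N) (E N)).comp (fderiv ℝ (iota r J ψ) ζ)) ζ := hι.fst
    have e2 : HasFDerivAt (fun z : Ph n => ψ z.1)
        ((fderiv ℝ ψ ζ.1).comp (ContinuousLinearMap.fst ℝ (E n) (E n))) ζ :=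
      hψd.comp ζ hasFDerivAt_fst
    have e3 := congrArg (fun L : Ph n →L[ℝ] E N => L v) (e1.unique e2)
    exact e3
  have h2 : ∀ (v : Ph n) (w : E N), ⟪(fderiv ℝ (iota r J ψ) ζ v).2, w⟫_ℝ
      = ⟪ζ.2, (fderiv ℝ S ζ.1 v.1) w⟫_ℝ + ⟪v.2, S ζ.1 w⟫_ℝ := by
    intro v w
    have e1 : HasFDerivAt (fun z => ⟪(iota r J ψ z).2, w⟫_ℝ)
        ((fderivInnerCLM ℝ ((iota r J ψ ζ).2, w)).comp
          (((ContinuousLinearMap.snd ℝ (E N) (E N)).comp (fderiv ℝ (iota r J ψ) ζ)).prod 0)) ζ :=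
      HasFDerivAt.inner ℝ hι.snd (hasFDerivAt_const w ζ)
    have e0 : HasFDerivAt (fun z : Ph n => S z.1)
        ((fderiv ℝ S ζ.1).comp (ContinuousLinearMap.fst ℝ (E n) (E n))) ζ :=
      hSd.comp ζ hasFDerivAt_fst
    have e4 := e0.clm_apply (hasFDerivAt_const w ζ)
    have e2 := HasFDerivAt.inner ℝ (hasFDerivAt_snd (𝕜 := ℝ) (p := ζ)) e4
    have e5 : (fun z => ⟪(iota r J ψ z).2, w⟫_ℝ) = fun z : Ph n => ⟪z.2, S z.1 w⟫_ℝ := by
      funext z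
      rw [hS]
      exact inner_adj _ _ _
    rw [e5] at e1
    have e3 := congrArg (fun L : Ph n →L[ℝ] ℝ => L v) (e1.unique e2)
    simp [fderivInnerCLM_apply] at e3
    exact e3
  have h3 : ∀ u v : E n, (fderiv ℝ S ζ.1 u) (fderiv ℝ ψ ζ.1 v)
      + S ζ.1 (fderiv ℝ (fderiv ℝ ψ) ζ.1 u v) = 0 := by
    intro u v
    have e1 := hSd.clm_apply (hψ2d.clm_apply (hasFDerivAt_const v ζ.1))
    have e2 : HasFDerivAt (fun b => S b (fderiv ℝ ψ b v)) (0 : E n →L[ℝ] E n) ζ.1 := by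
      refine (hasFDerivAt_const v ζ.1).congr_of_eventuallyEq ?_
      filter_upwards [hc.openO.mem_nhds hζ] with b hb
      exact hSψ b hb v
    have e3 := congrArg (fun L : E n →L[ℝ] E n => L u) (e1.unique e2)
    simp at e3
    rw [add_comm]
    exact e3
  have hsym : ∀ u v : E n, fderiv ℝ (fderiv ℝ ψ) ζ.1 u v = fderiv ℝ (fderiv ℝ ψ) ζ.1 v u := by
    have e1 : IsSymmSndFDerivAt ℝ ψ ζ.1 := hψ.contDiffAt.isSymmSndFDerivAt (by
      rw [minSmoothness_of_isRCLikeNormedField]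
      exact WithTop.coe_le_coe.2 le_top)
    exact fun u v => e1.eq u v
  have h4 : ∀ u v : E n, (fderiv ℝ S ζ.1 u) (fderiv ℝ ψ ζ.1 v)
      = (fderiv ℝ S ζ.1 v) (fderiv ℝ ψ ζ.1 u) := by
    intro u v
    have e1 := h3 u v
    have e2 := h3 v u
    rw [hsym v u] at e2
    rw [eq_neg_of_add_eq_zero_left e1, eq_neg_of_add_eq_zero_left e2]
  unfold om
  rw [real_inner_comm, h2, h2, h1, h1, hSψ _ hζ, hSψ _ hζ, h4 η.1 ξ.1, real_inner_comm ξ.1 η.2]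
  ring

end Pool.Agent.Helper59.GM
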