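import Pool.Agent.Helper59.GM.PhTan
import Pool.Agent.Helper59.GT.Net

/-!
# GM-26 NetM: a finite net of the unit tangent bundle of `M`, as a set of points of the shell

Proof. As GT-22 `Net`. The set `T = {(x, v) | x ∈ M, Tan r x v, g x v v = 1}` is compact (closed; `M` is compact; bounded by `metric_bounds`), so there is a finite `T₀ ⊆ T` such that every point of `T` is within `ε` of `T₀`. `Y = image of T₀ under (x, v) ↦ (x, √2 • opA g x v)`: in `TT M r` by `tan_iff` (`√2 v` is tangent; `opA` is linear), energy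
`(1 / 2) * 2 = 1` (`Hk_eq`), so in the shell. Nonempty: `M` is nonempty, and for `x ∈ M` the range of `fderiv ℝ r x` has dimension `n ≥ 1` (`Sub.rank`), so it contains some `w ≠ 0`, a tangent vector (`tan_of_range`); normalise it (`pos`).
-/

set_option autoImplicit false
set_option maxSynthPendingDepth 3

open scoped ContDiff InnerProductSpace
open Pool.Agent.Helper59.GT

namespace Pool.Agent.Helper59.GM

variable {n N : ℕ} {M U : Set (E N)} {r : E N → E N} {χ : E N → ℝ} {g : E N → Bil N}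

private theorem nm_shell {n : ℕ} {g : E n → Bil n} (hg : IsMetric ∞ g) {x v : E n}
    (h : g x v v = 1) : (x, Real.sqrt 2 • opA g x v) ∈ Shell g := by
  have h2 : Real.sqrt 2 * Real.sqrt 2 = 2 := Real.mul_self_sqrt (by norm_num)
  have h1 : Hk g (x, Real.sqrt 2 • opA g x v) = 1 := by
    rw [← map_smul, Hk_eq hg]
    simp only [map_smul, _root_.smul_apply, smul_eq_mul, h]
    linarith
  show 1 / 2 < Hk g _ ∧ Hk g _ < 2
  rw [h1]
  constructor <;> norm_num

private theorem nm_unit (hn : 1 ≤ n) (h : Sub n M U r χ) (hg : Hat ∞ U r g) :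
    ∃ x ∈ M, ∃ v, Tan r x v ∧ g x v v = 1 := by
  obtain ⟨x, hx⟩ := h.ne
  have h1 := h.rank x hx
  have h2 : (LinearMap.range (fderiv ℝ r x : E N →ₗ[ℝ] E N)) ≠ ⊥ := by
    intro h3
    rw [h3, finrank_bot] at h1
    omega
  obtain ⟨w, hw, hw0⟩ := Submodule.exists_mem_ne_zero_of_ne_bot h2
  obtain ⟨y, rfl⟩ := hw
  have ht : Tan r x (fderiv ℝ r x y) := h.tan_of_range hx y
  obtain ⟨e, he⟩ : ∃ e : E N, e = fderiv ℝ r x y := ⟨_, rfl⟩
  have he0 : e ≠ 0 := by
    rw [he]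
    exact hw0
  rw [← he] at ht
  have h0 := hg.metric.pos x e he0
  refine ⟨x, hx, (Real.sqrt (g x e e))⁻¹ • e, ?_, ?_⟩
  · show fderiv ℝ r x _ = _
    rw [map_smul]
    have ht' : fderiv ℝ r x e = e := ht
    rw [ht']
  · have h3 : Real.sqrt (g x e e) * Real.sqrt (g x e e) = g x e e := Real.mul_self_sqrt h0.le
    have h4 : Real.sqrt (g x e e) ≠ 0 := (Real.sqrt_pos.2 h0).ne'
    simp only [map_smul, _root_.smul_apply, smul_eq_mul]
    calc (Real.sqrt (g x e e))⁻¹ * ((Real.sqrt (g x e e))⁻¹ * g x e e)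
        = (Real.sqrt (g x e e))⁻¹ * ((Real.sqrt (g x e e))⁻¹ *
            (Real.sqrt (g x e e) * Real.sqrt (g x e e))) := by rw [h3]
      _ = 1 := by field_simp

theorem exists_netM (hn : 1 ≤ n) (h : Sub n M U r χ) (hg : Hat ∞ U r g) (ε : ℝ) (hε : 0 < ε) :
    ∃ Y : Finset (Ph N), Y.Nonempty ∧ (∀ y ∈ Y, y ∈ TT M r ∩ Shell g) ∧
      ∀ x ∈ M, ∀ v, Tan r x v → g x v v = 1 → ∃ x' v', x' ∈ M ∧ Tan r x' v' ∧ g x' v' v' = 1 ∧
        (x', Real.sqrt 2 • opA g x' v') ∈ Y ∧ ‖x' - x‖ < ε ∧ ‖v' - v‖ < ε := by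
  classical
  obtain ⟨a, b, ha, hb, hab⟩ := metric_bounds hg.metric
  have hfc : Continuous fun p : E N × E N => g p.1 p.2 p.2 :=
    ((hg.metric.smooth.continuous.comp continuous_fst).clm_apply continuous_snd).clm_apply
      continuous_snd
  have hPc : Continuous fun p : E N × E N => fderiv ℝ r p.1 p.2 :=
    ((h.smooth.continuous_fderiv (by simp)).comp continuous_fst).clm_apply continuous_snd
  obtain ⟨T, hT⟩ : ∃ T : Set (E N × E N), T = ((M ×ˢ
      Metric.closedBall (0 : E N) (1 + 1 / a)) ∩ {p | g p.1 p.2 p.2 = 1}) ∩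
      {p | fderiv ℝ r p.1 p.2 = p.2} := ⟨_, rfl⟩
  have hTc : IsCompact T := by
    rw [hT]
    exact ((h.compact.prod (isCompact_closedBall _ _)).inter_right
      (isClosed_eq hfc continuous_const)).inter_right (isClosed_eq hPc continuous_snd)
  have hv : ∀ x v, g x v v = 1 → ‖v‖ ≤ 1 + 1 / a := by
    intro x v h
    have h1 := (hab x v).1
    rw [h] at h1
    have h2 : ‖v‖ ^ 2 ≤ 1 / a := by
      rw [le_div_iff₀ ha, mul_comm]
      exact h1
    nlinarith [sq_nonneg (‖v‖ - 1), norm_nonneg v]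
  obtain ⟨T₀, hT0, hfin, hcov⟩ := hTc.finite_cover_balls hε
  have hmain : ∀ x ∈ M, ∀ v, Tan r x v → g x v v = 1 → ∃ x' v', x' ∈ M ∧ Tan r x' v' ∧
      g x' v' v' = 1 ∧ (x', Real.sqrt 2 • opA g x' v') ∈
        hfin.toFinset.image (fun p : E N × E N => ((p.1, Real.sqrt 2 • opA g p.1 p.2) : Ph N)) ∧
      ‖x' - x‖ < ε ∧ ‖v' - v‖ < ε := by
    intro x hx v ht hgv
    have hmem : ((x, v) : E N × E N) ∈ T := by
      rw [hT]
      refine ⟨⟨⟨hx, ?_⟩, hgv⟩, ht⟩
      rw [mem_closedBall_zero_iff]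
      exact hv x v hgv
    have h1 := hcov hmem
    simp only [Set.mem_iUnion, Metric.mem_ball] at h1
    obtain ⟨q, hq, hd⟩ := h1
    have hqT := hT0 hq
    rw [hT] at hqT
    obtain ⟨⟨⟨hq1, -⟩, hq2⟩, hq3⟩ := hqT
    refine ⟨q.1, q.2, hq1, hq3, hq2, ?_, ?_, ?_⟩
    · rw [Finset.mem_image]
      exact ⟨q, hfin.mem_toFinset.2 hq, rfl⟩
    · rw [Prod.dist_eq, max_lt_iff] at hd
      rw [← dist_eq_norm, dist_comm]
      exact hd.1
    · rw [Prod.dist_eq, max_lt_iff] at hd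
      rw [← dist_eq_norm, dist_comm]
      exact hd.2
  refine ⟨_, ?_, ?_, hmain⟩
  · obtain ⟨x, hx, v, ht, hgv⟩ := nm_unit hn h hg
    obtain ⟨x', v', -, -, -, h1, -⟩ := hmain x hx v ht hgv
    exact ⟨_, h1⟩
  · intro y hy
    rw [Finset.mem_image] at hy
    obtain ⟨q, hq, rfl⟩ := hy
    have hqT := hT0 (hfin.mem_toFinset.1 hq)
    rw [hT] at hqT
    obtain ⟨⟨⟨hq1, -⟩, hq2⟩, hq3⟩ := hqT
    refine ⟨?_, nm_shell hg.metric hq2⟩
    have h3 : Tan r q.1 (Real.sqrt 2 • q.2) := by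
      show fderiv ℝ r q.1 _ = _
      rw [map_smul]
      have h4 : fderiv ℝ r q.1 q.2 = q.2 := hq3
      rw [h4]
    have h5 := (tan_iff h hg hq1 _).2 h3
    rw [map_smul] at h5
    exact h5

end Pool.Agent.Helper59.GM
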