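import Pool.Agent.Helper59.GM.SubLem

/-!
# GM-25 RetrClose: `r ∘ b` is `C ^ 2`-close to `γ = r ∘ γ` if `b` is `C ^ 2`-close to `γ`

Proof. The map `(y, v, a) ↦ (r y, P_y v, Q_y v v + P_y a)` (`P_y = fderiv ℝ r y`, `Q_y = fderiv ℝ (fderiv ℝ r) y`) is continuous, so uniformly continuous on the compact set `cthickening 1 M × closedBall 0 (R + 1) × closedBall 0 (R + 1)` (`IsCompact.uniformContinuousOn_of_continuous`). There is `δ_U > 0` with `thickening δ_U M ⊆ U`
(`IsCompact.exists_thickening_subset_open`). `δ = min` of these and `1`.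
-/

set_option autoImplicit false
set_option maxSynthPendingDepth 3

open scoped ContDiff InnerProductSpace
open Pool.Agent.Helper59.GT

namespace Pool.Agent.Helper59.GM

variable {n N : ℕ} {M U : Set (E N)} {r : E N → E N} {χ : E N → ℝ} {g : E N → Bil N}

private theorem retrClose_cont (h : Sub n M U r χ) : Continuous fun z : E N × E N × E N =>
    ((r z.1, fderiv ℝ r z.1 z.2.1,
      fderiv ℝ (fderiv ℝ r) z.1 z.2.1 z.2.1 + fderiv ℝ r z.1 z.2.2) : E N × E N × E N) := by
  have h1 : Continuous r := h.smooth.continuous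
  have h2 : ContDiff ℝ ∞ (fderiv ℝ r) := h.smooth.fderiv_right (m := ∞) (by simp)
  have h3 : Continuous (fderiv ℝ r) := h2.continuous
  have h4 : Continuous (fderiv ℝ (fderiv ℝ r)) := h2.continuous_fderiv (by simp)
  have c1 : Continuous fun z : E N × E N × E N => z.1 := continuous_fst
  have c2 : Continuous fun z : E N × E N × E N => z.2.1 := continuous_fst.comp continuous_snd
  have c3 : Continuous fun z : E N × E N × E N => z.2.2 := continuous_snd.comp continuous_snd
  exact (h1.comp c1).prodMk (((h3.comp c1).clm_apply c2).prodMk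
    ((((h4.comp c1).clm_apply c2).clm_apply c2).add ((h3.comp c1).clm_apply c3)))

theorem retr_close (h : Sub n M U r χ) (R ε : ℝ) (hε : 0 < ε) :
    ∃ δ > 0, ∀ x ∈ M, ∀ y v a v' a' : E N, ‖v‖ ≤ R → ‖a‖ ≤ R → ‖y - x‖ < δ → ‖v' - v‖ < δ → ‖a' - a‖ < δ →
      y ∈ U ∧ ‖r y - r x‖ < ε ∧ ‖fderiv ℝ r y v' - fderiv ℝ r x v‖ < ε ∧
        ‖(fderiv ℝ (fderiv ℝ r) y v' v' + fderiv ℝ r y a') - (fderiv ℝ (fderiv ℝ r) x v v + fderiv ℝ r x a)‖ < ε := by
  obtain ⟨δU, hδU, hsub⟩ := h.compact.exists_thickening_subset_open h.isOpen h.sub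
  have hK : IsCompact (Metric.cthickening 1 M ×ˢ
      (Metric.closedBall (0 : E N) (R + 1) ×ˢ Metric.closedBall (0 : E N) (R + 1))) :=
    h.compact.cthickening.prod ((isCompact_closedBall _ _).prod (isCompact_closedBall _ _))
  have hu := hK.uniformContinuousOn_of_continuous (retrClose_cont h).continuousOn
  obtain ⟨δ, hδ, hd⟩ := Metric.uniformContinuousOn_iff.1 hu ε hε
  refine ⟨min (min δ δU) 1, lt_min (lt_min hδ hδU) one_pos, ?_⟩
  intro x hx y v a v' a' hv ha hyx hvv haa
  have e1 : min (min δ δU) 1 ≤ δ := (min_le_left _ _).trans (min_le_left _ _)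
  have e2 : min (min δ δU) 1 ≤ δU := (min_le_left _ _).trans (min_le_right _ _)
  have e3 : min (min δ δU) 1 ≤ 1 := min_le_right _ _
  have hyU : y ∈ U := by
    apply hsub
    rw [Metric.mem_thickening_iff]
    exact ⟨x, hx, by rw [dist_eq_norm]; linarith⟩
  have hx1 : x ∈ Metric.cthickening 1 M := Metric.self_subset_cthickening M hx
  have hy1 : y ∈ Metric.cthickening 1 M :=
    Metric.mem_cthickening_of_dist_le y x 1 M hx (by rw [dist_eq_norm]; linarith)
  have hball : ∀ w w' : E N, ‖w‖ ≤ R → ‖w' - w‖ < min (min δ δU) 1 →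
      w ∈ Metric.closedBall (0 : E N) (R + 1) ∧ w' ∈ Metric.closedBall (0 : E N) (R + 1) := by
    intro w w' hw hww
    rw [mem_closedBall_zero_iff, mem_closedBall_zero_iff]
    have h1 := norm_add_le w (w' - w)
    rw [add_sub_cancel] at h1
    constructor <;> linarith
  obtain ⟨v1, v2⟩ := hball v v' hv hvv
  obtain ⟨a1, a2⟩ := hball a a' ha haa
  have key := hd (y, v', a') ⟨hy1, v2, a2⟩ (x, v, a) ⟨hx1, v1, a1⟩ (by
    rw [Prod.dist_eq, Prod.dist_eq, dist_eq_norm, dist_eq_norm, dist_eq_norm]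
    exact max_lt (by linarith) (max_lt (by linarith) (by linarith)))
  rw [Prod.dist_eq, Prod.dist_eq, dist_eq_norm, dist_eq_norm, dist_eq_norm] at key
  obtain ⟨k1, k2⟩ := max_lt_iff.1 key
  obtain ⟨k3, k4⟩ := max_lt_iff.1 k2
  exact ⟨hyU, k1, k3, k4⟩

end Pool.Agent.Helper59.GM
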