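import Pool.Agent.Helper59.GM.Defs

/-!
# GM-01 RetrDeriv: derivatives of `r ∘ b`

Proof. Chain rule; `fderiv ℝ r` is smooth (`ContDiff.fderiv_right`), so differentiable, and `t ↦ fderiv ℝ r (b t) (deriv b t)` is differentiated by the product rule `HasDerivAt.clm_apply`.
-/

set_option autoImplicit false
set_option maxSynthPendingDepth 3

open scoped ContDiff InnerProductSpace
open Pool.Agent.Helper59.GT

namespace Pool.Agent.Helper59.GM

private theorem RetrDeriv_ne : (∞ : WithTop ℕ∞) ≠ 0 := by simp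

theorem deriv_retr {N : ℕ} {r : E N → E N} (hr : ContDiff ℝ ∞ r) {b : ℝ → E N} {t : ℝ} (hb : DifferentiableAt ℝ b t) :
    deriv (fun s => r (b s)) t = fderiv ℝ r (b t) (deriv b t) := by
  have h1 : HasFDerivAt r (fderiv ℝ r (b t)) (b t) :=
    (hr.differentiable RetrDeriv_ne (b t)).hasFDerivAt
  exact (h1.comp_hasDerivAt t hb.hasDerivAt).deriv

theorem deriv2_retr {N : ℕ} {r : E N → E N} (hr : ContDiff ℝ ∞ r) {b : ℝ → E N} (hb : ContDiff ℝ ∞ b) (t : ℝ) :
    deriv (deriv (fun s => r (b s))) t =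
      fderiv ℝ (fderiv ℝ r) (b t) (deriv b t) (deriv b t) + fderiv ℝ r (b t) (deriv (deriv b) t) := by
  have hbd : Differentiable ℝ b := hb.differentiable RetrDeriv_ne
  have h1 : deriv (fun s => r (b s)) = fun s => fderiv ℝ r (b s) (deriv b s) := by
    funext s
    exact deriv_retr hr (hbd s)
  rw [h1]
  have h2 : ContDiff ℝ ∞ (fderiv ℝ r) := hr.fderiv_right (by simp)
  have h3 : HasFDerivAt (fderiv ℝ r) (fderiv ℝ (fderiv ℝ r) (b t)) (b t) :=
    (h2.differentiable RetrDeriv_ne (b t)).hasFDerivAt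
  have h4 : HasDerivAt (fun s => fderiv ℝ r (b s)) (fderiv ℝ (fderiv ℝ r) (b t) (deriv b t)) t :=
    h3.comp_hasDerivAt t (hbd t).hasDerivAt
  have h5 : ContDiff ℝ ∞ (deriv b) := by
    have := hb.iterate_deriv 1
    simpa using this
  have h6 : HasDerivAt (deriv b) (deriv (deriv b) t) t :=
    (h5.differentiable RetrDeriv_ne t).hasDerivAt
  exact (h4.clm_apply h6).deriv

end Pool.Agent.Helper59.GM
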