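import Pool.Agent.Helper59.GM.SeqM
import Pool.Agent.Helper59.GM.NetM
import Pool.Agent.Helper59.GM.RetrClose
import Pool.Agent.Helper59.GM.RetrDeriv
import Pool.Agent.Helper59.GT.Loop

/-!
# GM-28 LoopM: closed curves in `M` of small geodesic curvature with an almost dense set of directions

Proof. As GT-23 `Loop` (see there), with `c = r ∘ blend γ`. Take `Φ, K` from `exists_geoFlow`, `R` from `sol_close` (bound of the first two derivatives), `B` from `blend_bound`, `δE` from `EL_unif` with `R + 1` and `min ε (1/2)`, `δR` from `retr_close` for `R` and `min δE 1`, `η > 0` with `B η < δR`, `δ` from `sol_close` for `η`;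
`Y` from `exists_netM` (for `ε`); `q, S` from `exists_seqM` for `δ`. `γ i t = (Φ (t - i) (S i)).1`, a smooth geodesic in `M` (`flow_inv`, `geod_of_ham`, `GeoFlow.smooth`); `b = blend γ`, `c = r ∘ b`, `P = q`.
* `b` is smooth (`contDiff_blend`), so is `c`. Periodic: `⌊t + q⌋ = ⌊t⌋ + q`, `γ (i + q) (t + q) = γ i t`.
* for `t ∈ [i, i + 1]`, `i = ⌊t⌋` (exactly as in `Loop`): `b, b', b''` at `t` are within `B η` of `γ_i, γ_i', γ_i''`, which are `≤ R` (the derivatives). By `retr_close` (`x = γ_i t ∈ M`): `b t ∈ U`, so `c t ∈ M` (`maps`), and `c, c', c''` (`deriv_retr`, `deriv2_retr`) are within `min δE 1` of `r (γ_i t) = γ_i t`, `P γ_i' = γ_i'` (`tan_curve`) and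
`Q γ_i' γ_i' + P γ_i'' = γ_i''` (`acc_curve`). `EL (γ_i ...) = 0` (`EL_of_geodesic`), `g (γ_i', γ_i') = 2 Hk ∈ (1, 4)`: `EL_unif` gives the bounds for `c`.
* directions: `(x', v')` from `exists_netM`, `S i = (x', √2 • opA g x' v')`. Near `t = i` (`|t - i| < 1/4`) `b = γ_i` (`blend_eq` with `sig = 0`; on the left of `i` use `blend_eq` for `i - 1`, `sig = 1`), so `c = r ∘ γ_i = γ_i`: `c i = x'`, `c' i = cog g (S i).1 (S i).2 = √2 v'` (`cog_left`), `g (c', c') = 2`: the normalised direction is `v'`.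
-/

set_option autoImplicit false
set_option maxSynthPendingDepth 3

open scoped ContDiff InnerProductSpace
open Pool.Agent.Helper59.GT

namespace Pool.Agent.Helper59.GM

variable {n N : ℕ} {M U : Set (E N)} {r : E N → E N} {χ : E N → ℝ} {g : E N → Bil N}

/-- The geodesic of `z` started at time `a`. -/
private noncomputable def LoopM_gam {m : ℕ} (Φ : ℝ → Ph m → Ph m) (z : Ph m) (a : ℝ) : ℝ → E m :=
  fun t => (Φ (t - a) z).1

private lemma LoopM_gam_d {m : ℕ} (Φ : ℝ → Ph m → Ph m) (z : Ph m) (a : ℝ) :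
    deriv (LoopM_gam Φ z a) = fun t => deriv (fun s => (Φ s z).1) (t - a) := by
  ext1 t
  exact deriv_comp_sub_const (f := fun s => (Φ s z).1) a t

private lemma LoopM_gam_dd {m : ℕ} (Φ : ℝ → Ph m → Ph m) (z : Ph m) (a t : ℝ) :
    deriv (deriv (LoopM_gam Φ z a)) t = deriv (deriv (fun s => (Φ s z).1)) (t - a) := by
  rw [LoopM_gam_d]
  exact deriv_comp_sub_const (f := deriv (fun s => (Φ s z).1)) a t

private lemma LoopM_gam_smooth {m : ℕ} {g : E m → Bil m} {Φ : ℝ → Ph m → Ph m} {K : ℝ}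
    (hΦ : GeoFlow g Φ K) (z : Ph m) (a : ℝ) : ContDiff ℝ ∞ (LoopM_gam Φ z a) := by
  unfold LoopM_gam
  exact contDiff_fst.comp ((hΦ.smooth z).comp (contDiff_id.sub contDiff_const))

private lemma LoopM_gam_shift {m : ℕ} {g : E m → Bil m} {Φ : ℝ → Ph m → Ph m} {K : ℝ}
    (hΦ : GeoFlow g Φ K) (z : Ph m) (a : ℝ) : LoopM_gam Φ z a = LoopM_gam Φ (Φ 1 z) (a + 1) := by
  ext1 t
  unfold LoopM_gam
  rw [← hΦ.add]
  congr 2
  ring

private lemma LoopM_gam_geod {m : ℕ} {g : E m → Bil m} (hg : IsMetric ∞ g) {Φ : ℝ → Ph m → Ph m} {K : ℝ}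
    (hΦ : GeoFlow g Φ K) (z : Ph m) (hz : Hk g z < 4) (a : ℝ) :
    (∀ t, EL g (LoopM_gam Φ z a t) (deriv (LoopM_gam Φ z a) t) (deriv (deriv (LoopM_gam Φ z a)) t) = 0) ∧
    (∀ t, g (LoopM_gam Φ z a t) (deriv (LoopM_gam Φ z a) t) (deriv (LoopM_gam Φ z a) t) = 2 * Hk g z) ∧
    (∀ t, deriv (LoopM_gam Φ z a) t = cog g (Φ (t - a) z).1 (Φ (t - a) z).2) := by
  have hZ : ∀ t, HasDerivAt (fun s => Φ (s - a) z) (XH (Hk g) (Φ (t - a) z)) t := by
    intro t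
    exact HasDerivAt.comp_sub_const t a (hΦ.ham z hz (t - a))
  obtain ⟨h1, h2, h3⟩ := geod_of_ham hg hZ
  refine ⟨fun t => EL_of_geodesic hg (LoopM_gam_smooth hΦ z a) h1 t, fun t => ?_, h2⟩
  have h4 := h3 t
  have h5 : deriv (LoopM_gam Φ z a) t = cog g (Φ (t - a) z).1 (Φ (t - a) z).2 := h2 t
  rw [h5]
  rw [hΦ.energy z hz (t - a)] at h4
  exact h4

private lemma LoopM_sig_zero {s : ℝ} (hs : s ≤ 1 / 4) : sig s = 0 := by
  unfold sig
  exact Real.smoothTransition.zero_of_nonpos (by linarith)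

private lemma LoopM_blend_near {F : Type} [NormedAddCommGroup F] [NormedSpace ℝ F] (γ : ℤ → ℝ → F)
    (i : ℤ) : blend γ =ᶠ[nhds (i : ℝ)] γ i := by
  have h : Set.Ioo ((i : ℝ) - 1 / 4) (i + 1 / 4) ∈ nhds (i : ℝ) :=
    Ioo_mem_nhds (by linarith) (by linarith)
  filter_upwards [h] with t ht
  rw [blend_eq γ i t ht.1 (by linarith [ht.2]), LoopM_sig_zero (by linarith [ht.2]), zero_smul, add_zero]

theorem exists_loopM (hn : 2 ≤ n) (h : Sub n M U r χ) (hg : Hat ∞ U r g) (ε : ℝ) (hε : 0 < ε) :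
    ∃ (c : ℝ → E N) (P : ℝ), 0 < P ∧ ContDiff ℝ ∞ c ∧ (∀ t, c (t + P) = c t) ∧ (∀ t, c t ∈ M) ∧
      (∀ t, ‖EL g (c t) (deriv c t) (deriv (deriv c) t)‖ ≤ ε) ∧
      (∀ t, 1 / 2 ≤ g (c t) (deriv c t) (deriv c t) ∧ g (c t) (deriv c t) (deriv c t) ≤ 5) ∧
      ∀ x ∈ M, ∀ v, Tan r x v → g x v v = 1 → ∃ t, ‖c t - x‖ < ε ∧
        ‖(Real.sqrt (g (c t) (deriv c t) (deriv c t)))⁻¹ • deriv c t - v‖ < ε := by
  have hm := hg.metric
  obtain ⟨Φ, K, hK, hΦ⟩ := exists_geoFlow hm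
  obtain ⟨R, hR, hclose⟩ := sol_close hm hK hΦ
  obtain ⟨B, hB, hblend⟩ := blend_bound (F := E N)
  obtain ⟨δE, hδE, hEL⟩ := EL_unif hm (R + 1) (min ε (1 / 2)) (lt_min hε (by norm_num))
  obtain ⟨δR, hδR, hretr⟩ := retr_close h R (min δE 1) (lt_min hδE one_pos)
  have hη : 0 < δR / (2 * (B + 1)) := by positivity
  set η : ℝ := δR / (2 * (B + 1)) with hηdef
  have hBη : B * η < δR := by
    have h2 : B * η = δR * (B / (2 * (B + 1))) := by
      rw [hηdef]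
      ring
    rw [h2]
    have h3 : B / (2 * (B + 1)) < 1 := by
      rw [div_lt_one (by positivity)]
      linarith
    nlinarith
  obtain ⟨δ, hδ, hcl⟩ := hclose η hη
  obtain ⟨Y, hYne, hYs, hY⟩ := exists_netM (by omega) h hg ε hε
  obtain ⟨q, S, hq, hSper, hSK, hSstep, hSY⟩ := exists_seqM hn h hg hΦ δ hδ Y hYs hYne
  have hS4 : ∀ i, Hk g (S i) < 4 := fun i => by
    have := (hSK i).2.2
    linarith
  have hS1 : ∀ i, Φ 1 (S i) ∈ Shell g := by
    intro i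
    have h1 := hΦ.energy (S i) (hS4 i) 1
    have h2 := (hSK i).2
    unfold Shell at h2 ⊢
    simp only [Set.mem_setOf_eq] at h2 ⊢
    rw [h1]
    exact h2
  set γ : ℤ → ℝ → E N := fun i => LoopM_gam Φ (S i) (i : ℝ) with hγ
  have hγs : ∀ i, ContDiff ℝ ∞ (γ i) := fun i => LoopM_gam_smooth hΦ _ _
  have hγM : ∀ i t, γ i t ∈ M := by
    intro i t
    exact (flow_inv h hg hΦ (hSK i).1 (hS4 i) (t - i)).1
  have hγ1 : ∀ i t, ‖deriv (γ i) t‖ ≤ R := by
    intro i t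
    simp only [hγ]
    rw [LoopM_gam_d]
    exact (hR (S i) (hSK i).2 _).1
  have hγ2 : ∀ i t, ‖deriv (deriv (γ i)) t‖ ≤ R := by
    intro i t
    simp only [hγ]
    rw [LoopM_gam_dd]
    exact (hR (S i) (hSK i).2 _).2
  have hbl : ∀ (i : ℤ) (t : ℝ), (i : ℝ) ≤ t → t ≤ i + 1 →
      ‖blend γ t - γ i t‖ ≤ B * η ∧ ‖deriv (blend γ) t - deriv (γ i) t‖ ≤ B * η ∧
      ‖deriv (deriv (blend γ)) t - deriv (deriv (γ i)) t‖ ≤ B * η := by
    intro i t h1 h2
    have e1 : γ i = LoopM_gam Φ (Φ 1 (S i)) ((i : ℝ) + 1) := LoopM_gam_shift hΦ (S i) i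
    have e2 : γ (i + 1) = LoopM_gam Φ (S (i + 1)) ((i : ℝ) + 1) := by
      simp only [hγ]
      push_cast
      rfl
    have hd : dist (S (i + 1)) (Φ 1 (S i)) < δ := by
      rw [dist_comm]
      exact hSstep i
    have ht : |t - ((i : ℝ) + 1)| ≤ 1 := by
      rw [abs_le]
      constructor <;> linarith
    obtain ⟨h3, h4, h5⟩ := hcl (S (i + 1)) (hSK _).2 (Φ 1 (S i)) (hS1 i) hd _ ht
    apply hblend γ hγs i t η h1 h2
    · rw [e1, e2]
      exact h3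
    · rw [e1, e2, LoopM_gam_d, LoopM_gam_d]
      exact h4
    · rw [e1, e2, LoopM_gam_dd, LoopM_gam_dd]
      exact h5
  have hbs : ContDiff ℝ ∞ (blend γ) := contDiff_blend γ hγs
  obtain ⟨c, hc⟩ : ∃ c : ℝ → E N, c = fun s => r (blend γ s) := ⟨_, rfl⟩
  have hcs : ContDiff ℝ ∞ c := by
    rw [hc]
    exact h.smooth.comp hbs
  have hc1 : ∀ t, deriv c t = fderiv ℝ r (blend γ t) (deriv (blend γ) t) := by
    intro t
    rw [hc]
    exact deriv_retr h.smooth (hbs.differentiable (by simp) t)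
  have hc2 : ∀ t, deriv (deriv c) t = fderiv ℝ (fderiv ℝ r) (blend γ t) (deriv (blend γ) t) (deriv (blend γ) t)
      + fderiv ℝ r (blend γ t) (deriv (deriv (blend γ)) t) := by
    intro t
    rw [hc]
    exact deriv2_retr h.smooth hbs t
  have hnear : ∀ t, c t ∈ M ∧ ‖c t - γ ⌊t⌋ t‖ < min δE 1 ∧ ‖deriv c t - deriv (γ ⌊t⌋) t‖ < min δE 1 ∧
      ‖deriv (deriv c) t - deriv (deriv (γ ⌊t⌋)) t‖ < min δE 1 := by
    intro t
    obtain ⟨h1, h2, h3⟩ := hbl ⌊t⌋ t (Int.floor_le t) (Int.lt_floor_add_one t).le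
    obtain ⟨h4, h5, h6, h7⟩ := hretr (γ ⌊t⌋ t) (hγM _ t) (blend γ t) (deriv (γ ⌊t⌋) t)
      (deriv (deriv (γ ⌊t⌋)) t) (deriv (blend γ) t) (deriv (deriv (blend γ)) t) (hγ1 _ t) (hγ2 _ t)
      (h1.trans_lt hBη) (h2.trans_lt hBη) (h3.trans_lt hBη)
    have e1 : r (γ ⌊t⌋ t) = γ ⌊t⌋ t := h.fixed _ (hγM _ t)
    have e2 : fderiv ℝ r (γ ⌊t⌋ t) (deriv (γ ⌊t⌋) t) = deriv (γ ⌊t⌋) t :=
      h.tan_curve (hγM ⌊t⌋) ((hγs ⌊t⌋).differentiable (by simp) t)
    have e3 := h.acc_curve (hγs ⌊t⌋) (hγM ⌊t⌋) t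
    rw [e1] at h5
    rw [e2, ← hc1] at h6
    rw [← e3, ← hc2] at h7
    refine ⟨?_, ?_, h6, h7⟩
    · rw [hc]
      exact h.maps h4
    · rw [hc]
      exact h5
  have hmain : ∀ t, ‖EL g (c t) (deriv c t) (deriv (deriv c) t)‖ < min ε (1 / 2) ∧
      |g (c t) (deriv c t) (deriv c t) - 2 * Hk g (S ⌊t⌋)| < min ε (1 / 2) := by
    intro t
    obtain ⟨-, h1, h2, h3⟩ := hnear t
    obtain ⟨h4, h5, _⟩ := LoopM_gam_geod hm hΦ (S ⌊t⌋) (hS4 _) (⌊t⌋ : ℝ)
    have h4' : EL g (γ ⌊t⌋ t) (deriv (γ ⌊t⌋) t) (deriv (deriv (γ ⌊t⌋)) t) = 0 := h4 t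
    have h5' : g (γ ⌊t⌋ t) (deriv (γ ⌊t⌋) t) (deriv (γ ⌊t⌋) t) = 2 * Hk g (S ⌊t⌋) := h5 t
    have h6 : ‖deriv c t‖ ≤ R + 1 := by
      have h := norm_add_le (deriv c t - deriv (γ ⌊t⌋) t) (deriv (γ ⌊t⌋) t)
      rw [sub_add_cancel] at h
      linarith [hγ1 ⌊t⌋ t, h2.trans_le (min_le_right _ _)]
    have h7 : ‖deriv (deriv c) t‖ ≤ R + 1 := by
      have h := norm_add_le (deriv (deriv c) t - deriv (deriv (γ ⌊t⌋)) t)
        (deriv (deriv (γ ⌊t⌋)) t)
      rw [sub_add_cancel] at h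
      linarith [hγ2 ⌊t⌋ t, h3.trans_le (min_le_right _ _)]
    have h8 := hEL (c t) (deriv c t) (deriv (deriv c) t) (γ ⌊t⌋ t)
      (deriv (γ ⌊t⌋) t) (deriv (deriv (γ ⌊t⌋)) t) h6 h7 ((hγ1 _ t).trans (by linarith))
      ((hγ2 _ t).trans (by linarith)) (h1.trans_le (min_le_left _ _)) (h2.trans_le (min_le_left _ _))
      (h3.trans_le (min_le_left _ _))
    rw [h4', h5', sub_zero] at h8
    exact h8
  refine ⟨c, q, by exact_mod_cast hq, hcs, ?_, fun t => (hnear t).1, ?_, ?_, ?_⟩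
  · intro t
    have hper : ∀ (i : ℤ), γ (i + q) (t + q) = γ i t := by
      intro i
      simp only [hγ]
      unfold LoopM_gam
      have e : t + (q : ℝ) - ((i + (q : ℤ) : ℤ) : ℝ) = t - i := by
        push_cast
        ring
      rw [e, hSper i]
    have hb : blend γ (t + q) = blend γ t := by
      unfold blend
      have e1 : ⌊t + (q : ℝ)⌋ = ⌊t⌋ + (q : ℤ) := Int.floor_add_natCast t q
      have e2 : (⌊t⌋ : ℤ) + (q : ℤ) + 1 = (⌊t⌋ + 1) + (q : ℤ) := by ring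
      have e3 : t + (q : ℝ) - ((⌊t⌋ + (q : ℤ) : ℤ) : ℝ) = t - ⌊t⌋ := by
        push_cast
        ring
      rw [e1, e2, e3, hper, hper]
    rw [hc]
    show r (blend γ (t + q)) = r (blend γ t)
    rw [hb]
  · intro t
    exact (hmain t).1.le.trans (min_le_left _ _)
  · intro t
    have h1 := (hmain t).2.trans_le (min_le_right _ _)
    rw [abs_lt] at h1
    have h2 := (hSK ⌊t⌋).2
    have h3 : 1 / 2 < Hk g (S ⌊t⌋) := h2.1
    have h4 : Hk g (S ⌊t⌋) < 2 := h2.2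
    constructor <;> linarith [h1.1, h1.2]
  · intro x hx v hxv hv
    obtain ⟨x', v', hx'M, hx't, hg', hy, h1, h2⟩ := hY x hx v hxv hv
    obtain ⟨i, hi⟩ := hSY _ hy
    have hi1 : (S i).1 = x' := congrArg Prod.fst hi
    have hi2 : (S i).2 = Real.sqrt 2 • opA g x' v' := congrArg Prod.snd hi
    have hcγ : c =ᶠ[nhds (i : ℝ)] γ i := by
      filter_upwards [LoopM_blend_near γ i] with s hs
      rw [hc]
      show r (blend γ s) = γ i s
      rw [hs]
      exact h.fixed _ (hγM i s)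
    have hc0 : c i = x' := by
      rw [hcγ.eq_of_nhds, ← hi1]
      simp only [hγ]
      unfold LoopM_gam
      rw [sub_self, hΦ.zero]
    have hcd : deriv c i = Real.sqrt 2 • v' := by
      rw [hcγ.deriv_eq]
      have h3 := (LoopM_gam_geod hm hΦ (S i) (hS4 i) (i : ℝ)).2.2 i
      have h4 : deriv (γ i) i = cog g (Φ ((i : ℝ) - i) (S i)).1 (Φ ((i : ℝ) - i) (S i)).2 := h3
      rw [h4, sub_self, hΦ.zero, hi2, hi1, map_smul, cog_left hm]
    refine ⟨i, ?_, ?_⟩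
    · rw [hc0]
      exact h1
    · have h5 : g (c i) (deriv c i) (deriv c i) = 2 := by
        rw [hc0, hcd, map_smul, map_smul]
        simp only [ContinuousLinearMap.smul_apply, smul_eq_mul, hg', mul_one]
        exact Real.mul_self_sqrt (by norm_num)
      rw [h5, hcd, smul_smul, inv_mul_cancel₀ (by positivity), one_smul]
      exact h2

end Pool.Agent.Helper59.GM
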