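import Pool.Agent.Helper59.GM.Scale1

/-!
# GM-56 Scale2: scaling of geodesics

Proof. Let `c = lam • c'`. `scale_geodesic`: `c t ∈ M` iff `c' t ∈ sM lam M`; `c` is differentiable iff `c'` is, `deriv c t = lam • deriv c' t`. By `scale_pull` `pull (sr) (sg g) (c' s) (c'' s) w = pull r g (c s) (deriv c s) (lam • w)` for every `w`, and `fderiv (fun y => pull (sr) (sg g) y v v) y w = fderiv (fun x => pull r g x (lam • v) (lam • v)) (lam • y) (lam • w)`
(composition with `y ↦ lam • y`; `fderiv_comp_smul`-type lemma or `ContinuousLinearEquiv.comp_right_fderiv`). So the equation for `w` is the equation for `lam • w`, and every vector is `lam • w`.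
`scale_unit`: the definitions. `scale_eps`: for `x ∈ M`, `v` apply the hypothesis to `lam⁻¹ • x`, `lam⁻¹ • v` (`scale_tangent`) and multiply by `lam`. `scale_trans`, `scale_unique`: `c' ↦ lam • c'` is a bijection of the unit speed geodesics; initial conditions `c' 0 = lam⁻¹ • x`, `deriv c' 0 = lam⁻¹ • v`.
-/

set_option autoImplicit false
set_option maxSynthPendingDepth 3

open scoped ContDiff InnerProductSpace Topology
open Pool.Agent.Helper59.GT

namespace Pool.Agent.Helper59.GM

variable {n N : ℕ} {M U : Set (E N)} {r : E N → E N} {lam : ℝ}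

theorem deriv_lam (c : ℝ → E N) (t : ℝ) : deriv (fun s => lam • c s) t = lam • deriv c t := by
  have h : deriv (lam • c) t = lam • deriv c t := deriv_const_smul_field lam c
  exact h

theorem scale_geodesic (hl : 0 < lam) (g : E N → E N → E N → ℝ) (c : ℝ → E N) :
    GMS.IsGeodesic (sM lam M) (sr lam r) (sg lam g) c ↔ GMS.IsGeodesic M r g (fun t => lam • c t) := by
  have hl0 : lam ≠ 0 := hl.ne'
  have key : ∀ t w, fderiv ℝ (fun x => GMS.pull (sr lam r) (sg lam g) x (deriv c t) (deriv c t)) (c t) w =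
      fderiv ℝ (fun x => GMS.pull r g x (lam • deriv c t) (lam • deriv c t)) (lam • c t) (lam • w) := by
    intro t w
    have h1 : (fun x => GMS.pull (sr lam r) (sg lam g) x (deriv c t) (deriv c t)) =
        (fun x => (fun x => GMS.pull r g x (lam • deriv c t) (lam • deriv c t)) (lam • x)) := by
      funext x
      exact scale_pull hl g x _ _
    have h2 := fderiv_comp_smul (𝕜 := ℝ) (f := fun x => GMS.pull r g x (lam • deriv c t) (lam • deriv c t)) (x := c t) lam
    rw [h1, h2, map_smul]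
    rfl
  have hd : Differentiable ℝ (fun t => lam • c t) ↔ Differentiable ℝ c := by
    constructor
    · intro h
      have h2 : c = fun t => lam⁻¹ • (lam • c t) := by
        funext t
        rw [smul_smul, inv_mul_cancel₀ hl0, one_smul]
      rw [h2]
      exact Differentiable.const_smul h lam⁻¹
    · intro h
      exact Differentiable.const_smul h lam
  have hpull : ∀ w, (fun s => GMS.pull (sr lam r) (sg lam g) (c s) (deriv c s) w) =
      (fun s => GMS.pull r g (lam • c s) (deriv (fun t => lam • c t) s) (lam • w)) := by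
    intro w
    funext s
    rw [scale_pull hl, deriv_lam]
  unfold GMS.IsGeodesic
  rw [hd]
  refine and_congr Iff.rfl (and_congr Iff.rfl ?_)
  constructor
  · intro h t w
    have h3 := h t (lam⁻¹ • w)
    rw [hpull, key, smul_smul, mul_inv_cancel₀ hl0, one_smul] at h3
    simp only [deriv_lam] at h3 ⊢
    exact h3
  · intro h t w
    have h3 := h t (lam • w)
    rw [hpull, key]
    simp only [deriv_lam] at h3 ⊢
    exact h3

theorem scale_unit (hl : 0 < lam) (g : E N → E N → E N → ℝ) (c : ℝ → E N) :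
    GMS.UnitSpeed (sg lam g) c ↔ GMS.UnitSpeed g (fun t => lam • c t) := by
  unfold GMS.UnitSpeed sg
  simp only [deriv_lam]

theorem scale_eps (hl : 0 < lam) (g : E N → E N → E N → ℝ) (c : ℝ → E N) (ε : ℝ)
    (h : GMS.EpsDense (sM lam M) (sr lam r) (sg lam g) c (ε / lam)) : GMS.EpsDense M r g (fun t => lam • c t) ε := by
  have hl0 : lam ≠ 0 := hl.ne'
  have hb : ∀ x : E N, lam • (lam⁻¹ • x) = x := fun x => by
    rw [smul_smul, mul_inv_cancel₀ hl0, one_smul]
  have hn : ∀ a x : E N, ‖a - lam⁻¹ • x‖ < ε / lam → ‖lam • a - x‖ < ε := by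
    intro a x h1
    have h2 : lam • a - x = lam • (a - lam⁻¹ • x) := by rw [smul_sub, hb]
    rw [h2, norm_smul, Real.norm_of_nonneg hl.le]
    rw [lt_div_iff₀ hl] at h1
    linarith [mul_comm lam ‖a - lam⁻¹ • x‖]
  intro x hx v hv hv1
  obtain ⟨t, h1, h2⟩ := h (lam⁻¹ • x) (by show lam • (lam⁻¹ • x) ∈ M; rwa [hb]) (lam⁻¹ • v)
    (by rw [scale_tangent hl, hb, hb]; exact hv) (by unfold sg; rw [hb, hb]; exact hv1)
  refine ⟨t, hn _ _ h1, ?_⟩
  rw [deriv_lam]
  exact hn _ _ h2

theorem scale_trans (hl : 0 < lam) (g : E N → E N → E N → ℝ)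
    (h : GMS.Transitive (sM lam M) (sr lam r) (sg lam g)) : GMS.Transitive M r g := by
  obtain ⟨c, h1, h2, h3⟩ := h
  exact ⟨fun t => lam • c t, (scale_geodesic hl g c).1 h1, (scale_unit hl g c).1 h2,
    fun ε hε => scale_eps hl g c ε (h3 _ (div_pos hε hl))⟩

theorem scale_unique (hl : 0 < lam) (g : E N → E N → E N → ℝ)
    (h : GMS.UniqueGeodesics (sM lam M) (sr lam r) (sg lam g)) : GMS.UniqueGeodesics M r g := by
  have hl0 : lam ≠ 0 := hl.ne'
  have hb : ∀ x : E N, lam • (lam⁻¹ • x) = x := fun x => by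
    rw [smul_smul, mul_inv_cancel₀ hl0, one_smul]
  have hb' : ∀ x : E N, lam⁻¹ • (lam • x) = x := fun x => by
    rw [smul_smul, inv_mul_cancel₀ hl0, one_smul]
  intro x hx v hv hv1
  obtain ⟨c, ⟨h1, h2, h3, h4⟩, hu⟩ := h (lam⁻¹ • x) (by show lam • (lam⁻¹ • x) ∈ M; rwa [hb]) (lam⁻¹ • v)
    (by rw [scale_tangent hl, hb, hb]; exact hv) (by unfold sg; rw [hb, hb]; exact hv1)
  refine ⟨fun t => lam • c t, ⟨(scale_geodesic hl g c).1 h1, (scale_unit hl g c).1 h2, ?_, ?_⟩, ?_⟩
  · show lam • c 0 = x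
    rw [h3, hb]
  · rw [deriv_lam, h4, hb]
  · rintro d ⟨k1, k2, k3, k4⟩
    have hdd : d = fun t => lam • (lam⁻¹ • d t) := by
      funext t
      rw [hb]
    have h5 := hu (fun t => lam⁻¹ • d t) ⟨?_, ?_, ?_, ?_⟩
    · rw [hdd]
      funext t
      have h6 := congrFun h5 t
      show lam • (lam⁻¹ • d t) = lam • c t
      rw [← h6]
    · rw [scale_geodesic hl, ← hdd]
      exact k1
    · rw [scale_unit hl, ← hdd]
      exact k2
    · show lam⁻¹ • d 0 = lam⁻¹ • x
      rw [k3]
    · rw [deriv_lam, k4]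

end Pool.Agent.Helper59.GM
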