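import Pool.Agent.Helper59.GM.Scale1

/-!
# GM-57 Scale3: scaling of functions, of closeness, of dense `G_δ` sets

Proof. `u (lam • (sr lam r y)) = u (r (lam • y))`. `scale_fun`: composition with the linear isomorphism `y ↦ lam • y` which maps `sM lam U` onto `U`.
`scale_close`: for `F' y = F (lam • y)`: `fderiv F' y w = lam * fderiv F (lam • y) w`, so for `x ∈ M`, `y = lam⁻¹ • x`: `fderiv F x w = lam⁻¹ * fderiv F' y w`, `lam⁻¹ ≤ 1`. `scale_close'`: conversely `|F₂' y - F₁' y| < ε / lam ≤ ε` and the derivatives `< lam * (ε / lam)`.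
`scale_closeMetric`: `g' = sg lam⁻¹ gs` has `sg lam g' = gs`, `pull r g' x u v = pull (sr) gs (lam⁻¹ • x) (lam⁻¹ • u) (lam⁻¹ • v)` (`scale_pull`), the same for `g`; `‖lam⁻¹ • u‖ ≤ 1`; derivatives get the factor `lam⁻¹ ≤ 1`. `scale_isMetric'`: the converse of `scale_metric`: from the definitions in the same way (apply the hypotheses at `lam⁻¹ • x`, `lam⁻¹ • u`, ...; or
`scale_metric` for `lam⁻¹`: `sM lam⁻¹ (sM lam M) = M`, `sr lam⁻¹ (sr lam r) = r`).
`scale_dense`: `V j = {u | (fun y => u (lam • y)) ∈ V' j}`; open by `scale_close'` (with `ε / lam`); the set is the right one by `scale_fun`; dense: for `u` take `u'' ∈ R'` close to `fun y => u (lam • y)` and `u' x = u'' (lam⁻¹ • x)`, so `(fun y => u' (lam • y)) = u''`; `scale_close`.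
-/

set_option autoImplicit false
set_option maxSynthPendingDepth 3

open scoped ContDiff InnerProductSpace Topology
open Pool.Agent.Helper59.GT

namespace Pool.Agent.Helper59.GM

variable {n N : ℕ} {M U : Set (E N)} {r : E N → E N} {lam : ℝ}

private theorem scale3_smul_inv (hl : 0 < lam) (y : E N) : lam • lam⁻¹ • y = y := smul_inv_smul₀ hl.ne' y

private theorem scale3_inv_smul (hl : 0 < lam) (y : E N) : lam⁻¹ • lam • y = y := inv_smul_smul₀ hl.ne' y

private theorem scale3_sr (hl : 0 < lam) (u : E N → ℝ) (y : E N) :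
    u (lam • (sr lam r y)) = u (r (lam • y)) := by
  unfold sr
  rw [scale3_smul_inv hl]

private theorem scale3_fderiv (F : E N → ℝ) (y w : E N) :
    fderiv ℝ (fun y => F (lam • y)) y w = lam * fderiv ℝ F (lam • y) w := by
  have h1 : fderiv ℝ (fun y => F (lam • y)) y = lam • fderiv ℝ F (lam • y) := fderiv_comp_smul (f := F) (x := y) lam
  rw [h1]
  rfl

private theorem scale3_close (hl : 1 ≤ lam) {F G : E N → ℝ} {ε : ℝ}
    (h : GMS.Close (sM lam M) (fun y => F (lam • y)) (fun y => G (lam • y)) ε) : GMS.Close M F G ε := by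
  have hl0 : 0 < lam := lt_of_lt_of_le one_pos hl
  intro x hx w hw
  have hx' : lam • lam⁻¹ • x = x := scale3_smul_inv hl0 x
  have hm : lam⁻¹ • x ∈ sM lam M := by
    show lam • lam⁻¹ • x ∈ M
    rw [hx']
    exact hx
  have h1 := h (lam⁻¹ • x) hm w hw
  rw [scale3_fderiv, scale3_fderiv] at h1
  simp only [hx'] at h1
  refine ⟨h1.1, ?_⟩
  have h2 := h1.2
  rw [← mul_sub, abs_mul, abs_of_pos hl0] at h2
  have h3 : |fderiv ℝ G x w - fderiv ℝ F x w| ≤ lam * |fderiv ℝ G x w - fderiv ℝ F x w| := by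
    nlinarith [abs_nonneg (fderiv ℝ G x w - fderiv ℝ F x w)]
  exact lt_of_le_of_lt h3 h2

private theorem scale3_close2 (hl : 1 ≤ lam) {F G : E N → ℝ} {ε : ℝ} (h : GMS.Close M F G (ε / lam)) :
    GMS.Close (sM lam M) (fun y => F (lam • y)) (fun y => G (lam • y)) ε := by
  have hl0 : 0 < lam := lt_of_lt_of_le one_pos hl
  intro y hy w hw
  have h1 := h (lam • y) hy w hw
  rw [scale3_fderiv, scale3_fderiv, ← mul_sub, abs_mul, abs_of_pos hl0]
  have h2 : |G (lam • y) - F (lam • y)| * lam < ε := by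
    have := h1.1
    rwa [lt_div_iff₀ hl0] at this
  have h3 : |fderiv ℝ G (lam • y) w - fderiv ℝ F (lam • y) w| * lam < ε := by
    have := h1.2
    rwa [lt_div_iff₀ hl0] at this
  refine ⟨?_, by linarith⟩
  have h4 : |G (lam • y) - F (lam • y)| ≤ |G (lam • y) - F (lam • y)| * lam := by
    nlinarith [abs_nonneg (G (lam • y) - F (lam • y))]
  exact lt_of_le_of_lt h4 h2

private theorem scale3_closeFun_iff (hl : 0 < lam) (u u' : E N → ℝ) (ε : ℝ) :
    GMS.CloseFun (sM lam M) (sr lam r) (fun y => u (lam • y)) (fun y => u' (lam • y)) ε ↔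
      GMS.Close (sM lam M) (fun y => (fun x => u (r x)) (lam • y)) (fun y => (fun x => u' (r x)) (lam • y)) ε := by
  unfold GMS.CloseFun
  simp only [scale3_sr hl]

theorem scale_fun (hl : 0 < lam) {m : WithTop ℕ∞} (u : E N → ℝ) :
    GMS.IsFun m (sM lam U) (sr lam r) (fun y => u (lam • y)) ↔ GMS.IsFun m U r u := by
  have h1 : (fun y => (fun y => u (lam • y)) (sr lam r y)) = fun y => (fun x => u (r x)) (lam • y) := by
    funext y
    exact scale3_sr hl u y
  unfold GMS.IsFun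
  rw [h1]
  constructor
  · intro h
    have h2 : ContDiff ℝ m (fun x : E N => lam⁻¹ • x) := contDiff_const_smul _
    have h3 := h.comp h2.contDiffOn (s := U) (by
      intro x hx
      show lam • lam⁻¹ • x ∈ U
      rw [scale3_smul_inv hl]
      exact hx)
    refine h3.congr fun x hx => ?_
    show u (r x) = u (r (lam • lam⁻¹ • x))
    rw [scale3_smul_inv hl]
  · intro h
    have h2 : ContDiff ℝ m (fun x : E N => lam • x) := contDiff_const_smul _
    exact h.comp h2.contDiffOn (fun x hx => hx)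

theorem scale_close (hl : 1 ≤ lam) (u u' : E N → ℝ) (ε : ℝ)
    (h : GMS.CloseFun (sM lam M) (sr lam r) (fun y => u (lam • y)) (fun y => u' (lam • y)) ε) :
    GMS.CloseFun M r u u' ε := by
  have hl0 : 0 < lam := lt_of_lt_of_le one_pos hl
  rw [scale3_closeFun_iff hl0] at h
  exact scale3_close hl h

theorem scale_close' (hl : 1 ≤ lam) (u u' : E N → ℝ) (ε : ℝ) (h : GMS.CloseFun M r u u' (ε / lam)) :
    GMS.CloseFun (sM lam M) (sr lam r) (fun y => u (lam • y)) (fun y => u' (lam • y)) ε := by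
  have hl0 : 0 < lam := lt_of_lt_of_le one_pos hl
  rw [scale3_closeFun_iff hl0]
  exact scale3_close2 hl h

theorem scale_closeMetric (hl : 1 ≤ lam) (g gs : E N → E N → E N → ℝ) (ε : ℝ)
    (h : GMS.CloseMetric (sM lam M) (sr lam r) (sg lam g) gs ε) : GMS.CloseMetric M r g (sg lam⁻¹ gs) ε := by
  have hl0 : 0 < lam := lt_of_lt_of_le one_pos hl
  have hsg : sg lam (sg lam⁻¹ gs) = gs := by
    funext y u w
    show gs (lam⁻¹ • lam • y) (lam⁻¹ • lam • u) (lam⁻¹ • lam • w) = gs y u w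
    rw [scale3_inv_smul hl0, scale3_inv_smul hl0, scale3_inv_smul hl0]
  have hnorm : ∀ u : E N, ‖u‖ ≤ 1 → ‖lam⁻¹ • u‖ ≤ 1 := by
    intro u hu
    rw [norm_smul, Real.norm_eq_abs, abs_of_pos (inv_pos.2 hl0)]
    have h1 : lam⁻¹ ≤ 1 := inv_le_one_of_one_le₀ hl
    have h2 : 0 < lam⁻¹ := inv_pos.2 hl0
    nlinarith [norm_nonneg u]
  intro u v hu hv
  apply scale3_close hl
  have h1 := h (lam⁻¹ • u) (lam⁻¹ • v) (hnorm u hu) (hnorm v hv)
  have h2 : (fun x => GMS.pull (sr lam r) (sg lam g) x (lam⁻¹ • u) (lam⁻¹ • v)) =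
      fun y => (fun x => GMS.pull r g x u v) (lam • y) := by
    funext y
    rw [scale_pull hl0, scale3_smul_inv hl0, scale3_smul_inv hl0]
  have h3 : (fun x => GMS.pull (sr lam r) gs x (lam⁻¹ • u) (lam⁻¹ • v)) =
      fun y => (fun x => GMS.pull r (sg lam⁻¹ gs) x u v) (lam • y) := by
    funext y
    conv_lhs => rw [← hsg]
    rw [scale_pull hl0, scale3_smul_inv hl0, scale3_smul_inv hl0]
  rw [h2, h3] at h1
  exact h1

theorem scale_isMetric' (hl : 0 < lam) {m : WithTop ℕ∞} {gs : E N → E N → E N → ℝ}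
    (hg : GMS.IsMetric m (sM lam M) (sM lam U) (sr lam r) gs) : GMS.IsMetric m M U r (sg lam⁻¹ gs) := by
  have h1 := scale_metric (inv_pos.2 hl) hg
  have hM : ∀ A : Set (E N), sM lam⁻¹ (sM lam A) = A := by
    intro A
    ext y
    show lam • lam⁻¹ • y ∈ A ↔ y ∈ A
    rw [scale3_smul_inv hl]
  have hr : sr lam⁻¹ (sr lam r) = r := by
    funext y
    show (lam⁻¹)⁻¹ • (lam⁻¹ • r (lam • lam⁻¹ • y)) = r y
    rw [inv_inv, scale3_smul_inv hl, scale3_smul_inv hl]
  rw [hM, hM, hr] at h1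
  exact h1

theorem scale_dense (hl : 1 ≤ lam) (R : Set (E N → ℝ)) (h : GMS.DenseGdelta (sM lam M) (sM lam U) (sr lam r) R) :
    GMS.DenseGdelta M U r {u | (fun y => u (lam • y)) ∈ R} := by
  have hl0 : 0 < lam := lt_of_lt_of_le one_pos hl
  obtain ⟨⟨V', hV', hR⟩, hd⟩ := h
  refine ⟨⟨fun j => {u | (fun y => u (lam • y)) ∈ V' j}, ?_, ?_⟩, ?_⟩
  · intro j u hu hfu
    obtain ⟨ε, hε, hε2⟩ := hV' j _ hu ((scale_fun hl0 u).2 hfu)
    refine ⟨ε / lam, div_pos hε hl0, fun u' hfu' hc => ?_⟩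
    exact hε2 _ ((scale_fun hl0 u').2 hfu') (scale_close' hl u u' ε hc)
  · ext u
    constructor
    · intro hu
      have hu1 : (fun y => u (lam • y)) ∈ R := hu
      rw [hR] at hu1
      exact ⟨(scale_fun hl0 u).1 hu1.1, fun j => hu1.2 j⟩
    · intro hu
      show (fun y => u (lam • y)) ∈ R
      rw [hR]
      exact ⟨(scale_fun hl0 u).2 hu.1, fun j => hu.2 j⟩
  · intro u hfu ε hε
    obtain ⟨u2, hu2, hc⟩ := hd _ ((scale_fun hl0 u).2 hfu) ε hε
    have h1 : (fun y => (fun x => u2 (lam⁻¹ • x)) (lam • y)) = u2 := by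
      funext y
      show u2 (lam⁻¹ • lam • y) = u2 y
      rw [scale3_inv_smul hl0]
    refine ⟨fun x => u2 (lam⁻¹ • x), ?_, ?_⟩
    · show (fun y => (fun x => u2 (lam⁻¹ • x)) (lam • y)) ∈ R
      rw [h1]
      exact hu2
    · apply scale_close hl
      rw [h1]
      exact hc

end Pool.Agent.Helper59.GM
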