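import Pool.Agent.Helper59.GM.MainSmall
import Pool.Agent.Helper59.GM.Scale2
import Pool.Agent.Helper59.GM.Scale3

/-!
# GM-58 MainAll: the theorem for all closed manifolds

Proof. Scale `M` into the ball of radius `1 / 2` and apply `main_small`.
-/

set_option autoImplicit false
set_option maxSynthPendingDepth 3

open scoped ContDiff InnerProductSpace Topology
open Pool.Agent.Helper59.GT

namespace Pool.Agent.Helper59.GM

private theorem mainAll_sg {N : ℕ} {lam : ℝ} (hl : 0 < lam) (gs : E N → E N → E N → ℝ) : sg lam (sg lam⁻¹ gs) = gs := by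
  funext y u w
  simp only [sg, smul_smul]
  rw [inv_mul_cancel₀ hl.ne', one_smul, one_smul, one_smul]

theorem main_all {n N : ℕ} (hn : 3 ≤ n) {M U : Set (E N)} {r : E N → E N} (hM : GMS.IsClosedManifold n M U r)
    (g : E N → E N → E N → ℝ) (hg : GMS.IsMetric ∞ M U r g) :
    (∀ ε : ℝ, 0 < ε → ∃ u : E N → ℝ, GMS.IsFun ∞ U r u ∧ GMS.CloseFun M r 0 u ε ∧ ∃ (c : ℝ → E N) (P : ℝ), 0 < P ∧
      (∀ t, c (t + P) = c t) ∧ GMS.IsGeodesic M r (GMS.conf u g) c ∧ GMS.UnitSpeed (GMS.conf u g) c ∧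
        GMS.EpsDense M r (GMS.conf u g) c ε) ∧
    (∃ R : Set (E N → ℝ), GMS.DenseGdelta M U r R ∧ ∀ u ∈ R, GMS.UniqueGeodesics M r (GMS.conf u g) ∧
      GMS.Transitive M r (GMS.conf u g)) ∧
    ∀ ε : ℝ, 0 < ε → ∃ g' : E N → E N → E N → ℝ, GMS.IsMetric 1 M U r g' ∧ GMS.CloseMetric M r g g' ε ∧
      GMS.UniqueGeodesics M r g' ∧ GMS.Transitive M r g' := by
  obtain ⟨C, hC⟩ := hM.compact.isBounded.exists_norm_le
  obtain ⟨lam, hlam⟩ : ∃ lam : ℝ, lam = 2 * (|C| + 1) := ⟨_, rfl⟩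
  have hC0 : 0 ≤ |C| := abs_nonneg C
  have hl1 : 1 ≤ lam := by rw [hlam]; linarith
  have hl : 0 < lam := by linarith
  have hs : ∀ y ∈ sM lam M, ‖y‖ < 1 / 2 := by
    intro y hy
    have h1 := hC _ hy
    rw [norm_smul, Real.norm_eq_abs, abs_of_pos hl] at h1
    have h2 : C ≤ |C| := le_abs_self C
    by_contra hcon
    push Not at hcon
    have h3 : lam * (1 / 2) ≤ lam * ‖y‖ := by gcongr
    rw [hlam] at h3
    rw [hlam] at h1
    linarith
  obtain ⟨h1, h2, h3⟩ := main_small hn (scale_manifold hl hM) hs (sg lam g) (scale_metric hl hg)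
  refine ⟨?_, ?_, ?_⟩
  · intro ε hε
    obtain ⟨u, hu, hcl, c, P, hP, hcP, hc, hus, hd⟩ := h1 (ε / lam) (by positivity)
    have hle : ε / lam ≤ ε := div_le_self hε.le hl1
    have hu1 : (fun y => (fun x => u (lam⁻¹ • x)) (lam • y)) = u := by
      funext y
      simp only [smul_smul]
      rw [inv_mul_cancel₀ hl.ne', one_smul]
    have hcf : GMS.conf u (sg lam g) = sg lam (GMS.conf (fun x => u (lam⁻¹ • x)) g) := by
      funext y v w
      simp only [GMS.conf, sg, smul_smul]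
      rw [inv_mul_cancel₀ hl.ne', one_smul]
    rw [hcf] at hc hus hd
    refine ⟨fun x => u (lam⁻¹ • x), (scale_fun hl _).mp (by rw [hu1]; exact hu), scale_close hl1 0 _ ε ?_,
      fun t => lam • c t, P, hP, fun t => by simp only [hcP], (scale_geodesic hl _ c).mp hc,
      (scale_unit hl _ c).mp hus, scale_eps hl _ c ε hd⟩
    rw [hu1]
    intro x hx w hw
    exact ⟨(hcl x hx w hw).1.trans_le hle, (hcl x hx w hw).2.trans_le hle⟩
  · obtain ⟨R, hR, hR2⟩ := h2
    refine ⟨_, scale_dense hl1 R hR, fun u hu => ?_⟩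
    have h4 := hR2 _ hu
    exact ⟨scale_unique hl _ h4.1, scale_trans hl _ h4.2⟩
  · intro ε hε
    obtain ⟨gs, hm, hc, hu, ht⟩ := h3 ε hε
    refine ⟨sg lam⁻¹ gs, scale_isMetric' hl hm, scale_closeMetric hl1 g gs ε hc, scale_unique hl _ ?_, scale_trans hl _ ?_⟩
    · rw [mainAll_sg hl]
      exact hu
    · rw [mainAll_sg hl]
      exact ht

end Pool.Agent.Helper59.GM
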