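import Pool.Agent.Helper59.GM.StmtM
import Pool.Agent.Helper59.GM.Defs

/-!
# GM-46 SubEx: from the data of the statement to the working data

Proof. `W₀ = U₀ ∩ ball 0 (1/2)` is an open set containing the compact `M`. Choose smooth cutoff functions (e.g. `exists_contDiff_tsupport_subset`-type lemmas, `exists_contMDiff_..`/`exists_smooth_one_nhds_of_subset_interior`; in Mathlib: `exists_contDiff_...` or `IsCompact.exists_...`): `χ₁` smooth with compact support in `W₀`, `χ₁ = 1` on an open set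
`W ⊇ M`, `W ⊆ W₀`; and `χ` smooth, `0 ≤ χ ≤ 1`, with compact support contained in `W` (`tsupport χ ⊆ W`), `χ = 1` on an open set `U ⊇ M`. (Two nested neighbourhoods of a compact set; a smooth Urysohn function for `M` and the complement of `W`, equal to `1` near `M`.)
`r x = x + χ₁ x • (r₀ x - x)`: smooth everywhere (`r₀` is smooth on the open set `U₀ ⊇ tsupport χ₁`; outside of `tsupport χ₁`, `r x = x` near the point), and `r = r₀` on `W`. The other properties are clear: on `W`, `r x = r₀ x ∈ M`, `‖x‖ < 1/2`; for `x ∈ M ⊆ W` (open) `fderiv ℝ r x = fderiv ℝ r₀ x`.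
-/

set_option autoImplicit false
set_option maxSynthPendingDepth 3

open scoped ContDiff InnerProductSpace Topology Manifold
open Pool.Agent.Helper59.GT

namespace Pool.Agent.Helper59.GM

private theorem subEx_cut {N : ℕ} {K W : Set (E N)} (hK : IsCompact K) (hW : IsOpen W) (hKW : K ⊆ W) :
    ∃ (χ : E N → ℝ) (U : Set (E N)), ContDiff ℝ ∞ χ ∧ HasCompactSupport χ ∧ tsupport χ ⊆ W ∧
      IsOpen U ∧ K ⊆ U ∧ (∀ x ∈ U, χ x = 1) ∧ ∀ x, 0 ≤ χ x ∧ χ x ≤ 1 := by
  obtain ⟨L, hL, hKL, hLW⟩ := exists_compact_between hK hW hKW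
  obtain ⟨f, hf1, hf0, hf⟩ := exists_contMDiffMap_one_nhds_of_subset_interior 𝓘(ℝ, E N)
    (n := (⊤ : ℕ∞)) hK.isClosed hKL
  obtain ⟨U, hU, hKU, hU1⟩ := mem_nhdsSet_iff_exists.1 hf1
  have hsupp : tsupport (fun x => f x) ⊆ L := by
    refine closure_minimal ?_ hL.isClosed
    intro x hx
    by_contra hxL
    exact hx (hf0 x hxL)
  exact ⟨fun x => f x, U, f.contMDiff.contDiff, HasCompactSupport.of_support_subset_isCompact hL
    (subset_closure.trans hsupp), hsupp.trans hLW, hU, hKU, fun x hx => hU1 hx, fun x => hf x⟩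

theorem exists_sub {n N : ℕ} {M U₀ : Set (E N)} {r₀ : E N → E N} (hM : GMS.IsClosedManifold n M U₀ r₀)
    (hs : ∀ x ∈ M, ‖x‖ < 1 / 2) :
    ∃ (U W : Set (E N)) (r : E N → E N) (χ : E N → ℝ), Sub n M U r χ ∧ IsOpen W ∧ tsupport χ ⊆ W ∧ W ⊆ U₀ ∧
      ∀ x ∈ W, r x = r₀ x := by
  have hW₀ : IsOpen (U₀ ∩ Metric.ball (0 : E N) (1 / 2)) := hM.isOpen.inter Metric.isOpen_ball
  have hMW₀ : M ⊆ U₀ ∩ Metric.ball (0 : E N) (1 / 2) := fun x hx =>
    ⟨hM.sub hx, by rw [mem_ball_zero_iff]; exact hs x hx⟩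
  obtain ⟨χ₁, W, h1s, -, h1t, hW, hMW, h1one, -⟩ := subEx_cut hM.compact hW₀ hMW₀
  have hWsub : W ⊆ U₀ ∩ Metric.ball (0 : E N) (1 / 2) := by
    intro x hx
    refine h1t (subset_closure ?_)
    rw [Function.mem_support, h1one x hx]
    exact one_ne_zero
  obtain ⟨χ, U, hχs, hχc, hχt, hU, hMU, hχ1, hχb⟩ := subEx_cut hM.compact hW hMW
  obtain ⟨r, hr⟩ : ∃ r : E N → E N, r = fun x => x + χ₁ x • (r₀ x - x) := ⟨_, rfl⟩
  have hrW : ∀ x ∈ W, r x = r₀ x := by
    intro x hx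
    rw [hr]
    beta_reduce
    rw [h1one x hx, one_smul]
    abel
  have hrs : ContDiff ℝ ∞ r := by
    rw [contDiff_iff_contDiffAt]
    intro x
    by_cases hx : x ∈ U₀
    · have h2 : ContDiffAt ℝ ∞ r₀ x := hM.smooth.contDiffAt (hM.isOpen.mem_nhds hx)
      rw [hr]
      exact contDiffAt_id.add (h1s.contDiffAt.smul (h2.sub contDiffAt_id))
    · have h2 : x ∉ tsupport χ₁ := fun h3 => hx (h1t h3).1
      have h3 : r =ᶠ[𝓝 x] fun y => y := by
        filter_upwards [(isClosed_tsupport χ₁).isOpen_compl.mem_nhds h2] with y hy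
        have h4 : χ₁ y = 0 := image_eq_zero_of_notMem_tsupport hy
        rw [hr]
        beta_reduce
        rw [h4, zero_smul, add_zero]
      exact contDiffAt_id.congr_of_eventuallyEq h3
  refine ⟨U, W, r, χ, ⟨hM.compact, hM.connected.isPreconnected, hM.connected.nonempty, hU, hMU, hrs,
    fun x hx => ?_, fun x hx => ?_, hχs, hχc, hχ1, fun x hx => ?_, hχb⟩, hW, hχt,
    fun x hx => (hWsub hx).1, hrW⟩
  · rw [hrW x (hMW hx)]
    exact hM.fixed x hx
  · have h2 : r =ᶠ[𝓝 x] r₀ := by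
      filter_upwards [hW.mem_nhds (hMW hx)] with y hy
      exact hrW y hy
    rw [h2.fderiv_eq]
    exact hM.rank x hx
  · have h2 : x ∈ W := hχt (subset_closure hx)
    rw [hrW x h2]
    refine ⟨hM.maps x (hWsub h2).1, ?_⟩
    have h3 := (hWsub h2).2
    rwa [mem_ball_zero_iff] at h3

end Pool.Agent.Helper59.GM
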