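import Mathlib

/-!
# Project GM (MP_af5028_an): the definitions of the statement

`E N` is `ℝ ^ N`. A closed connected manifold `M` of dimension `n` is given as a subset of some `ℝ ^ N` together with a smooth retraction `r` of an open set `U` onto `M` (by the theorems
of Whitney on embeddings and on tubular neighbourhoods every closed manifold has such a model). `fderiv ℝ r x` is a projection onto the tangent space `T_x M` if `x ∈ M`.
-/

set_option autoImplicit false

open scoped ContDiff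

namespace Pool.Agent.Helper59.GMS

/-- The Euclidean space `ℝ ^ N`. -/
abbrev E (N : ℕ) := EuclideanSpace ℝ (Fin N)

/-- `M` is a closed connected manifold of dimension `n` in `ℝ ^ N`, `r` is a smooth retraction of the open set `U` onto `M`. -/
structure IsClosedManifold {N : ℕ} (n : ℕ) (M U : Set (E N)) (r : E N → E N) : Prop where
  compact : IsCompact M
  connected : IsConnected M
  isOpen : IsOpen U
  sub : M ⊆ U
  smooth : ContDiffOn ℝ ∞ r U
  maps : ∀ x ∈ U, r x ∈ M
  fixed : ∀ x ∈ M, r x = x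
  rank : ∀ x ∈ M, Module.finrank ℝ (LinearMap.range (fderiv ℝ r x : E N →ₗ[ℝ] E N)) = n

/-- `v` is a tangent vector of `M` at the point `x` of `M`. -/
def Tangent {N : ℕ} (r : E N → E N) (x v : E N) : Prop := fderiv ℝ r x v = v

/-- The pull-back by `r` of the metric `g` of `M`. -/
noncomputable def pull {N : ℕ} (r : E N → E N) (g : E N → E N → E N → ℝ) (x u w : E N) : ℝ :=
  g (r x) (fderiv ℝ r x u) (fderiv ℝ r x w)

/-- `g` is a Riemannian metric of class `C ^ m` on `M`: for `x ∈ M`, `g x` is an inner product on the tangent space at `x`. (Only these values of `g` matter.) -/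
structure IsMetric {N : ℕ} (m : WithTop ℕ∞) (M U : Set (E N)) (r : E N → E N) (g : E N → E N → E N → ℝ) : Prop where
  add : ∀ x ∈ M, ∀ u v w, Tangent r x u → Tangent r x v → Tangent r x w → g x (u + v) w = g x u w + g x v w
  smul : ∀ x ∈ M, ∀ (a : ℝ) (u w : E N), Tangent r x u → Tangent r x w → g x (a • u) w = a * g x u w
  symm : ∀ x ∈ M, ∀ u w, Tangent r x u → Tangent r x w → g x u w = g x w u
  pos : ∀ x ∈ M, ∀ u, Tangent r x u → u ≠ 0 → 0 < g x u u
  smooth : ∀ u w, ContDiffOn ℝ m (fun x => pull r g x u w) U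

/-- Geodesics of `g` in `M` (parametrised proportionally to arc length): with `G = pull r g`, `d/dt G (c) (c', w) = (1 / 2) D_w G (c) (c', c')` for every constant vector `w`,
the Euler-Lagrange equation of the energy of curves in `M`. -/
def IsGeodesic {N : ℕ} (M : Set (E N)) (r : E N → E N) (g : E N → E N → E N → ℝ) (c : ℝ → E N) : Prop :=
  (∀ t, c t ∈ M) ∧ Differentiable ℝ c ∧ ∀ t w, HasDerivAt (fun s => pull r g (c s) (deriv c s) w)
    ((1 / 2) * fderiv ℝ (fun x => pull r g x (deriv c t) (deriv c t)) (c t) w) t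

/-- `c` has unit speed. -/
def UnitSpeed {N : ℕ} (g : E N → E N → E N → ℝ) (c : ℝ → E N) : Prop :=
  ∀ t, g (c t) (deriv c t) (deriv c t) = 1

/-- The tangent vectors of `c` are `ε`-dense in the unit tangent bundle of `M`. -/
def EpsDense {N : ℕ} (M : Set (E N)) (r : E N → E N) (g : E N → E N → E N → ℝ) (c : ℝ → E N) (ε : ℝ) : Prop :=
  ∀ x ∈ M, ∀ v, Tangent r x v → g x v v = 1 → ∃ t, ‖c t - x‖ < ε ∧ ‖deriv c t - v‖ < ε

/-- The geodesic flow is transitive: some unit speed geodesic has a dense set of tangent vectors. -/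
def Transitive {N : ℕ} (M : Set (E N)) (r : E N → E N) (g : E N → E N → E N → ℝ) : Prop :=
  ∃ c, IsGeodesic M r g c ∧ UnitSpeed g c ∧ ∀ ε, 0 < ε → EpsDense M r g c ε

/-- Every unit tangent vector is the initial vector of exactly one unit speed geodesic. -/
def UniqueGeodesics {N : ℕ} (M : Set (E N)) (r : E N → E N) (g : E N → E N → E N → ℝ) : Prop :=
  ∀ x ∈ M, ∀ v, Tangent r x v → g x v v = 1 →
    ∃! c, IsGeodesic M r g c ∧ UnitSpeed g c ∧ c 0 = x ∧ deriv c 0 = v

/-- The conformal metric `exp (2 u) g`. -/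
noncomputable def conf {N : ℕ} (u : E N → ℝ) (g : E N → E N → E N → ℝ) : E N → E N → E N → ℝ :=
  fun x v w => Real.exp (2 * u x) * g x v w

/-- `u` is a function of class `C ^ m` on `M`. (Only the values of `u` on `M` matter.) -/
def IsFun {N : ℕ} (m : WithTop ℕ∞) (U : Set (E N)) (r : E N → E N) (u : E N → ℝ) : Prop :=
  ContDiffOn ℝ m (fun x => u (r x)) U

/-- `|f' - f| < ε` and `|D_w f' - D_w f| < ε` on `M` for all `w` with `‖w‖ ≤ 1`. -/
def Close {N : ℕ} (M : Set (E N)) (f f' : E N → ℝ) (ε : ℝ) : Prop :=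
  ∀ x ∈ M, ∀ w, ‖w‖ ≤ 1 → |f' x - f x| < ε ∧ |fderiv ℝ f' x w - fderiv ℝ f x w| < ε

/-- The functions `u` and `u'` on `M` are `ε`-close in the `C ^ 1` norm. -/
def CloseFun {N : ℕ} (M : Set (E N)) (r : E N → E N) (u u' : E N → ℝ) (ε : ℝ) : Prop :=
  Close M (fun x => u (r x)) (fun x => u' (r x)) ε

/-- The metrics `g` and `g'` on `M` are `ε`-close in the `C ^ 1` norm. -/
def CloseMetric {N : ℕ} (M : Set (E N)) (r : E N → E N) (g g' : E N → E N → E N → ℝ) (ε : ℝ) : Prop :=
  ∀ u v, ‖u‖ ≤ 1 → ‖v‖ ≤ 1 → Close M (fun x => pull r g x u v) (fun x => pull r g' x u v) ε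

/-- `R` is a dense `G_δ` set in `C ^ 1 (M)` with the `C ^ 1` topology: `R` is the intersection of `C ^ 1 (M)` with the sets `V j`, which are open in `C ^ 1 (M)`, and `R` is dense. -/
def DenseGdelta {N : ℕ} (M U : Set (E N)) (r : E N → E N) (R : Set (E N → ℝ)) : Prop :=
  (∃ V : ℕ → Set (E N → ℝ), (∀ j, ∀ u ∈ V j, IsFun 1 U r u →
    ∃ ε, 0 < ε ∧ ∀ u', IsFun 1 U r u' → CloseFun M r u u' ε → u' ∈ V j) ∧
    R = {u | IsFun 1 U r u ∧ ∀ j, u ∈ V j}) ∧
  ∀ u, IsFun 1 U r u → ∀ ε, 0 < ε → ∃ u' ∈ R, CloseFun M r u u' ε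

end Pool.Agent.Helper59.GMS
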