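import Pool.Agent.Helper59.GM.GeoBridge
import Pool.Agent.Helper59.GM.HatEx
import Pool.Agent.Helper59.GM.ExtLem
import Pool.Agent.Helper59.GM.StmtM
import Pool.Agent.Helper59.GT.ConfLem

/-!
# GM-52 Transfer: from the working notions to the notions of the statement

Let `G` be a hat metric with `G x u w = pull r g x u w + ⟪u - P u, w - P w⟫` on `U` (`hG`), `û = ext r χ u` of class `C ^ 1`.

Proof. For `x ∈ U`, `û x = u (r x)` (`ext_eq`), so `conf û G x v w = exp (2 u (r x)) pull r g x v w + exp (2 û x) ⟪v - P v, w - P w⟫ = pull r (conf u g) x v w + a x ⟪...⟫`, `a = exp (2 û)`. `mgeo_iff`: `geo_bridge` for the metric `conf û G` (differentiable: `isMetric_conf`) and `B = pull r (conf u g)`; unit speed: `unit_eq` (`c' t` is tangent by `tan_curve`).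
`unit_eq`: for `x ∈ M` and tangent `v`: `r x = x`, `P v = v`, so `pull r (conf u g) x v v = conf u g x v v` and the normal term vanishes. `eps_iff`: `Tan` and `GMS.Tangent` are the same, `unit_eq`. `trans_of`, `unique_of`: from these (the curves of `MGeo` are the unit speed geodesics).
-/

set_option autoImplicit false
set_option maxSynthPendingDepth 3

open scoped ContDiff InnerProductSpace Topology
open Pool.Agent.Helper59.GT

namespace Pool.Agent.Helper59.GM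

variable {n N : ℕ} {M U W : Set (E N)} {r : E N → E N} {χ : E N → ℝ}

private theorem transfer_conf (h : Sub n M U r χ) {g : E N → E N → E N → ℝ} {G : E N → Bil N}
    (hG : ∀ x ∈ U, ∀ u w, G x u w = GMS.pull r g x u w + ⟪u - fderiv ℝ r x u, w - fderiv ℝ r x w⟫_ℝ) (u : E N → ℝ)
    {x : E N} (hx : x ∈ U) (v w : E N) : conf (ext r χ u) G x v w = GMS.pull r (GMS.conf u g) x v w +
      Real.exp (2 * ext r χ u x) * ⟪v - fderiv ℝ r x v, w - fderiv ℝ r x w⟫_ℝ := by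
  show Real.exp (2 * ext r χ u x) * G x v w =
    Real.exp (2 * u (r x)) * g (r x) (fderiv ℝ r x v) (fderiv ℝ r x w) + _
  rw [hG x hx, ext_eq h u hx]
  simp only [GMS.pull]
  ring

theorem unit_eq (h : Sub n M U r χ) {g : E N → E N → E N → ℝ} {G : E N → Bil N}
    (hG : ∀ x ∈ U, ∀ u w, G x u w = GMS.pull r g x u w + ⟪u - fderiv ℝ r x u, w - fderiv ℝ r x w⟫_ℝ) (u : E N → ℝ)
    {x : E N} (hx : x ∈ M) {v : E N} (hv : Tan r x v) : conf (ext r χ u) G x v v = GMS.conf u g x v v := by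
  have h1 : fderiv ℝ r x v = v := hv
  rw [transfer_conf h hG u (h.sub hx)]
  simp only [GMS.pull, h1, h.fixed x hx, sub_self, inner_zero_left, mul_zero, add_zero]

theorem mgeo_iff (h : Sub n M U r χ) {g : E N → E N → E N → ℝ} {G : E N → Bil N} (hGm : IsMetric ∞ G)
    (hG : ∀ x ∈ U, ∀ u w, G x u w = GMS.pull r g x u w + ⟪u - fderiv ℝ r x u, w - fderiv ℝ r x w⟫_ℝ) (u : E N → ℝ)
    (hu : ContDiff ℝ 1 (ext r χ u)) (c : ℝ → E N) :
    MGeo M (conf (ext r χ u) G) c ↔ GMS.IsGeodesic M r (GMS.conf u g) c ∧ GMS.UnitSpeed (GMS.conf u g) c := by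
  have hG1 : IsMetric 1 G :=
    ⟨hGm.smooth.of_le (by exact_mod_cast le_top), hGm.symm, hGm.pos, hGm.per⟩
  have hm : IsMetric 1 (conf (ext r χ u) G) := isMetric_conf hG1 hu (ext_per u)
  have hmd : Differentiable ℝ (conf (ext r χ u) G) := hm.smooth.differentiable (by norm_num)
  have had : Differentiable ℝ fun x => Real.exp (2 * ext r χ u x) :=
    ((hu.differentiable (by norm_num)).const_mul 2).exp
  have hb : ∀ (hc : ∀ t, c t ∈ M), IsGeodesic (conf (ext r χ u) G) c ↔ Differentiable ℝ c ∧ ∀ t w,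
      HasDerivAt (fun s => GMS.pull r (GMS.conf u g) (c s) (deriv c s) w)
      ((1 / 2) * fderiv ℝ (fun x => GMS.pull r (GMS.conf u g) x (deriv c t) (deriv c t)) (c t) w) t :=
    fun hc => geo_bridge h hmd (GMS.pull r (GMS.conf u g)) (fun x => Real.exp (2 * ext r χ u x)) had
      (fun x hx v w => transfer_conf h hG u hx v w) c hc
  constructor
  · intro hc
    have h1 := (hb hc.mem).1 hc.geo
    refine ⟨⟨hc.mem, h1.1, h1.2⟩, fun t => ?_⟩
    rw [← unit_eq h hG u (hc.mem t) (h.tan_curve hc.mem (h1.1 t))]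
    exact hc.unit t
  · rintro ⟨⟨h1, h2, h3⟩, h4⟩
    refine ⟨(hb h1).2 ⟨h2, h3⟩, fun t => ?_, h1⟩
    rw [unit_eq h hG u (h1 t) (h.tan_curve h1 (h2 t))]
    exact h4 t

theorem eps_iff (h : Sub n M U r χ) {g : E N → E N → E N → ℝ} {G : E N → Bil N}
    (hG : ∀ x ∈ U, ∀ u w, G x u w = GMS.pull r g x u w + ⟪u - fderiv ℝ r x u, w - fderiv ℝ r x w⟫_ℝ) (u : E N → ℝ)
    (c : ℝ → E N) (ε : ℝ) :
    EpsM M r (conf (ext r χ u) G) c ε Set.univ ↔ GMS.EpsDense M r (GMS.conf u g) c ε := by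
  constructor
  · intro h1 x hx v hv h2
    obtain ⟨t, -, h3⟩ := h1 x hx v hv (by rw [unit_eq h hG u hx hv]; exact h2)
    exact ⟨t, h3⟩
  · intro h1 x hx v hv h2
    obtain ⟨t, h3⟩ := h1 x hx v hv (by rw [← unit_eq h hG u hx hv]; exact h2)
    exact ⟨t, Set.mem_univ t, h3⟩

theorem trans_of (h : Sub n M U r χ) {g : E N → E N → E N → ℝ} {G : E N → Bil N} (hGm : IsMetric ∞ G)
    (hG : ∀ x ∈ U, ∀ u w, G x u w = GMS.pull r g x u w + ⟪u - fderiv ℝ r x u, w - fderiv ℝ r x w⟫_ℝ) (u : E N → ℝ)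
    (hu : ContDiff ℝ 1 (ext r χ u)) (ht : TransM M r (conf (ext r χ u) G)) :
    GMS.Transitive M r (GMS.conf u g) := by
  obtain ⟨c, hc, he⟩ := ht
  obtain ⟨h1, h2⟩ := (mgeo_iff h hGm hG u hu c).1 hc
  exact ⟨c, h1, h2, fun ε hε => (eps_iff h hG u c ε).1 (he ε hε)⟩

theorem unique_of (h : Sub n M U r χ) {g : E N → E N → E N → ℝ} {G : E N → Bil N} (hGm : IsMetric ∞ G)
    (hG : ∀ x ∈ U, ∀ u w, G x u w = GMS.pull r g x u w + ⟪u - fderiv ℝ r x u, w - fderiv ℝ r x w⟫_ℝ) (u : E N → ℝ)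
    (hu : ContDiff ℝ 1 (ext r χ u)) (ht : UniqueM M r (conf (ext r χ u) G)) :
    GMS.UniqueGeodesics M r (GMS.conf u g) := by
  intro x hx v hv h2
  obtain ⟨c, ⟨hc, h3, h4⟩, hun⟩ := ht x hx v hv (by rw [unit_eq h hG u hx hv]; exact h2)
  obtain ⟨h5, h6⟩ := (mgeo_iff h hGm hG u hu c).1 hc
  refine ⟨c, ⟨h5, h6, h3, h4⟩, ?_⟩
  rintro d ⟨h7, h8, h9, h10⟩
  exact hun d ⟨(mgeo_iff h hGm hG u hu d).2 ⟨h7, h8⟩, h9, h10⟩

end Pool.Agent.Helper59.GM
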