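import Pool.Agent.Helper59.GM.FinalM
import Pool.Agent.Helper59.GM.ClosingM
import Pool.Agent.Helper59.GM.CloseMet
import Pool.Agent.Helper59.GM.Transfer
import Pool.Agent.Helper59.GM.GdeltaM
import Pool.Agent.Helper59.GM.SubEx

/-!
# GM-54 MainSmall: the theorem for manifolds in the ball of radius `1 / 2`

Proof. Assembly. `U, W, r, χ` from `exists_sub`, `G` from `exists_hat` (`local_isMetric`). (1) `closingM`, (2) `genericM`, `denseGdelta_of`, (3) from density in (2) near `0` and `close_metric`.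
-/

set_option autoImplicit false
set_option maxSynthPendingDepth 3

open scoped ContDiff InnerProductSpace Topology
open Pool.Agent.Helper59.GT

namespace Pool.Agent.Helper59.GM

private theorem mainSmall_isMetric {N : ℕ} {M U₀ : Set (E N)} {r₀ : E N → E N} {g : E N → E N → E N → ℝ}
    (hsm : ContDiffOn ℝ ∞ r₀ U₀) (hg : GMS.IsMetric ∞ M U₀ r₀ g) {u : E N → ℝ} (hu : ContDiff ℝ 1 u) :
    GMS.IsMetric 1 M U₀ r₀ (GMS.conf u g) := by
  refine ⟨?_, ?_, ?_, ?_, ?_⟩
  · intro x hx a b c ha hb hc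
    simp only [GMS.conf]
    rw [hg.add x hx a b c ha hb hc]
    ring
  · intro x hx s a b ha hb
    simp only [GMS.conf]
    rw [hg.smul x hx s a b ha hb]
    ring
  · intro x hx a b ha hb
    simp only [GMS.conf]
    rw [hg.symm x hx a b ha hb]
  · intro x hx a ha h0
    simp only [GMS.conf]
    exact mul_pos (Real.exp_pos _) (hg.pos x hx a ha h0)
  · intro a b
    have h1 : (fun x => GMS.pull r₀ (GMS.conf u g) x a b) =
        fun x => Real.exp (2 * u (r₀ x)) * GMS.pull r₀ g x a b := rfl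
    rw [h1]
    have h2 : ContDiffOn ℝ 1 (fun x => u (r₀ x)) U₀ := hu.comp_contDiffOn (hsm.of_le (by exact_mod_cast le_top))
    exact (Real.contDiff_exp.comp_contDiffOn (contDiffOn_const.mul h2)).mul
      ((hg.smooth a b).of_le (by exact_mod_cast le_top))

private theorem mainSmall_near {n N : ℕ} {M U : Set (E N)} {r : E N → E N} {χ : E N → ℝ} (h : Sub n M U r χ)
    {u : E N → ℝ} (hext : ext r χ u = u) {x : E N} (hx : x ∈ M) : (fun y => u (r y)) =ᶠ[𝓝 x] u := by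
  filter_upwards [h.isOpen.mem_nhds (h.sub hx)] with y hy
  rw [← ext_eq h u hy, hext]

theorem main_small {n N : ℕ} (hn : 3 ≤ n) {M U₀ : Set (E N)} {r₀ : E N → E N} (hM : GMS.IsClosedManifold n M U₀ r₀)
    (hs : ∀ x ∈ M, ‖x‖ < 1 / 2) (g : E N → E N → E N → ℝ) (hg : GMS.IsMetric ∞ M U₀ r₀ g) :
    (∀ ε : ℝ, 0 < ε → ∃ u : E N → ℝ, GMS.IsFun ∞ U₀ r₀ u ∧ GMS.CloseFun M r₀ 0 u ε ∧ ∃ (c : ℝ → E N) (P : ℝ), 0 < P ∧
      (∀ t, c (t + P) = c t) ∧ GMS.IsGeodesic M r₀ (GMS.conf u g) c ∧ GMS.UnitSpeed (GMS.conf u g) c ∧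
        GMS.EpsDense M r₀ (GMS.conf u g) c ε) ∧
    (∃ R : Set (E N → ℝ), GMS.DenseGdelta M U₀ r₀ R ∧ ∀ u ∈ R, GMS.UniqueGeodesics M r₀ (GMS.conf u g) ∧
      GMS.Transitive M r₀ (GMS.conf u g)) ∧
    ∀ ε : ℝ, 0 < ε → ∃ g' : E N → E N → E N → ℝ, GMS.IsMetric 1 M U₀ r₀ g' ∧ GMS.CloseMetric M r₀ g g' ε ∧
      GMS.UniqueGeodesics M r₀ g' ∧ GMS.Transitive M r₀ g' := by
  obtain ⟨U, W, r, χ, h, hW, hχ, hWU, hr⟩ := exists_sub hM hs
  have hUW : U ⊆ W := by
    intro x hx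
    apply hχ
    apply subset_tsupport
    rw [Function.mem_support, h.chi_one x hx]
    norm_num
  have hMW : M ⊆ W := h.sub.trans hUW
  have hgW : GMS.IsMetric ∞ M W r g := local_isMetric hW hMW hWU hr hg
  obtain ⟨G, hG, hGU⟩ := exists_hat h hW hχ g hgW
  obtain ⟨R₀, hR1, hR2, hR3⟩ := genericM h hn hG
  refine ⟨?_, ?_, ?_⟩
  · intro ε hε
    obtain ⟨u, hu, hext, hsm, c, P, hP, hcP, hc, hd⟩ := closingM hn h hG ε hε
    have hu1 : ContDiff ℝ 1 (ext r χ u) := by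
      rw [hext]
      exact hu.of_le (by exact_mod_cast le_top)
    have hc' : MGeo M (conf (ext r χ u) G) c := by
      rw [hext]
      exact hc
    have hd' : EpsM M r (conf (ext r χ u) G) c ε Set.univ := by
      rw [hext]
      exact hd
    obtain ⟨h1, h2⟩ := (mgeo_iff h hG.metric hGU u hu1 c).mp hc'
    refine ⟨u, hu.comp_contDiffOn hM.smooth, ?_, c, P, hP, hcP, (local_geodesic hW hMW hr _ _).mp h1, h2,
      (local_eps hW hMW hr _ _ _).mp ((eps_iff h hGU u c ε).mp hd')⟩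
    rw [← local_closeFun hW hMW hr]
    intro x hx w hw
    have h3 := mainSmall_near h hext hx
    have h4 : (fun y => (0 : E N → ℝ) (r y)) = fun _ => (0 : ℝ) := rfl
    have h5 : fderiv ℝ (fun y => (0 : E N → ℝ) (r y)) x w = 0 := by
      rw [h4]
      simp
    rw [h3.fderiv_eq, h5]
    refine ⟨?_, ?_⟩
    · show |u (r x) - 0| < ε
      rw [show u (r x) = u x from h3.eq_of_nhds, sub_zero]
      exact (hsm x).1
    rw [sub_zero, ← Real.norm_eq_abs]
    calc ‖fderiv ℝ u x w‖ ≤ ‖fderiv ℝ u x‖ * ‖w‖ := ContinuousLinearMap.le_opNorm _ _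
      _ ≤ ‖fderiv ℝ u x‖ * 1 := by gcongr
      _ < ε := by
        rw [mul_one]
        exact (hsm x).2
  · refine ⟨_, denseGdelta_of h hW hχ hWU hr hM.smooth R₀ hR1 hR2, ?_⟩
    rintro u ⟨hu, p, hp, hpu⟩
    have hu1 : ContDiff ℝ 1 (ext r χ u) := ext_smooth_on h (by exact_mod_cast le_top) hW hχ (local_isFun hWU hr hu)
    have h1 := hR3 p hp
    rw [hpu] at h1
    exact ⟨(local_unique hW hMW hr _).mp (unique_of h hG.metric hGU u hu1 h1.1),
      (local_trans hW hMW hr _).mp (trans_of h hG.metric hGU u hu1 h1.2)⟩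
  · intro ε hε
    obtain ⟨δ, hδ, h1⟩ := close_metric h hW hχ g hgW ε hε
    have h0 : ext r χ (fun _ => (0 : ℝ)) = fun _ => (0 : ℝ) := by
      funext x
      simp [ext, pz]
    obtain ⟨p0, hp0⟩ := existsM_of (fun _ => (0 : ℝ)) contDiff_const h0
    obtain ⟨p, hpR, hp⟩ := hR2.exists_dist_lt p0 hδ
    have hu : ContDiff ℝ 1 p.1.fn := C1Fun.contDiff p.1
    have hu1 : ContDiff ℝ 1 (ext r χ p.1.fn) := by
      rw [p.2]
      exact hu
    have h2 := hR3 p hpR
    have h3 : UniqueM M r (conf (ext r χ p.1.fn) G) := by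
      rw [p.2]
      exact h2.1
    have h4 : TransM M r (conf (ext r χ p.1.fn) G) := by
      rw [p.2]
      exact h2.2
    refine ⟨GMS.conf p.1.fn g, mainSmall_isMetric hM.smooth hg hu, (local_closeMetric hW hMW hr _ _ _).mp
      (h1 p.1.fn hu p.2 ?_), (local_unique hW hMW hr _).mp (unique_of h hG.metric hGU p.1.fn hu1 h3),
      (local_trans hW hMW hr _).mp (trans_of h hG.metric hGU p.1.fn hu1 h4)⟩
    intro x
    have h5 := C1Fun.dist_fn p.1 p0.1 x
    rw [dist_comm] at h5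
    rw [hp0] at h5
    simp only [sub_zero, fderiv_fun_const, Pi.zero_apply] at h5
    exact ⟨h5.1.trans_lt hp, h5.2.trans_lt hp⟩

end Pool.Agent.Helper59.GM
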