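import Pool.Agent.Helper59.GM.Trans
import Pool.Agent.Helper59.GM.ChartEx

/-!
# GM-14 MuDef: the Liouville measure of the cotangent bundle of `M`, glued from charts

`Atlas M m J ψ O V`: the charts with index `i < m` cover `M`. `piece V i = V i` minus the earlier `V j`. `mu` is the sum over `i < m` of the images under `iota r (J i) (ψ i)` of the Lebesgue measure on the part over `piece V i`.

Proof. `exists_atlas`: every `x ∈ M` is in the open set `V` of a chart (`exists_chart`); `M` is compact: finitely many suffice; number them (`Finset.equivFin`, or a list), and repeat one chart for the indices `i ≥ m` (`M` is nonempty).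
`mu_apply`: `Measure.map_apply` (`iota` is continuous), `Measure.restrict_apply`: the `i`-th term is the volume of `{ζ | iota ζ ∈ A, ζ.1 ∈ O i, ψ i ζ.1 ∈ piece V i}`, and this set is `kappa '' (A ∩ {z | z.1 ∈ piece V i})` (`⊆`: `ζ = kappa (iota ζ)`; `⊇`: `iota_kappa`). The set `{ζ | ζ.1 ∈ O i ∧ ψ i ζ.1 ∈ piece V i}` is measurable.
`mu_chart`: by `trans_vol` for `A ∩ {z | z.1 ∈ piece V i}` the `i`-th term is `volume (kappa (J j) (ψ j) '' (A ∩ {z | z.1 ∈ piece V i}))`; the pieces with index `< m` are disjoint and cover `M`; `kappa (J j) (ψ j)` is injective on `A`, images are measurable: sum up (`measure_biUnion_finset`).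
-/

set_option autoImplicit false
set_option maxSynthPendingDepth 3

open scoped ContDiff InnerProductSpace Topology
open Pool.Agent.Helper59.GT MeasureTheory

namespace Pool.Agent.Helper59.GM

/-- A finite atlas. -/
structure Atlas {n N : ℕ} (M : Set (E N)) (m : ℕ) (J : ℕ → E N →L[ℝ] E n) (ψ : ℕ → E n → E N) (O : ℕ → Set (E n))
    (V : ℕ → Set (E N)) : Prop where
  chart : ∀ i, Chart M (J i) (ψ i) (O i) (V i)
  cover : ∀ x ∈ M, ∃ i < m, x ∈ V i

/-- The part of `V i` outside the earlier sets. -/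
def piece {N : ℕ} (V : ℕ → Set (E N)) (i : ℕ) : Set (E N) := {x | x ∈ V i ∧ ∀ j < i, x ∉ V j}

/-- The glued measure. -/
noncomputable def mu {n N : ℕ} (r : E N → E N) (m : ℕ) (J : ℕ → E N →L[ℝ] E n) (ψ : ℕ → E n → E N) (O : ℕ → Set (E n))
    (V : ℕ → Set (E N)) : Measure (Ph N) :=
  ∑ i ∈ Finset.range m, ((volume : Measure (Ph n)).restrict {ζ | ζ.1 ∈ O i ∧ ψ i ζ.1 ∈ piece V i}).map (iota r (J i) (ψ i))

variable {n N : ℕ} {M U : Set (E N)} {r : E N → E N} {χ : E N → ℝ} {g : E N → Bil N}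
variable {m : ℕ} {J : ℕ → E N →L[ℝ] E n} {ψ : ℕ → E n → E N} {O : ℕ → Set (E n)} {V : ℕ → Set (E N)}

theorem exists_atlas (h : Sub n M U r χ) :
    ∃ (m : ℕ) (J : ℕ → E N →L[ℝ] E n) (ψ : ℕ → E n → E N) (O : ℕ → Set (E n)) (V : ℕ → Set (E N)), Atlas M m J ψ O V := by
  choose J ψ O V hc hV using fun x : M => exists_chart h x.2
  obtain ⟨x₀, hx₀⟩ := h.ne
  obtain ⟨t, ht⟩ := h.compact.elim_finite_subcover (fun x : M => V x) (fun x => (hc x).openV)
    (fun x hx => Set.mem_iUnion.2 ⟨⟨x, hx⟩, hV _⟩)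
  refine ⟨t.toList.length, fun i => J (t.toList.getD i ⟨x₀, hx₀⟩), fun i => ψ (t.toList.getD i ⟨x₀, hx₀⟩),
    fun i => O (t.toList.getD i ⟨x₀, hx₀⟩), fun i => V (t.toList.getD i ⟨x₀, hx₀⟩), fun i => hc _, fun x hx => ?_⟩
  obtain ⟨y, hy, hxy⟩ := Set.mem_iUnion₂.1 (ht hx)
  obtain ⟨i, hi, hiy⟩ := List.mem_iff_getElem.1 (Finset.mem_toList.2 hy)
  refine ⟨i, hi, ?_⟩
  rw [List.getD_eq_getElem _ _ hi, hiy]
  exact hxy

private theorem MuDef_meas_piece (hat : Atlas M m J ψ O V) (i : ℕ) : MeasurableSet (piece V i) := by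
  have h1 : piece V i = V i ∩ ⋂ j ∈ Finset.range i, (V j)ᶜ := by
    ext x
    simp [piece]
  rw [h1]
  exact (hat.chart i).openV.measurableSet.inter
    (Finset.measurableSet_biInter _ fun j _ => (hat.chart j).openV.measurableSet.compl)

private theorem MuDef_meas_fst (hat : Atlas M m J ψ O V) (i : ℕ) : MeasurableSet {z : Ph N | z.1 ∈ piece V i} :=
  measurable_fst (MuDef_meas_piece hat i)

theorem mu_apply (h : Sub n M U r χ) (hat : Atlas M m J ψ O V) (A : Set (Ph N)) (hA : MeasurableSet A)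
    (hT : A ⊆ TT M r) :
    mu r m J ψ O V A = ∑ i ∈ Finset.range m, volume (kappa (J i) (ψ i) '' (A ∩ {z | z.1 ∈ piece V i})) := by
  unfold mu
  rw [Measure.finsetSum_apply]
  refine Finset.sum_congr rfl fun i _ => ?_
  have hm : Measurable (iota r (J i) (ψ i)) := (contDiff_iota h (hat.chart i).smooth).continuous.measurable
  rw [Measure.map_apply hm hA, Measure.restrict_apply (hm hA)]
  congr 1
  ext ζ
  constructor
  · rintro ⟨h1, h2, h3⟩
    exact ⟨iota r (J i) (ψ i) ζ, ⟨h1, h3⟩, kappa_iota h (hat.chart i) h2⟩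
  · rintro ⟨z, ⟨hzA, hzp⟩, rfl⟩
    have h4 := iota_kappa h (hat.chart i) (hT hzA) hzp.1
    have h5 : ψ i (kappa (J i) (ψ i) z).1 = z.1 := congrArg Prod.fst h4.2
    refine ⟨?_, h4.1, ?_⟩
    · change iota r (J i) (ψ i) (kappa (J i) (ψ i) z) ∈ A
      rw [h4.2]
      exact hzA
    · rw [h5]
      exact hzp

theorem mu_chart (h : Sub n M U r χ) (hat : Atlas M m J ψ O V) (A : Set (Ph N)) (hA : MeasurableSet A)
    (hT : A ⊆ TT M r) (j : ℕ) (hj : ∀ z ∈ A, z.1 ∈ V j) :
    mu r m J ψ O V A = volume (kappa (J j) (ψ j) '' A) := by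
  rw [mu_apply h hat A hA hT]
  have hinj : Set.InjOn (kappa (J j) (ψ j)) A := by
    intro z hz z' hz' hzz
    rw [← (iota_kappa h (hat.chart j) (hT hz) (hj z hz)).2, ← (iota_kappa h (hat.chart j) (hT hz') (hj z' hz')).2, hzz]
  have h1 : ∀ i ∈ Finset.range m, volume (kappa (J i) (ψ i) '' (A ∩ {z | z.1 ∈ piece V i})) =
      volume (kappa (J j) (ψ j) '' (A ∩ {z | z.1 ∈ piece V i})) := by
    intro i _
    exact trans_vol h (hat.chart i) (hat.chart j) _ (hA.inter (MuDef_meas_fst hat i))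
      (fun z hz => hT hz.1) (fun z hz => ⟨hz.2.1, hj z hz.1⟩)
  rw [Finset.sum_congr rfl h1, ← measure_biUnion_finset]
  · congr 1
    rw [← Set.image_iUnion₂, ← Set.inter_iUnion₂]
    congr 1
    apply Set.inter_eq_left.2
    intro z hz
    obtain ⟨i, him, hiV⟩ := hat.cover z.1 (hT hz).1
    classical
    have hex : ∃ i, z.1 ∈ V i := ⟨i, hiV⟩
    refine Set.mem_iUnion₂.2 ⟨Nat.find hex, Finset.mem_range.2 ((Nat.find_min' hex hiV).trans_lt him),
      Nat.find_spec hex, fun l hl => Nat.find_min hex hl⟩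
  · intro i _ l _ hil
    refine Set.disjoint_left.2 ?_
    rintro _ ⟨z, ⟨hzA, hzp⟩, rfl⟩ ⟨z', ⟨hzA', hzp'⟩, hzz⟩
    have h2 : z' = z := hinj hzA' hzA hzz
    rw [h2] at hzp'
    rcases lt_or_gt_of_ne hil with h3 | h3
    · exact hzp'.2 i h3 hzp.1
    · exact hzp.2 l h3 hzp'.1
  · intro i _
    exact (hA.inter (MuDef_meas_fst hat i)).image_of_continuousOn_injOn
      (contDiff_kappa (hat.chart j).smooth).continuous.continuousOn (hinj.mono Set.inter_subset_left)

end Pool.Agent.Helper59.GM
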