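import Pool.Agent.Helper59.GM.MuDef
import Pool.Agent.Helper59.GM.PhTan

/-!
# GM-19 Pieces: small pieces of phase space stay in one chart for a uniform time

Proof. `Φ` is jointly continuous: `dist (Φ t z) (Φ t' z') ≤ dist (Φ t z) (Φ t z') + dist (Φ t z') (Φ t' z')`, `dist_le` and `GeoFlow.smooth`. For every `z ∈ C₀` choose `i < m` with `z.1 ∈ V i` and `ε > 0` with `closedBall z.1 ε ⊆ V i`; `C_z = C₀ ∩ {y | y.1 ∈ closedBall z.1 ε}` is compact. By continuity at `(0, z)` there are `δ_z, τ_z > 0` with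
`(Φ t y).1 ∈ closedBall z.1 ε` for `dist y z < δ_z`, `0 ≤ t ≤ τ_z`. Finitely many balls `ball z_j δ_(z_j)` (`j < p`) cover the compact `C₀`; `τ₀` = the minimum of the `τ_(z_j)` (and `1`), `Q j = ball z_j δ_(z_j)` minus the earlier balls (`Q j = ∅` for `j ≥ p`).
-/

set_option autoImplicit false
set_option maxSynthPendingDepth 3

open scoped ContDiff InnerProductSpace Topology
open Pool.Agent.Helper59.GT

namespace Pool.Agent.Helper59.GM

variable {n N : ℕ} {M U : Set (E N)} {r : E N → E N} {χ : E N → ℝ} {g : E N → Bil N}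
variable {m : ℕ} {J : ℕ → E N →L[ℝ] E n} {ψ : ℕ → E n → E N} {O : ℕ → Set (E n)} {V : ℕ → Set (E N)}

private theorem pieces_local {Φ : ℝ → Ph N → Ph N} {K : ℝ} (hΦ : GeoFlow g Φ K) (z : Ph N) {ε : ℝ} (hε : 0 < ε) :
    ∃ δ τ : ℝ, 0 < δ ∧ 0 < τ ∧ ∀ y, dist y z < δ → ∀ t ∈ Set.Icc 0 τ, dist (Φ t y) z < ε := by
  have hc : ContinuousAt (fun t => Φ t z) 0 := (hΦ.smooth z).continuous.continuousAt
  obtain ⟨τ, hτ, hτ'⟩ := Metric.continuousAt_iff.1 hc (ε / 2) (half_pos hε)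
  have hK : 0 < Real.exp |K| := Real.exp_pos _
  refine ⟨ε / 2 / Real.exp |K|, min (τ / 2) 1, by positivity, lt_min (half_pos hτ) one_pos, ?_⟩
  intro y hy t ht
  have ht1 : |t| ≤ 1 := by
    rw [abs_of_nonneg ht.1]
    exact ht.2.trans (min_le_right _ _)
  have ht2 : dist t 0 < τ := by
    rw [Real.dist_eq, sub_zero, abs_of_nonneg ht.1]
    have := ht.2.trans (min_le_left _ _)
    linarith
  have h1 := hτ' ht2
  rw [hΦ.zero] at h1
  have h2 : dist (Φ t y) (Φ t z) < ε / 2 := by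
    have h3 := hΦ.dist_le t y z
    have h4 : Real.exp (K * |t|) ≤ Real.exp |K| := by
      apply Real.exp_le_exp.2
      calc K * |t| ≤ |K| * |t| := mul_le_mul_of_nonneg_right (le_abs_self K) (abs_nonneg t)
        _ ≤ |K| * 1 := mul_le_mul_of_nonneg_left ht1 (abs_nonneg K)
        _ = |K| := mul_one _
    calc dist (Φ t y) (Φ t z) ≤ Real.exp (K * |t|) * dist y z := h3
      _ ≤ Real.exp |K| * dist y z := mul_le_mul_of_nonneg_right h4 dist_nonneg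
      _ < Real.exp |K| * (ε / 2 / Real.exp |K|) := mul_lt_mul_of_pos_left hy hK
      _ = ε / 2 := by field_simp
  calc dist (Φ t y) z ≤ dist (Φ t y) (Φ t z) + dist (Φ t z) z := dist_triangle _ _ _
    _ < ε / 2 + ε / 2 := add_lt_add h2 h1
    _ = ε := add_halves ε

private theorem pieces_min {α : Type} (s : Finset α) (τ : α → ℝ) (h : ∀ a ∈ s, 0 < τ a) :
    ∃ τ₀ : ℝ, 0 < τ₀ ∧ ∀ a ∈ s, τ₀ ≤ τ a := by
  rcases s.eq_empty_or_nonempty with hs | hs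
  · exact ⟨1, one_pos, by simp [hs]⟩
  · obtain ⟨b, hb, hb'⟩ := Finset.exists_min_image s τ hs
    exact ⟨τ b, h b hb, hb'⟩

theorem exists_pieces (h : Sub n M U r χ) (hat : Atlas M m J ψ O V) {Φ : ℝ → Ph N → Ph N} {K : ℝ} (hΦ : GeoFlow g Φ K)
    (C₀ : Set (Ph N)) (hC₀ : IsCompact C₀) (hT : C₀ ⊆ TT M r) (hinv : ∀ z ∈ C₀, ∀ t, Φ t z ∈ C₀) :
    ∃ (τ₀ : ℝ) (p : ℕ) (Q : ℕ → Set (Ph N)), 0 < τ₀ ∧ (∀ j, MeasurableSet (Q j)) ∧
      (∀ i j, i ≠ j → Disjoint (Q i) (Q j)) ∧ (∀ z ∈ C₀, ∃ j < p, z ∈ Q j) ∧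
      ∀ j < p, ∃ (i : ℕ) (C : Set (Ph N)), IsCompact C ∧ C ⊆ C₀ ∧ (∀ z ∈ C, z.1 ∈ V i) ∧
        ∀ z ∈ C₀, z ∈ Q j → ∀ t ∈ Set.Icc 0 τ₀, Φ t z ∈ C := by
  have hloc : ∀ z : Ph N, ∃ (i : ℕ) (ε δ τ : ℝ), z ∈ C₀ → 0 < δ ∧ 0 < τ ∧
      Metric.closedBall z.1 ε ⊆ V i ∧
      ∀ y, dist y z < δ → ∀ t ∈ Set.Icc 0 τ, (Φ t y).1 ∈ Metric.closedBall z.1 ε := by
    intro z
    by_cases hz : z ∈ C₀
    · obtain ⟨i, -, hi⟩ := hat.cover z.1 (hT hz).1
      obtain ⟨ε, hε, hε'⟩ := Metric.nhds_basis_closedBall.mem_iff.1 ((hat.chart i).openV.mem_nhds hi)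
      obtain ⟨δ, τ, hδ, hτ, hy⟩ := pieces_local hΦ z hε
      refine ⟨i, ε, δ, τ, fun _ => ⟨hδ, hτ, hε', fun y hyz t ht => ?_⟩⟩
      have h1 := hy y hyz t ht
      rw [Metric.mem_closedBall]
      exact ((Prod.dist_eq (x := Φ t y) (y := z) ▸ le_max_left _ _ :
        dist (Φ t y).1 z.1 ≤ dist (Φ t y) z)).trans h1.le
    · exact ⟨0, 0, 0, 0, fun hz' => absurd hz' hz⟩
  choose i ε δ τ hd using hloc
  obtain ⟨s, hs, hcov⟩ := hC₀.elim_nhds_subcover (fun z => Metric.ball z (δ z))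
    (fun z hz => Metric.ball_mem_nhds z (hd z hz).1)
  obtain ⟨τ₀, hτ₀, hmin⟩ := pieces_min s τ (fun a ha => (hd a (hs a ha)).2.1)
  obtain ⟨a, ha⟩ : ∃ a : Fin s.card → Ph N, a = fun j => ((s.equivFin.symm j : s) : Ph N) := ⟨_, rfl⟩
  have ha1 : ∀ j, a j ∈ s := by
    intro j
    rw [ha]
    exact (s.equivFin.symm j).2
  have ha2 : ∀ z ∈ s, ∃ j, a j = z := by
    intro z hz
    refine ⟨s.equivFin ⟨z, hz⟩, ?_⟩
    rw [ha]
    simp
  obtain ⟨P, hP⟩ : ∃ P : ℕ → Set (Ph N),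
      P = fun j => if hj : j < s.card then Metric.ball (a ⟨j, hj⟩) (δ (a ⟨j, hj⟩)) else ∅ := ⟨_, rfl⟩
  have hP1 : ∀ (j : ℕ) (hj : j < s.card), P j = Metric.ball (a ⟨j, hj⟩) (δ (a ⟨j, hj⟩)) := by
    intro j hj
    rw [hP]
    exact dif_pos hj
  have hP2 : ∀ j : ℕ, ¬ j < s.card → P j = ∅ := by
    intro j hj
    rw [hP]
    exact dif_neg hj
  have hPm : ∀ j, MeasurableSet (P j) := by
    intro j
    by_cases hj : j < s.card
    · rw [hP1 j hj]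
      exact measurableSet_ball
    · rw [hP2 j hj]
      exact MeasurableSet.empty
  refine ⟨τ₀, s.card, disjointed P, hτ₀, fun j => MeasurableSet.disjointed hPm j,
    fun k l hkl => disjoint_disjointed P hkl, ?_, ?_⟩
  · intro z hz
    have h1 := hcov hz
    rw [Set.mem_iUnion₂] at h1
    obtain ⟨w, hw, hzw⟩ := h1
    obtain ⟨⟨j, hj⟩, hjw⟩ := ha2 w hw
    have h2 : z ∈ ⋃ k, P k := by
      refine Set.mem_iUnion.2 ⟨j, ?_⟩
      rw [hP1 j hj, hjw]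
      exact hzw
    rw [← iUnion_disjointed] at h2
    obtain ⟨k, hk⟩ := Set.mem_iUnion.1 h2
    refine ⟨k, ?_, hk⟩
    by_contra hkn
    have h3 := disjointed_subset P k hk
    rw [hP2 k hkn] at h3
    exact h3
  · intro j hj
    have hw := ha1 ⟨j, hj⟩
    have hwC := hs _ hw
    have hdw := hd _ hwC
    refine ⟨i (a ⟨j, hj⟩), C₀ ∩ {y | y.1 ∈ Metric.closedBall (a ⟨j, hj⟩).1 (ε (a ⟨j, hj⟩))}, ?_,
      Set.inter_subset_left, fun z hz => hdw.2.2.1 hz.2, ?_⟩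
    · exact hC₀.inter_right (Metric.isClosed_closedBall.preimage continuous_fst)
    · intro z hz hzQ t ht
      have h3 := disjointed_subset P j hzQ
      rw [hP1 j hj, Metric.mem_ball] at h3
      exact ⟨hinv z hz t, hdw.2.2.2 z h3 t ⟨ht.1, ht.2.trans (hmin _ hw)⟩⟩

end Pool.Agent.Helper59.GM
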