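import Pool.Agent.Helper59.GM.MuProp
import Pool.Agent.Helper59.GM.ChartLiou
import Pool.Agent.Helper59.GM.Pieces

/-!
# GM-20 MuFlow: the geodesic flow does not decrease the glued measure

Proof. Let `τ₀, p, Q` be from `exists_pieces` and `0 ≤ τ ≤ τ₀`, `A ⊆ C₀` measurable, `A_j = A ∩ Q j`, `i`, `C` for `j`. `Φ τ` is continuous and injective (`Φ (-τ) (Φ τ z) = z`), so `Φ τ '' A_j` is measurable, contained in `C ⊆ C₀ ⊆ TT`. `mu (Φ τ '' A_j) = volume (kappa '' (Φ τ '' A_j)) ≥ volume (kappa '' A_j) = mu A_j`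
(`mu_chart` with the index `i` for both sets: points of `A_j = Φ 0 '' A_j` and of `Φ τ '' A_j` are in `C`; `chart_liou`). The `A_j` (`j < p`) are disjoint with union `A`, the images are disjoint with union `Φ τ '' A`: sum up. So `mu A ≤ mu (Φ τ '' A)` for `τ ≤ τ₀`. Choose `q ≥ 1` with `1 / q ≤ τ₀`; by induction on `j`,
`mu A ≤ mu (Φ (j / q) '' A)` (`GeoFlow.add`: `Φ ((j + 1) / q) = Φ (1 / q) ∘ Φ (j / q)`, `Φ (j / q) '' A ⊆ C₀` measurable). `j = q`.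
-/

set_option autoImplicit false
set_option maxSynthPendingDepth 3

open scoped ContDiff InnerProductSpace Topology
open Pool.Agent.Helper59.GT MeasureTheory

namespace Pool.Agent.Helper59.GM

variable {n N : ℕ} {M U : Set (E N)} {r : E N → E N} {χ : E N → ℝ} {g : E N → Bil N}
variable {m : ℕ} {J : ℕ → E N →L[ℝ] E n} {ψ : ℕ → E n → E N} {O : ℕ → Set (E n)} {V : ℕ → Set (E N)}

private theorem h86_muflow_cont {g : E N → Bil N} {Φ : ℝ → Ph N → Ph N} {K : ℝ} (hΦ : GeoFlow g Φ K) (t : ℝ) :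
    Continuous (Φ t) := by
  have h1 : LipschitzWith ⟨Real.exp (K * |t|), (Real.exp_pos _).le⟩ (Φ t) :=
    LipschitzWith.of_dist_le_mul fun z w => hΦ.dist_le t z w
  exact h1.continuous

private theorem h86_muflow_inj {g : E N → Bil N} {Φ : ℝ → Ph N → Ph N} {K : ℝ} (hΦ : GeoFlow g Φ K) (t : ℝ) :
    Function.Injective (Φ t) := by
  intro z w h
  have h1 : Φ (-t) (Φ t z) = Φ (-t) (Φ t w) := by rw [h]
  rw [← hΦ.add, ← hΦ.add, neg_add_cancel, hΦ.zero, hΦ.zero] at h1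
  exact h1

private theorem h86_muflow_meas {g : E N → Bil N} {Φ : ℝ → Ph N → Ph N} {K : ℝ} (hΦ : GeoFlow g Φ K) (t : ℝ)
    {A : Set (Ph N)} (hA : MeasurableSet A) : MeasurableSet (Φ t '' A) :=
  hA.image_of_continuousOn_injOn (h86_muflow_cont hΦ t).continuousOn (h86_muflow_inj hΦ t).injOn

private theorem h86_muflow_step (h : Sub n M U r χ) (hg : Hat ∞ U r g) (hat : Atlas M m J ψ O V) {Φ : ℝ → Ph N → Ph N} {K : ℝ}
    (hΦ : GeoFlow g Φ K) (C₀ : Set (Ph N)) (hC₀ : IsCompact C₀) (hT : C₀ ⊆ TT M r) (h4 : ∀ z ∈ C₀, Hk g z < 4)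
    (hinv : ∀ z ∈ C₀, ∀ t, Φ t z ∈ C₀) :
    ∃ τ₀ : ℝ, 0 < τ₀ ∧ ∀ τ, 0 ≤ τ → τ ≤ τ₀ → ∀ A : Set (Ph N), MeasurableSet A → A ⊆ C₀ →
      mu r m J ψ O V A ≤ mu r m J ψ O V (Φ τ '' A) := by
  obtain ⟨τ₀, p, Q, hτ₀, hQm, hQd, hQc, hQ⟩ := exists_pieces h hat hΦ C₀ hC₀ hT hinv
  refine ⟨τ₀, hτ₀, fun τ h0 h1 A hA hAC => ?_⟩
  have e1 : A = ⋃ j ∈ Finset.range p, A ∩ Q j := by
    ext z
    simp only [Finset.mem_range, Set.mem_iUnion, Set.mem_inter_iff, exists_prop]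
    constructor
    · intro hz
      obtain ⟨j, hj, hzj⟩ := hQc z (hAC hz)
      exact ⟨j, hj, hz, hzj⟩
    · rintro ⟨j, _, hz, _⟩
      exact hz
  have e2 : Φ τ '' A = ⋃ j ∈ Finset.range p, Φ τ '' (A ∩ Q j) := by
    conv_lhs => rw [e1]
    simp only [Set.image_iUnion]
  have d1 : (↑(Finset.range p) : Set ℕ).PairwiseDisjoint (fun j => A ∩ Q j) := by
    intro i _ j _ hij
    exact (hQd i j hij).mono Set.inter_subset_right Set.inter_subset_right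
  have d2 : (↑(Finset.range p) : Set ℕ).PairwiseDisjoint (fun j => Φ τ '' (A ∩ Q j)) := by
    intro i hi j hj hij
    exact (Set.disjoint_image_iff (h86_muflow_inj hΦ τ)).2 (d1 hi hj hij)
  have s1 : mu r m J ψ O V A = ∑ j ∈ Finset.range p, mu r m J ψ O V (A ∩ Q j) := by
    conv_lhs => rw [e1]
    exact measure_biUnion_finset d1 fun j _ => hA.inter (hQm j)
  have s2 : mu r m J ψ O V (Φ τ '' A) = ∑ j ∈ Finset.range p, mu r m J ψ O V (Φ τ '' (A ∩ Q j)) := by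
    conv_lhs => rw [e2]
    exact measure_biUnion_finset d2 fun j _ => h86_muflow_meas hΦ τ (hA.inter (hQm j))
  rw [s1, s2]
  apply Finset.sum_le_sum
  intro j hj
  obtain ⟨i, C, hC, hCC, hCV, hin⟩ := hQ j (Finset.mem_range.1 hj)
  have hAj : MeasurableSet (A ∩ Q j) := hA.inter (hQm j)
  have g1 : ∀ z ∈ A ∩ Q j, ∀ t ∈ Set.Icc 0 τ, Φ t z ∈ C := by
    intro z hz t ht
    exact hin z (hAC hz.1) hz.2 t ⟨ht.1, ht.2.trans h1⟩
  have g2 : ∀ z ∈ A ∩ Q j, z ∈ C := by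
    intro z hz
    have := g1 z hz 0 ⟨le_refl _, h0⟩
    rwa [hΦ.zero] at this
  have g3 : ∀ z ∈ Φ τ '' (A ∩ Q j), z ∈ C := by
    rintro _ ⟨z, hz, rfl⟩
    exact g1 z hz τ ⟨h0, le_refl _⟩
  rw [mu_chart h hat (A ∩ Q j) hAj (fun z hz => hT (hCC (g2 z hz))) i (fun z hz => hCV z (g2 z hz)),
    mu_chart h hat (Φ τ '' (A ∩ Q j)) (h86_muflow_meas hΦ τ hAj) (fun z hz => hT (hCC (g3 z hz))) i
      (fun z hz => hCV z (g3 z hz))]
  exact chart_liou h hg hΦ (hat.chart i) C hC (fun z hz => hT (hCC hz)) hCV (fun z hz => h4 z (hCC hz)) τ h0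
    (A ∩ Q j) hAj g1

theorem mu_flow (h : Sub n M U r χ) (hg : Hat ∞ U r g) (hat : Atlas M m J ψ O V) {Φ : ℝ → Ph N → Ph N} {K : ℝ}
    (hΦ : GeoFlow g Φ K) (C₀ : Set (Ph N)) (hC₀ : IsCompact C₀) (hT : C₀ ⊆ TT M r) (h4 : ∀ z ∈ C₀, Hk g z < 4)
    (hinv : ∀ z ∈ C₀, ∀ t, Φ t z ∈ C₀) (A : Set (Ph N)) (hA : MeasurableSet A) (hAC : A ⊆ C₀) :
    MeasurableSet (Φ 1 '' A) ∧ mu r m J ψ O V A ≤ mu r m J ψ O V (Φ 1 '' A) := by
  refine ⟨h86_muflow_meas hΦ 1 hA, ?_⟩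
  obtain ⟨τ₀, hτ₀, hstep⟩ := h86_muflow_step h hg hat hΦ C₀ hC₀ hT h4 hinv
  obtain ⟨q, hq⟩ := exists_nat_gt (1 / τ₀)
  have hq0 : (0 : ℝ) < q := lt_trans (by positivity) hq
  have hq1 : 1 / (q : ℝ) ≤ τ₀ := by
    rw [div_le_iff₀ hq0]
    rw [div_lt_iff₀ hτ₀] at hq
    linarith
  have key : ∀ j : ℕ, mu r m J ψ O V A ≤ mu r m J ψ O V (Φ ((j : ℝ) / q) '' A) := by
    intro j
    induction j with
    | zero =>
      have e : Φ (((0 : ℕ) : ℝ) / q) '' A = A := by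
        have e' : Φ (((0 : ℕ) : ℝ) / q) = id := by
          funext z
          simp [hΦ.zero]
        rw [e', Set.image_id]
      rw [e]
    | succ j ih =>
      have e : Φ (((j + 1 : ℕ) : ℝ) / q) '' A = Φ (1 / q) '' (Φ ((j : ℝ) / q) '' A) := by
        rw [← Set.image_comp]
        apply congrArg (fun f : Ph N → Ph N => f '' A)
        funext z
        show Φ (((j + 1 : ℕ) : ℝ) / q) z = Φ (1 / q) (Φ ((j : ℝ) / q) z)
        rw [← hΦ.add]
        congr 1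
        push_cast
        ring
      rw [e]
      refine ih.trans (hstep (1 / q) (by positivity) hq1 _ (h86_muflow_meas hΦ _ hA) ?_)
      rintro _ ⟨z, hz, rfl⟩
      exact hinv z (hAC hz) _
  have := key q
  rwa [div_self hq0.ne'] at this

end Pool.Agent.Helper59.GM
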