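import Pool.Agent.Helper59.GM.MuDef

/-!
# GM-15 MuProp: the glued measure is positive on open sets and finite on compact sets

Proof. `mu_pos`: let `z ∈ W ∩ TT`, `z.1 ∈ V j` with `j < m`, and `A = W ∩ TT ∩ {z | z.1 ∈ V j}` (measurable: `TT M r` is closed, `isClosed_TT`-like: `M` closed and `adj` continuous; `V j` open). `mu (W ∩ TT) ≥ mu A = volume (kappa '' A)` (`mu_chart`), and `kappa '' A ⊇ {ζ | ζ.1 ∈ O j, iota ζ ∈ W}`
(`iota_mem`, `kappa_iota`), which is open and contains `kappa z` (`iota_kappa`), so has positive volume.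
`mu_fin`: the `i`-th term of `mu C` is at most `volume {ζ | iota ζ ∈ C, ζ.1 ∈ O i}`, and this set is contained in `kappa (J i) (ψ i) '' C` (`kappa_iota`), which is compact (`kappa` is continuous), so of finite volume.
-/

set_option autoImplicit false
set_option maxSynthPendingDepth 3

open scoped ContDiff InnerProductSpace Topology
open Pool.Agent.Helper59.GT MeasureTheory

namespace Pool.Agent.Helper59.GM

variable {n N : ℕ} {M U : Set (E N)} {r : E N → E N} {χ : E N → ℝ} {g : E N → Bil N}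
variable {m : ℕ} {J : ℕ → E N →L[ℝ] E n} {ψ : ℕ → E n → E N} {O : ℕ → Set (E n)} {V : ℕ → Set (E N)}

private theorem muProp_closed (h : Sub n M U r χ) : IsClosed (TT M r) := by
  have h1 : ContDiff ℝ ∞ (fun z : Ph N => adj (fderiv ℝ r z.1) z.2) :=
    contDiff_adj (((h.smooth.fderiv_right (m := ∞) (by simp)).comp contDiff_fst)) contDiff_snd
  exact (h.compact.isClosed.preimage continuous_fst).inter (isClosed_eq h1.continuous continuous_snd)

theorem mu_pos (h : Sub n M U r χ) (hat : Atlas M m J ψ O V) (W : Set (Ph N)) (hW : IsOpen W)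
    (hne : (W ∩ TT M r).Nonempty) : 0 < mu r m J ψ O V (W ∩ TT M r) := by
  obtain ⟨z, hzW, hzT⟩ := hne
  obtain ⟨j, -, hjV⟩ := hat.cover z.1 hzT.1
  have hch := hat.chart j
  have hVo : IsOpen {z : Ph N | z.1 ∈ V j} := hch.openV.preimage continuous_fst
  have hA : MeasurableSet (W ∩ TT M r ∩ {z : Ph N | z.1 ∈ V j}) :=
    (hW.measurableSet.inter (muProp_closed h).measurableSet).inter hVo.measurableSet
  have h1 := mu_chart h hat _ hA (fun x hx => hx.1.2) j fun x hx => hx.2
  have h2 : mu r m J ψ O V (W ∩ TT M r ∩ {z : Ph N | z.1 ∈ V j}) ≤ mu r m J ψ O V (W ∩ TT M r) :=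
    measure_mono Set.inter_subset_left
  refine lt_of_lt_of_le ?_ h2
  rw [h1]
  have h3 : {ζ : Ph n | ζ.1 ∈ O j} ∩ iota r (J j) (ψ j) ⁻¹' W ⊆
      kappa (J j) (ψ j) '' (W ∩ TT M r ∩ {z : Ph N | z.1 ∈ V j}) := by
    rintro ζ ⟨hζ, hζW⟩
    have h4 := iota_mem h hch hζ
    exact ⟨_, ⟨⟨hζW, h4.1⟩, h4.2⟩, kappa_iota h hch hζ⟩
  refine lt_of_lt_of_le ?_ (measure_mono h3)
  have h5 : IsOpen ({ζ : Ph n | ζ.1 ∈ O j} ∩ iota r (J j) (ψ j) ⁻¹' W) :=
    (hch.openO.preimage continuous_fst).inter (hW.preimage (contDiff_iota h hch.smooth).continuous)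
  have h6 := iota_kappa h hch hzT hjV
  refine h5.measure_pos _ ⟨kappa (J j) (ψ j) z, h6.1, ?_⟩
  rw [Set.mem_preimage, h6.2]
  exact hzW

theorem mu_fin (h : Sub n M U r χ) (hat : Atlas M m J ψ O V) (C : Set (Ph N)) (hC : IsCompact C) :
    mu r m J ψ O V C < ⊤ := by
  unfold mu
  rw [Measure.finsetSum_apply]
  refine ENNReal.sum_lt_top.2 fun i _ => ?_
  have hch := hat.chart i
  have hc : Continuous (iota r (J i) (ψ i)) := (contDiff_iota h hch.smooth).continuous
  rw [Measure.map_apply hc.measurable hC.isClosed.measurableSet,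
    Measure.restrict_apply (hc.measurable hC.isClosed.measurableSet)]
  have h1 : iota r (J i) (ψ i) ⁻¹' C ∩ {ζ : Ph n | ζ.1 ∈ O i ∧ ψ i ζ.1 ∈ piece V i} ⊆
      kappa (J i) (ψ i) '' C := by
    rintro ζ ⟨hζ, hζO, -⟩
    exact ⟨_, hζ, kappa_iota h hch hζO⟩
  refine lt_of_le_of_lt (measure_mono h1) ?_
  exact (hC.image (contDiff_kappa hch.smooth).continuous).measure_lt_top

end Pool.Agent.Helper59.GM
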