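import Pool.Agent.Helper59.GM.GenDefsM
import Pool.Agent.Helper59.GM.ExistC1M

/-!
# GM-41 OpenUM: `UUM` is open

Proof. As GT-46 `OpenU`. Suppose `p ∈ UUM` is a limit of `p_j ∉ UUM` (`IsOpen` via sequences: the complement is sequentially closed). Take `c_j, d_j, t_j` violating the condition. `ConvMet` by `confM_conv`. `W = Filter.hyperfilter ℕ`; `limitM` twice: `c, d` unit speed geodesics in `M` of `conf p.fn g` with the same initial vector. `t_j ∈ [-m, m]` has a limit `t0` along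
`W` (compact). `‖c_j (t_j) - d_j (t_j)‖ ≥ 1 / (m + 1)` passes to the limit: a contradiction.
-/

set_option autoImplicit false
set_option maxSynthPendingDepth 3

open scoped ContDiff InnerProductSpace Topology
open Pool.Agent.Helper59.GT Filter

namespace Pool.Agent.Helper59.GM

variable {n N : ℕ} {M U : Set (E N)} {r : E N → E N} {χ : E N → ℝ} {g : E N → Bil N}

theorem isOpen_UUM (h : Sub n M U r χ) (hg : Hat ∞ U r g) (m : ℕ) : IsOpen (UUM M r χ g m) := by
  rw [← isClosed_compl_iff]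
  apply IsSeqClosed.isClosed
  intro ps p hps hlim
  have hgm : IsMetric ∞ g := hg.metric
  have hmet : ∀ q : C1M r χ, IsMetric 1 (conf q.1.fn g) := fun q => isMetric_confM hgm q
  have hex : ∀ j, ∃ c d : ℝ → E N, ∃ t : ℝ, MGeo M (conf (ps j).1.fn g) c ∧
      MGeo M (conf (ps j).1.fn g) d ∧ c 0 = d 0 ∧ deriv c 0 = deriv d 0 ∧
      |t| ≤ m ∧ 1 / ((m : ℝ) + 1) ≤ ‖c t - d t‖ := by
    intro j
    have h2 := hps j
    simp only [UUM, Set.mem_compl_iff, Set.mem_ofPred_eq, not_forall, not_lt] at h2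
    obtain ⟨c, d, hc, hd, h0, h1, t, ht, hle⟩ := h2
    exact ⟨c, d, t, hc, hd, h0, h1, ht, hle⟩
  choose c d t hc hd h0 h1 ht hle using hex
  have hconv : ConvMet (fun j => conf (ps j).1.fn g) (conf p.1.fn g) := confM_conv hgm ps p hlim
  have hU : ((Filter.hyperfilter ℕ : Ultrafilter ℕ) : Filter ℕ) ≤ Filter.atTop :=
    Nat.hyperfilter_le_atTop
  obtain ⟨c', hc1, hc3, hc4, hc5⟩ :=
    limitM h (Filter.hyperfilter ℕ) hU (hmet p) _ (fun j => hmet (ps j)) hconv c hc
  obtain ⟨d', hd1, hd3, hd4, hd5⟩ :=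
    limitM h (Filter.hyperfilter ℕ) hU (hmet p) _ (fun j => hmet (ps j)) hconv d hd
  obtain ⟨t0, ht0, hlt⟩ := (isCompact_Icc (a := -(m : ℝ)) (b := m)).ultrafilter_le_nhds
    ((Filter.hyperfilter ℕ).map t) (by
      rw [Filter.le_principal_iff]
      refine Filter.mem_map.2 (Filter.univ_mem' fun j => ?_)
      exact abs_le.1 (ht j))
  have hlt' : Filter.Tendsto t (Filter.hyperfilter ℕ : Ultrafilter ℕ) (nhds t0) := hlt
  have hce := hc5 t t0 hlt'
  have hde := hd5 t t0 hlt'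
  have hnorm : Filter.Tendsto (fun j => ‖c j (t j) - d j (t j)‖) (Filter.hyperfilter ℕ : Ultrafilter ℕ)
      (nhds ‖c' t0 - d' t0‖) := (hce.sub hde).norm
  have hge : 1 / ((m : ℝ) + 1) ≤ ‖c' t0 - d' t0‖ := ge_of_tendsto' hnorm hle
  intro hp
  have h00 : c' 0 = d' 0 := by
    refine tendsto_nhds_unique (hc3 0) ?_
    have h2 : (fun j => c j 0) = fun j => d j 0 := funext h0
    rw [h2]
    exact hd3 0
  have h01 : deriv c' 0 = deriv d' 0 := by
    refine tendsto_nhds_unique (hc4 0) ?_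
    have h2 : (fun j => deriv (c j) 0) = fun j => deriv (d j) 0 := funext h1
    rw [h2]
    exact hd4 0
  exact absurd (hp c' d' hc1 hd1 h00 h01 t0 (abs_le.2 ht0)) (not_lt.2 hge)

end Pool.Agent.Helper59.GM
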