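import Pool.Agent.Helper59.GM.SubLem

/-!
# GM-09 PhChart: the charts of the cotangent bundle

Proof. `contDiff_iota`, `contDiff_kappa`: `contDiff_adj`, `fderiv ℝ r`, `fderiv ℝ ψ` are smooth, `J.comp (fderiv ℝ r (ψ a))` is smooth in `a` (`ContDiff.clm_comp`).
`J_dpsi`: `J (ψ b) = b` for `b ∈ O` (open): derivative at `a`. `P_dpsi`: `r (ψ b) = ψ b` for `b ∈ O` (`ψ b ∈ M`, `fixed`): derivative at `a`. `dpsi_JP`: for `y` near `x ∈ M ∩ V` (`x ∈ U`; `r y ∈ M`, and `r y ∈ V` since `r x = x ∈ V`, `V` open): `ψ (J (r y)) = r y`; derivative at `y = x` (`r x = x`).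
`iota_mem`: `ψ a ∈ M ∩ V`; with `S = J.comp P`, `P = fderiv ℝ r (ψ a)`: `adj P (adj S q) = adj (S.comp P) q` (`adj_comp`), and `S.comp P = S` because `P P = P` (`tan_of_range`).
`kappa_iota`: first component `J (ψ a) = a`; second: `adj (dψ) (adj (J P) q) = adj (J P dψ) q`, and `J (P (dψ w)) = J (dψ w) = w` (`P_dpsi`, `J_dpsi`), `adj_id`-like (`adj_ext`). `iota_kappa`: first `ψ (J x) = x`; second: `adj (J P) (adj (dψ) p) = adj (dψ J P) p = adj P p = p` (`dpsi_JP`, and `z ∈ TT`).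
-/

set_option autoImplicit false
set_option maxSynthPendingDepth 3

open scoped ContDiff InnerProductSpace Topology
open Pool.Agent.Helper59.GT

namespace Pool.Agent.Helper59.GM

variable {n N : ℕ} {M U : Set (E N)} {r : E N → E N} {χ : E N → ℝ} {g : E N → Bil N}

theorem contDiff_iota (h : Sub n M U r χ) {J : E N →L[ℝ] E n} {ψ : E n → E N} (hψ : ContDiff ℝ ∞ ψ) :
    ContDiff ℝ ∞ (iota r J ψ) := by
  have hr : ContDiff ℝ ∞ (fderiv ℝ r) := h.smooth.fderiv_right (m := ∞) (by simp)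
  have h1 : ContDiff ℝ ∞ (fun ζ : Ph n => ψ ζ.1) := hψ.comp contDiff_fst
  have h2 : ContDiff ℝ ∞ (fun ζ : Ph n => fderiv ℝ r (ψ ζ.1)) := hr.comp h1
  have h3 : ContDiff ℝ ∞ (fun ζ : Ph n => J.comp (fderiv ℝ r (ψ ζ.1))) := contDiff_const.clm_comp h2
  exact h1.prodMk (contDiff_adj h3 contDiff_snd)

theorem contDiff_kappa {J : E N →L[ℝ] E n} {ψ : E n → E N} (hψ : ContDiff ℝ ∞ ψ) : ContDiff ℝ ∞ (kappa J ψ) := by
  have hr : ContDiff ℝ ∞ (fderiv ℝ ψ) := hψ.fderiv_right (m := ∞) (by simp)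
  have h1 : ContDiff ℝ ∞ (fun z : Ph N => J z.1) := J.contDiff.comp contDiff_fst
  have h2 : ContDiff ℝ ∞ (fun z : Ph N => fderiv ℝ ψ (J z.1)) := hr.comp h1
  exact h1.prodMk (contDiff_adj h2 contDiff_snd)

theorem J_dpsi {J : E N →L[ℝ] E n} {ψ : E n → E N} {O : Set (E n)} {V : Set (E N)} (hc : Chart M J ψ O V) {a : E n}
    (ha : a ∈ O) (w : E n) : J (fderiv ℝ ψ a w) = w := by
  have hd : HasFDerivAt ψ (fderiv ℝ ψ a) a := (hc.smooth.differentiable (by simp) a).hasFDerivAt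
  have h1 : HasFDerivAt (fun b => J (ψ b)) (J.comp (fderiv ℝ ψ a)) a := J.hasFDerivAt.comp a hd
  have h2 : (fun b => J (ψ b)) =ᶠ[𝓝 a] (fun b => b) := by
    filter_upwards [hc.openO.mem_nhds ha] with b hb
    exact (hc.mem b hb).2.2
  have h3 : HasFDerivAt (fun b => J (ψ b)) (ContinuousLinearMap.id ℝ (E n)) a :=
    (hasFDerivAt_id a).congr_of_eventuallyEq h2
  have h4 := h1.unique h3
  have h5 := DFunLike.congr_fun h4 w
  simpa using h5

theorem P_dpsi (h : Sub n M U r χ) {J : E N →L[ℝ] E n} {ψ : E n → E N} {O : Set (E n)} {V : Set (E N)}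
    (hc : Chart M J ψ O V) {a : E n} (ha : a ∈ O) (w : E n) : fderiv ℝ r (ψ a) (fderiv ℝ ψ a w) = fderiv ℝ ψ a w := by
  have hd : HasFDerivAt ψ (fderiv ℝ ψ a) a := (hc.smooth.differentiable (by simp) a).hasFDerivAt
  have hr : HasFDerivAt r (fderiv ℝ r (ψ a)) (ψ a) := (h.smooth.differentiable (by simp) (ψ a)).hasFDerivAt
  have h1 : HasFDerivAt (fun b => r (ψ b)) ((fderiv ℝ r (ψ a)).comp (fderiv ℝ ψ a)) a := hr.comp a hd
  have h2 : (fun b => r (ψ b)) =ᶠ[𝓝 a] ψ := by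
    filter_upwards [hc.openO.mem_nhds ha] with b hb
    exact h.fixed _ (hc.mem b hb).1
  have h3 : HasFDerivAt (fun b => r (ψ b)) (fderiv ℝ ψ a) a := hd.congr_of_eventuallyEq h2
  have h4 := h1.unique h3
  have h5 := DFunLike.congr_fun h4 w
  simpa using h5

theorem dpsi_JP (h : Sub n M U r χ) {J : E N →L[ℝ] E n} {ψ : E n → E N} {O : Set (E n)} {V : Set (E N)}
    (hc : Chart M J ψ O V) {x : E N} (hx : x ∈ M) (hV : x ∈ V) (w : E N) :
    fderiv ℝ ψ (J x) (J (fderiv ℝ r x w)) = fderiv ℝ r x w := by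
  have hrx : r x = x := h.fixed x hx
  have hr : HasFDerivAt r (fderiv ℝ r x) x := (h.smooth.differentiable (by simp) x).hasFDerivAt
  have hJ : HasFDerivAt (fun y => J (r y)) (J.comp (fderiv ℝ r x)) x := J.hasFDerivAt.comp x hr
  have hψ : HasFDerivAt ψ (fderiv ℝ ψ (J (r x))) (J (r x)) :=
    (hc.smooth.differentiable (by simp) (J (r x))).hasFDerivAt
  have h1 : HasFDerivAt (fun y => ψ (J (r y))) ((fderiv ℝ ψ (J (r x))).comp (J.comp (fderiv ℝ r x))) x := hψ.comp x hJ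
  have hV' : r x ∈ V := by rw [hrx]; exact hV
  have h2 : (fun y => ψ (J (r y))) =ᶠ[𝓝 x] r := by
    filter_upwards [h.isOpen.mem_nhds (h.sub hx), hr.continuousAt.preimage_mem_nhds (hc.openV.mem_nhds hV')] with y hy hy'
    exact (hc.inv _ (h.maps hy) hy').2
  have h3 : HasFDerivAt (fun y => ψ (J (r y))) (fderiv ℝ r x) x := hr.congr_of_eventuallyEq h2
  have h4 := h1.unique h3
  have h5 := DFunLike.congr_fun h4 w
  rw [hrx] at h5
  simpa using h5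

theorem iota_mem (h : Sub n M U r χ) {J : E N →L[ℝ] E n} {ψ : E n → E N} {O : Set (E n)} {V : Set (E N)}
    (hc : Chart M J ψ O V) {ζ : Ph n} (hζ : ζ.1 ∈ O) : iota r J ψ ζ ∈ TT M r ∧ (iota r J ψ ζ).1 ∈ V := by
  have h1 := hc.mem _ hζ
  refine ⟨⟨h1.1, ?_⟩, h1.2.1⟩
  change adj (fderiv ℝ r (ψ ζ.1)) (adj (J.comp (fderiv ℝ r (ψ ζ.1))) ζ.2) = adj (J.comp (fderiv ℝ r (ψ ζ.1))) ζ.2
  rw [← adj_comp]
  congr 1
  ext1 w
  have h2 : fderiv ℝ r (ψ ζ.1) (fderiv ℝ r (ψ ζ.1) w) = fderiv ℝ r (ψ ζ.1) w := h.tan_of_range h1.1 w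
  simp [h2]

theorem kappa_iota (h : Sub n M U r χ) {J : E N →L[ℝ] E n} {ψ : E n → E N} {O : Set (E n)} {V : Set (E N)}
    (hc : Chart M J ψ O V) {ζ : Ph n} (hζ : ζ.1 ∈ O) : kappa J ψ (iota r J ψ ζ) = ζ := by
  have h1 := hc.mem _ hζ
  have h2 : J (iota r J ψ ζ).1 = ζ.1 := h1.2.2
  apply Prod.ext
  · exact h2
  · change adj (fderiv ℝ ψ (J (iota r J ψ ζ).1)) (adj (J.comp (fderiv ℝ r (ψ ζ.1))) ζ.2) = ζ.2
    rw [h2, ← adj_comp]
    apply adj_ext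
    intro w
    have h3 : fderiv ℝ r (ψ ζ.1) (fderiv ℝ ψ ζ.1 w) = fderiv ℝ ψ ζ.1 w := P_dpsi h hc hζ w
    have h4 : J (fderiv ℝ ψ ζ.1 w) = w := J_dpsi hc hζ w
    simp only [ContinuousLinearMap.comp_apply]
    rw [h3, h4]

theorem iota_kappa (h : Sub n M U r χ) {J : E N →L[ℝ] E n} {ψ : E n → E N} {O : Set (E n)} {V : Set (E N)}
    (hc : Chart M J ψ O V) {z : Ph N} (hz : z ∈ TT M r) (hV : z.1 ∈ V) :
    (kappa J ψ z).1 ∈ O ∧ iota r J ψ (kappa J ψ z) = z := by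
  have h1 := hc.inv _ hz.1 hV
  refine ⟨h1.1, ?_⟩
  have h2 : ψ (kappa J ψ z).1 = z.1 := h1.2
  apply Prod.ext
  · exact h2
  · change adj (J.comp (fderiv ℝ r (ψ (kappa J ψ z).1))) (adj (fderiv ℝ ψ (J z.1)) z.2) = z.2
    rw [h2, ← adj_comp]
    have h3 : adj (fderiv ℝ r z.1) z.2 = z.2 := hz.2
    have h4 : (fderiv ℝ ψ (J z.1)).comp (J.comp (fderiv ℝ r z.1)) = fderiv ℝ r z.1 := by
      ext1 w
      exact dpsi_JP h hc hz.1 hV w
    rw [h4, h3]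

end Pool.Agent.Helper59.GM
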