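import Pool.Agent.Helper59.GM.StmtM
import Pool.Agent.Helper59.GM.Defs

/-!
# GM-55 Scale1: scaling of the data

Scaling by `lam > 0`: `sM lam M = {y | lam • y ∈ M}`, `sr lam r y = lam⁻¹ • r (lam • y)`, `sg lam g y u w = g (lam • y) (lam • u) (lam • w)`.

Proof. `scale_fderiv`: `sr lam r` is the composition of `r` with two linear isomorphisms, `fderiv (sr lam r) y = lam⁻¹ • (fderiv r (lam • y) ∘ (lam •))` (valid also if `r` is not differentiable: `ContinuousLinearEquiv.comp_fderiv`, `ContinuousLinearEquiv.comp_right_fderiv`, or `fderiv_const_smul'`-type lemmas) `= fderiv r (lam • y)`. `scale_pull`: from this.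
`scale_manifold`: `sM lam M` is the image of `M` under the homeomorphism `x ↦ lam⁻¹ • x`; the other points are clear. `scale_metric`: `Tangent (sr lam r) y v ↔ Tangent r (lam • y) v ↔ Tangent r (lam • y) (lam • v)` (linearity); smoothness: `scale_pull`, composition with `y ↦ lam • y`.
-/

set_option autoImplicit false
set_option maxSynthPendingDepth 3

open scoped ContDiff InnerProductSpace Topology
open Pool.Agent.Helper59.GT

namespace Pool.Agent.Helper59.GM

/-- The scaled set. -/
def sM {N : ℕ} (lam : ℝ) (M : Set (E N)) : Set (E N) := {y | lam • y ∈ M}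

/-- The scaled retraction. -/
noncomputable def sr {N : ℕ} (lam : ℝ) (r : E N → E N) (y : E N) : E N := lam⁻¹ • r (lam • y)

/-- The scaled metric. -/
noncomputable def sg {N : ℕ} (lam : ℝ) (g : E N → E N → E N → ℝ) (y u w : E N) : ℝ := g (lam • y) (lam • u) (lam • w)

variable {n N : ℕ} {M U : Set (E N)} {r : E N → E N} {lam : ℝ}

private theorem Scale1_mul (hl : 0 < lam) (x : E N) : lam • lam⁻¹ • x = x := by
  rw [smul_smul, mul_inv_cancel₀ hl.ne', one_smul]

theorem scale_fderiv (hl : 0 < lam) (y : E N) : fderiv ℝ (sr lam r) y = fderiv ℝ r (lam • y) := by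
  have h1 : sr lam r = fun z => (lam⁻¹ • r) (lam • z) := rfl
  rw [h1, fderiv_comp_smul, fderiv_const_smul_field, Pi.smul_apply, smul_smul, mul_inv_cancel₀ hl.ne', one_smul]

theorem scale_tangent (hl : 0 < lam) (y v : E N) : GMS.Tangent (sr lam r) y v ↔ GMS.Tangent r (lam • y) (lam • v) := by
  unfold GMS.Tangent
  rw [scale_fderiv hl, map_smul]
  constructor
  · intro h
    rw [h]
  · intro h
    exact smul_right_injective _ hl.ne' h

theorem scale_pull (hl : 0 < lam) (g : E N → E N → E N → ℝ) (y u w : E N) :
    GMS.pull (sr lam r) (sg lam g) y u w = GMS.pull r g (lam • y) (lam • u) (lam • w) := by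
  unfold GMS.pull
  rw [scale_fderiv hl, map_smul, map_smul]
  simp only [sg, sr]
  rw [Scale1_mul hl]

private theorem Scale1_pre : sM lam M = (fun y : E N => lam • y) ⁻¹' M := rfl

theorem scale_manifold (hl : 0 < lam) (h : GMS.IsClosedManifold n M U r) :
    GMS.IsClosedManifold n (sM lam M) (sM lam U) (sr lam r) where
  compact := by
    have h1 := (Homeomorph.smulOfNeZero (α := E N) lam hl.ne').isCompact_preimage.2 h.compact
    exact h1
  connected := by
    have h1 := (Homeomorph.smulOfNeZero (α := E N) lam hl.ne').isConnected_preimage.2 h.connected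
    exact h1
  isOpen := h.isOpen.preimage (continuous_const_smul lam)
  sub := fun y hy => h.sub hy
  smooth := by
    have h1 : ContDiffOn ℝ ∞ (fun y : E N => r (lam • y)) (sM lam U) :=
      h.smooth.comp (contDiff_const_smul lam).contDiffOn (fun y hy => hy)
    exact h1.const_smul lam⁻¹
  maps := by
    intro y hy
    show lam • lam⁻¹ • r (lam • y) ∈ M
    rw [Scale1_mul hl]
    exact h.maps _ hy
  fixed := by
    intro y hy
    show lam⁻¹ • r (lam • y) = y
    rw [h.fixed _ hy, smul_smul, inv_mul_cancel₀ hl.ne', one_smul]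
  rank := by
    intro y hy
    rw [scale_fderiv hl]
    exact h.rank _ hy

theorem scale_metric (hl : 0 < lam) {m : WithTop ℕ∞} {g : E N → E N → E N → ℝ} (hg : GMS.IsMetric m M U r g) :
    GMS.IsMetric m (sM lam M) (sM lam U) (sr lam r) (sg lam g) where
  add := by
    intro y hy u v w hu hv hw
    rw [scale_tangent hl] at hu hv hw
    show g (lam • y) (lam • (u + v)) (lam • w) = g (lam • y) (lam • u) (lam • w) + g (lam • y) (lam • v) (lam • w)
    rw [smul_add]
    exact hg.add _ hy _ _ _ hu hv hw
  smul := by
    intro y hy a u w hu hw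
    rw [scale_tangent hl] at hu hw
    show g (lam • y) (lam • (a • u)) (lam • w) = a * g (lam • y) (lam • u) (lam • w)
    rw [smul_comm]
    exact hg.smul _ hy _ _ _ hu hw
  symm := by
    intro y hy u w hu hw
    rw [scale_tangent hl] at hu hw
    exact hg.symm _ hy _ _ hu hw
  pos := by
    intro y hy u hu hne
    rw [scale_tangent hl] at hu
    exact hg.pos _ hy _ hu (smul_ne_zero hl.ne' hne)
  smooth := by
    intro u w
    have h1 : (fun x => GMS.pull (sr lam r) (sg lam g) x u w) = fun x => GMS.pull r g (lam • x) (lam • u) (lam • w) := by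
      funext x
      exact scale_pull hl g x u w
    rw [h1]
    exact (hg.smooth (lam • u) (lam • w)).comp (contDiff_const_smul lam).contDiffOn (fun y hy => hy)

end Pool.Agent.Helper59.GM
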