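import Pool.Agent.Helper59.GM.SepOne
import Pool.Agent.Helper59.GT.SepStep

/-!
# GM-32 SepM: separating finitely many pairs of far arcs inside `M`

Proof. Induction on the finset `S`, for all `η > 0` (as GT-27 `exists_sep`). Empty: `d = c`. Insert `(a, b)` to `S'`: `d'` for `S'` and `min (η / 2) μ`. By compactness (`d'` is continuous; finitely many pairs of compact arcs) there is `ν > 0` with `ν ≤ ‖d' s - d' t‖` for `s`, `t` in the arcs of every pair of `S'` (as `sep_margin`; or only the continuous function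
`(s, t) ↦ ‖d' s - d' t‖` on compact sets). `β` from `exists_bump` for the arc `a` (`a < q`, `4 ≤ q`). The arcs `b'` not equal or adjacent (cyclically) to `a` have `β = 0` on them; so if `β t ≠ 0`, the reduction of `t` modulo `P` lies in one of the closed arcs `a - 1, a, a + 1` (cyclically), that is `|t + j P - t₀| ≤ 3 P / (2 q)` for some `j : ℤ`, `t₀ = (a + 1/2) P / q`;
the set of the `t` with this property is closed, so it contains `tsupport β`. For such `t`: `|t + j P - t₀| ≤ ρ`, `d' t = d' (t + j P) ∈ M`, `‖d' (t + j P) - c (t + j P)‖ ≤ μ`: so `d' t ∈ V` for the chart belonging to `t₀` (`hch`). `sep_one` for `d'`, this chart, `β` and `min (η / 2) (ν / 4)` gives `d`.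
The pair `(a, b)`: `β = 1` on arc `a` and `β = 0` on arc `b`. The pairs of `S'`: `‖d s - d t‖ ≥ ν - 2 (ν / 4) > 0`. Closeness to `c`: triangle inequality.
-/

set_option autoImplicit false
set_option maxSynthPendingDepth 3

open scoped ContDiff InnerProductSpace
open Pool.Agent.Helper59.GT

namespace Pool.Agent.Helper59.GM

variable {n N : ℕ} {M U : Set (E N)} {r : E N → E N} {χ : E N → ℝ} {g : E N → Bil N}

private theorem sepM_margin {N : ℕ} (c : ℝ → E N) (hc : Continuous c) (a b a' b' : ℝ)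
    (h : ∀ s ∈ Set.Icc a b, ∀ t ∈ Set.Icc a' b', c s ≠ c t) :
    ∃ μ > 0, ∀ s ∈ Set.Icc a b, ∀ t ∈ Set.Icc a' b', μ ≤ ‖c s - c t‖ := by
  have hK : IsCompact (Set.Icc a b ×ˢ Set.Icc a' b') := isCompact_Icc.prod isCompact_Icc
  rcases (Set.Icc a b ×ˢ Set.Icc a' b').eq_empty_or_nonempty with he | hne
  · refine ⟨1, one_pos, fun s hs t ht => ?_⟩
    have : (s, t) ∈ Set.Icc a b ×ˢ Set.Icc a' b' := ⟨hs, ht⟩
    rw [he] at this
    exact absurd this (Set.notMem_empty _)
  · obtain ⟨p, hp, hmin⟩ := hK.exists_isMinOn hne (f := fun p : ℝ × ℝ => ‖c p.1 - c p.2‖) (by fun_prop)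
    refine ⟨‖c p.1 - c p.2‖, norm_pos_iff.2 (sub_ne_zero.2 (h p.1 hp.1 p.2 hp.2)), fun s hs t ht => ?_⟩
    have h1 : (s, t) ∈ Set.Icc a b ×ˢ Set.Icc a' b' := ⟨hs, ht⟩
    exact isMinOn_iff.1 hmin (s, t) h1

private theorem sepM_supp {P : ℝ} (hP : 0 < P) {q : ℕ} (hq : 4 ≤ q) {a : ℕ} (ha : a < q) {β : ℝ → ℝ}
    (hper : ∀ t, β (t + P) = β t)
    (h0 : ∀ b : ℕ, b < q → (a + 2 ≤ b ∧ b + 2 ≤ a + q ∨ b + 2 ≤ a ∧ a + 2 ≤ b + q) →
        ∀ t ∈ Set.Icc (b * P / q) ((b + 1) * P / q), β t = 0) {t : ℝ} (ht : β t ≠ 0) :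
    ∃ j : ℤ, |t + j * P - (a + 1 / 2) * P / q| ≤ 3 * P / (2 * q) := by
  have hqR : (4 : ℝ) ≤ q := by exact_mod_cast hq
  have hq0 : (0 : ℝ) < q := by linarith
  have hper' : Function.Periodic β P := hper
  set m : ℤ := ⌊t / P⌋ with hm
  set t' : ℝ := t - m * P with ht'
  have hm1 : (m : ℝ) ≤ t / P := Int.floor_le _
  have hm2 : t / P < m + 1 := Int.lt_floor_add_one _
  rw [le_div_iff₀ hP] at hm1
  rw [div_lt_iff₀ hP] at hm2
  have h1 : 0 ≤ t' := by rw [ht']; linarith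
  have h2 : t' < P := by rw [ht']; linarith
  have hβ' : β t' = β t := hper'.sub_int_mul_eq m
  set b : ℕ := ⌊t' * q / P⌋₊ with hb
  have hb1 : (b : ℝ) ≤ t' * q / P := Nat.floor_le (by positivity)
  have hb2 : t' * q / P < b + 1 := Nat.lt_floor_add_one _
  rw [le_div_iff₀ hP] at hb1
  rw [div_lt_iff₀ hP] at hb2
  have hbq : b < q := by
    have h3 : (b : ℝ) * P < q * P := by nlinarith
    exact_mod_cast lt_of_mul_lt_mul_right h3 hP.le
  have hbm : t' ∈ Set.Icc (b * P / q) ((b + 1) * P / q) := by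
    constructor
    · rw [div_le_iff₀ hq0]; exact hb1
    · rw [le_div_iff₀ hq0]; exact hb2.le
  have hne : ¬ (a + 2 ≤ b ∧ b + 2 ≤ a + q ∨ b + 2 ≤ a ∧ a + 2 ≤ b + q) := by
    intro hc
    exact ht (by rw [← hβ']; exact h0 b hbq hc t' hbm)
  have key : ∀ (i : ℤ) (e : ℤ), |((b : ℝ) + e * q) - a| ≤ 1 → t + i * P = t' + e * P →
      |t + i * P - (a + 1 / 2) * P / q| ≤ 3 * P / (2 * q) := by
    intro i e he hi
    rw [hi, abs_le]
    rw [abs_le] at he
    obtain ⟨he1, he2⟩ := he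
    have e1 : t' + e * P - (a + 1 / 2) * P / q = (t' * q + e * q * P - (a + 1 / 2) * P) / q := by
      field_simp
    have e2 : 3 * P / (2 * q) = (3 / 2 * P) / q := by
      field_simp
    rw [e1, e2, ← neg_div]
    constructor
    · apply div_le_div_of_nonneg_right _ hq0.le
      nlinarith
    · apply div_le_div_of_nonneg_right _ hq0.le
      nlinarith
  by_cases c1 : a + 2 ≤ b
  · -- a = 0 and b = q - 1
    have c2 : a + q < b + 2 := by
      by_contra hcon
      exact hne (Or.inl ⟨c1, by omega⟩)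
    have c3 : a = 0 := by omega
    have c4 : b + 1 = q := by omega
    refine ⟨-m - 1, key (-m - 1) (-1) ?_ ?_⟩
    · have c5 : (b : ℝ) + 1 = q := by exact_mod_cast c4
      rw [c3, ← c5]
      push_cast
      rw [abs_le]
      constructor <;> linarith
    · rw [ht']
      push_cast
      ring
  · by_cases c2 : b + 2 ≤ a
    · have c3 : b + q < a + 2 := by
        by_contra hcon
        exact hne (Or.inr ⟨c2, by omega⟩)
      have c4 : b = 0 := by omega
      have c5 : a + 1 = q := by omega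
      refine ⟨-m + 1, key (-m + 1) 1 ?_ ?_⟩
      · have c6 : (a : ℝ) + 1 = q := by exact_mod_cast c5
        rw [c4, ← c6]
        push_cast
        rw [abs_le]
        constructor <;> linarith
      · rw [ht']
        push_cast
        ring
    · refine ⟨-m, key (-m) 0 ?_ ?_⟩
      · have c3 : (b : ℝ) ≤ a + 1 := by exact_mod_cast (by omega : b ≤ a + 1)
        have c4 : (a : ℝ) ≤ b + 1 := by exact_mod_cast (by omega : a ≤ b + 1)
        push_cast
        rw [abs_le]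
        constructor <;> linarith
      · rw [ht']
        push_cast
        ring

private theorem sepM_tsupp {P : ℝ} (hP : 0 < P) {β : ℝ → ℝ} {t₀ w : ℝ}
    (h0 : ∀ t, β t ≠ 0 → ∃ j : ℤ, |t + j * P - t₀| ≤ w) {t : ℝ} (ht : t ∈ tsupport β) :
    ∃ j : ℤ, |t + j * P - t₀| ≤ w := by
  refine ⟨round ((t₀ - t) / P), ?_⟩
  apply le_of_forall_pos_le_add
  intro ε hε
  have h1 := Metric.mem_closure_iff.1 ht ε hε
  obtain ⟨t', ht', hd⟩ := h1
  obtain ⟨j, hj⟩ := h0 t' ht'
  have e1 : ∀ i : ℤ, |t + i * P - t₀| = P * |(t₀ - t) / P - i| := by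
    intro i
    rw [← abs_of_pos hP, ← abs_mul, abs_of_pos hP, ← abs_neg]
    congr 1
    field_simp
    ring
  rw [e1]
  have h2 : P * |(t₀ - t) / P - round ((t₀ - t) / P)| ≤ P * |(t₀ - t) / P - j| :=
    mul_le_mul_of_nonneg_left (round_le _ _) hP.le
  rw [← e1 j] at h2
  have h3 : |t + j * P - t₀| ≤ |t - t'| + |t' + j * P - t₀| := by
    have h4 : t + j * P - t₀ = (t - t') + (t' + j * P - t₀) := by ring
    rw [h4]
    exact abs_add_le _ _
  rw [Real.dist_eq] at hd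
  linarith

theorem exists_sepM (h : Sub n M U r χ) (hn : 3 ≤ n) (c : ℝ → E N) (P : ℝ) (hP : 0 < P) (hs : ContDiff ℝ ∞ c)
    (hper : ∀ t, c (t + P) = c t) (hM : ∀ t, c t ∈ M) (q : ℕ) (hq : 4 ≤ q) (ρ μ : ℝ) (hρ : 3 * P / (2 * q) ≤ ρ) (hμ : 0 < μ)
    (hch : ∀ t₀, ∃ (J : E N →L[ℝ] E n) (ψ : E n → E N) (O : Set (E n)) (V : Set (E N)),
      Chart M J ψ O V ∧ ∀ t, |t - t₀| ≤ ρ → ∀ y ∈ M, ‖y - c t‖ ≤ μ → y ∈ V)
    (S : Finset (ℕ × ℕ)) (hS : ∀ x ∈ S, Far q x.1 x.2) (η : ℝ) (hη : 0 < η) :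
    ∃ d : ℝ → E N, ContDiff ℝ ∞ d ∧ (∀ t, d (t + P) = d t) ∧ (∀ t, d t ∈ M) ∧
      (∀ t, ‖d t - c t‖ ≤ η ∧ ‖deriv d t - deriv c t‖ ≤ η ∧ ‖deriv (deriv d) t - deriv (deriv c) t‖ ≤ η) ∧
      ∀ x ∈ S, ∀ s ∈ Set.Icc (x.1 * P / q) ((x.1 + 1) * P / q), ∀ t ∈ Set.Icc (x.2 * P / q) ((x.2 + 1) * P / q),
        d s ≠ d t := by
  classical
  induction S using Finset.induction_on generalizing η with
  | empty =>
    refine ⟨c, hs, hper, hM, fun t => ?_, by simp⟩
    simp [hη.le]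
  | insert x S hxS ih =>
    obtain ⟨a, b⟩ := x
    obtain ⟨d', hd', hper', hM', hsm', hsep'⟩ := ih (fun y hy => hS y (Finset.mem_insert_of_mem hy))
      (min (η / 2) μ) (lt_min (by positivity) hμ)
    have hfar : Far q a b := hS (a, b) (Finset.mem_insert_self _ _)
    -- a common margin
    have hmar : ∀ T : Finset (ℕ × ℕ), T ⊆ S → ∃ ν > 0, ∀ y ∈ T,
        ∀ s ∈ Set.Icc (y.1 * P / q) ((y.1 + 1) * P / q),
        ∀ t ∈ Set.Icc (y.2 * P / q) ((y.2 + 1) * P / q), ν ≤ ‖d' s - d' t‖ := by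
      intro T
      induction T using Finset.induction_on with
      | empty => intro _; exact ⟨1, one_pos, by simp⟩
      | insert y T _ ih2 =>
        intro hT
        obtain ⟨μ', hμ', hμ2⟩ := ih2 fun z hz => hT (Finset.mem_insert_of_mem hz)
        obtain ⟨ν, hν, hν2⟩ := sepM_margin d' hd'.continuous _ _ _ _
          (hsep' y (hT (Finset.mem_insert_self _ _)))
        refine ⟨min μ' ν, lt_min hμ' hν, fun z hz s hs' t ht => ?_⟩
        rcases Finset.mem_insert.1 hz with rfl | hz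
        · exact (min_le_right _ _).trans (hν2 s hs' t ht)
        · exact (min_le_left _ _).trans (hμ2 z hz s hs' t ht)
    obtain ⟨ν, hν, hν2⟩ := hmar S subset_rfl
    obtain ⟨β, B, hβ, hβper, hB, hβbd, hβ1, hβ0⟩ := exists_bump P hP q hq a hfar.1
    obtain ⟨J, ψ, O, V, hc, hcV⟩ := hch ((a + 1 / 2) * P / q)
    have hβV : ∀ t ∈ tsupport β, d' t ∈ V := by
      intro t ht
      obtain ⟨j, hj⟩ := sepM_tsupp hP (fun t ht => sepM_supp hP hq hfar.1 hβper hβ0 ht) ht
      have hpd : Function.Periodic d' P := hper'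
      have h1 : d' t = d' (t + j * P) := (hpd.int_mul j t).symm
      rw [h1]
      exact hcV (t + j * P) (hj.trans hρ) _ (hM' _) ((hsm' _).1.trans (min_le_right _ _))
    obtain ⟨d, hd, hdper, hdM, hdsm, hdsep⟩ := sep_one h hn hP hd' hper' hM' hc hβ hβper hβV
      (min (η / 2) (ν / 4)) (lt_min (by positivity) (by positivity))
    have hbd : ∀ (x y z : E N), ‖x - y‖ ≤ min (η / 2) (ν / 4) → ‖y - z‖ ≤ min (η / 2) μ → ‖x - z‖ ≤ η := by
      intro x y z h1 h2
      have h3 : x - z = (x - y) + (y - z) := by abel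
      rw [h3]
      refine (norm_add_le _ _).trans ?_
      have h4 := h1.trans (min_le_left _ _)
      have h5 := h2.trans (min_le_left _ _)
      linarith
    refine ⟨d, hd, hdper, hdM, fun t => ⟨hbd _ _ _ (hdsm t).1 (hsm' t).1, hbd _ _ _ (hdsm t).2.1 (hsm' t).2.1,
      hbd _ _ _ (hdsm t).2.2 (hsm' t).2.2⟩, ?_⟩
    intro y hy
    rcases Finset.mem_insert.1 hy with rfl | hy
    · intro s hs1 t ht1
      exact hdsep s t (hβ1 s hs1) (hβ0 b hfar.2.1 hfar.2.2 t ht1)
    · intro s hs1 t ht1 hst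
      have h1 := hν2 y hy s hs1 t ht1
      have h2 := (hdsm s).1.trans (min_le_right _ _)
      have h3 := (hdsm t).1.trans (min_le_right _ _)
      have h4 : d' s - d' t = (d t - d' t) - (d s - d' s) := by
        rw [hst]
        abel
      rw [h4] at h1
      have h5 := norm_sub_le (d t - d' t) (d s - d' s)
      linarith

end Pool.Agent.Helper59.GM
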