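import Pool.Agent.Helper59.GM.UnifSmall
import Pool.Agent.Helper59.GM.SubLem
import Pool.Agent.Helper59.GT.Avoid

/-!
# GM-30 SepOne: one perturbation inside `M` which separates two parts of a closed curve

Proof. `F (t, l) = ψ (J (c t) + β t • l) - ψ (J (c t))`: smooth, `P`-periodic in `t`, `F (t, 0) = 0`; `lam` from `unif_small` for `η`. The set `{J (c t) | t ∈ tsupport β}` is the image of the compact set `tsupport β ∩ [0, P]` (periodicity of `c`, `β`, so of `tsupport β`), contained in the open set `O` (`Chart.inv`): there is `ρ > 0` with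
`J (c t) + w ∈ O` for `t ∈ tsupport β`, `‖w‖ < ρ` (`IsCompact.exists_thickening_subset_open`). `|β| ≤ B` (continuous, periodic). Let `l` be from `avoid` (dimension `n`) for `c1 = c2 = J ∘ c` and `min lam (ρ / (B + 1))`. `d t = c t + F (t, l)`.
If `β t = 0` then `d t = c t`. If `β t ≠ 0` then `t ∈ tsupport β`, `ψ (J (c t)) = c t` (`Chart.inv`), `d t = ψ (J (c t) + β t • l) ∈ M` (`Chart.mem`, `‖β t • l‖ < ρ`). So `d t ∈ M` always. The derivatives of `d - c = F (·, l)` are bounded by `η`.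
Let `β s = 1`, `β t = 0`, `d s = d t`. Apply `J`: `J (d s) = J (c s) + l` (`Chart.mem`), `J (d t) = J (c t) = J (c t) + latt 0` (`latt_zero`): contradicts `avoid`.
-/

set_option autoImplicit false
set_option maxSynthPendingDepth 3

open scoped ContDiff InnerProductSpace
open Pool.Agent.Helper59.GT

namespace Pool.Agent.Helper59.GM

variable {n N : ℕ} {M U : Set (E N)} {r : E N → E N} {χ : E N → ℝ} {g : E N → Bil N}

private theorem sepOne_latt_zero {n : ℕ} : (latt 0 : E n) = 0 := by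
  ext i
  simp [latt]

private theorem sepOne_red {P : ℝ} (hP : 0 < P) {α : Type*} {f : ℝ → α} (hf : ∀ t, f (t + P) = f t)
    {γ : Type*} {g : ℝ → γ} (hg : ∀ t, g (t + P) = g t) (t : ℝ) :
    ∃ t' ∈ Set.Icc 0 P, f t' = f t ∧ g t' = g t := by
  have hfp : Function.Periodic f P := hf
  have hgp : Function.Periodic g P := hg
  refine ⟨t - ⌊t / P⌋ * P, ⟨?_, ?_⟩, ?_, ?_⟩
  · have := Int.floor_le (t / P)
    rw [le_div_iff₀ hP] at this
    linarith
  · have := Int.lt_floor_add_one (t / P)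
    rw [div_lt_iff₀ hP] at this
    linarith
  · exact hfp.sub_int_mul_eq ⌊t / P⌋
  · exact hgp.sub_int_mul_eq ⌊t / P⌋

theorem sep_one (h : Sub n M U r χ) (hn : 3 ≤ n) {c : ℝ → E N} {P : ℝ} (hP : 0 < P) (hs : ContDiff ℝ ∞ c)
    (hper : ∀ t, c (t + P) = c t) (hM : ∀ t, c t ∈ M) {J : E N →L[ℝ] E n} {ψ : E n → E N} {O : Set (E n)} {V : Set (E N)}
    (hc : Chart M J ψ O V) {β : ℝ → ℝ} (hβ : ContDiff ℝ ∞ β) (hβP : ∀ t, β (t + P) = β t)
    (hβV : ∀ t ∈ tsupport β, c t ∈ V) (η : ℝ) (hη : 0 < η) :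
    ∃ d : ℝ → E N, ContDiff ℝ ∞ d ∧ (∀ t, d (t + P) = d t) ∧ (∀ t, d t ∈ M) ∧
      (∀ t, ‖d t - c t‖ ≤ η ∧ ‖deriv d t - deriv c t‖ ≤ η ∧ ‖deriv (deriv d) t - deriv (deriv c) t‖ ≤ η) ∧
      ∀ s t, β s = 1 → β t = 0 → d s ≠ d t := by
  have hJc : ContDiff ℝ ∞ (fun t => J (c t)) := J.contDiff.comp hs
  obtain ⟨F, hFdef⟩ : ∃ F : ℝ × E n → E N, F = fun z => ψ (J (c z.1) + β z.1 • z.2) - ψ (J (c z.1)) :=
    ⟨_, rfl⟩
  have hFv : ∀ t l, F (t, l) = ψ (J (c t) + β t • l) - ψ (J (c t)) := by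
    intro t l
    rw [hFdef]
  have hF : ContDiff ℝ ∞ F := by
    rw [hFdef]
    have e1 : ContDiff ℝ ∞ (fun z : ℝ × E n => J (c z.1)) := hJc.comp contDiff_fst
    have e2 : ContDiff ℝ ∞ (fun z : ℝ × E n => β z.1) := hβ.comp contDiff_fst
    exact (hc.smooth.comp (e1.add (e2.smul contDiff_snd))).sub (hc.smooth.comp e1)
  obtain ⟨lam, hlam, hsm⟩ := unif_small F hF P hP
    (fun t l => by rw [hFv, hFv, hper, hβP]) (fun t => by rw [hFv, smul_zero, add_zero, sub_self]) η hη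
  -- the margin
  have hK : IsCompact ((fun t => J (c t)) '' (tsupport β ∩ Set.Icc 0 P)) :=
    (isCompact_Icc.inter_left (isClosed_tsupport β)).image hJc.continuous
  have hKO : (fun t => J (c t)) '' (tsupport β ∩ Set.Icc 0 P) ⊆ O := by
    rintro _ ⟨t, ht, rfl⟩
    exact (hc.inv (c t) (hM t) (hβV t ht.1)).1
  obtain ⟨ρ, hρ, hρO⟩ := hK.exists_thickening_subset_open hc.openO hKO
  have hmar : ∀ t, β t ≠ 0 → ∀ w : E n, ‖w‖ < ρ → J (c t) + w ∈ O := by
    intro t ht w hw
    obtain ⟨t', ht', h1, h2⟩ := sepOne_red hP hβP hper t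
    apply hρO
    rw [Metric.mem_thickening_iff]
    refine ⟨J (c t'), ⟨t', ⟨subset_tsupport β ?_, ht'⟩, rfl⟩, ?_⟩
    · rw [Function.mem_support, h1]
      exact ht
    · rw [h2, dist_eq_norm, add_sub_cancel_left]
      exact hw
  obtain ⟨B0, hB0⟩ := isCompact_Icc.exists_bound_of_continuousOn (s := Set.Icc 0 P) hβ.continuous.continuousOn
  obtain ⟨B, hB, hBβ⟩ : ∃ B : ℝ, 0 ≤ B ∧ ∀ t, ‖β t‖ ≤ B := by
    refine ⟨|B0|, abs_nonneg _, fun t => ?_⟩
    obtain ⟨t', ht', h1, _⟩ := sepOne_red hP hβP hper t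
    rw [← h1]
    exact (hB0 t' ht').trans (le_abs_self _)
  obtain ⟨l, hl, hav⟩ := avoid hn (fun t => J (c t)) (fun t => J (c t)) hJc hJc
    (min lam (ρ / (B + 1))) (lt_min hlam (by positivity))
  have hl1 : ‖l‖ < lam := lt_of_lt_of_le hl (min_le_left _ _)
  have hl2 : ∀ t, ‖β t • l‖ < ρ := by
    intro t
    have h1 : ‖l‖ < ρ / (B + 1) := lt_of_lt_of_le hl (min_le_right _ _)
    rw [lt_div_iff₀ (by positivity)] at h1
    rw [norm_smul]
    have h2 := hBβ t
    have h3 := norm_nonneg l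
    nlinarith
  have hF0 : ∀ t, β t = 0 → F (t, l) = 0 := by
    intro t ht
    rw [hFv, ht, zero_smul, add_zero, sub_self]
  have hF1 : ∀ t, β t ≠ 0 → c t + F (t, l) = ψ (J (c t) + β t • l) := by
    intro t ht
    have h1 := (hc.inv (c t) (hM t) (hβV t (subset_tsupport β ht))).2
    rw [hFv, h1]
    abel
  have hFl : ContDiff ℝ ∞ (fun t => F (t, l)) := hF.comp (contDiff_id.prodMk contDiff_const)
  have htop : (∞ : WithTop ℕ∞) ≠ 0 := by simp
  have hd1 : deriv (fun t => c t + F (t, l)) = fun t => deriv c t + deriv (fun s => F (s, l)) t := by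
    funext t
    exact deriv_fun_add (hs.differentiable htop t) (hFl.differentiable htop t)
  have hcd : ContDiff ℝ ∞ (deriv c) := hs.deriv'
  have hFd : ContDiff ℝ ∞ (deriv (fun s => F (s, l))) := hFl.deriv'
  refine ⟨fun t => c t + F (t, l), hs.add hFl, ?_, ?_, ?_, ?_⟩
  · intro t
    change c (t + P) + F (t + P, l) = c t + F (t, l)
    rw [hFv, hFv, hper, hβP]
  · intro t
    change c t + F (t, l) ∈ M
    by_cases ht : β t = 0
    · rw [hF0 t ht, add_zero]
      exact hM t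
    · rw [hF1 t ht]
      exact (hc.mem _ (hmar t ht _ (hl2 t))).1
  · intro t
    obtain ⟨s1, s2, s3⟩ := hsm l hl1 t
    refine ⟨?_, ?_, ?_⟩
    · rw [add_sub_cancel_left]
      exact s1
    · rw [hd1]
      change ‖deriv c t + deriv (fun s => F (s, l)) t - deriv c t‖ ≤ η
      rw [add_sub_cancel_left]
      exact s2
    · rw [hd1]
      have e1 : deriv (fun t => deriv c t + deriv (fun s => F (s, l)) t) t =
          deriv (deriv c) t + deriv (deriv (fun s => F (s, l))) t :=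
        deriv_fun_add (hcd.differentiable htop t) (hFd.differentiable htop t)
      rw [e1, add_sub_cancel_left]
      exact s3
  · intro s t hs1 ht0 hst
    have hs0 : β s ≠ 0 := by
      rw [hs1]
      exact one_ne_zero
    change c s + F (s, l) = c t + F (t, l) at hst
    rw [hF1 s hs0, hF0 t ht0, add_zero] at hst
    have h1 := congrArg J hst
    rw [(hc.mem _ (hmar s hs0 _ (hl2 s))).2.2, hs1, one_smul] at h1
    apply hav s t 0
    rw [sepOne_latt_zero, add_zero]
    exact h1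

end Pool.Agent.Helper59.GM
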