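import Pool.Agent.Helper59.GM.GeoChainM
import Pool.Agent.Helper59.GT.Tour

/-!
# GM-27 SeqM: a periodic two-sided pseudo-orbit in the shell of `M` through given points

Proof. `exists_tour` for `r a b := b ∈ K ∧ dist (Φ 1 a) b < δ`, `K = TT M r ∩ Shell g` (`geo_chainM`) gives `N ≥ 1` (called `q` here) and a `q`-periodic sequence `s : ℕ → Ph N`. Put `S i = s ((i % q).toNat)` for `i : ℤ`. `S (i + q) = S i` (`Int.add_emod_right`-like). Step: if `j = (i % q).toNat`, then `((i + 1) % q).toNat` is `j + 1`, or `0` if `j + 1 = q`, and `s 0 = s q`.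
For `y ∈ Y`, `s i = y`: take `S (i : ℤ) = s (i % q) = s i` (periodicity).
-/

set_option autoImplicit false
set_option maxSynthPendingDepth 3

open scoped ContDiff InnerProductSpace
open Pool.Agent.Helper59.GT

namespace Pool.Agent.Helper59.GM

variable {n N : ℕ} {M U : Set (E N)} {r : E N → E N} {χ : E N → ℝ} {g : E N → Bil N}

theorem exists_seqM (hn : 2 ≤ n) (h : Sub n M U r χ) (hg : Hat ∞ U r g) {Φ : ℝ → Ph N → Ph N} {K : ℝ} (hΦ : GeoFlow g Φ K)
    (δ : ℝ) (hδ : 0 < δ) (Y : Finset (Ph N)) (hY : ∀ y ∈ Y, y ∈ TT M r ∩ Shell g) (hne : Y.Nonempty) :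
    ∃ (q : ℕ) (S : ℤ → Ph N), 1 ≤ q ∧ (∀ i, S (i + q) = S i) ∧ (∀ i, S i ∈ TT M r ∩ Shell g) ∧
      (∀ i, dist (Φ 1 (S i)) (S (i + 1)) < δ) ∧ ∀ y ∈ Y, ∃ i, S i = y := by
  obtain ⟨q, s, hq, hper, hstep, hsK, hsY⟩ := exists_tour
    (fun a b => b ∈ TT M r ∩ Shell g ∧ dist (Φ 1 a) b < δ) (TT M r ∩ Shell g)
    (fun a ha b hb => geo_chainM hn h hg hΦ δ hδ a ha b hb) (fun a b hab => hab.1) Y hY hne
  have hP : Function.Periodic s q := hper
  have hq0 : (0 : ℤ) < (q : ℤ) := by exact_mod_cast hq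
  refine ⟨q, fun i => s ((i % (q : ℤ)).toNat), hq, ?_, fun i => hsK _, ?_, ?_⟩
  · intro i
    have e : (i + (q : ℤ)) % (q : ℤ) = i % (q : ℤ) := by
      rw [Int.add_emod_right]
    simp only [e]
  · intro i
    have h0 : 0 ≤ i % (q : ℤ) := Int.emod_nonneg _ (ne_of_gt hq0)
    have h1 : i % (q : ℤ) < q := Int.emod_lt_of_pos _ hq0
    have h2 : i = (q : ℤ) * (i / (q : ℤ)) + i % (q : ℤ) := (Int.mul_ediv_add_emod i q).symm
    obtain ⟨j, hj⟩ := Int.eq_ofNat_of_zero_le h0
    have hst := (hstep j).2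
    rcases Nat.lt_or_ge (j + 1) q with h3 | h3
    · have e : (i + 1) % (q : ℤ) = ((j + 1 : ℕ) : ℤ) := by
        have e1 : i + 1 = ((j + 1 : ℕ) : ℤ) + (q : ℤ) * (i / (q : ℤ)) := by
          push_cast
          omega
        rw [e1, Int.add_mul_emod_self_left]
        exact Int.emod_eq_of_lt (by positivity) (by exact_mod_cast h3)
      simp only [e, hj, Int.toNat_natCast]
      exact hst
    · have hjq : j + 1 = q := by omega
      have e : (i + 1) % (q : ℤ) = 0 := by
        have e1 : i + 1 = (q : ℤ) * (i / (q : ℤ) + 1) := by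
          rw [mul_add, mul_one]
          omega
        rw [e1, Int.mul_emod_right]
      have e2 : s 0 = s (j + 1) := by
        rw [hjq]
        have := hper 0
        rw [zero_add] at this
        exact this.symm
      simp only [e, hj, Int.toNat_natCast, Int.toNat_zero, e2]
      exact hst
  · intro y hy
    obtain ⟨i, hi⟩ := hsY y hy
    refine ⟨(i : ℤ), ?_⟩
    have e : ((i : ℤ) % (q : ℤ)).toNat = i % q := by
      rw [← Int.natCast_mod, Int.toNat_natCast]
    simp only [e]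
    rw [hP.map_mod_nat, hi]

end Pool.Agent.Helper59.GM
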