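import Pool.Agent.Helper59.GM.ExtLem
import Pool.Agent.Helper59.GM.Invar
import Pool.Agent.Helper59.GT.SmoothGeod
import Pool.Agent.Helper59.GT.ConfLem

/-!
# GM-39 SmoothM: smooth conformal changes of hat metrics; geodesics in `M` of smooth hat metrics

Proof. `hat_conf`: `isMetric_conf` (`g` is of class `C ^ m`, `m ≤ ∞`; `u = ext r χ u` is periodic, `ext_per`). For `x ∈ U`: `u x = ext r χ u x = u (r x)` (`ext_eq`), so `exp (2 u x) g x u w = exp (2 u (r x)) g (r x) (P u) (P w) + exp (2 u x) a x ⟪...⟫`: the function `a` becomes `exp (2 u) a`, differentiable (`1 ≤ m`).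
`exists_geoM`: `exists_geodesic_smooth` and `invar`. `unique_geoM`: `unique_geodesic_smooth`. `shift_geoM`: `geodesic_time_shift`.
-/

set_option autoImplicit false
set_option maxSynthPendingDepth 3

open scoped ContDiff InnerProductSpace
open Pool.Agent.Helper59.GT

namespace Pool.Agent.Helper59.GM

variable {n N : ℕ} {M U : Set (E N)} {r : E N → E N} {χ : E N → ℝ} {g : E N → Bil N}

theorem hat_conf (h : Sub n M U r χ) {m : WithTop ℕ∞} (h1 : 1 ≤ m) (hm : m ≤ ∞) (hg : Hat ∞ U r g) {u : E N → ℝ}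
    (hu : ContDiff ℝ m u) (hext : ext r χ u = u) : Hat m U r (conf u g) := by
  obtain ⟨a, ha, heq⟩ := hg.eq
  have hux : ∀ x ∈ U, u x = u (r x) := fun x hx => by
    have h2 := ext_eq h u hx
    rwa [hext] at h2
  have hper : ∀ k x, u (x + latt k) = u x := fun k x => by
    have h2 := ext_per (r := r) (χ := χ) u k x
    rwa [hext] at h2
  have hmet : IsMetric m g := ⟨hg.metric.smooth.of_le hm, hg.metric.symm, hg.metric.pos, hg.metric.per⟩
  refine ⟨isMetric_conf hmet hu hper, fun x => Real.exp (2 * u x) * a x, ?_, ?_⟩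
  · have hud : Differentiable ℝ u := hu.differentiable (by
      intro h0
      rw [h0] at h1
      exact absurd h1 (by norm_num))
    exact ((hud.const_mul 2).exp).mul ha
  · intro x hx v w
    show Real.exp (2 * u x) * g x v w = Real.exp (2 * u (r x)) * g (r x) (fderiv ℝ r x v) (fderiv ℝ r x w) +
      Real.exp (2 * u x) * a x * ⟪v - fderiv ℝ r x v, w - fderiv ℝ r x w⟫_ℝ
    rw [heq x hx, ← hux x hx]
    ring

theorem exists_geoM (h : Sub n M U r χ) (hg : Hat ∞ U r g) (x : E N) (hx : x ∈ M) (v : E N) (hv : Tan r x v)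
    (h1 : g x v v = 1) : ∃ c, MGeo M g c ∧ c 0 = x ∧ deriv c 0 = v := by
  obtain ⟨c, hc, hu, h0, hd⟩ := exists_geodesic_smooth hg.metric x v h1
  refine ⟨c, ⟨hc, hu, fun t => invar h hg hc (by rwa [h0]) (by rwa [h0, hd]) t⟩, h0, hd⟩

theorem unique_geoM (hg : IsMetric ∞ g) (c d : ℝ → E N) (hc : MGeo M g c) (hd : MGeo M g d) (h0 : c 0 = d 0)
    (h1 : deriv c 0 = deriv d 0) : c = d :=
  unique_geodesic_smooth hg c d hc.geo hd.geo hc.unit hd.unit h0 h1

theorem shift_geoM {c : ℝ → E N} (hc : MGeo M g c) (s : ℝ) :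
    MGeo M g (fun t => c (t + s)) ∧ ∀ t, deriv (fun t => c (t + s)) t = deriv c (t + s) := by
  obtain ⟨h1, h2, h3⟩ := geodesic_time_shift hc.geo hc.unit s
  exact ⟨⟨h1, h2, fun t => hc.mem (t + s)⟩, h3⟩

end Pool.Agent.Helper59.GM
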