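import Pool.Agent.Helper59.GM.ExtBound
import Pool.Agent.Helper59.GT.Space
import Pool.Agent.Helper59.GT.ConfConv
import Pool.Agent.Helper59.GT.Limit

/-!
# GM-38 SpaceM: the complete space of the `C ^ 1` functions on `M`

`C1M r χ`: the `p : C1Fun N` with `ext r χ p.fn = p.fn`, i.e. the extensions of the `C ^ 1` functions on `M`.

Proof. `completeM`: the subset is closed in the complete space `C1Fun N` (`IsClosed.completeSpace_coe`; `IsSeqClosed`): let `p_j → p`, `ext r χ p_j.fn = p_j.fn`. For every `x`, `p_j.fn x → p.fn x` (`C1Fun.dist_fn`), and `ext r χ p_j.fn x` is a fixed finite sum of the values `χ (x + latt k) * p_j.fn (r (x + latt k))` (`pz_support`), so it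
tends to `ext r χ p.fn x`. `existsM_of`: `C1Fun.exists_of` (`u = ext r χ u` is periodic by `ext_per`).
`confM_conv`: `C1Fun.dist_fn` and `conf_conv`: if `p_j → p` in `C1M` then `ConvMet (conf p_j.1.fn g) (conf p.1.fn g)`. `isMetric_confM`: `isMetric_conf`, `C1Fun.contDiff`, `C1Fun.per` (`g` is of class `C ^ 1` too).
-/

set_option autoImplicit false
set_option maxSynthPendingDepth 3

open scoped ContDiff InnerProductSpace Topology
open Pool.Agent.Helper59.GT Filter

namespace Pool.Agent.Helper59.GM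

/-- The space of the `C ^ 1` functions on `M` (as extended functions). -/
abbrev C1M {N : ℕ} (r : E N → E N) (χ : E N → ℝ) : Type := {p : C1Fun N // ext r χ p.fn = p.fn}

variable {n N : ℕ} {M U : Set (E N)} {r : E N → E N} {χ : E N → ℝ} {g : E N → Bil N}

private theorem spaceM_sum (h : Sub n M U r χ) (x : E N) : ∃ S : Finset (Fin N → ℤ), ∀ f : E N → ℝ,
    ext r χ f x = ∑ k ∈ S, χ (x + latt k) * f (r (x + latt k)) := by
  obtain ⟨S, hS⟩ := pz_support χ h.chi_supp x
  refine ⟨S, fun f => ?_⟩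
  unfold ext pz
  apply finsum_eq_sum_of_support_subset
  intro k hk
  rw [Function.mem_support] at hk
  by_contra hkS
  apply hk
  show χ (x + latt k) * f (r (x + latt k)) = 0
  rw [hS x (by simp) k hkS, zero_mul]

private theorem spaceM_lim {f : ℕ → C1Fun N} {p : C1Fun N} (hlim : Tendsto f atTop (𝓝 p)) (y : E N) :
    Tendsto (fun j => (f j).fn y) atTop (𝓝 (p.fn y)) := by
  rw [tendsto_iff_dist_tendsto_zero] at hlim ⊢
  refine squeeze_zero (fun j => dist_nonneg) (fun j => ?_) hlim
  rw [Real.dist_eq]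
  exact (C1Fun.dist_fn (f j) p y).1

theorem completeM (h : Sub n M U r χ) : CompleteSpace (C1M r χ) := by
  have hcl : IsClosed {p : C1Fun N | ext r χ p.fn = p.fn} := by
    apply IsSeqClosed.isClosed
    intro f p hf hlim
    show ext r χ p.fn = p.fn
    funext x
    obtain ⟨S, hS⟩ := spaceM_sum h x
    have h1 : Tendsto (fun j => (f j).fn x) atTop (𝓝 (p.fn x)) := spaceM_lim hlim x
    have h2 : Tendsto (fun j => ∑ k ∈ S, χ (x + latt k) * (f j).fn (r (x + latt k))) atTop
        (𝓝 (∑ k ∈ S, χ (x + latt k) * p.fn (r (x + latt k)))) :=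
      tendsto_finsetSum S fun k _ => (spaceM_lim hlim _).const_mul _
    rw [← hS p.fn] at h2
    refine tendsto_nhds_unique h2 (h1.congr fun j => ?_)
    have h3 : ext r χ (f j).fn = (f j).fn := hf j
    rw [← hS (f j).fn, h3]
  exact hcl.completeSpace_coe

theorem existsM_of (u : E N → ℝ) (hu : ContDiff ℝ 1 u) (hext : ext r χ u = u) : ∃ p : C1M r χ, p.1.fn = u := by
  have hper : ∀ k x, u (x + latt k) = u x := by
    intro k x
    have h1 := ext_per (r := r) (χ := χ) u k x
    rwa [hext] at h1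
  obtain ⟨p, hp⟩ := C1Fun.exists_of u hu hper
  exact ⟨⟨p, by rw [hp]; exact hext⟩, hp⟩

theorem isMetric_confM (hg : IsMetric ∞ g) (p : C1M r χ) : IsMetric 1 (conf p.1.fn g) := by
  have hg' : IsMetric 1 g := ⟨hg.smooth.of_le (by simp), hg.symm, hg.pos, hg.per⟩
  exact isMetric_conf hg' p.1.contDiff p.1.per

theorem confM_conv (hg : IsMetric ∞ g) (ps : ℕ → C1M r χ) (p : C1M r χ) (hp : Tendsto ps atTop (𝓝 p)) :
    ConvMet (fun j => conf (ps j).1.fn g) (conf p.1.fn g) := by
  intro ε hε
  obtain ⟨δ, hδ, hc⟩ := conf_conv hg p.1.fn p.1.contDiff p.1.per ε hε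
  have h1 : ∀ᶠ j in atTop, dist (ps j) p < δ := Metric.tendsto_nhds.1 hp δ hδ
  filter_upwards [h1] with j hj
  refine hc (ps j).1.fn ((ps j).1.contDiff.differentiable (by norm_num)) fun x => ?_
  have h2 := C1Fun.dist_fn (ps j).1 p.1 x
  have h3 : dist (ps j).1 p.1 < δ := hj
  exact ⟨lt_of_le_of_lt h2.1 h3, lt_of_le_of_lt h2.2 h3⟩

end Pool.Agent.Helper59.GM
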