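import Pool.Agent.Helper59.GM.PhChart
import Pool.Agent.Helper59.GM.DetBlock

/-!
# GM-13 Trans: the volume in the cotangent bundle of `M` does not depend on the chart

Proof. Let `T = kappa J₂ ψ₂ ∘ iota r J₁ ψ₁`, `W = {ζ | ζ.1 ∈ O₁ ∧ ψ₁ ζ.1 ∈ V₂}` (open), `S = kappa J₁ ψ₁ '' A ⊆ W`. `S` is measurable: `kappa` is continuous, injective on `A` (`iota_kappa`) (`MeasurableSet.image_of_continuousOn_injOn`). `T '' S = kappa J₂ ψ₂ '' A` (`iota_kappa`), `T` is injective on `S` (`iota_kappa`, `kappa_iota`).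
For `ζ = (a, q) ∈ W`, `θ = J₂ ∘ ψ₁`, `T (b, q) = (θ b, adj (Σ b) q)` with `Σ b = (J₁ ∘ P (ψ₁ b)) ∘ Dψ₂ (θ b)` (`adj_comp`), smooth in `b`. So the derivative of `T` at `ζ` is `ξ ↦ (Dθ ξ₁, B ξ₁ + adj (Σ a) ξ₂)` for some linear `B`: its determinant is `det (Dθ a) * det (Σ a)` (`det_block`, `det_adj`). Since `ψ₂ (θ a) = ψ₁ a`, `P (ψ₁ a) ∘ Dψ₂ (θ a) = Dψ₂ (θ a)` (`P_dpsi`),
so `Σ a = J₁ ∘ Dψ₂ (θ a)`, and `Σ a ∘ Dθ a = J₁ Dψ₂ (θ a) J₂ Dψ₁ (a)` is the derivative of `b ↦ J₁ (ψ₂ (J₂ (ψ₁ b))) = b` (near `a`; `Chart.inv`, `Chart.mem`), the identity. So the determinant of `DT` is `1`, and `volume (T '' S) = ∫⁻_S |det DT| = volume S` (`MeasureTheory.lintegral_abs_det_fderiv_eq_addHaar_image`).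
-/

set_option autoImplicit false
set_option maxSynthPendingDepth 3

open scoped ContDiff InnerProductSpace Topology
open Pool.Agent.Helper59.GT MeasureTheory

namespace Pool.Agent.Helper59.GM

variable {n N : ℕ} {M U : Set (E N)} {r : E N → E N} {χ : E N → ℝ} {g : E N → Bil N}

private noncomputable def Trans_adjL (S : E n →L[ℝ] E n) : E n →L[ℝ] E n :=
  LinearMap.toContinuousLinearMap
    { toFun := fun q => adj S q
      map_add' := fun p q => adj_add S p q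
      map_smul' := fun a p => adj_smul S a p }

private theorem Trans_adjL_apply (S : E n →L[ℝ] E n) (q : E n) : Trans_adjL S q = adj S q := rfl

/-- The determinant of a map of the form `(b, q) ↦ (θ b, adj (Σ b) q)`. -/
private theorem Trans_det {θ : E n → E n} {Sg : E n → E n →L[ℝ] E n} (hθ : ContDiff ℝ ∞ θ)
    (hS : ContDiff ℝ ∞ Sg) (ζ : Ph n) :
    (fderiv ℝ (fun z : Ph n => ((θ z.1, adj (Sg z.1) z.2) : Ph n)) ζ).det =
      (fderiv ℝ θ ζ.1).det * (Sg ζ.1).det := by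
  have hF : ContDiff ℝ ∞ (fun z : Ph n => adj (Sg z.1) z.2) :=
    contDiff_adj (hS.comp contDiff_fst) contDiff_snd
  obtain ⟨G, hG⟩ : ∃ G, G = fderiv ℝ (fun z : Ph n => adj (Sg z.1) z.2) ζ := ⟨_, rfl⟩
  have hGd : HasFDerivAt (fun z : Ph n => adj (Sg z.1) z.2) G ζ := by
    rw [hG]
    exact (hF.differentiable (by simp) ζ).hasFDerivAt
  have hinr : G.comp (ContinuousLinearMap.inr ℝ (E n) (E n)) = Trans_adjL (Sg ζ.1) := by
    have h1 : HasFDerivAt (fun q : E n => adj (Sg ζ.1) q)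
        (G.comp (ContinuousLinearMap.inr ℝ (E n) (E n))) ζ.2 := by
      have h2 : HasFDerivAt (fun q : E n => (ζ.1, q)) (ContinuousLinearMap.inr ℝ (E n) (E n)) ζ.2 :=
        hasFDerivAt_prodMk_right ζ.1 ζ.2
      exact HasFDerivAt.comp ζ.2 (g := fun z : Ph n => adj (Sg z.1) z.2) hGd h2
    exact h1.unique (Trans_adjL (Sg ζ.1)).hasFDerivAt
  have hθd : HasFDerivAt (fun z : Ph n => θ z.1)
      ((fderiv ℝ θ ζ.1).comp (ContinuousLinearMap.fst ℝ (E n) (E n))) ζ :=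
    ((hθ.differentiable (by simp) ζ.1).hasFDerivAt).comp ζ hasFDerivAt_fst
  have hall := (hθd.prodMk hGd).fderiv
  have hGsplit : G = (G.comp (ContinuousLinearMap.inl ℝ (E n) (E n))).comp
      (ContinuousLinearMap.fst ℝ (E n) (E n)) +
      (Trans_adjL (Sg ζ.1)).comp (ContinuousLinearMap.snd ℝ (E n) (E n)) := by
    rw [← hinr]
    apply ContinuousLinearMap.ext
    intro ξ
    change G ξ = G (ξ.1, 0) + G (0, ξ.2)
    rw [← map_add]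
    congr 1
    simp
  rw [hall, hGsplit, det_block, det_adj (Sg ζ.1) (Trans_adjL (Sg ζ.1))
    (fun q => Trans_adjL_apply _ q)]

theorem trans_vol (h : Sub n M U r χ) {J₁ J₂ : E N →L[ℝ] E n} {ψ₁ ψ₂ : E n → E N} {O₁ O₂ : Set (E n)} {V₁ V₂ : Set (E N)}
    (h1 : Chart M J₁ ψ₁ O₁ V₁) (h2 : Chart M J₂ ψ₂ O₂ V₂) (A : Set (Ph N)) (hA : MeasurableSet A) (hT : A ⊆ TT M r)
    (hV : ∀ z ∈ A, z.1 ∈ V₁ ∧ z.1 ∈ V₂) : volume (kappa J₁ ψ₁ '' A) = volume (kappa J₂ ψ₂ '' A) := by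
  have k1 : ∀ z ∈ A, (kappa J₁ ψ₁ z).1 ∈ O₁ ∧ iota r J₁ ψ₁ (kappa J₁ ψ₁ z) = z := fun z hz =>
    iota_kappa h h1 (hT hz) (hV z hz).1
  have k2 : ∀ z ∈ A, (kappa J₂ ψ₂ z).1 ∈ O₂ ∧ iota r J₂ ψ₂ (kappa J₂ ψ₂ z) = z := fun z hz =>
    iota_kappa h h2 (hT hz) (hV z hz).2
  have inj1 : Set.InjOn (kappa J₁ ψ₁) A := by
    intro z hz z' hz' hzz
    rw [← (k1 z hz).2, ← (k1 z' hz').2, hzz]
  have inj2 : Set.InjOn (kappa J₂ ψ₂) A := by
    intro z hz z' hz' hzz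
    rw [← (k2 z hz).2, ← (k2 z' hz').2, hzz]
  have hSm : MeasurableSet (kappa J₁ ψ₁ '' A) :=
    hA.image_of_continuousOn_injOn (contDiff_kappa h1.smooth).continuous.continuousOn inj1
  obtain ⟨T, hTd⟩ : ∃ T : Ph n → Ph n, T = fun ζ => kappa J₂ ψ₂ (iota r J₁ ψ₁ ζ) := ⟨_, rfl⟩
  have hTk : ∀ z ∈ A, T (kappa J₁ ψ₁ z) = kappa J₂ ψ₂ z := by
    intro z hz
    rw [hTd]
    change kappa J₂ ψ₂ (iota r J₁ ψ₁ (kappa J₁ ψ₁ z)) = kappa J₂ ψ₂ z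
    rw [(k1 z hz).2]
  have himg : T '' (kappa J₁ ψ₁ '' A) = kappa J₂ ψ₂ '' A := by
    rw [Set.image_image]
    exact Set.image_congr hTk
  have hinj : Set.InjOn T (kappa J₁ ψ₁ '' A) := by
    rintro _ ⟨z, hz, rfl⟩ _ ⟨z', hz', rfl⟩ hzz
    rw [hTk z hz, hTk z' hz'] at hzz
    rw [inj2 hz hz' hzz]
  have hTs : ContDiff ℝ ∞ T := by
    rw [hTd]
    exact (contDiff_kappa h2.smooth).comp (contDiff_iota h h1.smooth)
  -- the form of `T`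
  obtain ⟨θ, hθd⟩ : ∃ θ : E n → E n, θ = fun b => J₂ (ψ₁ b) := ⟨_, rfl⟩
  obtain ⟨Sg, hSgd⟩ : ∃ Sg : E n → E n →L[ℝ] E n,
      Sg = fun b => (J₁.comp (fderiv ℝ r (ψ₁ b))).comp (fderiv ℝ ψ₂ (θ b)) := ⟨_, rfl⟩
  have hTform : T = fun z : Ph n => ((θ z.1, adj (Sg z.1) z.2) : Ph n) := by
    rw [hTd]
    funext z
    apply Prod.ext
    · rw [hθd]; rfl
    · rw [hSgd]
      change adj (fderiv ℝ ψ₂ (J₂ (ψ₁ z.1))) (adj (J₁.comp (fderiv ℝ r (ψ₁ z.1))) z.2) =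
        adj ((J₁.comp (fderiv ℝ r (ψ₁ z.1))).comp (fderiv ℝ ψ₂ (θ z.1))) z.2
      rw [hθd]
      exact (adj_comp (J₁.comp (fderiv ℝ r (ψ₁ z.1))) (fderiv ℝ ψ₂ (J₂ (ψ₁ z.1))) z.2).symm
  have hθs : ContDiff ℝ ∞ θ := by
    rw [hθd]
    exact J₂.contDiff.comp h1.smooth
  have hSgs : ContDiff ℝ ∞ Sg := by
    rw [hSgd]
    have a1 : ContDiff ℝ ∞ (fun b => fderiv ℝ r (ψ₁ b)) :=
      (h.smooth.fderiv_right (m := ∞) (by simp)).comp h1.smooth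
    have a2 : ContDiff ℝ ∞ (fun b => fderiv ℝ ψ₂ (θ b)) :=
      (h2.smooth.fderiv_right (m := ∞) (by simp)).comp hθs
    exact (contDiff_const.clm_comp a1).clm_comp a2
  have hdet : ∀ ζ ∈ kappa J₁ ψ₁ '' A, (fderiv ℝ T ζ).det = 1 := by
    rintro _ ⟨z, hz, rfl⟩
    obtain ⟨ζ, hζ⟩ : ∃ ζ, ζ = kappa J₁ ψ₁ z := ⟨_, rfl⟩
    rw [← hζ, hTform, Trans_det hθs hSgs ζ]
    have b1 := k1 z hz
    rw [← hζ] at b1
    have b2 : ψ₁ ζ.1 = z.1 := congrArg Prod.fst b1.2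
    have b3 : ψ₁ ζ.1 ∈ V₂ := by rw [b2]; exact (hV z hz).2
    have b4 : ψ₁ ζ.1 ∈ M := (h1.mem _ b1.1).1
    have b5 := h2.inv _ b4 b3
    have b6 : θ ζ.1 ∈ O₂ := by rw [hθd]; exact b5.1
    have b7 : ψ₂ (θ ζ.1) = ψ₁ ζ.1 := by rw [hθd]; exact b5.2
    have hSgv : Sg ζ.1 = J₁.comp (fderiv ℝ ψ₂ (θ ζ.1)) := by
      rw [hSgd]
      apply ContinuousLinearMap.ext
      intro w
      change J₁ (fderiv ℝ r (ψ₁ ζ.1) (fderiv ℝ ψ₂ (θ ζ.1) w)) = J₁ (fderiv ℝ ψ₂ (θ ζ.1) w)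
      rw [← b7, P_dpsi h h2 b6 w]
    have hcomp : (Sg ζ.1).comp (fderiv ℝ θ ζ.1) = ContinuousLinearMap.id ℝ (E n) := by
      rw [hSgv]
      have c1 : HasFDerivAt θ (fderiv ℝ θ ζ.1) ζ.1 := (hθs.differentiable (by simp) ζ.1).hasFDerivAt
      have c2 : HasFDerivAt ψ₂ (fderiv ℝ ψ₂ (θ ζ.1)) (θ ζ.1) :=
        (h2.smooth.differentiable (by simp) (θ ζ.1)).hasFDerivAt
      have c3 : HasFDerivAt (fun b => ψ₂ (θ b)) ((fderiv ℝ ψ₂ (θ ζ.1)).comp (fderiv ℝ θ ζ.1)) ζ.1 :=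
        c2.comp ζ.1 c1
      have c4 : HasFDerivAt (fun b => J₁ (ψ₂ (θ b)))
          (J₁.comp ((fderiv ℝ ψ₂ (θ ζ.1)).comp (fderiv ℝ θ ζ.1))) ζ.1 :=
        J₁.hasFDerivAt.comp ζ.1 c3
      have c5 : (fun b => J₁ (ψ₂ (θ b))) =ᶠ[𝓝 ζ.1] (fun b => b) := by
        have d1 : ∀ᶠ b in 𝓝 ζ.1, ψ₁ b ∈ V₂ :=
          h1.smooth.continuous.continuousAt.preimage_mem_nhds (h2.openV.mem_nhds b3)
        filter_upwards [h1.openO.mem_nhds b1.1, d1] with b hb hb'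
        have d2 := h1.mem b hb
        have d3 := h2.inv _ d2.1 hb'
        rw [hθd]
        change J₁ (ψ₂ (J₂ (ψ₁ b))) = b
        rw [d3.2, d2.2.2]
      have c6 : HasFDerivAt (fun b => J₁ (ψ₂ (θ b))) (ContinuousLinearMap.id ℝ (E n)) ζ.1 :=
        (hasFDerivAt_id ζ.1).congr_of_eventuallyEq c5
      rw [ContinuousLinearMap.comp_assoc]
      exact c4.unique c6
    have e1 : ((Sg ζ.1).comp (fderiv ℝ θ ζ.1)).det = (Sg ζ.1).det * (fderiv ℝ θ ζ.1).det := by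
      unfold ContinuousLinearMap.det
      exact LinearMap.det_comp _ _
    rw [mul_comm, ← e1, hcomp]
    unfold ContinuousLinearMap.det
    exact LinearMap.det_id
  have hHaar : (volume : Measure (Ph n)).IsAddHaarMeasure := by
    rw [Measure.volume_eq_prod]
    infer_instance
  have hmain := lintegral_abs_det_fderiv_eq_addHaar_image (volume : Measure (Ph n)) hSm
    (f := T) (f' := fun ζ => fderiv ℝ T ζ)
    (fun ζ _ => ((hTs.differentiable (by simp) ζ).hasFDerivAt).hasFDerivWithinAt) hinj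
  rw [himg] at hmain
  rw [← hmain]
  have hone : ∫⁻ ζ in kappa J₁ ψ₁ '' A, ENNReal.ofReal |(fderiv ℝ T ζ).det| =
      ∫⁻ _ in kappa J₁ ψ₁ '' A, 1 := by
    refine setLIntegral_congr_fun hSm fun ζ hζ => ?_
    rw [hdet ζ hζ]
    simp
  rw [hone, setLIntegral_one]

end Pool.Agent.Helper59.GM
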