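import Pool.Agent.Helper59.GM.Defs

/-!
# GM-29 UnifSmall: smooth families of periodic curves which vanish for the parameter `0` are `C ^ 2`-small for small parameters

Proof. `G₁ z = fderiv ℝ F z (1, 0)`, `G₂ z = fderiv ℝ G₁ z (1, 0)`: continuous, `deriv (fun s => F (s, l)) t = G₁ (t, l)`, the second derivative is `G₂ (t, l)` (chain rule). Since `F (s, 0) = 0` for all `s`, `G₁ (t, 0) = G₂ (t, 0) = 0`. The open set of the `z` with `‖F z‖, ‖G₁ z‖, ‖G₂ z‖ < η` contains the compact set `[0, P] × {0}`, so it contains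
`[0, P] × ball 0 lam` (`generalized_tube_lemma`, or uniform continuity on `[0, P] × closedBall 0 1`). For general `t` use the periodicity (`F (t + P, l) = F (t, l)` for all `t`; the derivatives are periodic too): reduce `t` into `[0, P]`.
-/

set_option autoImplicit false
set_option maxSynthPendingDepth 3

open scoped ContDiff InnerProductSpace
open Pool.Agent.Helper59.GT

namespace Pool.Agent.Helper59.GM

private theorem us_deriv {m N : ℕ} {F : ℝ × E m → E N} (hF : ContDiff ℝ ∞ F) (t : ℝ) (l : E m) :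
    HasDerivAt (fun s => F (s, l)) (fderiv ℝ F (t, l) (1, 0)) t := by
  have h1 : HasFDerivAt F (fderiv ℝ F (t, l)) (t, l) :=
    ((hF.differentiable (by simp)) (t, l)).hasFDerivAt
  have h2 : HasDerivAt (fun s : ℝ => ((s, l) : ℝ × E m)) ((1 : ℝ), (0 : E m)) t :=
    (hasDerivAt_id t).prodMk (hasDerivAt_const t l)
  exact h1.comp_hasDerivAt t h2

private theorem us_smooth {m N : ℕ} {F : ℝ × E m → E N} (hF : ContDiff ℝ ∞ F) :
    ContDiff ℝ ∞ (fun z => fderiv ℝ F z (1, 0)) :=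
  (hF.fderiv_right (m := ∞) (by simp)).clm_apply contDiff_const

private theorem us_per {N : ℕ} {f : ℝ → E N} {P : ℝ} (h : ∀ t, f (t + P) = f t) (t : ℝ) :
    deriv f (t + P) = deriv f t := by
  have h1 : (fun x => f (x + P)) = f := funext h
  rw [← deriv_comp_add_const, h1]

theorem unif_small {m N : ℕ} (F : ℝ × E m → E N) (hF : ContDiff ℝ ∞ F) (P : ℝ) (hP : 0 < P)
    (hper : ∀ t l, F (t + P, l) = F (t, l)) (h0 : ∀ t, F (t, 0) = 0) (η : ℝ) (hη : 0 < η) :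
    ∃ lam > 0, ∀ l : E m, ‖l‖ < lam → ∀ t, ‖F (t, l)‖ ≤ η ∧ ‖deriv (fun s => F (s, l)) t‖ ≤ η ∧
      ‖deriv (deriv (fun s => F (s, l))) t‖ ≤ η := by
  obtain ⟨G₁, hG₁⟩ : ∃ G₁ : ℝ × E m → E N, G₁ = fun z => fderiv ℝ F z (1, 0) := ⟨_, rfl⟩
  obtain ⟨G₂, hG₂⟩ : ∃ G₂ : ℝ × E m → E N, G₂ = fun z => fderiv ℝ G₁ z (1, 0) := ⟨_, rfl⟩
  have hs1 : ContDiff ℝ ∞ G₁ := by
    rw [hG₁]
    exact us_smooth hF
  have hs2 : ContDiff ℝ ∞ G₂ := by
    rw [hG₂]
    exact us_smooth hs1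
  have hd1 : ∀ t l, deriv (fun s => F (s, l)) t = G₁ (t, l) := by
    intro t l
    rw [hG₁]
    exact (us_deriv hF t l).deriv
  have hd2 : ∀ t l, deriv (deriv (fun s => F (s, l))) t = G₂ (t, l) := by
    intro t l
    have h1 : deriv (fun s => F (s, l)) = fun s => G₁ (s, l) := funext fun s => hd1 s l
    rw [h1, hG₂]
    exact (us_deriv hs1 t l).deriv
  have hz : (fun s : ℝ => F (s, 0)) = fun _ => 0 := funext h0
  have hz1 : ∀ t, G₁ (t, 0) = 0 := by
    intro t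
    rw [← hd1, hz]
    simp
  have hz2 : ∀ t, G₂ (t, 0) = 0 := by
    intro t
    rw [← hd2, hz]
    simp
  have hopen : IsOpen {z : ℝ × E m | ‖F z‖ < η ∧ ‖G₁ z‖ < η ∧ ‖G₂ z‖ < η} :=
    (isOpen_lt hF.continuous.norm continuous_const).inter
      ((isOpen_lt hs1.continuous.norm continuous_const).inter
        (isOpen_lt hs2.continuous.norm continuous_const))
  have hsub : (Set.Icc (0 : ℝ) P) ×ˢ ({0} : Set (E m)) ⊆
      {z : ℝ × E m | ‖F z‖ < η ∧ ‖G₁ z‖ < η ∧ ‖G₂ z‖ < η} := by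
    rintro ⟨t, l⟩ ⟨-, hl⟩
    have hl' : l = 0 := hl
    subst hl'
    simp only [Set.mem_ofPred_eq, h0, hz1, hz2, norm_zero]
    exact ⟨hη, hη, hη⟩
  obtain ⟨u, v, -, hv, hu', hv', huv⟩ :=
    generalized_tube_lemma isCompact_Icc isCompact_singleton hopen hsub
  obtain ⟨lam, hlam, hball⟩ := Metric.isOpen_iff.1 hv 0 (hv' (Set.mem_singleton _))
  refine ⟨lam, hlam, ?_⟩
  intro l hl t
  have hf : ∀ s, (fun s => F (s, l)) (s + P) = (fun s => F (s, l)) s := fun s => hper s l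
  have hf1 := us_per (f := fun s => F (s, l)) hf
  have hf2 := us_per hf1
  have hperi : Function.Periodic (fun s => (F (s, l), deriv (fun s => F (s, l)) s,
      deriv (deriv (fun s => F (s, l))) s)) P := by
    intro s
    show (F (s + P, l), _, _) = (F (s, l), _, _)
    rw [hper, hf1, hf2]
  obtain ⟨y, hy, hty⟩ := hperi.exists_mem_Ico₀ hP t
  simp only [Prod.mk.injEq] at hty
  have h3 : ((y, l) : ℝ × E m) ∈ {z : ℝ × E m | ‖F z‖ < η ∧ ‖G₁ z‖ < η ∧ ‖G₂ z‖ < η} :=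
    huv ⟨hu' ⟨hy.1, hy.2.le⟩, hball (by simpa using hl)⟩
  rw [hty.1, hty.2.1, hty.2.2, hd1, hd2]
  exact ⟨h3.1.le, h3.2.1.le, h3.2.2.le⟩

end Pool.Agent.Helper59.GM
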