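import Pool.Agent.Helper59.GM.LoopM
import Pool.Agent.Helper59.GM.EmbedM
import Pool.Agent.Helper59.GT.UnitLoop

/-!
# GM-34 UnitLoopM: embedded closed unit speed curves in `M` of small geodesic curvature with `ε`-dense tangent vectors

Proof. As GT-31 `UnitLoop` (the proof can be copied with small changes). `C` from `reparam`, `ε₁` small; `c₀, P` from `exists_loopM` for `ε₁`; `‖c₀'‖, ‖c₀''‖ ≤ R`; `δ` from `EL_unif` for `R + 1`; `c₁` from `exists_embeddedM` for a small `η` (`c₀' ≠ 0`): `‖EL (c₁)‖ ≤ 2 ε₁`, `1/4 ≤ g (c₁', c₁') ≤ 6`, the normalised directions of `c₁` and `c₀` at the same time differ by at most `ε / 2`.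
`θ, L` from `exists_arc` for `σ = √(g (c₁', c₁'))` (periodic since `c₁ (t + P) = c₁ t`), `c = c₁ ∘ θ`: in `M`, smooth, period `L`; unit speed and `‖EL‖ ≤ ε` by `reparam`; embedded: `c s = c t` gives `θ s - θ t = m P`, `θ s = θ (t + m L)`, `s = t + m L`. `EpsM`: `θ` is surjective and `c' = ` normalised direction of `c₁`.
-/

set_option autoImplicit false
set_option maxSynthPendingDepth 3

open scoped ContDiff InnerProductSpace
open Pool.Agent.Helper59.GT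

namespace Pool.Agent.Helper59.GM

variable {n N : ℕ} {M U : Set (E N)} {r : E N → E N} {χ : E N → ℝ} {g : E N → Bil N}

private theorem unitLoopM_bdd_per {F : Type} [NormedAddCommGroup F] {f : ℝ → F} (hf : Continuous f) {P : ℝ}
    (hP : 0 < P) (hper : ∀ t, f (t + P) = f t) : ∃ M : ℝ, 0 ≤ M ∧ ∀ t, ‖f t‖ ≤ M := by
  have hp : Function.Periodic f P := hper
  obtain ⟨M, hM⟩ := (hp.compact_of_continuous hP.ne' hf).isBounded.exists_norm_le
  have h0 : ‖f 0‖ ≤ M := hM _ ⟨0, rfl⟩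
  exact ⟨M, (norm_nonneg _).trans h0, fun t => hM _ ⟨t, rfl⟩⟩

private theorem unitLoopM_deriv_per {n : ℕ} {c : ℝ → E n} {P : ℝ} {w : E n}
    (h : ∀ t, c (t + P) = c t + w) (t : ℝ) : deriv c (t + P) = deriv c t := by
  rw [← deriv_comp_add_const]
  have h1 : (fun x => c (x + P)) = fun x => c x + w := funext h
  rw [h1]
  exact deriv_add_const _

private theorem unitLoopM_inv_sqrt_close {u u' ε : ℝ} (hu : 1 / 4 ≤ u) (hu' : 1 / 4 ≤ u')
    (h : |u - u'| ≤ ε) : |(Real.sqrt u')⁻¹ - (Real.sqrt u)⁻¹| ≤ 4 * ε := by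
  have h1 : 1 / 2 ≤ Real.sqrt u := by
    apply Real.le_sqrt_of_sq_le
    linarith
  have h2 : 1 / 2 ≤ Real.sqrt u' := by
    apply Real.le_sqrt_of_sq_le
    linarith
  have h3 : Real.sqrt u ^ 2 = u := Real.sq_sqrt (by linarith)
  have h4 : Real.sqrt u' ^ 2 = u' := Real.sq_sqrt (by linarith)
  have h5 : 0 < Real.sqrt u := by linarith
  have h6 : 0 < Real.sqrt u' := by linarith
  have h7 : (Real.sqrt u')⁻¹ - (Real.sqrt u)⁻¹ =
      (u - u') / (Real.sqrt u * Real.sqrt u' * (Real.sqrt u + Real.sqrt u')) := by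
    rw [← h3, ← h4]
    rw [Real.sqrt_sq h5.le, Real.sqrt_sq h6.le]
    field_simp
    ring
  have h8 : 1 / 4 ≤ Real.sqrt u * Real.sqrt u' * (Real.sqrt u + Real.sqrt u') := by
    have h9 : 1 / 4 ≤ Real.sqrt u * Real.sqrt u' := by nlinarith
    nlinarith
  rw [h7, abs_div, abs_of_pos (show (0 : ℝ) < Real.sqrt u * Real.sqrt u' *
    (Real.sqrt u + Real.sqrt u') by positivity), div_le_iff₀ (by positivity)]
  have hε : 0 ≤ ε := (abs_nonneg _).trans h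
  nlinarith

theorem exists_unit_loopM (hn : 3 ≤ n) (h : Sub n M U r χ) (hg : Hat ∞ U r g) (ε : ℝ) (hε : 0 < ε) :
    ∃ (c : ℝ → E N) (P : ℝ), 0 < P ∧ ContDiff ℝ ∞ c ∧ (∀ t, c (t + P) = c t) ∧ (∀ t, c t ∈ M) ∧
      (∀ s t, c s = c t → ∃ m : ℤ, s - t = m * P) ∧ UnitSpeed g c ∧
      (∀ t, ‖EL g (c t) (deriv c t) (deriv (deriv c) t)‖ ≤ ε) ∧ EpsM M r g c ε Set.univ := by
  obtain ⟨C, hC, hrep⟩ := reparam hg.metric
  obtain ⟨ε₁, hε₁, hε₁a, hε₁b⟩ : ∃ ε₁ : ℝ, 0 < ε₁ ∧ C * (2 * ε₁) ≤ ε ∧ ε₁ ≤ ε / 4 := by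
    refine ⟨min (ε / (2 * C)) (ε / 4), lt_min (by positivity) (by positivity), ?_,
      min_le_right _ _⟩
    calc C * (2 * min (ε / (2 * C)) (ε / 4)) ≤ C * (2 * (ε / (2 * C))) := by
          gcongr
          exact min_le_left _ _
      _ = ε := by field_simp
  obtain ⟨c₀, P, hP, hc₀, hper₀, hmem₀, hEL₀, hq₀, hden⟩ := exists_loopM (by omega : 2 ≤ n) h hg ε₁ hε₁
  have hc₀1 : ContDiff ℝ ∞ (deriv c₀) := ((contDiff_infty_iff_deriv (𝕜 := ℝ)).1 hc₀).2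
  have hc₀2 : ContDiff ℝ ∞ (deriv (deriv c₀)) := ((contDiff_infty_iff_deriv (𝕜 := ℝ)).1 hc₀1).2
  have hp1 : ∀ t, deriv c₀ (t + P) = deriv c₀ t :=
    unitLoopM_deriv_per (w := 0) (fun t => by rw [hper₀ t, add_zero])
  have hp2 : ∀ t, deriv (deriv c₀) (t + P) = deriv (deriv c₀) t :=
    unitLoopM_deriv_per (w := 0) (fun t => by rw [hp1 t, add_zero])
  obtain ⟨R₁, hR₁, hR₁b⟩ := unitLoopM_bdd_per hc₀1.continuous hP hp1
  obtain ⟨R₂, hR₂, hR₂b⟩ := unitLoopM_bdd_per hc₀2.continuous hP hp2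
  obtain ⟨R, hM0, hMa, hMb⟩ : ∃ R : ℝ, 0 ≤ R ∧ (∀ t, ‖deriv c₀ t‖ ≤ R) ∧
      ∀ t, ‖deriv (deriv c₀) t‖ ≤ R :=
    ⟨max R₁ R₂, hR₁.trans (le_max_left _ _), fun t => (hR₁b t).trans (le_max_left _ _),
      fun t => (hR₂b t).trans (le_max_right _ _)⟩
  obtain ⟨ε₂, hε₂, hε₂a, hε₂b, hε₂c⟩ : ∃ ε₂ : ℝ, 0 < ε₂ ∧ ε₂ ≤ ε₁ ∧ ε₂ ≤ 1 / 4 ∧
      4 * ε₂ * R ≤ ε / 8 := by
    refine ⟨min (min ε₁ (1 / 4)) (ε / (32 * (R + 1))),
      lt_min (lt_min hε₁ (by norm_num)) (by positivity),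
      (min_le_left _ _).trans (min_le_left _ _), (min_le_left _ _).trans (min_le_right _ _), ?_⟩
    calc 4 * min (min ε₁ (1 / 4)) (ε / (32 * (R + 1))) * R
        ≤ 4 * (ε / (32 * (R + 1))) * (R + 1) := by
          gcongr
          · exact min_le_right _ _
          · linarith
      _ = ε / 8 := by field_simp; ring
  obtain ⟨δ, hδ, hunif⟩ := EL_unif hg.metric (R + 1) ε₂ hε₂
  obtain ⟨η, hη, hηa, hηb, hηc⟩ : ∃ η : ℝ, 0 < η ∧ η < δ ∧ η ≤ 1 ∧ η ≤ ε / 8 := by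
    refine ⟨min (min (δ / 2) 1) (ε / 8), lt_min (lt_min (by positivity) one_pos) (by positivity),
      ?_, (min_le_left _ _).trans (min_le_right _ _), min_le_right _ _⟩
    calc min (min (δ / 2) 1) (ε / 8) ≤ δ / 2 := (min_le_left _ _).trans (min_le_left _ _)
      _ < δ := by linarith
  have hreg : ∀ t, deriv c₀ t ≠ 0 := by
    intro t ht
    have h1 := (hq₀ t).1
    rw [ht] at h1
    simp only [map_zero] at h1
    norm_num at h1
  obtain ⟨c₁, hc₁, hper₁, hmem₁, hesm, hemb⟩ := exists_embeddedM h hn c₀ P hP hc₀ hper₀ hmem₀ hreg η hη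
  have hc₁1 : ContDiff ℝ ∞ (deriv c₁) := ((contDiff_infty_iff_deriv (𝕜 := ℝ)).1 hc₁).2
  have hp₁1 : ∀ t, deriv c₁ (t + P) = deriv c₁ t :=
    unitLoopM_deriv_per (w := 0) (fun t => by rw [hper₁ t, add_zero])
  have hclose : ∀ t, ‖EL g (c₁ t) (deriv c₁ t) (deriv (deriv c₁) t) -
      EL g (c₀ t) (deriv c₀ t) (deriv (deriv c₀) t)‖ < ε₂ ∧
      |g (c₁ t) (deriv c₁ t) (deriv c₁ t) - g (c₀ t) (deriv c₀ t) (deriv c₀ t)| < ε₂ := by
    intro t
    obtain ⟨e0, e1, e2⟩ := hesm t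
    apply hunif
    · have h1 := norm_le_norm_add_norm_sub' (deriv c₁ t) (deriv c₀ t)
      linarith [hMa t]
    · have h1 := norm_le_norm_add_norm_sub' (deriv (deriv c₁) t) (deriv (deriv c₀) t)
      linarith [hMb t]
    · linarith [hMa t]
    · linarith [hMb t]
    · linarith
    · linarith
    · linarith
  have hq₁ : ∀ t, 1 / 4 ≤ g (c₁ t) (deriv c₁ t) (deriv c₁ t) ∧
      g (c₁ t) (deriv c₁ t) (deriv c₁ t) ≤ 6 := by
    intro t
    have h1 := abs_lt.1 (hclose t).2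
    have h2 := hq₀ t
    constructor
    · linarith [h1.1, h2.1]
    · linarith [h1.2, h2.2]
  have hEL₁ : ∀ t, ‖EL g (c₁ t) (deriv c₁ t) (deriv (deriv c₁) t)‖ ≤ 2 * ε₁ := by
    intro t
    have h1 := norm_le_norm_add_norm_sub' (EL g (c₁ t) (deriv c₁ t) (deriv (deriv c₁) t))
      (EL g (c₀ t) (deriv c₀ t) (deriv (deriv c₀) t))
    linarith [(hclose t).1, hEL₀ t]
  have hσs : ContDiff ℝ ∞ (fun t => Real.sqrt (g (c₁ t) (deriv c₁ t) (deriv c₁ t))) := by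
    apply ContDiff.sqrt
    · exact ((hg.metric.smooth.comp hc₁).clm_apply hc₁1).clm_apply hc₁1
    · intro t
      have := (hq₁ t).1
      intro h0
      rw [h0] at this
      norm_num at this
  have hσper : ∀ t, (fun t => Real.sqrt (g (c₁ t) (deriv c₁ t) (deriv c₁ t))) (t + P) =
      (fun t => Real.sqrt (g (c₁ t) (deriv c₁ t) (deriv c₁ t))) t := by
    intro t
    simp only [hp₁1 t, hper₁ t]
  have hσpos : ∀ t, 0 < (fun t => Real.sqrt (g (c₁ t) (deriv c₁ t) (deriv c₁ t))) t := by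
    intro t
    exact Real.sqrt_pos.2 (by linarith [(hq₁ t).1])
  obtain ⟨θ, L, hL, hθ, hθ', hθP, hθm, hθs⟩ := exists_arc _ P hP hσs hσper hσpos
  obtain ⟨hunit, hder, hELc⟩ := hrep c₁ θ (2 * ε₁) hc₁ hθ hq₁ hθ' hEL₁
  refine ⟨fun s => c₁ (θ s), L, hL, hc₁.comp hθ, fun t => ?_, fun t => hmem₁ _, ?_, hunit,
    fun t => (hELc t).trans hε₁a, ?_⟩
  · simp only [hθP t, hper₁]
  · intro s t hk
    obtain ⟨m, hm⟩ := hemb (θ s) (θ t) hk
    have hθm' : ∀ (m : ℤ) (t : ℝ), θ (t + m * L) = θ t + m * P := by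
      intro m
      induction m using Int.induction_on with
      | zero => intro t; simp
      | succ m ih =>
        intro t
        have h1 : t + ((m : ℤ) + 1 : ℤ) * L = (t + ((m : ℤ) : ℝ) * L) + L := by push_cast; ring
        rw [h1, hθP, ih]
        push_cast
        ring
      | pred m ih =>
        intro t
        have h1 := hθP (t + (-(m : ℤ) - 1 : ℤ) * L)
        have h2 : t + (-(m : ℤ) - 1 : ℤ) * L + L = t + (-(m : ℤ) : ℤ) * L := by push_cast; ring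
        rw [h2, ih] at h1
        have h3 : θ (t + (-(m : ℤ) - 1 : ℤ) * L) = θ t + (-(m : ℤ) : ℤ) * P - P := by linarith
        rw [h3]
        push_cast
        ring
    refine ⟨m, ?_⟩
    have h1 : θ s = θ (t + m * L) := by rw [hθm']; linarith
    have h2 := hθm.injective h1
    linarith
  · intro x hxM v hvT hv
    obtain ⟨t, h1, h2⟩ := hden x hxM v hvT hv
    obtain ⟨s, rfl⟩ := hθs t
    refine ⟨s, Set.mem_univ _, ?_, ?_⟩
    · have h3 : c₁ (θ s) - x = (c₀ (θ s) - x) + (c₁ (θ s) - c₀ (θ s)) := by abel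
      change ‖c₁ (θ s) - x‖ < ε
      rw [h3]
      calc ‖(c₀ (θ s) - x) + (c₁ (θ s) - c₀ (θ s))‖ ≤ ‖c₀ (θ s) - x‖ + ‖c₁ (θ s) - c₀ (θ s)‖ :=
            norm_add_le _ _
        _ < ε := by linarith [(hesm (θ s)).1]
    · rw [hder s]
      set r₁ := Real.sqrt (g (c₁ (θ s)) (deriv c₁ (θ s)) (deriv c₁ (θ s))) with hr₁
      set r₀ := Real.sqrt (g (c₀ (θ s)) (deriv c₀ (θ s)) (deriv c₀ (θ s))) with hr₀
      have h3 : r₁⁻¹ • deriv c₁ (θ s) - v =
          (r₀⁻¹ • deriv c₀ (θ s) - v) + (r₁⁻¹ • (deriv c₁ (θ s) - deriv c₀ (θ s)) + (r₁⁻¹ - r₀⁻¹) • deriv c₀ (θ s)) := by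
        rw [smul_sub, sub_smul]
        abel
      have h4 : |r₁⁻¹ - r₀⁻¹| ≤ 4 * ε₂ := by
        apply unitLoopM_inv_sqrt_close
        · linarith [(hq₀ (θ s)).1]
        · exact (hq₁ (θ s)).1
        · rw [abs_sub_comm]
          exact (hclose (θ s)).2.le
      have h5 : r₁⁻¹ ≤ 2 := by
        have h6 : 1 / 2 ≤ r₁ := by
          apply Real.le_sqrt_of_sq_le
          linarith [(hq₁ (θ s)).1]
        calc r₁⁻¹ ≤ (1 / 2)⁻¹ := by
              apply inv_anti₀ (by norm_num) h6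
          _ = 2 := by norm_num
      have h6 : 0 ≤ r₁⁻¹ := by positivity
      rw [h3]
      calc ‖(r₀⁻¹ • deriv c₀ (θ s) - v) + (r₁⁻¹ • (deriv c₁ (θ s) - deriv c₀ (θ s)) +
            (r₁⁻¹ - r₀⁻¹) • deriv c₀ (θ s))‖
          ≤ ‖r₀⁻¹ • deriv c₀ (θ s) - v‖ + (‖r₁⁻¹ • (deriv c₁ (θ s) - deriv c₀ (θ s))‖ +
            ‖(r₁⁻¹ - r₀⁻¹) • deriv c₀ (θ s)‖) :=
            (norm_add_le _ _).trans (add_le_add le_rfl (norm_add_le _ _))
        _ = ‖r₀⁻¹ • deriv c₀ (θ s) - v‖ + (r₁⁻¹ * ‖(deriv c₁ (θ s) - deriv c₀ (θ s))‖ +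
            |r₁⁻¹ - r₀⁻¹| * ‖deriv c₀ (θ s)‖) := by
            rw [norm_smul, norm_smul, Real.norm_eq_abs, Real.norm_eq_abs, abs_of_nonneg h6]
        _ ≤ ‖r₀⁻¹ • deriv c₀ (θ s) - v‖ + (2 * η + 4 * ε₂ * R) := by
            gcongr
            · exact (hesm (θ s)).2.1
            · exact hMa _
        _ < ε := by linarith

end Pool.Agent.Helper59.GM
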